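import Pool.Agent.Q30.FJ.Col
import Pool.Agent.Y529.FJ.Ext
import Pool.Agent.Y961.FJ.Perm
import Pool.Agent.Y430.SS.Lf

/-!
# The criterion for extensions and its consequences
-/

set_option autoImplicit false

namespace Q30.FJ

open Pool.Agent.Y110.FJ
open Pool.Agent.Y462.SS (Closed)

theorem hnn : S_HNN := t_hnn (Pool.Agent.Y961.FJ.t_perm Pool.Agent.Y529.FJ.t_ext)

theorem col : S_COL := t_col hnn

variable {C : ∀ (G : Type) [Group G], Prop}

/-- a group all of whose finitely generated subgroups are in the class -/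
theorem of_fg (hC : Closed C) (G : Type) [Group G]
    (h : ∀ s : Finset G, C ↥(Subgroup.closure (s : Set G))) : C G := by
  refine Pool.Agent.Y430.SS.of_directed hC G (Finset G) (fun i j => ?_)
    (fun s => Subgroup.closure (s : Set G)) (fun s t h => Subgroup.closure_mono (by exact_mod_cast h))
    (fun g => ⟨{g}, Subgroup.subset_closure (by simp)⟩) h
  classical
  exact ⟨i ∪ j, Finset.subset_union_left, Finset.subset_union_right⟩

/-- **the criterion** -/
theorem crit : S_CRIT := by
  intro C hC G _ N hNn hQ hreal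
  refine Pool.Agent.Y529.FJ.t_ext C hC G N ?_ hQ ?_
  · -- the kernel is in the class
    refine of_fg hC.base N fun s => ?_
    have hE : ((fun x : N => (x : G)) '' (s : Set N)) ⊆ N := by
      rintro _ ⟨x, _, rfl⟩; exact x.2
    obtain ⟨P, _, f, p, hP, hf, -⟩ := hreal 1 ((fun x : N => (x : G)) '' (s : Set N))
      ((Finset.finite_toSet s).image _) hE
    have hle : ∀ x : N, x ∈ Subgroup.closure (s : Set N) →
        (x : G) ∈ Subgroup.closure (((fun x : N => (x : G)) '' (s : Set N)) ∪
          (fun x => 1 * x * 1⁻¹) '' ((fun x : N => (x : G)) '' (s : Set N))) := by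
      intro x hx
      have h1 : (x : G) ∈ (Subgroup.closure (s : Set N)).map N.subtype := ⟨x, hx, rfl⟩
      rw [MonoidHom.map_closure] at h1
      exact Subgroup.closure_mono Set.subset_union_left h1
    refine hC.base.of_injective _ P (f.comp (MonoidHom.mk' (fun x => ⟨(x.1 : G), hle x.1 x.2⟩) ?_))
      ?_ hP
    · intro x y
      rfl
    · intro x y hxy
      have h1 : (⟨x.1, hle x.1 x.2⟩ : ↥(Subgroup.closure
          (((fun x : N => (x : G)) '' (s : Set N)) ∪
          (fun x => 1 * x * 1⁻¹) '' ((fun x : N => (x : G)) '' (s : Set N))))) =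
          ⟨y.1, hle y.1 y.2⟩ := hf hxy
      have h2 : ((x.1 : N) : G) = ((y.1 : N) : G) := Subtype.mk.inj h1
      exact Subtype.ext (Subtype.ext h2)
  · intro g hg
    exact col C hC G N g hg (fun E hE hEN => hreal g E hE hEN)

/-- the semidirect product with an automorphism which has an inner power -/
theorem sd_inner (hC : Closed C) (N : Type) [Group N] (hN : C N) (σ : MulAut N) (k : ℕ) (n : N)
    (hk : 0 < k) (hσ : σ ^ k = MulAut.conj n) : C (N ⋊[zpowersHom _ σ] Multiplicative ℤ) := by
  obtain ⟨s, hs⟩ : ∃ s : N ⋊[zpowersHom _ σ] Multiplicative ℤ,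
    s = SemidirectProduct.inr (Multiplicative.ofAdd (k : ℤ)) := ⟨_, rfl⟩
  have hsa : ∀ a : N, s * SemidirectProduct.inl a = SemidirectProduct.inl (n * a * n⁻¹) * s := by
    intro a
    have h1 := Pool.Agent.Y961.FJ.conj_inr (zpowersHom (MulAut N) σ) (Multiplicative.ofAdd (k : ℤ)) a
    have h2 : zpowersHom (MulAut N) σ (Multiplicative.ofAdd (k : ℤ)) = MulAut.conj n := by
      rw [zpowersHom_apply]
      show σ ^ (k : ℤ) = _
      rw [zpow_natCast, hσ]
    rw [h2, MulAut.conj_apply, ← hs] at h1
    rw [← h1, inv_mul_cancel_right]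
  obtain ⟨c, hc⟩ : ∃ c : N ⋊[zpowersHom _ σ] Multiplicative ℤ,
    c = s * SemidirectProduct.inl n⁻¹ := ⟨_, rfl⟩
  have hcomm : ∀ a : N, Commute (SemidirectProduct.inl a) c := by
    intro a
    show SemidirectProduct.inl a * c = c * SemidirectProduct.inl a
    rw [hc, mul_assoc, ← map_mul, hsa, ← mul_assoc, hsa, ← mul_assoc, ← map_mul]
    congr 2
    group
  have hcr : ∀ j : ℤ, (c ^ j).right = Multiplicative.ofAdd ((k : ℤ) * j) := by
    intro j
    have h1 : (c ^ j).right = (SemidirectProduct.rightHom c) ^ j := by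
      rw [← map_zpow]; rfl
    rw [h1, hc, map_mul, SemidirectProduct.rightHom_inl, mul_one, hs,
      SemidirectProduct.rightHom_inr, ← ofAdd_zsmul, smul_eq_mul, mul_comm]
  obtain ⟨Φ, hΦ⟩ : ∃ Φ : N × Multiplicative ℤ →* N ⋊[zpowersHom _ σ] Multiplicative ℤ,
      ∀ (a : N) (j : ℤ), Φ (a, Multiplicative.ofAdd j) = SemidirectProduct.inl a * c ^ j := by
    refine ⟨MonoidHom.noncommCoprod SemidirectProduct.inl (zpowersHom _ c) ?_, ?_⟩
    · intro a j
      rw [zpowersHom_apply]
      exact (hcomm a).zpow_right _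
    · intro a j
      rw [MonoidHom.noncommCoprod_apply, zpowersHom_apply]
      rfl
  have hinj : Function.Injective Φ := by
    rw [injective_iff_map_eq_one]
    rintro ⟨a, j⟩ h
    have h1 : Φ (a, Multiplicative.ofAdd (Multiplicative.toAdd j)) = 1 := h
    rw [hΦ] at h1
    have h2 : (SemidirectProduct.inl a * c ^ (Multiplicative.toAdd j) :
        N ⋊[zpowersHom _ σ] Multiplicative ℤ).right = 1 := by rw [h1]; rfl
    rw [SemidirectProduct.mul_right, SemidirectProduct.right_inl, one_mul, hcr] at h2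
    have h3 : (k : ℤ) * Multiplicative.toAdd j = 0 := h2
    have h4 : Multiplicative.toAdd j = 0 := by
      rcases mul_eq_zero.1 h3 with h | h
      · exact absurd (by exact_mod_cast h) hk.ne'
      · exact h
    rw [h4, zpow_zero, mul_one] at h1
    have h5 : a = 1 := SemidirectProduct.inl_injective (h1.trans (map_one _).symm)
    have h6 : j = 1 := h4
    rw [h5, h6]
    rfl
  have hfi : (Subgroup.zpowers (Multiplicative.ofAdd (k : ℤ))).FiniteIndex := by
    constructor
    have h2 : (AddSubgroup.zmultiples (k : ℤ)).index = k := by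
      rw [Int.index_zmultiples]; simp
    have h3 : (Subgroup.zpowers (Multiplicative.ofAdd (k : ℤ))).index =
        (AddSubgroup.zmultiples (k : ℤ)).index := by
      rw [← AddSubgroup.index_toSubgroup]
      congr 1
    rw [h3, h2]
    exact hk.ne'
  have hKi : ((Subgroup.zpowers (Multiplicative.ofAdd (k : ℤ))).comap
      (SemidirectProduct.rightHom : N ⋊[zpowersHom _ σ] Multiplicative ℤ →* _)).FiniteIndex := by
    constructor
    rw [Subgroup.index_comap_of_surjective _ SemidirectProduct.rightHom_surjective]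
    exact hfi.index_ne_zero
  have hle : (Subgroup.zpowers (Multiplicative.ofAdd (k : ℤ))).comap
      (SemidirectProduct.rightHom : N ⋊[zpowersHom _ σ] Multiplicative ℤ →* _) ≤ Φ.range := by
    intro x hx
    obtain ⟨j, hj⟩ := Subgroup.mem_zpowers_iff.1 (Subgroup.mem_comap.1 hx)
    refine ⟨((x * (c ^ j)⁻¹).left, Multiplicative.ofAdd j), ?_⟩
    rw [hΦ]
    have h1 : (x * (c ^ j)⁻¹).right = 1 := by
      have h2 : (x * (c ^ j)⁻¹).right = x.right * ((c ^ j).right)⁻¹ := by
        rw [SemidirectProduct.mul_right, SemidirectProduct.inv_right]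
      rw [h2, hcr, mul_inv_eq_one]
      have h3 : (Multiplicative.ofAdd (k : ℤ)) ^ j = x.right := hj
      rw [← h3, ← ofAdd_zsmul, smul_eq_mul, mul_comm]
    have h4 : SemidirectProduct.inl (x * (c ^ j)⁻¹).left = x * (c ^ j)⁻¹ := by
      apply SemidirectProduct.ext
      · rw [SemidirectProduct.left_inl]
      · rw [SemidirectProduct.right_inl, h1]
    rw [h4, inv_mul_cancel_right]
  have hR : Φ.range.FiniteIndex := Subgroup.finiteIndex_of_le hle
  refine hC.finiteIndex _ Φ.range hR ?_
  exact hC.of_injective _ _ (MonoidHom.ofInjective hinj).symm.toMonoidHom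
    (MonoidHom.ofInjective hinj).symm.injective (hC.prod N _ hN hC.int)

/-- **local form**: on finite subsets the conjugations by `g` agree with automorphisms, of groups in
the class, which have inner powers -/
theorem crit_loc (hC : ClosedE C) (G : Type) [Group G] (N : Subgroup G) [N.Normal]
    (hQ : C (G ⧸ N))
    (h : ∀ (g : G) (E : Set G), E.Finite → E ⊆ N → ∃ (P : Type) (_ : Group P)
      (f : ↥(Subgroup.closure (E ∪ (fun x => g * x * g⁻¹) '' E)) →* P) (σ : MulAut P) (k : ℕ)
      (p : P), C P ∧ Function.Injective f ∧ 0 < k ∧ σ ^ k = MulAut.conj p ∧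
      ∀ x y : ↥(Subgroup.closure (E ∪ (fun x => g * x * g⁻¹) '' E)),
        (x : G) ∈ E → (y : G) = g * x * g⁻¹ → f y = σ (f x)) : C G := by
  refine crit C hC G N hQ ?_
  intro g E hE hEN
  obtain ⟨P, _, f, σ, k, p, hP, hf, hk, hσ, hfσ⟩ := h g E hE hEN
  refine ⟨P ⋊[zpowersHom _ σ] Multiplicative ℤ, inferInstance, SemidirectProduct.inl.comp f,
    SemidirectProduct.inr (Multiplicative.ofAdd (1 : ℤ)), sd_inner hC.base P hP σ k p hk hσ,
    SemidirectProduct.inl_injective.comp hf, ?_⟩
  intro x y hx hy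
  rw [MonoidHom.comp_apply, MonoidHom.comp_apply, Pool.Agent.Y961.FJ.conj_inr, hfσ x y hx hy,
    zpowersHom_apply]
  rfl

/-- kernels on which the group acts locally by automorphisms of finite order modulo inner ones -/
theorem inn : S_INN := by
  intro C hC G _ N _ hN hQ h
  refine crit_loc hC G N hQ ?_
  intro g E hE hEN
  obtain ⟨σ, k, n, hk, hσ, hx⟩ := h g (Subtype.val ⁻¹' E) (hE.preimage Subtype.val_injective.injOn)
  have hle : Subgroup.closure (E ∪ (fun x => g * x * g⁻¹) '' E) ≤ N := by
    rw [Subgroup.closure_le]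
    rintro x (hx | ⟨y, hy, rfl⟩)
    · exact hEN hx
    · exact Subgroup.Normal.conj_mem inferInstance y (hEN hy) g
  refine ⟨N, inferInstance, Subgroup.inclusion hle, σ, k, n, hN, Subgroup.inclusion_injective hle,
    hk, hσ, ?_⟩
  intro x y hxE hy
  apply Subtype.ext
  have h1 : ((σ ⟨(x : G), hEN hxE⟩ : N) : G) = g * (x : G) * g⁻¹ := hx ⟨x, hEN hxE⟩ hxE
  exact hy.trans h1.symm

end Q30.FJ
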