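import Pool.Agent.Q30.FJ.Cox1

/-!
# Coxeter groups: orders of products, parabolic subgroups of infinite rank
-/

set_option autoImplicit false

namespace Q30.FJ

open Pool.Agent.Helper741 Real

section fin

variable {B : Type} [Fintype B] [DecidableEq B] {M : CoxeterMatrix B} {W : Type} [Group W]
  (cs : CoxeterSystem M W)

theorem dvd_of_pow_fin {i j : B} (hij : i ≠ j) (k : ℕ)
    (h : (cs.simple i * cs.simple j) ^ k = 1) : M i j ∣ k := by
  have h1 : ((sg M i * sg M j) ^ k) (ee i) = ee i := by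
    have h2 := congrArg (geo cs) h
    rw [map_pow, map_mul, geo_simple, geo_simple, map_one] at h2
    rw [h2, Module.End.one_apply]
  rw [← prod_alt_eq_pow, prod_alt_ee, if_pos (even_two_mul k)] at h1
  have hA : qs (cc M i j) (2 * k + 1) = 1 := by
    have := congrFun h1 i
    simpa [ee, hij] using this
  have hB : qs (cc M i j) (2 * k) = 0 := by
    have := congrFun h1 j
    simpa [ee, hij.symm, Pi.single_apply] using this
  by_cases h0 : M i j = 0
  · rw [cc_of_zero M h0, qs_of_one] at hB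
    have : k = 0 := by
      have h3 : (2 * k : ℕ) = 0 := by exact_mod_cast hB
      omega
    rw [this]
    exact dvd_zero _
  · have hs := sin_pos_of_ne M hij h0
    have hm : (0 : ℝ) < (M i j : ℝ) := by
      exact_mod_cast Nat.pos_of_ne_zero h0
    have e1 := qs_sin (π / (M i j : ℝ)) (2 * k)
    have e2 := qs_sin (π / (M i j : ℝ)) (2 * k + 1)
    have hB' : qs (cos (π / (M i j : ℝ))) (2 * k) = 0 := hB
    have hA' : qs (cos (π / (M i j : ℝ))) (2 * k + 1) = 1 := hA
    rw [hB', zero_mul] at e1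
    rw [hA', one_mul] at e2
    have e3 : ((2 * k + 1 : ℕ) : ℝ) * (π / (M i j : ℝ)) =
        ((2 * k : ℕ) : ℝ) * (π / (M i j : ℝ)) + π / (M i j : ℝ) := by
      push_cast; ring
    rw [e3, sin_add, ← e1, zero_mul, zero_add] at e2
    have e4 : cos (((2 * k : ℕ) : ℝ) * (π / (M i j : ℝ))) = 1 := by
      have h5 : (cos (((2 * k : ℕ) : ℝ) * (π / (M i j : ℝ))) - 1) * sin (π / (M i j : ℝ)) = 0 := by
        rw [sub_mul, one_mul, ← e2, sub_self]
      have h6 := (mul_eq_zero.mp h5).resolve_right hs.ne'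
      linarith
    rw [Real.cos_eq_one_iff] at e4
    obtain ⟨n, hn⟩ := e4
    have e5 : (n : ℝ) * (M i j : ℝ) = k := by
      have h7 : (n : ℝ) * (2 * π) * (M i j : ℝ) = ((2 * k : ℕ) : ℝ) * π := by
        rw [hn]; field_simp
      push_cast at h7
      have h8 : (2 * π) * ((n : ℝ) * (M i j : ℝ)) = (2 * π) * k := by linarith
      exact mul_left_cancel₀ (by positivity) h8
    have e6 : (n : ℤ) * (M i j : ℤ) = (k : ℤ) := by exact_mod_cast e5
    have e7 : ((M i j : ℕ) : ℤ) ∣ (k : ℤ) := ⟨n, by rw [← e6, mul_comm]⟩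
    exact_mod_cast e7

end fin

section germ

variable {B : Type} (M : CoxeterMatrix B)

/-- the Coxeter group of a finite subset -/
abbrev WF (T : Finset B) : Type := (cmap M (fun x : {x // x ∈ T} => (x : B))
  Subtype.val_injective).Group

/-- the inclusion of the finite Coxeter groups -/
theorem wf_incl {T T' : Finset B} (h : T ⊆ T') : ∃ φ : WF M T →* WF M T',
    ∀ i : {x // x ∈ T}, φ (CoxeterMatrix.simple _ i) = CoxeterMatrix.simple _ ⟨i.1, h i.2⟩ := by
  have hl : (cmap M (fun x : {x // x ∈ T} => (x : B)) Subtype.val_injective).IsLiftable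
      (fun i : {x // x ∈ T} => (CoxeterMatrix.simple (cmap M (fun x : {x // x ∈ T'} => (x : B))
        Subtype.val_injective) ⟨i.1, h i.2⟩ : WF M T')) := by
    intro i j
    exact (cmap M (fun x : {x // x ∈ T'} => (x : B))
        Subtype.val_injective).toCoxeterSystem.simple_mul_simple_pow ⟨i.1, h i.2⟩ ⟨j.1, h j.2⟩
  refine ⟨(cmap M (fun x : {x // x ∈ T} => (x : B)) Subtype.val_injective).toCoxeterSystem.lift
    ⟨_, hl⟩, ?_⟩
  intro i
  exact CoxeterSystem.lift_apply_simple _ hl i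

theorem wf_incl_inj {T T' : Finset B} (h : T ⊆ T') (φ : WF M T →* WF M T')
    (hφ : ∀ i : {x // x ∈ T}, φ (CoxeterMatrix.simple _ i) =
      CoxeterMatrix.simple _ ⟨i.1, h i.2⟩) : Function.Injective φ := by
  classical
  exact par_inj_fin (cmap M (fun x : {x // x ∈ T} => (x : B)) Subtype.val_injective).toCoxeterSystem
    (cmap M (fun x : {x // x ∈ T'} => (x : B)) Subtype.val_injective).toCoxeterSystem
    (fun i => ⟨i.1, h i.2⟩) (fun i j hij => Subtype.ext (by
      have h1 := congrArg Subtype.val hij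
      exact h1))
    (fun i j => rfl) φ hφ

/-- families which are eventually trivial -/
def evn : Subgroup (∀ T : Finset B, WF M T) where
  carrier := {f | ∃ T₀ : Finset B, ∀ T, T₀ ⊆ T → f T = 1}
  one_mem' := ⟨∅, fun _ _ => rfl⟩
  mul_mem' := by
    classical
    rintro f g ⟨T₁, h₁⟩ ⟨T₂, h₂⟩
    refine ⟨T₁ ∪ T₂, fun T hT => ?_⟩
    rw [Pi.mul_apply, h₁ T (Finset.union_subset_left hT), h₂ T (Finset.union_subset_right hT),
      mul_one]
  inv_mem' := by
    rintro f ⟨T₁, h₁⟩
    refine ⟨T₁, fun T hT => ?_⟩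
    rw [Pi.inv_apply, h₁ T hT, inv_one]

instance : (evn M).Normal := by
  constructor
  rintro f ⟨T₁, h₁⟩ g
  refine ⟨T₁, fun T hT => ?_⟩
  rw [Pi.mul_apply, Pi.mul_apply, Pi.inv_apply, h₁ T hT, mul_one, mul_inv_cancel]

end germ

/-- the parabolic subgroups of a Coxeter group of arbitrary rank -/
theorem par_inj {B : Type} {M : CoxeterMatrix B} {W : Type} [Group W] (cs : CoxeterSystem M W)
    (T₀ : Finset B) (J : WF M T₀ →* W)
    (hJ : ∀ i : {x // x ∈ T₀}, J (CoxeterMatrix.simple _ i) = cs.simple i) :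
    Function.Injective J := by
  classical
  -- the homomorphism to the germs
  have hl : M.IsLiftable (fun i : B => (QuotientGroup.mk (fun T : Finset B =>
      if h : i ∈ T then (CoxeterMatrix.simple (cmap M (fun x : {x // x ∈ T} => (x : B))
        Subtype.val_injective) ⟨i, h⟩ : WF M T) else 1) : (∀ T : Finset B, WF M T) ⧸ evn M)) := by
    intro i j
    have h1 : ∀ f g : (∀ T : Finset B, WF M T), ((QuotientGroup.mk f :
        (∀ T : Finset B, WF M T) ⧸ evn M) * QuotientGroup.mk g) ^ M i j =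
        QuotientGroup.mk ((f * g) ^ M i j) := fun f g => rfl
    rw [h1, QuotientGroup.eq_one_iff]
    refine ⟨{i, j}, fun T hT => ?_⟩
    have hi : i ∈ T := hT (by simp)
    have hj : j ∈ T := hT (by simp)
    rw [Pi.pow_apply, Pi.mul_apply, dif_pos hi, dif_pos hj]
    exact (cmap M (fun x : {x // x ∈ T} => (x : B))
        Subtype.val_injective).toCoxeterSystem.simple_mul_simple_pow ⟨i, hi⟩ ⟨j, hj⟩
  let Φ : W →* (∀ T : Finset B, WF M T) ⧸ evn M := cs.lift ⟨_, hl⟩
  have hΦ : ∀ i, Φ (cs.simple i) = QuotientGroup.mk (fun T : Finset B =>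
      if h : i ∈ T then (CoxeterMatrix.simple (cmap M (fun x : {x // x ∈ T} => (x : B))
        Subtype.val_injective) ⟨i, h⟩ : WF M T) else 1) := fun i =>
    CoxeterSystem.lift_apply_simple cs hl i
  -- the inclusions
  have hex : ∀ T : Finset B, ∃ φ : WF M T₀ →* WF M T, ∀ h : T₀ ⊆ T,
      ∀ i : {x // x ∈ T₀}, φ (CoxeterMatrix.simple _ i) = CoxeterMatrix.simple _ ⟨i.1, h i.2⟩ := by
    intro T
    by_cases h : T₀ ⊆ T
    · obtain ⟨φ, hφ⟩ := wf_incl M h
      exact ⟨φ, fun _ => hφ⟩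
    · exact ⟨1, fun h' => absurd h' h⟩
  choose φ hφ using hex
  let Ψ : WF M T₀ →* (∀ T : Finset B, WF M T) ⧸ evn M :=
    (QuotientGroup.mk' (evn M)).comp (MonoidHom.pi φ)
  have hΨ : Φ.comp J = Ψ := by
    apply (cmap M (fun x : {x // x ∈ T₀} => (x : B))
      Subtype.val_injective).toCoxeterSystem.ext_simple
    intro i
    show Φ (J (CoxeterMatrix.simple _ i)) = QuotientGroup.mk (fun T => φ T (CoxeterMatrix.simple _ i))
    rw [hJ, hΦ]
    apply (QuotientGroup.eq (s := evn M)).2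
    refine ⟨T₀, fun T hT => ?_⟩
    rw [Pi.mul_apply, Pi.inv_apply, hφ T hT i, dif_pos (hT i.2), inv_mul_cancel]
  rw [injective_iff_map_eq_one]
  intro w hw
  have h1 : Ψ w = 1 := by
    rw [← hΨ, MonoidHom.comp_apply, hw, map_one]
  have h2 : (fun T => φ T w) ∈ evn M := (QuotientGroup.eq_one_iff _).1 h1
  obtain ⟨T₁, hT₁⟩ := h2
  have h3 := hT₁ (T₀ ∪ T₁) Finset.subset_union_right
  have h4 := wf_incl_inj M (Finset.subset_union_left : T₀ ⊆ T₀ ∪ T₁) (φ (T₀ ∪ T₁))
    (hφ (T₀ ∪ T₁) Finset.subset_union_left)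
  exact h4 (h3.trans (map_one _).symm)

end Q30.FJ
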