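import Pool.Agent.Q30.FJ.Eppa
import Mathlib.GroupTheory.Coxeter.Basic

/-!
# Partial isomorphisms of finite Coxeter matrices extend to automorphisms of finite Coxeter matrices
-/

set_option autoImplicit false

namespace Q30.FJ

/-- the label of a residue -/
def lab (n : ℕ) (v : ZMod n) : ℕ := if v.val = 1 then 0 else v.val

theorem eppa_cox (S : Type) [Finite S] (M : CoxeterMatrix S) (D : Set S) (f : D → S)
    (hf : Function.Injective f) (hM : ∀ x y : D, M (f x) (f y) = M x y) :
    ∃ (T : Type) (_ : Finite T) (M' : CoxeterMatrix T) (ι : S → T) (τ : Equiv.Perm T),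
      Function.Injective ι ∧ (∀ x y, M' (ι x) (ι y) = M x y) ∧
      (∀ x y, M' (τ x) (τ y) = M' x y) ∧ (∀ x : D, τ (ι x) = ι (f x)) ∧
      ∀ b, (∀ x y, M x y ≤ b) → ∀ x y, M' x y ≤ b := by
  classical
  obtain ⟨m, ⟨e⟩⟩ := Finite.exists_equiv_fin S
  obtain ⟨π, hπ⟩ := pinj D f hf
  -- a bound for the labels
  obtain ⟨b, hb, hbm⟩ : ∃ b : ℕ, (∀ x y, M x y ≤ b) ∧ ∀ b', (∀ x y, M x y ≤ b') → b ≤ b' := by
    have hfin : (Set.range (fun p : S × S => M p.1 p.2)).Finite := Set.finite_range _
    obtain ⟨b, hb⟩ := hfin.bddAbove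
    have hex : ∃ b, ∀ x y, M x y ≤ b := ⟨b, fun x y => hb ⟨(x, y), rfl⟩⟩
    exact ⟨Nat.find hex, Nat.find_spec hex, fun b' hb' => Nat.find_min' hex hb'⟩
  obtain ⟨n, hn⟩ : ∃ n : ℕ, n = b + 1 := ⟨_, rfl⟩
  have : NeZero n := ⟨by omega⟩
  have hval : ∀ x y, ((M x y : ZMod n)).val = M x y := by
    intro x y
    rw [ZMod.val_natCast]
    exact Nat.mod_eq_of_lt (by have := hb x y; omega)
  have hlab : ∀ x y, x ≠ y → lab n ((M x y : ZMod n)) = M x y := by
    intro x y hxy
    unfold lab
    rw [hval, if_neg (M.off_diagonal x y hxy)]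
  -- the valuations
  obtain ⟨χ, hχ⟩ : ∃ χ : S → S → ZMod n, ∀ x y, χ x y = if e y < e x then (M x y : ZMod n) else 0 :=
    ⟨_, fun _ _ => rfl⟩
  have hχe : ∀ x y, x ≠ y → χ x y + χ y x = (M x y : ZMod n) := by
    intro x y hxy
    have hne : e x ≠ e y := fun h => hxy (e.injective h)
    rw [hχ, hχ]
    rcases lt_or_gt_of_ne hne with h | h
    · rw [if_neg (not_lt_of_gt h), if_pos h, zero_add, M.symmetric]
    · rw [if_pos h, if_neg (not_lt_of_gt h), add_zero]
  -- the flips
  obtain ⟨F, hF1, hF2, hF3⟩ : ∃ F : S → S → ZMod n,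
      (∀ x (_ : x ∈ D) y, F x y = χ (π x) (π y) - χ x y) ∧
      (∀ x y, x ∉ D → y ∈ D → F x y = -(χ (π y) (π x) - χ y x)) ∧
      ∀ x y, x ∉ D → y ∉ D → F x y = 0 := by
    refine ⟨fun x y => if x ∈ D then χ (π x) (π y) - χ x y else
      if y ∈ D then -(χ (π y) (π x) - χ y x) else 0, ?_, ?_, ?_⟩
    · intro x hx y
      simp only [if_pos hx]
    · intro x y hx hy
      simp only [if_neg hx, if_pos hy]
    · intro x y hx hy
      simp only [if_neg hx, if_neg hy]
  have hFs : ∀ x y, x ≠ y → F x y + F y x = 0 := by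
    intro x y hxy
    by_cases hx : x ∈ D
    · by_cases hy : y ∈ D
      · rw [hF1 x hx, hF1 y hy]
        have h1 := hχe x y hxy
        have h2 := hχe (π x) (π y) (fun h => hxy (π.injective h))
        have h3 : M (π x) (π y) = M x y := by
          rw [hπ ⟨x, hx⟩, hπ ⟨y, hy⟩]
          exact hM ⟨x, hx⟩ ⟨y, hy⟩
        rw [h3, ← h1] at h2
        linear_combination h2
      · rw [hF1 x hx, hF2 y x hy hx]
        ring
    · by_cases hy : y ∈ D
      · rw [hF1 y hy, hF2 x y hx hy]
        ring
      · rw [hF3 x y hx hy, hF3 y x hy hx, add_zero]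
  -- the matrix
  let M' : CoxeterMatrix (S × (S → ZMod n)) :=
    { M := fun p q => if p.1 = q.1 then (if p = q then 1 else 0) else lab n (p.2 q.1 + q.2 p.1)
      isSymm := by
        ext p q
        show (if q.1 = p.1 then (if q = p then 1 else 0) else lab n (q.2 p.1 + p.2 q.1)) =
          if p.1 = q.1 then (if p = q then 1 else 0) else lab n (p.2 q.1 + q.2 p.1)
        rw [add_comm (q.2 p.1)]
        simp only [eq_comm]
      diagonal := fun p => by simp
      off_diagonal := fun p q hpq => by
        show (if p.1 = q.1 then (if p = q then 1 else 0) else lab n (p.2 q.1 + q.2 p.1)) ≠ 1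
        split_ifs with h1
        · exact zero_ne_one
        · unfold lab
          split_ifs with h2
          · exact zero_ne_one
          · exact h2 }
  have hM' : ∀ p q, M' p q = if p.1 = q.1 then (if p = q then 1 else 0) else
      lab n (p.2 q.1 + q.2 p.1) := fun _ _ => rfl
  let τ : Equiv.Perm (S × (S → ZMod n)) :=
    { toFun := fun p => (π p.1, fun z => p.2 (π.symm z) + F p.1 (π.symm z))
      invFun := fun p => (π.symm p.1, fun y => p.2 (π y) - F (π.symm p.1) y)
      left_inv := by
        rintro ⟨x, c⟩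
        apply Prod.ext
        · simp
        · funext y
          simp
      right_inv := by
        rintro ⟨x, c⟩
        apply Prod.ext
        · simp
        · funext y
          simp }
  have hτ : ∀ p, τ p = (π p.1, fun z => p.2 (π.symm z) + F p.1 (π.symm z)) := fun _ => rfl
  refine ⟨S × (S → ZMod n), inferInstance, M', fun x => (x, χ x), τ, ?_, ?_, ?_, ?_, ?_⟩
  · intro x y h
    exact congrArg Prod.fst h
  · intro x y
    rw [hM']
    by_cases h : x = y
    · subst h
      simp
    · rw [if_neg h]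
      show lab n (χ x y + χ y x) = M x y
      rw [hχe x y h, hlab x y h]
  · rintro ⟨x, c⟩ ⟨y, d⟩
    rw [hM', hM']
    by_cases h : x = y
    · subst h
      have h5 : (τ (x, c) = τ (x, d)) ↔ ((x, c) = (x, d)) := τ.injective.eq_iff
      have h7 : (τ (x, c)).1 = (τ (x, d)).1 := rfl
      by_cases h6 : (x, c) = (x, d)
      · rw [if_pos h7, if_pos (h5.2 h6), if_pos rfl, if_pos h6]
      · rw [if_pos h7, if_neg (fun h => h6 (h5.1 h)), if_pos rfl, if_neg h6]
    · have h1 : π x ≠ π y := fun h' => h (π.injective h')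
      rw [hτ, hτ]
      show (if π x = π y then _ else lab n ((c (π.symm (π y)) + F x (π.symm (π y))) +
        (d (π.symm (π x)) + F y (π.symm (π x))))) = if x = y then _ else lab n (c y + d x)
      rw [if_neg h1, if_neg h, π.symm_apply_apply, π.symm_apply_apply]
      have h2 : c y + F x y + (d x + F y x) = c y + d x := by
        linear_combination hFs x y h
      rw [h2]
  · intro x
    rw [hτ]
    apply Prod.ext
    · exact hπ x
    · funext z
      show χ x (π.symm z) + F x (π.symm z) = χ (f x) z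
      rw [hF1 x x.2, π.apply_symm_apply, hπ x]
      ring
  · intro b' hb' p q
    refine le_trans ?_ (hbm b' hb')
    rw [hM']
    split_ifs with h1 h2
    · have := hb p.1 p.1
      rwa [M.diagonal] at this
    · exact Nat.zero_le _
    · unfold lab
      split_ifs with h3
      · exact Nat.zero_le _
      · have := ZMod.val_lt (p.2 q.1 + q.2 p.1)
        omega

end Q30.FJ
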