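import Pool.Agent.Q30.FJ.Cons
import Pool.Agent.Q30.FJ.Cox2
import Pool.Agent.Q30.FJ.Cox3

/-!
# Extensions whose kernel is a Coxeter group of arbitrary rank
-/

set_option autoImplicit false

namespace Q30.FJ

open Pool.Agent.Y110.FJ
open Pool.Agent.Y462.SS (Closed)

section lemmas

variable {B : Type} {M : CoxeterMatrix B} {W : Type} [Group W] (cs : CoxeterSystem M W)

/-- the homomorphism from the Coxeter group of a finite subset -/
theorem wf_hom (T : Finset B) : ∃ J : WF M T →* W,
    ∀ i : {x // x ∈ T}, J (CoxeterMatrix.simple _ i) = cs.simple i := by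
  have hl : (cmap M (fun x : {x // x ∈ T} => (x : B)) Subtype.val_injective).IsLiftable
      (fun i : {x // x ∈ T} => cs.simple i) := by
    intro i j
    exact cs.simple_mul_simple_pow _ _
  exact ⟨(cmap M (fun x : {x // x ∈ T} => (x : B)) Subtype.val_injective).toCoxeterSystem.lift
    ⟨_, hl⟩, fun i => CoxeterSystem.lift_apply_simple _ hl i⟩

theorem wf_supp (w : W) : ∃ F : Finset B, ∀ T : Finset B, F ⊆ T → ∀ J : WF M T →* W,
    (∀ i : {x // x ∈ T}, J (CoxeterMatrix.simple _ i) = cs.simple i) → w ∈ J.range := by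
  classical
  induction w using cs.simple_induction with
  | simple i => exact ⟨{i}, fun T hT J hJ => ⟨CoxeterMatrix.simple _ ⟨i, hT (by simp)⟩, hJ _⟩⟩
  | one => exact ⟨∅, fun T _ J _ => Subgroup.one_mem _⟩
  | mul w w' hw hw' =>
    obtain ⟨F, hF⟩ := hw
    obtain ⟨F', hF'⟩ := hw'
    exact ⟨F ∪ F', fun T hT J hJ => Subgroup.mul_mem _ (hF T (Finset.union_subset_left hT) J hJ)
      (hF' T (Finset.union_subset_right hT) J hJ)⟩

include cs in
theorem dvd_of_pow {i j : B} (hij : i ≠ j) (k : ℕ)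
    (h : (cs.simple i * cs.simple j) ^ k = 1) : M i j ∣ k := by
  classical
  obtain ⟨J, hJ⟩ := wf_hom cs {i, j}
  have hi : i ∈ ({i, j} : Finset B) := by simp
  have hj : j ∈ ({i, j} : Finset B) := by simp
  have h1 := par_inj cs {i, j} J hJ
  have h2 : (CoxeterMatrix.simple (cmap M (fun x : {x // x ∈ ({i, j} : Finset B)} => (x : B))
      Subtype.val_injective) ⟨i, hi⟩ * CoxeterMatrix.simple _ ⟨j, hj⟩ : WF M {i, j}) ^ k = 1 := by
    apply h1
    rw [map_pow, map_mul, hJ, hJ, map_one]
    exact h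
  exact dvd_of_pow_fin (cmap M (fun x : {x // x ∈ ({i, j} : Finset B)} => (x : B))
      Subtype.val_injective).toCoxeterSystem (i := ⟨i, hi⟩) (j := ⟨j, hj⟩)
      (fun h => hij (congrArg Subtype.val h)) k h2

include cs in
theorem cox_inj {i j : B} (h : cs.simple i = cs.simple j) : i = j := by
  by_contra hij
  have h1 := dvd_of_pow cs hij 1 (by rw [pow_one, h, cs.simple_mul_simple_self])
  exact M.off_diagonal i j hij (Nat.dvd_one.1 h1)

/-- automorphisms of the matrix give automorphisms of the group -/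
theorem cox_aut (τ : Equiv.Perm B) (hτ : ∀ x y, M (τ x) (τ y) = M x y) :
    ∃ σ : MulAut M.Group, ∀ i, σ (M.simple i) = M.simple (τ i) := by
  have hl : M.IsLiftable (fun i => M.simple (τ i)) := by
    intro i j
    have h1 := M.toCoxeterSystem.simple_mul_simple_pow (τ i) (τ j)
    rw [hτ] at h1
    exact h1
  have hl' : M.IsLiftable (fun i => M.simple (τ.symm i)) := by
    intro i j
    have h1 := M.toCoxeterSystem.simple_mul_simple_pow (τ.symm i) (τ.symm j)
    rw [← hτ, τ.apply_symm_apply, τ.apply_symm_apply] at h1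
    exact h1
  have hf : ∀ i, M.toCoxeterSystem.lift ⟨_, hl⟩ (M.simple i) = M.simple (τ i) := fun i =>
    CoxeterSystem.lift_apply_simple M.toCoxeterSystem hl i
  have hg : ∀ i, M.toCoxeterSystem.lift ⟨_, hl'⟩ (M.simple i) = M.simple (τ.symm i) := fun i =>
    CoxeterSystem.lift_apply_simple M.toCoxeterSystem hl' i
  refine ⟨MonoidHom.toMulEquiv (M.toCoxeterSystem.lift ⟨_, hl⟩) (M.toCoxeterSystem.lift ⟨_, hl'⟩)
    ?_ ?_, hf⟩
  · apply M.toCoxeterSystem.ext_simple
    intro i
    show M.toCoxeterSystem.lift ⟨_, hl'⟩ (M.toCoxeterSystem.lift ⟨_, hl⟩ (M.simple i)) = M.simple i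
    rw [hf, hg, τ.symm_apply_apply]
  · apply M.toCoxeterSystem.ext_simple
    intro i
    show M.toCoxeterSystem.lift ⟨_, hl⟩ (M.toCoxeterSystem.lift ⟨_, hl'⟩ (M.simple i)) = M.simple i
    rw [hg, hf, τ.apply_symm_apply]

end lemmas

/-- homomorphisms from a Coxeter group are determined by the simple reflections -/
theorem cox_ext_simple {A : Type} (M : CoxeterMatrix A) {H : Type} [Group H] {f g : M.Group →* H}
    (h : ∀ i, f (M.simple i) = g (M.simple i)) : f = g :=
  M.toCoxeterSystem.ext_simple h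

/-- homomorphisms from the group of order two -/
theorem two_lift (t : Multiplicative (ZMod 2)) (ht : t * t = 1) (hZ : ∀ z, z = 1 ∨ z = t)
    (ht1 : t ≠ 1) {H : Type} [Group H] (h : H) (hh : h * h = 1) :
    ∃ φ : Multiplicative (ZMod 2) →* H, φ t = h := by
  classical
  refine ⟨{ toFun := fun z => if z = 1 then 1 else h
            map_one' := if_pos rfl
            map_mul' := ?_ }, if_neg ht1⟩
  intro a b
  rcases hZ a with rfl | rfl
  · rw [one_mul, if_pos rfl, one_mul]
  · rcases hZ b with rfl | rfl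
    · rw [mul_one, if_pos rfl, mul_one]
    · rw [ht, if_pos rfl, if_neg ht1, hh]

/-- right-angled Coxeter groups -/
theorem racg_mem {C : ∀ (G : Type) [Group G], Prop} (hC : ClosedE C) (A : Type)
    (M : CoxeterMatrix A) (hM : ∀ i j, M i j ≤ 2) : C M.Group := by
  classical
  let Λ : SimpleGraph A :=
    { Adj := fun i j => M i j = 2
      symm := ⟨fun i j h => by rw [M.symmetric]; exact h⟩
      loopless := ⟨fun i h => by rw [M.diagonal] at h; exact absurd h (by norm_num)⟩ }
  obtain ⟨t, ht, hZ, ht1⟩ : ∃ t : Multiplicative (ZMod 2), t * t = 1 ∧ (∀ z, z = 1 ∨ z = t) ∧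
    t ≠ 1 := ⟨Multiplicative.ofAdd 1, by decide, by decide, by decide⟩
  have hl : M.IsLiftable (fun i => (GrP.of Λ (fun _ => Multiplicative (ZMod 2)) i t :
      GrP Λ (fun _ => Multiplicative (ZMod 2)))) := by
    intro i j
    by_cases hij : i = j
    · subst hij
      rw [M.diagonal, pow_one, ← map_mul, ht, map_one]
    · have h1 := M.off_diagonal i j hij
      have h2 := hM i j
      have h3 : M i j = 0 ∨ M i j = 2 := by omega
      rcases h3 with h3 | h3
      · rw [h3, pow_zero]
      · have h4 : Λ.Adj i j := h3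
        rw [h3, pow_two]
        have h5 := gcomm (Λ := Λ) (A := fun _ => Multiplicative (ZMod 2)) h4 t t
        obtain ⟨a, ha⟩ : ∃ a, a = GrP.of Λ (fun _ => Multiplicative (ZMod 2)) i t := ⟨_, rfl⟩
        obtain ⟨b, hb⟩ : ∃ b, b = GrP.of Λ (fun _ => Multiplicative (ZMod 2)) j t := ⟨_, rfl⟩
        have ha2 : a * a = 1 := by rw [ha, ← map_mul, ht, map_one]
        have hb2 : b * b = 1 := by rw [hb, ← map_mul, ht, map_one]
        rw [← ha, ← hb] at h5
        beta_reduce
        rw [← ha, ← hb]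
        calc a * b * (a * b) = a * (b * a) * b := by simp only [mul_assoc]
          _ = (a * a) * (b * b) := by rw [← h5]; simp only [mul_assoc]
          _ = 1 := by rw [ha2, hb2, mul_one]
  have hsq : ∀ i, M.simple i * M.simple i = 1 := fun i =>
    M.toCoxeterSystem.simple_mul_simple_self i
  -- the homomorphisms from the vertex groups
  choose φ hφt using fun i => two_lift t ht hZ ht1 (M.simple i) (hsq i)
  have hcomm : ∀ v w, Λ.Adj v w → ∀ (a b : Multiplicative (ZMod 2)),
      φ v a * φ w b = φ w b * φ v a := by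
    intro v w h a b
    rcases hZ a with rfl | rfl
    · rw [map_one, one_mul, mul_one]
    · rcases hZ b with rfl | rfl
      · rw [map_one, one_mul, mul_one]
      · rw [hφt, hφt]
        have h1 : (M.simple v * M.simple w) ^ M v w = 1 :=
          M.toCoxeterSystem.simple_mul_simple_pow v w
        have h2 : M v w = 2 := h
        rw [h2, pow_two] at h1
        have h5 : M.simple v * M.simple w = (M.simple v * M.simple w)⁻¹ :=
          eq_inv_of_mul_eq_one_left h1
        rw [h5, mul_inv_rev, inv_eq_of_mul_eq_one_left (hsq v), inv_eq_of_mul_eq_one_left (hsq w)]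
  let f : M.Group →* GrP Λ (fun _ => Multiplicative (ZMod 2)) := M.toCoxeterSystem.lift ⟨_, hl⟩
  let g : GrP Λ (fun _ => Multiplicative (ZMod 2)) →* M.Group :=
    glift (A := fun _ => Multiplicative (ZMod 2)) φ hcomm
  have hgf : g.comp f = MonoidHom.id _ := by
    apply cox_ext_simple
    intro i
    have h1 : f (M.simple i) = GrP.of Λ (fun _ => Multiplicative (ZMod 2)) i t :=
      CoxeterSystem.lift_apply_simple M.toCoxeterSystem hl i
    rw [MonoidHom.comp_apply, h1, MonoidHom.id_apply]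
    exact (glift_of (A := fun _ => Multiplicative (ZMod 2)) φ hcomm i t).trans (hφt i)
  refine hC.base.of_injective _ _ f ?_ (gp C hC A Λ (fun _ => Multiplicative (ZMod 2)) (fun _ =>
    Pool.Agent.Y430.SS.of_finite hC.base _ (inferInstanceAs (Finite (Multiplicative (ZMod 2))))))
  intro x y hxy
  have h1 := congrArg g hxy
  have h2 : ∀ z, g (f z) = z := fun z => DFunLike.congr_fun hgf z
  rwa [h2, h2] at h1

/-- **Coxeter kernels** -/
theorem cox_kernel {C : ∀ (G : Type) [Group G], Prop} (hC : ClosedE C)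
    (G : Type) [Group G] (N : Subgroup G) [N.Normal] (hQ : C (G ⧸ N)) (B : Type)
    (M : CoxeterMatrix B) (cs : CoxeterSystem M N)
    (hcox : ∀ (A : Type) (_ : Finite A) (M' : CoxeterMatrix A),
      (∀ b, (∀ x y, M x y ≤ b) → ∀ x y, M' x y ≤ b) → C M'.Group)
    (h : ∀ (g : G) (F : Set B), F.Finite → ∃ n : N, ∀ i ∈ F, ∃ j : B,
      ((n : G) * g) * (cs.simple i : G) * ((n : G) * g)⁻¹ = cs.simple j) : C G := by
  classical
  refine crit_loc hC G N hQ ?_
  intro g E hE hEN
  choose supp hsupp using wf_supp cs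
  -- the support of E
  obtain ⟨F, hF⟩ : ∃ F : Finset B, ∀ x (hx : x ∈ E), supp ⟨x, hEN hx⟩ ⊆ F := by
    have := hE.fintype
    refine ⟨Finset.univ.biUnion (fun x : E => supp ⟨x, hEN x.2⟩), fun x hx => ?_⟩
    exact Finset.subset_biUnion_of_mem (fun x : E => supp ⟨x, hEN x.2⟩) (Finset.mem_univ ⟨x, hx⟩)
  obtain ⟨n, hn⟩ := h g (F : Set B) F.finite_toSet
  have hn' : ∀ i : {x // x ∈ F}, ∃ j : B,
      ((n : G) * g) * (cs.simple i : G) * ((n : G) * g)⁻¹ = cs.simple j :=
    fun i => hn i (by exact_mod_cast i.2)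
  choose f hf using hn'
  have hfi : Function.Injective f := by
    intro i j hij
    have h1 := hf i
    rw [hij, ← hf j] at h1
    have h2 : (cs.simple (i : B) : G) = cs.simple (j : B) :=
      mul_left_cancel (mul_right_cancel h1)
    exact Subtype.ext (cox_inj cs (Subtype.ext h2))
  have hfpow : ∀ (i j : {x // x ∈ F}) (k : ℕ),
      (cs.simple (f i) * cs.simple (f j)) ^ k = 1 ↔ (cs.simple i * cs.simple j) ^ k = 1 := by
    intro i j k
    have key : ∀ z : N, z = 1 ↔ (z : G) = 1 := fun z =>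
      ⟨fun h => by rw [h]; rfl, fun h => Subtype.ext h⟩
    rw [key, key]
    rw [Subgroup.coe_pow, Subgroup.coe_mul, Subgroup.coe_pow, Subgroup.coe_mul, ← hf i, ← hf j]
    have h1 : ((n : G) * g) * (cs.simple (i : B) : G) * ((n : G) * g)⁻¹ *
        (((n : G) * g) * (cs.simple (j : B) : G) * ((n : G) * g)⁻¹) =
        ((n : G) * g) * ((cs.simple (i : B) : G) * (cs.simple (j : B) : G)) * ((n : G) * g)⁻¹ := by
      group
    rw [h1, conj_pow]
    constructor
    · intro h2
      have h3 := congrArg (fun z => ((n : G) * g)⁻¹ * z * ((n : G) * g)) h2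
      simpa [mul_assoc] using h3
    · intro h2
      rw [h2, mul_one, mul_inv_cancel]
  have hfM : ∀ i j : {x // x ∈ F}, M (f i) (f j) = M i j := by
    intro i j
    by_cases hij : i = j
    · rw [hij, M.diagonal, M.diagonal]
    · have hij' : (i : B) ≠ j := fun h => hij (Subtype.ext h)
      have hij'' : f i ≠ f j := fun h => hij (hfi h)
      apply Nat.dvd_antisymm
      · exact dvd_of_pow cs hij'' _ ((hfpow i j _).2 (cs.simple_mul_simple_pow _ _))
      · exact dvd_of_pow cs hij' _ ((hfpow i j _).1 (cs.simple_mul_simple_pow _ _))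
  -- the finite set
  obtain ⟨T₀, hT₀⟩ : ∃ T₀ : Finset B, T₀ = F ∪ Finset.univ.image f ∪ supp n := ⟨_, rfl⟩
  have hFT : F ⊆ T₀ := by
    rw [hT₀]
    exact fun x hx => Finset.mem_union_left _ (Finset.mem_union_left _ hx)
  have hfT : ∀ i, f i ∈ T₀ := by
    intro i
    rw [hT₀]
    exact Finset.mem_union_left _ (Finset.mem_union_right _
      (Finset.mem_image_of_mem f (Finset.mem_univ i)))
  have hnT : supp n ⊆ T₀ := by
    rw [hT₀]
    exact Finset.subset_union_right
  obtain ⟨JF, hJF⟩ := wf_hom cs F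
  obtain ⟨J, hJ⟩ := wf_hom cs T₀
  have hJinj := par_inj cs T₀ J hJ
  obtain ⟨inc, hinc⟩ := wf_incl M hFT
  -- the map induced by f
  obtain ⟨θ, hθ⟩ : ∃ θ : WF M F →* WF M T₀, ∀ i, θ (CoxeterMatrix.simple _ i) =
      CoxeterMatrix.simple _ ⟨f i, hfT i⟩ := by
    have hl : (cmap M (fun x : {x // x ∈ F} => (x : B)) Subtype.val_injective).IsLiftable
        (fun i : {x // x ∈ F} => (CoxeterMatrix.simple (cmap M (fun x : {x // x ∈ T₀} => (x : B))
          Subtype.val_injective) ⟨f i, hfT i⟩ : WF M T₀)) := by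
      intro i j
      have h1 := (cmap M (fun x : {x // x ∈ T₀} => (x : B))
          Subtype.val_injective).toCoxeterSystem.simple_mul_simple_pow ⟨f i, hfT i⟩ ⟨f j, hfT j⟩
      have h2 : (cmap M (fun x : {x // x ∈ T₀} => (x : B)) Subtype.val_injective)
          ⟨f i, hfT i⟩ ⟨f j, hfT j⟩ = (cmap M (fun x : {x // x ∈ F} => (x : B))
          Subtype.val_injective) i j := hfM i j
      rw [h2] at h1
      exact h1
    exact ⟨(cmap M (fun x : {x // x ∈ F} => (x : B)) Subtype.val_injective).toCoxeterSystem.lift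
      ⟨_, hl⟩, fun i => CoxeterSystem.lift_apply_simple _ hl i⟩
  -- the extension of the partial isomorphism
  obtain ⟨T, hT, M', ι, τ, hι, hιM, hτM, hτι, hMb⟩ := eppa_cox {x // x ∈ T₀}
    (cmap M (fun x : {x // x ∈ T₀} => (x : B)) Subtype.val_injective) {x | x.1 ∈ F}
    (fun x => ⟨f ⟨x.1.1, x.2⟩, hfT _⟩) (by
      intro x y hxy
      have h1 : f ⟨x.1.1, x.2⟩ = f ⟨y.1.1, y.2⟩ := congrArg Subtype.val hxy
      have h2 := congrArg Subtype.val (hfi h1)
      exact Subtype.ext (Subtype.ext h2)) (by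
      intro x y
      exact hfM ⟨x.1.1, x.2⟩ ⟨y.1.1, y.2⟩)
  have := Fintype.ofFinite T
  obtain ⟨I, hI⟩ : ∃ I : WF M T₀ →* M'.Group, ∀ i, I (CoxeterMatrix.simple _ i) =
      M'.simple (ι i) := by
    have hl : (cmap M (fun x : {x // x ∈ T₀} => (x : B)) Subtype.val_injective).IsLiftable
        (fun i : {x // x ∈ T₀} => M'.simple (ι i)) := by
      intro i j
      have h1 := M'.toCoxeterSystem.simple_mul_simple_pow (ι i) (ι j)
      rw [hιM] at h1
      exact h1
    exact ⟨(cmap M (fun x : {x // x ∈ T₀} => (x : B)) Subtype.val_injective).toCoxeterSystem.lift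
      ⟨_, hl⟩, fun i => CoxeterSystem.lift_apply_simple _ hl i⟩
  have hIinj : Function.Injective I :=
    par_inj_fin (cmap M (fun x : {x // x ∈ T₀} => (x : B)) Subtype.val_injective).toCoxeterSystem
      M'.toCoxeterSystem ι hι hιM I hI
  obtain ⟨σ₀, hσ₀⟩ := cox_aut τ hτM
  have hσpow : ∀ (j : ℕ) (v : T), (σ₀ ^ j) (M'.simple v) = M'.simple ((τ ^ j) v) := by
    intro j
    induction j with
    | zero => intro v; simp
    | succ j ih =>
      intro v
      rw [pow_succ, MulAut.mul_apply, hσ₀, ih, pow_succ, Equiv.Perm.mul_apply]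
  have hσk : σ₀ ^ orderOf τ = 1 := by
    have h1 : (σ₀ ^ orderOf τ).toMonoidHom = MonoidHom.id _ := by
      apply cox_ext_simple
      intro v
      show (σ₀ ^ orderOf τ) (M'.simple v) = M'.simple v
      rw [hσpow, pow_orderOf_eq_one, Equiv.Perm.one_apply]
    ext x
    exact DFunLike.congr_fun h1 x
  -- n
  obtain ⟨u, hu⟩ := hsupp n T₀ hnT J hJ
  have hpow : ∀ j : ℕ, ∃ p : M'.Group,
      (MulAut.conj (I u)⁻¹ * σ₀) ^ j = MulAut.conj p * σ₀ ^ j := by
    intro j
    induction j with
    | zero => exact ⟨1, by simp⟩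
    | succ j ih =>
      obtain ⟨p, hp⟩ := ih
      refine ⟨p * (σ₀ ^ j) (I u)⁻¹, ?_⟩
      rw [pow_succ, hp, pow_succ]
      ext y
      simp [MulAut.mul_apply, MulAut.conj_apply, mul_assoc]
  obtain ⟨p, hp⟩ := hpow (orderOf τ)
  rw [hσk, mul_one] at hp
  -- the inclusion in G
  obtain ⟨J', hJ'⟩ : ∃ J' : WF M T₀ →* G, J' = N.subtype.comp J := ⟨_, rfl⟩
  have hJ'a : ∀ w, J' w = (J w : G) := fun w => by rw [hJ']; rfl
  have hJ'inj : Function.Injective J' := by
    intro a b hab
    rw [hJ'a, hJ'a] at hab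
    exact hJinj (Subtype.ext hab)
  have hincJ : ∀ w, J' (inc w) = (JF w : G) := by
    have h1 : J'.comp inc = N.subtype.comp JF := by
      apply cox_ext_simple
      intro i
      rw [MonoidHom.comp_apply, MonoidHom.comp_apply, hinc, hJ'a, hJ, hJF]
      rfl
    exact fun w => DFunLike.congr_fun h1 w
  have hθJ : ∀ w, J' (θ w) = ((n : G) * g) * (JF w : G) * ((n : G) * g)⁻¹ := by
    have h1 : J'.comp θ = ((MulAut.conj ((n : G) * g)).toMonoidHom.comp N.subtype).comp JF := by
      apply cox_ext_simple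
      intro i
      rw [MonoidHom.comp_apply, MonoidHom.comp_apply, hθ, hJ'a, hJ, hJF]
      exact (hf i).symm
    exact fun w => DFunLike.congr_fun h1 w
  have hσθ : ∀ w, I (θ w) = σ₀ (I (inc w)) := by
    have h1 : I.comp θ = (σ₀.toMonoidHom.comp I).comp inc := by
      apply cox_ext_simple
      intro i
      show I (θ _) = σ₀ (I (inc _))
      rw [hθ, hinc, hI, hI, hσ₀]
      have h2 := hτι ⟨⟨i.1, hFT i.2⟩, i.2⟩
      rw [h2]
    exact fun w => DFunLike.congr_fun h1 w
  have hJ'u : J' u = n := by rw [hJ'a, hu]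
  -- elements of E
  have hEx : ∀ x ∈ E, ∃ w : WF M F, (JF w : G) = x := by
    intro x hx
    obtain ⟨w, hw⟩ := hsupp ⟨x, hEN hx⟩ F (hF x hx) JF hJF
    exact ⟨w, by rw [hw]⟩
  have hgx : ∀ w : WF M F, J' (u⁻¹ * θ w * u) = g * (JF w : G) * g⁻¹ := by
    intro w
    rw [map_mul, map_mul, map_inv, hθJ, hJ'u]
    group
  have hle : Subgroup.closure (E ∪ (fun x => g * x * g⁻¹) '' E) ≤ J'.range := by
    rw [Subgroup.closure_le]
    rintro x (hx | ⟨y, hy, rfl⟩)
    · obtain ⟨w, hw⟩ := hEx x hx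
      exact ⟨inc w, by rw [hincJ, hw]⟩
    · obtain ⟨w, hw⟩ := hEx y hy
      refine ⟨u⁻¹ * θ w * u, ?_⟩
      rw [hgx, hw]
  let e : WF M T₀ ≃* J'.range := MonoidHom.ofInjective hJ'inj
  have he : ∀ w (z : J'.range), (z : G) = J' w → e.symm z = w := by
    intro w z hz
    rw [MulEquiv.symm_apply_eq]
    apply Subtype.ext
    rw [hz]
    rfl
  refine ⟨M'.Group, inferInstance, (I.comp e.symm.toMonoidHom).comp (Subgroup.inclusion hle),
    MulAut.conj (I u)⁻¹ * σ₀, orderOf τ, p, hcox T inferInstance M'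
      (fun b hb => hMb b (fun x y => hb x y)), ?_, orderOf_pos τ, hp, ?_⟩
  · exact (hIinj.comp e.symm.injective).comp (Subgroup.inclusion_injective hle)
  · intro x y hx hy
    obtain ⟨w, hw⟩ := hEx x hx
    show I (e.symm (Subgroup.inclusion hle y)) =
      (MulAut.conj (I u)⁻¹ * σ₀) (I (e.symm (Subgroup.inclusion hle x)))
    have h1 : e.symm (Subgroup.inclusion hle x) = inc w := by
      apply he
      rw [hincJ, hw]
      rfl
    have h2 : e.symm (Subgroup.inclusion hle y) = u⁻¹ * θ w * u := by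
      apply he
      rw [hgx, hw, ← hy]
      rfl
    rw [h1, h2, map_mul, map_mul, map_inv, hσθ, MulAut.mul_apply, MulAut.conj_apply, inv_inv]

end Q30.FJ
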