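import Pool.Agent.Q30.FJ.GW

/-!
# Graph-wreath products, given by their universal property
-/

set_option autoImplicit false

namespace Q30.FJ

open Pool.Agent.Y110.FJ
open Pool.Agent.Y462.SS (Closed)

section defs

variable {V Q A : Type} [Group Q] [Group A] [MulAction Q V]

/-- the defining relations of the graph-wreath product: the copies of `A` at adjacent vertices
commute, and `Q` permutes the copies of `A` -/
def GWRel (Λ : SimpleGraph V) {H : Type} [Group H] (b : V → A →* H) (s : Q →* H) : Prop :=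
  (∀ v w, Λ.Adj v w → ∀ x y : A, b v x * b w y = b w y * b v x) ∧
    ∀ (q : Q) (v : V) (x : A), s q * b v x * (s q)⁻¹ = b (q • v) x

/-- `G`, with the homomorphisms `a v` from `A` for every vertex `v` and `t` from `Q`, is the
graph-wreath product: the universal group with the relations `GWRel` -/
structure IsGraphWreath (Λ : SimpleGraph V) {G : Type} [Group G] (a : V → A →* G) (t : Q →* G) :
    Prop where
  rel : GWRel Λ a t
  univ : ∀ (H : Type) [Group H] (b : V → A →* H) (s : Q →* H), GWRel Λ b s →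
    ∃! f : G →* H, (∀ v x, f (a v x) = b v x) ∧ ∀ q, f (t q) = s q

end defs

/-- automorphisms of graph products are determined on the vertex groups -/
theorem gaut_ext {V A : Type} [Group A] (Λ : SimpleGraph V) {σ τ : MulAut (GrP Λ (fun _ => A))}
    (h : ∀ v (x : A), σ (GrP.of Λ (fun _ => A) v x) = τ (GrP.of Λ (fun _ => A) v x)) : σ = τ := by
  have h1 : σ.toMonoidHom = τ.toMonoidHom := gext h
  ext x
  exact DFunLike.congr_fun h1 x

/-- the action of `Q` on the graph product -/
theorem gact_exists {V Q A : Type} [Group Q] [Group A] [MulAction Q V] (Λ : SimpleGraph V)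
    (hΛ : ∀ (q : Q) (v w : V), Λ.Adj v w → Λ.Adj (q • v) (q • w)) :
    ∃ α : Q →* MulAut (GrP Λ (fun _ => A)), ∀ (q : Q) v (x : A),
      α q (GrP.of Λ (fun _ => A) v x) = GrP.of Λ (fun _ => A) (q • v) x := by
  have hadj : ∀ (q : Q) (x y : V), Λ.Adj (MulAction.toPerm q x) (MulAction.toPerm q y) ↔
      Λ.Adj x y := by
    intro q v w
    constructor
    · intro h
      have := hΛ q⁻¹ _ _ h
      simp only [MulAction.toPerm_apply] at this
      rwa [inv_smul_smul, inv_smul_smul] at this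
    · exact hΛ q v w
  have h0 : ∀ q : Q, ∃ σ : MulAut (GrP Λ (fun _ => A)), ∀ v (x : A),
      σ (GrP.of Λ (fun _ => A) v x) = GrP.of Λ (fun _ => A) (q • v) x :=
    fun q => gaut Λ A (MulAction.toPerm q) (hadj q)
  choose α₀ hα₀ using h0
  refine ⟨{ toFun := α₀
            map_one' := ?_
            map_mul' := ?_ }, hα₀⟩
  · apply gaut_ext
    intro v x
    rw [hα₀, one_smul]
    rfl
  · intro p q
    apply gaut_ext
    intro v x
    rw [hα₀, MulAut.mul_apply, hα₀, hα₀, mul_smul]

/-- the relations hold in the semidirect product -/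
theorem gsemi_rel {V Q A : Type} [Group Q] [Group A] [MulAction Q V] (Λ : SimpleGraph V)
    (α : Q →* MulAut (GrP Λ (fun _ => A))) (hα : ∀ (q : Q) v (x : A),
      α q (GrP.of Λ (fun _ => A) v x) = GrP.of Λ (fun _ => A) (q • v) x) :
    GWRel Λ (H := GrP Λ (fun _ => A) ⋊[α] Q)
      (fun v => SemidirectProduct.inl.comp (GrP.of Λ (fun _ => A) v)) SemidirectProduct.inr := by
  constructor
  · intro v w h x y
    show SemidirectProduct.inl (GrP.of Λ (fun _ => A) v x) *
      SemidirectProduct.inl (GrP.of Λ (fun _ => A) w y) = _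
    rw [← map_mul, gcomm (A := fun _ => A) h x y, map_mul]
    rfl
  · intro q v x
    show SemidirectProduct.inr q * SemidirectProduct.inl (GrP.of Λ (fun _ => A) v x) *
      (SemidirectProduct.inr q)⁻¹ = SemidirectProduct.inl (GrP.of Λ (fun _ => A) (q • v) x)
    rw [← hα q v x, SemidirectProduct.inl_aut, map_inv]

/-- the homomorphism from the semidirect product -/
theorem gsemi_lift {V Q A : Type} [Group Q] [Group A] [MulAction Q V] (Λ : SimpleGraph V)
    (α : Q →* MulAut (GrP Λ (fun _ => A))) (hα : ∀ (q : Q) v (x : A),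
      α q (GrP.of Λ (fun _ => A) v x) = GrP.of Λ (fun _ => A) (q • v) x)
    (H : Type) [Group H] (b : V → A →* H) (s : Q →* H) (hbs : GWRel Λ b s) :
    ∃ f : GrP Λ (fun _ => A) ⋊[α] Q →* H,
      (∀ v x, f (SemidirectProduct.inl (GrP.of Λ (fun _ => A) v x)) = b v x) ∧
      ∀ q, f (SemidirectProduct.inr q) = s q := by
  let θ₀ : GrP Λ (fun _ => A) →* H := glift (A := fun _ => A) b
    (fun v w h x y => hbs.1 v w h x y)
  have hθ₀ : ∀ v (x : A), θ₀ (GrP.of Λ (fun _ => A) v x) = b v x :=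
    fun v x => glift_of (A := fun _ => A) b (fun v w h x y => hbs.1 v w h x y) v x
  refine ⟨SemidirectProduct.lift θ₀ s ?_, ?_, ?_⟩
  · intro q
    apply gext
    intro v x
    show θ₀ (α q (GrP.of Λ (fun _ => A) v x)) = s q * θ₀ (GrP.of Λ (fun _ => A) v x) * (s q)⁻¹
    rw [hα, hθ₀, hθ₀, hbs.2]
  · intro v x
    rw [SemidirectProduct.lift_inl, hθ₀]
  · intro q
    rw [SemidirectProduct.lift_inr]

/-- the graph-wreath product exists -/
theorem gw_exists (V Q A : Type) [Group Q] [Group A] [MulAction Q V] (Λ : SimpleGraph V)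
    (hΛ : ∀ (q : Q) (v w : V), Λ.Adj v w → Λ.Adj (q • v) (q • w)) :
    ∃ (G : Type) (_ : Group G) (a : V → A →* G) (t : Q →* G), IsGraphWreath Λ a t := by
  obtain ⟨α, hα⟩ := gact_exists (A := A) Λ hΛ
  refine ⟨GrP Λ (fun _ => A) ⋊[α] Q, inferInstance,
    fun v => SemidirectProduct.inl.comp (GrP.of Λ (fun _ => A) v), SemidirectProduct.inr,
    gsemi_rel Λ α hα, ?_⟩
  intro H _ b s hbs
  obtain ⟨f, hf1, hf2⟩ := gsemi_lift Λ α hα H b s hbs
  refine ⟨f, ⟨fun v x => hf1 v x, hf2⟩, ?_⟩
  rintro g ⟨hg1, hg2⟩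
  apply SemidirectProduct.hom_ext
  · apply gext
    intro v x
    exact (hg1 v x).trans (hf1 v x).symm
  · ext q
    exact (hg2 q).trans (hf2 q).symm

theorem gw_univ {C : ∀ (G : Type) [Group G], Prop} (hC : ClosedE C)
    (V Q A : Type) [Group Q] [Group A] [MulAction Q V] (Λ : SimpleGraph V)
    (hΛ : ∀ (q : Q) (v w : V), Λ.Adj v w → Λ.Adj (q • v) (q • w))
    (G : Type) [Group G] (a : V → A →* G) (t : Q →* G) (hG : IsGraphWreath Λ a t)
    (hA : C A) (hQ : C Q) : C G := by
  obtain ⟨α, hα⟩ := gact_exists (A := A) Λ hΛ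
  have hgw : C (GrP Λ (fun _ => A) ⋊[α] Q) :=
    gw C hC V Q A Λ α hΛ (fun q v x => hα q v x) hA hQ
  obtain ⟨ψ, ⟨hψ1, hψ2⟩, -⟩ := hG.univ (GrP Λ (fun _ => A) ⋊[α] Q)
    (fun v => SemidirectProduct.inl.comp (GrP.of Λ (fun _ => A) v)) SemidirectProduct.inr
    (gsemi_rel Λ α hα)
  obtain ⟨θ, hθ1, hθ2⟩ := gsemi_lift Λ α hα G a t hG.rel
  have hid : θ.comp ψ = MonoidHom.id G := by
    obtain ⟨f, -, hf⟩ := hG.univ G a t hG.rel
    have h1 : θ.comp ψ = f := by
      apply hf
      constructor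
      · intro v x
        rw [MonoidHom.comp_apply, hψ1]
        exact hθ1 v x
      · intro q
        rw [MonoidHom.comp_apply, hψ2, hθ2]
    have h2 : MonoidHom.id G = f := hf _ ⟨fun _ _ => rfl, fun _ => rfl⟩
    rw [h1, h2]
  refine hC.base.of_injective G _ ψ ?_ hgw
  intro x y hxy
  have h1 := congrArg θ hxy
  have h2 : ∀ z, θ (ψ z) = z := fun z => DFunLike.congr_fun hid z
  rw [h2, h2] at h1
  exact h1

end Q30.FJ
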