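import Pool.Agent.Q30.FJ.T1
import Pool.Agent.Q30.FJ.T2
import Pool.Agent.Q30.FJ.Cox4

/-!
# Injectivity classes: extensions with quotient in a larger class
-/

set_option autoImplicit false

namespace Q30.FJ

open Pool.Agent.Y110.FJ
open Pool.Agent.Y462.SS (Closed)

/-- The class `D` is closed under subgroups and relative to the class `C` it satisfies the extension
principle: if `Q` is in `D` and the preimages of the virtually cyclic subgroups of `Q` are in `C`,
then `G` is in `D`. -/
structure ClosedOver (C D : ∀ (G : Type) [Group G], Prop) : Prop where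
  of_injective : ∀ (G H : Type) [Group G] [Group H] (f : G →* H), Function.Injective f →
    D H → D G
  ext : ∀ (G Q : Type) [Group G] [Group Q] (π : G →* Q), Function.Surjective π → D Q →
    (∀ V : Subgroup Q, (∃ c ∈ V, (Subgroup.zpowers c).relIndex V ≠ 0) → C (V.comap π)) → D G

variable {C D : ∀ (G : Type) [Group G], Prop}

/-- virtually cyclic groups are in the class -/
theorem vc_mem (hC : Closed C) {Q : Type} [Group Q] (V : Subgroup Q)
    (hV : ∃ c ∈ V, (Subgroup.zpowers c).relIndex V ≠ 0) : C V := by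
  obtain ⟨c, hc, hi⟩ := hV
  refine Pool.Agent.Y529.FJ.up hC (by rwa [Subgroup.zpowers_le]) hi ?_
  by_cases h : IsOfFinOrder c
  · have : Finite ↥(Subgroup.zpowers c) := by
      have h1 : Nat.card ↥(Subgroup.zpowers c) ≠ 0 := by
        rw [Nat.card_zpowers]
        exact h.orderOf_pos.ne'
      exact Nat.finite_of_card_ne_zero h1
    exact Pool.Agent.Y430.SS.of_finite hC _ this
  · have h1 : Function.Injective (fun n : ℤ => c ^ n) := injective_zpow_iff_not_isOfFinOrder.2 h
    have h2 : ∀ x : ↥(Subgroup.zpowers c), ∃ n : ℤ, c ^ n = x := fun x => x.2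
    choose e he using h2
    refine hC.of_injective _ (Multiplicative ℤ) (MonoidHom.mk' (fun x => Multiplicative.ofAdd (e x))
      ?_) ?_ hC.int
    · intro x y
      have h3 : e (x * y) = e x + e y := by
        apply h1
        show c ^ e (x * y) = c ^ (e x + e y)
        rw [he, zpow_add, he, he]
        rfl
      rw [h3]
      rfl
    · intro x y hxy
      have h3 : e x = e y := hxy
      apply Subtype.ext
      rw [← he x, ← he y, h3]

theorem quot_mem (hC : Closed C) {G : Type} [Group G] (N : Subgroup G) [N.Normal]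
    (V : Subgroup (G ⧸ N)) (hV : C V) :
    C (↥(V.comap (QuotientGroup.mk' N)) ⧸ N.subgroupOf (V.comap (QuotientGroup.mk' N))) := by
  let φ : ↥(V.comap (QuotientGroup.mk' N)) →* V :=
    MonoidHom.mk' (fun x => ⟨QuotientGroup.mk' N x.1, x.2⟩) (fun x y => rfl)
  have hφ : ∀ x, φ x = 1 ↔ x ∈ N.subgroupOf (V.comap (QuotientGroup.mk' N)) := by
    intro x
    rw [Subgroup.mem_subgroupOf]
    constructor
    · intro h
      have h1 : QuotientGroup.mk' N x.1 = 1 := congrArg Subtype.val h
      exact (QuotientGroup.eq_one_iff _).1 h1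
    · intro h
      apply Subtype.ext
      exact (QuotientGroup.eq_one_iff _).2 h
  let ψ : (↥(V.comap (QuotientGroup.mk' N)) ⧸ N.subgroupOf (V.comap (QuotientGroup.mk' N))) →* V :=
    QuotientGroup.lift _ φ (fun x hx => (hφ x).2 hx)
  refine hC.of_injective _ _ ψ ?_ hV
  rw [injective_iff_map_eq_one]
  intro x
  induction x using QuotientGroup.induction_on with
  | H z =>
    intro hz
    exact (QuotientGroup.eq_one_iff _).2 ((hφ z).1 hz)

/-- the criterion over an injectivity class -/
theorem crit_over (hC : ClosedE C) (hD : ClosedOver C D) (G : Type) [Group G] (N : Subgroup G)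
    [N.Normal] (hQ : D (G ⧸ N))
    (h : ∀ (g : G) (E : Set G), E.Finite → E ⊆ N →
      Realized C g E ∨ RealizedAut C g E ∨ FiniteAt g E) : D G := by
  refine hD.ext G (G ⧸ N) (QuotientGroup.mk' N) (QuotientGroup.mk'_surjective N) hQ ?_
  intro V hV
  refine crit C hC _ (N.subgroupOf (V.comap (QuotientGroup.mk' N)))
    (quot_mem hC.base N V (vc_mem hC.base V hV)) ?_
  intro g E hE hEN
  have hr : Realized C (g : G) (Subtype.val '' E) := by
    rcases h g (Subtype.val '' E) (hE.image _) (by
      rintro _ ⟨x, hx, rfl⟩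
      exact hEN hx) with h1 | h1 | h1
    · exact h1
    · exact realized_of_aut hC.base _ _ h1
    · exact realized_of_finite hC.base _ _ h1
  obtain ⟨P, _, f, p, hP, hf, hp⟩ := hr
  have hle : ∀ x : ↥(V.comap (QuotientGroup.mk' N)),
      x ∈ Subgroup.closure (E ∪ (fun x => g * x * g⁻¹) '' E) →
      (x : G) ∈ Subgroup.closure ((Subtype.val '' E : Set G) ∪
        (fun x => (g : G) * x * (g : G)⁻¹) '' (Subtype.val '' E)) := by
    intro x hx
    have h1 : (x : G) ∈ (Subgroup.closure (E ∪ (fun x => g * x * g⁻¹) '' E)).map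
        (Subgroup.subtype _) := ⟨x, hx, rfl⟩
    rw [MonoidHom.map_closure] at h1
    refine Subgroup.closure_mono ?_ h1
    rintro _ ⟨y, hy | ⟨z, hz, rfl⟩, rfl⟩
    · exact Or.inl ⟨y, hy, rfl⟩
    · exact Or.inr ⟨(z : G), ⟨z, hz, rfl⟩, rfl⟩
  refine ⟨P, inferInstance, f.comp (MonoidHom.mk' (fun x => ⟨(x.1 : G), hle x.1 x.2⟩)
    (fun x y => rfl)), p, hP, ?_, ?_⟩
  · intro x y hxy
    have h1 := hf hxy
    have h2 : ((x.1 : ↥(V.comap (QuotientGroup.mk' N))) : G) = (y.1 : G) := Subtype.mk.inj h1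
    exact Subtype.ext (Subtype.ext h2)
  · intro x y hx hy
    refine hp ⟨(x.1 : G), hle x.1 x.2⟩ ⟨(y.1 : G), hle y.1 y.2⟩ ⟨_, hx, rfl⟩ ?_
    have h1 := congrArg Subtype.val hy
    exact h1

/-- graph-wreath products over an injectivity class -/
theorem gw_over (hC : ClosedE C) (hD : ClosedOver C D)
    (V Q A : Type) [Group Q] [Group A] [MulAction Q V] (Λ : SimpleGraph V)
    (hΛ : ∀ (q : Q) (v w : V), Λ.Adj v w → Λ.Adj (q • v) (q • w))
    (G : Type) [Group G] (a : V → A →* G) (t : Q →* G) (hG : IsGraphWreath Λ a t)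
    (hA : C A) (hQ : D Q) : D G := by
  classical
  obtain ⟨α, hα⟩ := gact_exists (A := A) Λ hΛ
  have hgw : D (GrP Λ (fun _ => A) ⋊[α] Q) := by
    refine hD.ext _ Q SemidirectProduct.rightHom SemidirectProduct.rightHom_surjective hQ ?_
    intro U hU
    have h1 : C (GrP Λ (fun _ => A) ⋊[α.comp U.subtype] U) :=
      gw C hC V U A Λ (α.comp U.subtype) (fun q => hΛ q) (fun q v x => hα q v x) hA
        (vc_mem hC.base U hU)
    refine hC.base.of_injective _ _ (MonoidHom.mk' (fun x =>
      (⟨x.1.left, ⟨x.1.right, x.2⟩⟩ : GrP Λ (fun _ => A) ⋊[α.comp U.subtype] U)) ?_) ?_ h1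
    · intro x y
      rfl
    · intro x y hxy
      have h2 := congrArg SemidirectProduct.left hxy
      have h3 := congrArg SemidirectProduct.right hxy
      apply Subtype.ext
      apply SemidirectProduct.ext
      · exact h2
      · exact congrArg Subtype.val h3
  obtain ⟨ψ, ⟨hψ1, hψ2⟩, -⟩ := hG.univ (GrP Λ (fun _ => A) ⋊[α] Q)
    (fun v => SemidirectProduct.inl.comp (GrP.of Λ (fun _ => A) v)) SemidirectProduct.inr
    (gsemi_rel Λ α hα)
  obtain ⟨θ, hθ1, hθ2⟩ := gsemi_lift Λ α hα G a t hG.rel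
  have hid : θ.comp ψ = MonoidHom.id G := by
    obtain ⟨f, -, hf⟩ := hG.univ G a t hG.rel
    have h1 : θ.comp ψ = f := by
      apply hf
      constructor
      · intro v x
        rw [MonoidHom.comp_apply, hψ1]
        exact hθ1 v x
      · intro q
        rw [MonoidHom.comp_apply, hψ2, hθ2]
    have h2 : MonoidHom.id G = f := hf _ ⟨fun _ _ => rfl, fun _ => rfl⟩
    rw [h1, h2]
  refine hD.of_injective G _ ψ ?_ hgw
  intro x y hxy
  have h1 := congrArg θ hxy
  have h2 : ∀ z, θ (ψ z) = z := fun z => DFunLike.congr_fun hid z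
  rw [h2, h2] at h1
  exact h1

/-- Coxeter kernels over an injectivity class -/
theorem cox_over (hC : ClosedE C) (hD : ClosedOver C D)
    (G : Type) [Group G] (N : Subgroup G) [N.Normal] (hQ : D (G ⧸ N))
    (B : Type) (M : CoxeterMatrix B) (cs : CoxeterSystem M N)
    (h : ∀ (g : G) (F : Set B), F.Finite → ∃ n : N, ∀ i ∈ F, ∃ j : B,
      ((n : G) * g) * (cs.simple i : G) * ((n : G) * g)⁻¹ = cs.simple j)
    (hM : (∀ i j, M i j ≤ 2) ∨
      ∀ (A : Type) (_ : Finite A) (M' : CoxeterMatrix A), C M'.Group) : D G := by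
  refine hD.ext G (G ⧸ N) (QuotientGroup.mk' N) (QuotientGroup.mk'_surjective N) hQ ?_
  intro V hV
  have hNH : N ≤ V.comap (QuotientGroup.mk' N) := by
    intro x hx
    show QuotientGroup.mk' N x ∈ V
    have h1 : QuotientGroup.mk' N x = 1 := (QuotientGroup.eq_one_iff _).2 hx
    rw [h1]
    exact V.one_mem
  refine cox_kernel hC _ (N.subgroupOf (V.comap (QuotientGroup.mk' N)))
    (quot_mem hC.base N V (vc_mem hC.base V hV)) B M
    (cs.map (Subgroup.subgroupOfEquivOfLe hNH).symm) ?_ ?_
  · intro A hA M' hb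
    rcases hM with h2 | h2
    · exact racg_mem hC A M' (hb 2 h2)
    · exact h2 A hA M'
  · intro g F hF
    obtain ⟨n, hn⟩ := h g F hF
    refine ⟨(Subgroup.subgroupOfEquivOfLe hNH).symm n, ?_⟩
    intro i hi
    obtain ⟨j, hj⟩ := hn i hi
    refine ⟨j, ?_⟩
    apply Subtype.ext
    exact hj

end Q30.FJ
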