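import Pool.Agent.Q30.FJ.Cons

/-!
# The extension criterion: all forms together
-/

set_option autoImplicit false

namespace Q30.FJ

open Pool.Agent.Y110.FJ
open Pool.Agent.Y462.SS (Closed)

/-- conjugation by `g` on the finite set `E` is given by an automorphism, some positive power of
which is inner, of a group in `C` that contains `E` and `g E g⁻¹` -/
def RealizedAut (C : ∀ (G : Type) [Group G], Prop) {G : Type} [Group G] (g : G) (E : Set G) :
    Prop :=
  ∃ (P : Type) (_ : Group P) (f : ↥(Subgroup.closure (E ∪ (fun x => g * x * g⁻¹) '' E)) →* P)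
    (σ : MulAut P) (k : ℕ) (p : P), C P ∧ Function.Injective f ∧ 0 < k ∧ σ ^ k = MulAut.conj p ∧
    ∀ x y : ↥(Subgroup.closure (E ∪ (fun x => g * x * g⁻¹) '' E)),
      (x : G) ∈ E → (y : G) = g * x * g⁻¹ → f y = σ (f x)

/-- the group generated by `E` and `g E g⁻¹` is finite -/
def FiniteAt {G : Type} [Group G] (g : G) (E : Set G) : Prop :=
  Finite ↥(Subgroup.closure (E ∪ (fun x => g * x * g⁻¹) '' E))

variable {C : ∀ (G : Type) [Group G], Prop}

theorem realized_of_aut (hC : Closed C) {G : Type} [Group G] (g : G) (E : Set G)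
    (h : RealizedAut C g E) : Realized C g E := by
  obtain ⟨P, _, f, σ, k, p, hP, hf, hk, hσ, hfσ⟩ := h
  refine ⟨P ⋊[zpowersHom _ σ] Multiplicative ℤ, inferInstance, SemidirectProduct.inl.comp f,
    SemidirectProduct.inr (Multiplicative.ofAdd (1 : ℤ)), sd_inner hC P hP σ k p hk hσ,
    SemidirectProduct.inl_injective.comp hf, ?_⟩
  intro x y hx hy
  rw [MonoidHom.comp_apply, MonoidHom.comp_apply, Pool.Agent.Y961.FJ.conj_inr, hfσ x y hx hy,
    zpowersHom_apply]
  rfl

theorem realized_of_finite (hC : Closed C) {G : Type} [Group G] (g : G) (E : Set G)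
    (h : FiniteAt g E) : Realized C g E := by
  have hfin : Finite ↥(ME g E) := h
  obtain ⟨f, p, hf, hp⟩ := fin_real ↥(ME g E) (AE g E) (BE g E) (phiE g E)
  have hP : C (Equiv.Perm ↥(ME g E)) := Pool.Agent.Y430.SS.of_finite hC _ inferInstance
  refine ⟨Equiv.Perm ↥(ME g E), inferInstance, f, p, hP, hf, ?_⟩
  intro x y hx hy
  have hxA : x ∈ AE g E := Subgroup.subset_closure hx
  have h1 : ((phiE g E ⟨x, hxA⟩ : BE g E) : ME g E) = y := by
    apply Subtype.ext
    rw [phiE_coe]
    exact hy.symm
  have h2 := hp ⟨x, hxA⟩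
  rw [h1] at h2
  exact h2

/-- the criterion with the three alternatives -/
theorem crit_three (hC : ClosedE C) (G : Type) [Group G] (N : Subgroup G) [N.Normal]
    (hQ : C (G ⧸ N))
    (h : ∀ (g : G) (E : Set G), E.Finite → E ⊆ N →
      Realized C g E ∨ RealizedAut C g E ∨ FiniteAt g E) : C G := by
  refine crit C hC G N hQ ?_
  intro g E hE hEN
  rcases h g E hE hEN with h1 | h1 | h1
  · exact h1
  · exact realized_of_aut hC.base g E h1
  · exact realized_of_finite hC.base g E h1

end Q30.FJ
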