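import Pool.Agent.Q30.FJ.Cons

/-!
# Graph products
-/

set_option autoImplicit false

namespace Q30.FJ

open Pool.Agent.Y110.FJ
open Pool.Agent.Y462.SS (Closed)

section gp

variable {V : Type} {Λ : SimpleGraph V} {A : V → Type} [∀ v, Group (A v)]

/-- vertex groups of adjacent vertices commute -/
theorem gcomm {v w : V} (h : Λ.Adj v w) (a : A v) (b : A w) :
    GrP.of Λ A v a * GrP.of Λ A w b = GrP.of Λ A w b * GrP.of Λ A v a := by
  have h1 : (Monoid.CoprodI.of a * Monoid.CoprodI.of b * (Monoid.CoprodI.of a)⁻¹ *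
      (Monoid.CoprodI.of b)⁻¹ : Monoid.CoprodI A) ∈ Subgroup.normalClosure (commRel Λ A) :=
    Subgroup.subset_normalClosure ⟨v, w, a, b, h, rfl⟩
  have h2 := (QuotientGroup.eq_one_iff _).2 h1
  have h3 : GrP.of Λ A v a * GrP.of Λ A w b * (GrP.of Λ A v a)⁻¹ * (GrP.of Λ A w b)⁻¹ = 1 := h2
  rw [mul_inv_eq_one, mul_inv_eq_iff_eq_mul] at h3
  exact h3

/-- the universal property -/
noncomputable def glift {H : Type} [Group H] (φ : ∀ v, A v →* H)
    (hφ : ∀ v w, Λ.Adj v w → ∀ (a : A v) (b : A w), φ v a * φ w b = φ w b * φ v a) :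
    GrP Λ A →* H :=
  QuotientGroup.lift _ (Monoid.CoprodI.lift φ) (by
    intro x hx
    have h1 : Subgroup.normalClosure (commRel Λ A) ≤ (Monoid.CoprodI.lift φ).ker := by
      apply Subgroup.normalClosure_le_normal
      rintro _ ⟨v, w, a, b, h, rfl⟩
      rw [SetLike.mem_coe, MonoidHom.mem_ker, map_mul, map_mul, map_mul, map_inv, map_inv,
        Monoid.CoprodI.lift_of, Monoid.CoprodI.lift_of, hφ v w h a b]
      group
    exact h1 hx)

theorem glift_of {H : Type} [Group H] (φ : ∀ v, A v →* H)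
    (hφ : ∀ v w, Λ.Adj v w → ∀ (a : A v) (b : A w), φ v a * φ w b = φ w b * φ v a) (v : V)
    (a : A v) : glift φ hφ (GrP.of Λ A v a) = φ v a := by
  show Monoid.CoprodI.lift φ (Monoid.CoprodI.of a) = φ v a
  rw [Monoid.CoprodI.lift_of]

theorem gext {H : Type} [Group H] {f g : GrP Λ A →* H}
    (h : ∀ v a, f (GrP.of Λ A v a) = g (GrP.of Λ A v a)) : f = g := by
  apply QuotientGroup.monoidHom_ext
  apply Monoid.CoprodI.ext_hom
  intro v
  ext a
  exact h v a

variable (Λ A) in
/-- the subgroup of a set of vertices -/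
def gsub (S : Set V) : Subgroup (GrP Λ A) :=
  Subgroup.closure {x | ∃ v ∈ S, ∃ a : A v, x = GrP.of Λ A v a}

theorem gsub_of {S : Set V} {v : V} (hv : v ∈ S) (a : A v) : GrP.of Λ A v a ∈ gsub Λ A S :=
  Subgroup.subset_closure ⟨v, hv, a, rfl⟩

theorem gsub_mono {S T : Set V} (h : S ⊆ T) : gsub Λ A S ≤ gsub Λ A T := by
  apply Subgroup.closure_mono
  rintro x ⟨v, hv, a, rfl⟩
  exact ⟨v, h hv, a, rfl⟩

/-- two homomorphisms which agree on the vertex groups of `S` agree on the subgroup -/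
theorem gsub_eq {S : Set V} {H : Type} [Group H] {f g : GrP Λ A →* H}
    (h : ∀ v ∈ S, ∀ a, f (GrP.of Λ A v a) = g (GrP.of Λ A v a)) :
    ∀ x ∈ gsub Λ A S, f x = g x := by
  intro x hx
  have h1 : gsub Λ A S ≤ f.eqLocus g := by
    rw [gsub, Subgroup.closure_le]
    rintro _ ⟨v, hv, a, rfl⟩
    exact h v hv a
  exact h1 hx

open Classical in
variable (Λ A) in
/-- the retraction onto the subgroup of a set of vertices -/
noncomputable def gret (S : Set V) : GrP Λ A →* ↥(gsub Λ A S) :=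
  glift (fun v => if h : v ∈ S then (GrP.of Λ A v).codRestrict _ (fun a => gsub_of h a) else 1) (by
    intro v w hvw a b
    by_cases hv : v ∈ S <;> by_cases hw : w ∈ S
    · simp only [dif_pos hv, dif_pos hw]
      apply Subtype.ext
      exact gcomm hvw a b
    · simp only [dif_neg hw, MonoidHom.one_apply, mul_one, one_mul]
    · simp only [dif_neg hv, MonoidHom.one_apply, mul_one, one_mul]
    · simp only [dif_neg hw, MonoidHom.one_apply, mul_one, one_mul])

theorem gret_of_mem {S : Set V} {v : V} (h : v ∈ S) (a : A v) :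
    ((gret Λ A S (GrP.of Λ A v a) : ↥(gsub Λ A S)) : GrP Λ A) = GrP.of Λ A v a := by
  rw [gret, glift_of, dif_pos h]
  rfl

theorem gret_of_not {S : Set V} {v : V} (h : v ∉ S) (a : A v) :
    gret Λ A S (GrP.of Λ A v a) = 1 := by
  rw [gret, glift_of, dif_neg h]
  rfl

theorem gret_eq {S : Set V} (x : GrP Λ A) (hx : x ∈ gsub Λ A S) :
    ((gret Λ A S x : ↥(gsub Λ A S)) : GrP Λ A) = x := by
  have h := gsub_eq (Λ := Λ) (A := A) (S := S) (f := (gsub Λ A S).subtype.comp (gret Λ A S))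
    (g := MonoidHom.id _) (fun v hv a => gret_of_mem hv a) x hx
  exact h

open Classical in
variable (Λ A) in
/-- the retraction onto a vertex group -/
noncomputable def gvert (v : V) : GrP Λ A →* A v :=
  glift (fun w => if h : w = v then h ▸ MonoidHom.id (A w) else 1) (by
    intro w w' hww a b
    by_cases hw : w = v
    · have hw' : ¬ w' = v := by
        rintro rfl
        exact Λ.ne_of_adj hww hw
      simp only [dif_neg hw', MonoidHom.one_apply, mul_one, one_mul]
    · simp only [dif_neg hw, MonoidHom.one_apply, mul_one, one_mul])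

theorem gvert_of (v : V) (a : A v) : gvert Λ A v (GrP.of Λ A v a) = a := by
  rw [gvert, glift_of, dif_pos rfl]
  rfl

theorem gvert_of_ne {v w : V} (h : w ≠ v) (a : A w) : gvert Λ A v (GrP.of Λ A w a) = 1 := by
  rw [gvert, glift_of, dif_neg h]
  rfl

end gp

section amalgam

variable {V : Type} {Λ : SimpleGraph V} {A : V → Type} [∀ v, Group (A v)]

/-- the structure of the subgroup of a star -/
theorem gstar {v : V} {L : Set V} (hL : ∀ w ∈ L, Λ.Adj v w) (x : GrP Λ A)
    (hx : x ∈ gsub Λ A (insert v L)) : ∃ l ∈ gsub Λ A L, ∃ a : A v, x = l * GrP.of Λ A v a := by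
  have hcom : ∀ l ∈ gsub Λ A L, ∀ a : A v, GrP.of Λ A v a * l = l * GrP.of Λ A v a := by
    intro l hl a
    have h1 : gsub Λ A L ≤ Subgroup.centralizer {GrP.of Λ A v a} := by
      rw [gsub, Subgroup.closure_le]
      rintro _ ⟨w, hw, b, rfl⟩
      rw [SetLike.mem_coe, Subgroup.mem_centralizer_singleton_iff]
      exact gcomm (hL w hw).symm b a
    have h2 := Subgroup.mem_centralizer_singleton_iff.1 (h1 hl)
    exact h2.symm
  induction hx using Subgroup.closure_induction with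
  | mem x hx =>
    obtain ⟨w, hw, a, rfl⟩ := hx
    rcases hw with rfl | hw
    · exact ⟨1, Subgroup.one_mem _, a, (one_mul _).symm⟩
    · exact ⟨GrP.of Λ A w a, gsub_of hw a, 1, by rw [map_one, mul_one]⟩
  | one => exact ⟨1, Subgroup.one_mem _, 1, by rw [map_one, mul_one]⟩
  | mul x y _ _ hx hy =>
    obtain ⟨l, hl, a, rfl⟩ := hx
    obtain ⟨l', hl', a', rfl⟩ := hy
    refine ⟨l * l', Subgroup.mul_mem _ hl hl', a * a', ?_⟩
    rw [map_mul, mul_assoc, ← mul_assoc (GrP.of Λ A v a), hcom l' hl' a]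
    simp only [mul_assoc]
  | inv x _ hx =>
    obtain ⟨l, hl, a, rfl⟩ := hx
    refine ⟨l⁻¹, Subgroup.inv_mem _ hl, a⁻¹, ?_⟩
    rw [mul_inv_rev, map_inv]
    have := hcom l⁻¹ (Subgroup.inv_mem _ hl) a⁻¹
    rw [map_inv] at this
    exact this

/-- homomorphisms of the subgroup of `S` and of the star of `v` extend -/
theorem guniv {v : V} {S L : Set V} (hv : v ∉ S) (hL : L = {w | w ∈ S ∧ Λ.Adj v w}) {H : Type}
    [Group H] (fS : ↥(gsub Λ A S) →* H) (gB : ↥(gsub Λ A (insert v L)) →* H)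
    (hfg : ∀ x (h1 : x ∈ gsub Λ A S) (h2 : x ∈ gsub Λ A (insert v L)), x ∈ gsub Λ A L →
      fS ⟨x, h1⟩ = gB ⟨x, h2⟩) :
    ∃ Φ : GrP Λ A →* H, (∀ x (hx : x ∈ gsub Λ A S), Φ x = fS ⟨x, hx⟩) ∧
      ∀ x (hx : x ∈ gsub Λ A (insert v L)), Φ x = gB ⟨x, hx⟩ := by
  classical
  have hLS : ∀ w ∈ L, w ∈ S := by
    intro w hw
    rw [hL] at hw
    exact hw.1
  have hex : ∀ w, ∃ φ : A w →* H,
      (∀ (h : w ∈ S) (a : A w), φ a = fS ⟨GrP.of Λ A w a, gsub_of h a⟩) ∧
      (∀ (_ : w = v) (h : w ∈ insert v L) (a : A w), φ a = gB ⟨GrP.of Λ A w a, gsub_of h a⟩) ∧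
      (w ∉ S → w ≠ v → φ = 1) := by
    intro w
    by_cases h : w ∈ S
    · refine ⟨fS.comp (MonoidHom.mk' (fun a => ⟨GrP.of Λ A w a, gsub_of h a⟩) ?_), ?_, ?_, ?_⟩
      · intro a b
        apply Subtype.ext
        exact map_mul _ _ _
      · intro _ a
        rfl
      · intro h'
        exact absurd (h' ▸ h) hv
      · intro h'
        exact absurd h h'
    · by_cases h' : w ∈ insert v L
      · refine ⟨gB.comp (MonoidHom.mk' (fun a => ⟨GrP.of Λ A w a, gsub_of h' a⟩) ?_), ?_, ?_, ?_⟩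
        · intro a b
          apply Subtype.ext
          exact map_mul _ _ _
        · intro h''
          exact absurd h'' h
        · intro _ _ a
          rfl
        · intro _ h2
          rcases h' with h3 | h3
          · exact absurd h3 h2
          · exact absurd (hLS w h3) h
      · refine ⟨1, ?_, ?_, ?_⟩
        · intro h''
          exact absurd h'' h
        · intro _ h2
          exact absurd h2 h'
        · intro _ _
          rfl
  choose φ hφS hφv' hφo using hex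
  have hφv : ∀ (a : A v), φ v a = gB ⟨GrP.of Λ A v a, gsub_of (Set.mem_insert _ _) a⟩ :=
    fun a => hφv' v rfl (Set.mem_insert _ _) a
  have hvw : ∀ w (hw : w ∈ S), Λ.Adj v w → ∀ (a : A v) (b : A w),
      φ v a * φ w b = φ w b * φ v a := by
    intro w hw hadj a b
    have hwL : w ∈ L := by rw [hL, Set.mem_ofPred_eq]; exact And.intro hw hadj
    have h1 : φ w b = gB ⟨GrP.of Λ A w b, gsub_of (Set.mem_insert_of_mem _ hwL) b⟩ := by
      rw [hφS w hw b]
      exact hfg (GrP.of Λ A w b) (gsub_of hw b) (gsub_of (Set.mem_insert_of_mem _ hwL) b) (gsub_of hwL b)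
    rw [h1, hφv a]
    have h3 : (⟨GrP.of Λ A v a, gsub_of (Set.mem_insert _ _) a⟩ : ↥(gsub Λ A (insert v L))) *
        ⟨GrP.of Λ A w b, gsub_of (Set.mem_insert_of_mem _ hwL) b⟩ = ⟨GrP.of Λ A w b, gsub_of (Set.mem_insert_of_mem _ hwL) b⟩ *
        ⟨GrP.of Λ A v a, gsub_of (Set.mem_insert _ _) a⟩ := Subtype.ext (gcomm hadj a b)
    exact (map_mul gB _ _).symm.trans ((congrArg gB h3).trans (map_mul gB _ _))
  obtain ⟨Φ, hΦ⟩ : ∃ Φ : GrP Λ A →* H, ∀ w (a : A w), Φ (GrP.of Λ A w a) = φ w a := by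
    refine ⟨glift φ ?_, fun w a => glift_of φ _ w a⟩
    intro w w' hadj a b
    by_cases hw : w ∈ S
    · by_cases hw' : w' ∈ S
      · rw [hφS w hw a, hφS w' hw' b]
        have h3 : (⟨GrP.of Λ A w a, gsub_of hw a⟩ : ↥(gsub Λ A S)) *
            ⟨GrP.of Λ A w' b, gsub_of hw' b⟩ = ⟨GrP.of Λ A w' b, gsub_of hw' b⟩ *
            ⟨GrP.of Λ A w a, gsub_of hw a⟩ := Subtype.ext (gcomm hadj a b)
        exact (map_mul fS _ _).symm.trans ((congrArg fS h3).trans (map_mul fS _ _))
      · by_cases hv' : w' = v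
        · subst hv'
          exact (hvw w hw hadj.symm b a).symm
        · rw [hφo w' hw' hv', MonoidHom.one_apply, mul_one, one_mul]
    · by_cases hv' : w = v
      · subst hv'
        by_cases hw' : w' ∈ S
        · exact hvw w' hw' hadj a b
        · have hne : w' ≠ w := fun h => Λ.ne_of_adj hadj h.symm
          rw [hφo w' hw' hne, MonoidHom.one_apply, mul_one, one_mul]
      · rw [hφo w hw hv', MonoidHom.one_apply, mul_one, one_mul]
  refine ⟨Φ, ?_, ?_⟩
  · intro x hx
    have h1 := gsub_eq (Λ := Λ) (A := A) (S := S) (f := Φ) (g := fS.comp (gret Λ A S)) (by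
      intro w hw a
      have h2 : gret Λ A S (GrP.of Λ A w a) = ⟨GrP.of Λ A w a, gsub_of hw a⟩ :=
        Subtype.ext (gret_of_mem hw a)
      rw [MonoidHom.comp_apply, h2, hΦ, hφS w hw a]) x hx
    have h3 : gret Λ A S x = ⟨x, hx⟩ := Subtype.ext (gret_eq x hx)
    rw [h1, MonoidHom.comp_apply, h3]
  · intro x hx
    have h1 := gsub_eq (Λ := Λ) (A := A) (S := insert v L) (f := Φ)
      (g := gB.comp (gret Λ A (insert v L))) (by
      intro w hw a
      have h2 : gret Λ A (insert v L) (GrP.of Λ A w a) = ⟨GrP.of Λ A w a, gsub_of hw a⟩ :=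
        Subtype.ext (gret_of_mem hw a)
      rw [MonoidHom.comp_apply, h2, hΦ]
      rcases hw with rfl | hw
      · exact hφv a
      · rw [hφS w (hLS w hw) a]
        exact hfg (GrP.of Λ A w a) (gsub_of (hLS w hw) a) (gsub_of (Set.mem_insert_of_mem _ hw) a)
          (gsub_of hw a)) x hx
    have h3 : gret Λ A (insert v L) x = ⟨x, hx⟩ := Subtype.ext (gret_eq x hx)
    rw [h1, MonoidHom.comp_apply, h3]

/-- the subgroup of `S ∪ {v}` is an amalgamated product -/
theorem gamg {v : V} {S L : Set V} (hv : v ∉ S) (hL : L = {w | w ∈ S ∧ Λ.Adj v w}) :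
    Amg ((gsub Λ A S).subgroupOf (gsub Λ A (insert v S)))
      ((gsub Λ A (insert v L)).subgroupOf (gsub Λ A (insert v S)))
      ((gsub Λ A L).subgroupOf (gsub Λ A (insert v S))) := by
  have hLS : L ⊆ S := by
    intro w hw
    rw [hL] at hw
    exact hw.1
  have hSi : gsub Λ A S ≤ gsub Λ A (insert v S) := gsub_mono (Set.subset_insert _ _)
  have hLi : gsub Λ A (insert v L) ≤ gsub Λ A (insert v S) :=
    gsub_mono (Set.insert_subset_insert hLS)
  refine ⟨?_, ?_, ?_, ?_⟩
  · intro x hx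
    exact gsub_mono hLS hx
  · intro x hx
    exact gsub_mono (Set.subset_insert _ _) hx
  · rw [eq_top_iff]
    rintro ⟨x, hx⟩ -
    obtain ⟨J, hJ⟩ : ∃ J : Subgroup ↥(gsub Λ A (insert v S)),
      J = (gsub Λ A S).subgroupOf (gsub Λ A (insert v S)) ⊔
        (gsub Λ A (insert v L)).subgroupOf (gsub Λ A (insert v S)) := ⟨_, rfl⟩
    rw [← hJ]
    have h1 : gsub Λ A (insert v S) ≤ J.map (gsub Λ A (insert v S)).subtype := by
      conv_lhs => rw [gsub]
      rw [Subgroup.closure_le]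
      rintro _ ⟨w, hw, a, rfl⟩
      refine ⟨⟨_, gsub_of hw a⟩, ?_, rfl⟩
      rw [hJ]
      rcases hw with rfl | hw
      · exact Subgroup.mem_sup_right (gsub_of (Set.mem_insert _ _) a)
      · exact Subgroup.mem_sup_left (gsub_of hw a)
    obtain ⟨y, hy, hyx⟩ := h1 hx
    have : y = ⟨x, hx⟩ := Subtype.ext hyx
    rwa [this] at hy
  · intro H _ f g hfg
    obtain ⟨Φ, h1, h2⟩ := guniv hv hL
      (f.comp (MonoidHom.mk' (fun x : ↥(gsub Λ A S) => ⟨⟨x.1, hSi x.2⟩, x.2⟩) (fun _ _ => rfl)))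
      (g.comp (MonoidHom.mk' (fun x : ↥(gsub Λ A (insert v L)) => ⟨⟨x.1, hLi x.2⟩, x.2⟩)
        (fun _ _ => rfl))) (by
        intro x hx1 hx2 hx3
        exact hfg ⟨x, hSi hx1⟩ hx3)
    refine ⟨Φ.comp (gsub Λ A (insert v S)).subtype, ?_, ?_⟩
    · rintro ⟨⟨x, hx⟩, hx'⟩
      exact h1 x hx'
    · rintro ⟨⟨x, hx⟩, hx'⟩
      exact h2 x hx'

end amalgam

theorem gp_fin {C : ∀ (G : Type) [Group G], Prop} (hC : ClosedE C) (V : Type) (Λ : SimpleGraph V)
    (A : V → Type) [∀ v, Group (A v)] (hA : ∀ v, C (A v)) (S : Set V) (hS : S.Finite) :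
    C ↥(gsub Λ A S) := by
  classical
  induction S, hS using Set.Finite.induction_on with
  | empty =>
    have h1 : gsub Λ A (∅ : Set V) = ⊥ := by
      rw [gsub, Subgroup.closure_eq_bot_iff]
      rintro x ⟨v, hv, _⟩
      exact hv.elim
    rw [h1]
    exact Pool.Agent.Y430.SS.of_finite hC.base _ inferInstance
  | @insert v S hv hS ih =>
    obtain ⟨L, hL⟩ : ∃ L : Set V, L = {w | w ∈ S ∧ Λ.Adj v w} := ⟨_, rfl⟩
    have hLS : L ⊆ S := by
      intro w hw
      rw [hL] at hw
      exact hw.1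
    have hAM : S_AM := Pool.Agent.Y417.FJ.t_am (Pool.Agent.Y961.FJ.t_perm Pool.Agent.Y529.FJ.t_ext)
    refine hAM C hC ↥(gsub Λ A (insert v S)) (↥(gsub Λ A S) × A v) _ _ _ (gamg hv hL)
      (((gret Λ A S).prod (gvert Λ A v)).comp (gsub Λ A (insert v S)).subtype) ?_ ?_
      (hC.base.prod _ _ ih (hA v))
    · rintro ⟨x, hx⟩ hxA hx1
      have h1 : gret Λ A S x = 1 := congrArg Prod.fst hx1
      apply Subtype.ext
      have h2 := gret_eq (S := S) x hxA
      rw [h1] at h2
      exact h2.symm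
    · rintro ⟨x, hx⟩ hxB hx1
      obtain ⟨l, hl, a, hla⟩ := gstar (fun w hw => by rw [hL] at hw; exact hw.2) x hxB
      have h1 : gret Λ A S x = 1 := congrArg Prod.fst hx1
      have h2 : gvert Λ A v x = 1 := congrArg Prod.snd hx1
      rw [hla, map_mul, gret_of_not hv, mul_one] at h1
      have hl1 : l = 1 := by
        have h3 := gret_eq (S := S) l (gsub_mono hLS hl)
        rw [h1] at h3
        exact h3.symm
      rw [hla, hl1, one_mul, gvert_of] at h2
      apply Subtype.ext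
      show x = 1
      rw [hla, hl1, h2, map_one, mul_one]

/-- every element is in the subgroup of a finite set of vertices -/
theorem gsupp {V : Type} (Λ : SimpleGraph V) (A : V → Type) [∀ v, Group (A v)] (x : GrP Λ A) :
    ∃ S : Finset V, x ∈ gsub Λ A (S : Set V) := by
  classical
  obtain ⟨y, rfl⟩ := QuotientGroup.mk_surjective x
  induction y using Monoid.CoprodI.induction_on with
  | one => exact ⟨∅, Subgroup.one_mem _⟩
  | of v a => exact ⟨{v}, gsub_of (by simp) a⟩
  | mul x y hx hy =>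
    obtain ⟨S, hS⟩ := hx
    obtain ⟨T, hT⟩ := hy
    refine ⟨S ∪ T, ?_⟩
    rw [QuotientGroup.mk_mul]
    refine Subgroup.mul_mem _ (gsub_mono ?_ hS) (gsub_mono ?_ hT)
    · rw [Finset.coe_union]; exact Set.subset_union_left
    · rw [Finset.coe_union]; exact Set.subset_union_right

/-- graph products -/
theorem gp : S_GP := by
  classical
  intro C hC V Λ A _ hA
  refine Pool.Agent.Y430.SS.of_directed hC.base (GrP Λ A) (Finset V)
    (fun S T => ⟨S ∪ T, Finset.subset_union_left, Finset.subset_union_right⟩)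
    (fun S => gsub Λ A (S : Set V)) (fun S T h => gsub_mono (by exact_mod_cast h))
    (gsupp Λ A) (fun S => gp_fin hC V Λ A hA _ S.finite_toSet)

end Q30.FJ
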