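import Pool.Agent.Q30.FJ.Emb2

/-!
# Sequences of groups
-/

set_option autoImplicit false

namespace Q30.FJ

open Pool.Agent.Y110.FJ
open Pool.Agent.Y462.SS (Closed Wr)

section sum

variable (G : ℕ → Type) [∀ i, Group (G i)]

/-- the sequences which are trivial from `n` on -/
def upTo (n : ℕ) : Subgroup (∀ i, G i) where
  carrier := {f | ∀ i, n ≤ i → f i = 1}
  one_mem' := fun _ _ => rfl
  mul_mem' {f g} hf hg i hi := by rw [Pi.mul_apply, hf i hi, hg i hi, mul_one]
  inv_mem' {f} hf i hi := by rw [Pi.inv_apply, hf i hi, inv_one]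

/-- the direct sum -/
def dsum : Subgroup (∀ i, G i) where
  carrier := {f | ∃ n, ∀ i, n ≤ i → f i = 1}
  one_mem' := ⟨0, fun _ _ => rfl⟩
  mul_mem' := by
    rintro f g ⟨n, hn⟩ ⟨m, hm⟩
    refine ⟨max n m, fun i hi => ?_⟩
    rw [Pi.mul_apply, hn i ((le_max_left _ _).trans hi), hm i ((le_max_right _ _).trans hi), mul_one]
  inv_mem' := by
    rintro f ⟨n, hn⟩
    exact ⟨n, fun i hi => by rw [Pi.inv_apply, hn i hi, inv_one]⟩

variable {G}
variable {C : ∀ (G : Type) [Group G], Prop}

theorem upTo_mem (hC : Closed C) (hG : ∀ i, C (G i)) (n : ℕ) : C (upTo G n) := by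
  classical
  induction n with
  | zero =>
    refine hC.of_injective _ (Multiplicative ℤ) 1 ?_ hC.int
    intro f g _
    apply Subtype.ext
    funext i
    rw [f.2 i (Nat.zero_le _), g.2 i (Nat.zero_le _)]
  | succ n ih =>
    refine hC.of_injective _ (upTo G n × G n) (MonoidHom.mk' (fun f =>
      ((⟨fun i => if n ≤ i then 1 else f.1 i, fun i hi => if_pos hi⟩ : upTo G n), f.1 n)) ?_) ?_
      (hC.prod _ _ ih (hG n))
    · intro f g
      apply Prod.ext
      · apply Subtype.ext
        funext i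
        show (if n ≤ i then 1 else f.1 i * g.1 i) =
          (if n ≤ i then 1 else f.1 i) * (if n ≤ i then 1 else g.1 i)
        split_ifs
        · rw [mul_one]
        · rfl
      · rfl
    · intro f g hfg
      have h1 := congrArg (fun z => z.1.1) hfg
      have h2 : f.1 n = g.1 n := congrArg (fun z => z.2) hfg
      apply Subtype.ext
      funext i
      rcases lt_trichotomy i n with hi | hi | hi
      · have h3 := congrFun h1 i
        have h4 : (if n ≤ i then 1 else f.1 i) = (if n ≤ i then 1 else g.1 i) := h3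
        rwa [if_neg (not_le_of_gt hi), if_neg (not_le_of_gt hi)] at h4
      · subst hi
        exact h2
      · rw [f.2 i hi, g.2 i hi]

theorem dsum_mem (hC : Closed C) (hG : ∀ i, C (G i)) : C (dsum G) := by
  refine Pool.Agent.Y430.SS.t_union C hC (dsum G) (fun n => (upTo G n).subgroupOf (dsum G))
    ?_ ?_ ?_
  · intro n m hnm f hf
    exact fun i hi => hf i (hnm.trans hi)
  · rintro ⟨f, n, hn⟩
    exact ⟨n, hn⟩
  · intro n
    refine hC.of_injective _ (upTo G n) (MonoidHom.mk' (fun f => ⟨f.1.1, f.2⟩) ?_) ?_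
      (upTo_mem hC hG n)
    · intro f g
      rfl
    · intro f g hfg
      have h1 := congrArg Subtype.val hfg
      exact Subtype.ext (Subtype.ext h1)

theorem dsum_countable [∀ i, Countable (G i)] : Countable (dsum G) := by
  classical
  have h0 : ∀ f : dsum G, ∃ n, ∀ i, n ≤ i → f.1 i = 1 := fun f => f.2
  choose n hn using h0
  let φ : dsum G → Σ n : ℕ, (∀ i : Fin n, G i) := fun f => ⟨n f, fun i => f.1 i⟩
  have hφ : Function.Injective φ := by
    intro f g hfg
    have h1 : n f = n g := congrArg Sigma.fst hfg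
    have h2 : ∀ (m m' : ℕ) (a : ∀ i : Fin m, G i) (b : ∀ i : Fin m', G i),
        (⟨m, a⟩ : Σ n : ℕ, (∀ i : Fin n, G i)) = ⟨m', b⟩ → ∀ (i : ℕ) (h : i < m) (h' : i < m'),
        a ⟨i, h⟩ = b ⟨i, h'⟩ := by
      intro m m' a b hab
      cases hab
      intro i h h'
      rfl
    apply Subtype.ext
    funext i
    by_cases hi : i < n f
    · exact h2 _ _ _ _ hfg i hi (h1 ▸ hi)
    · rw [hn f i (not_lt.1 hi), hn g i (h1 ▸ not_lt.1 hi)]
  exact hφ.countable

theorem dsum_tf (hG : ∀ i, TorsionFree (G i)) : TorsionFree (dsum G) := by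
  intro f n hn hf
  apply Subtype.ext
  funext i
  apply hG i _ n hn
  have h1 := congrArg (fun z : dsum G => z.1 i) hf
  exact h1

/-- **embedding theorem** for sequences of groups -/
theorem embed_seq (hC : ClosedE C) [∀ i, Countable (G i)] (hG : ∀ i, C (G i)) :
    ∃ (Γ : Type) (_ : Group Γ) (a b : Γ), C Γ ∧ Subgroup.closure {a, b} = ⊤ ∧
      (∀ i, ∃ ι : G i →* Γ, Function.Injective ι) ∧
      ((∀ i, TorsionFree (G i)) → TorsionFree Γ) := by
  classical
  have := dsum_countable (G := G)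
  obtain ⟨Γ, _, a, b, ι, hΓ, hab, hι, htf⟩ := embed hC (dsum G) (dsum_mem hC.base hG)
  refine ⟨Γ, inferInstance, a, b, hΓ, hab, ?_, fun h => htf (dsum_tf h)⟩
  intro i
  have hmem : ∀ g : G i, Pi.mulSingle i g ∈ dsum G := by
    intro g
    refine ⟨i + 1, fun j hj => ?_⟩
    exact Pi.mulSingle_eq_of_ne (by omega) g
  refine ⟨ι.comp (MonoidHom.mk' (fun g => ⟨Pi.mulSingle i g, hmem g⟩) ?_), ?_⟩
  · intro g g'
    apply Subtype.ext
    exact Pi.mulSingle_mul i g g'
  · intro g g' h
    have h1 := congrArg Subtype.val (hι h)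
    exact Pi.mulSingle_injective i h1

end sum

end Q30.FJ
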