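import Pool.Agent.Q30.FJ.Lin2

/-!
# Linear groups of degree two over rings with a degree function: the main theorem
-/

set_option autoImplicit false

namespace Q30.FJ

open Pool.Agent.Y110.FJ
open Pool.Agent.Y462.SS (Closed Wr)

variable {C : ∀ (G : Type) [Group G], Prop}

/-- rings with a degree function and coefficients in a subring -/
structure DR {A R : Type} [Ring A] [Ring R] (c : A →+* R) (M : Type) where
  /-- coefficients -/
  co : R →+ (M →₀ A)
  co_mul : ∀ a r d m, co (c a * r * c d) m = a * co r m * d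
  co_inj : Function.Injective co
  /-- the base point -/
  m0 : M
  co_c : ∀ a, co (c a) m0 = a
  /-- degree -/
  deg : R → ℕ
  deg_c : ∀ a, deg (c a) = 0
  deg_add : ∀ r s, deg s < deg r → deg (r + s) = deg r
  deg_add_le : ∀ r s, deg (r + s) ≤ max (deg r) (deg s)
  deg_mul : ∀ r s, r ≠ 0 → s ≠ 0 → deg (r * s) = deg r + deg s
  deg_pos : ∀ r, co r m0 = 0 → r ≠ 0 → 0 < deg r

variable {A R M : Type} [Ring A] [Ring R] {c : A →+* R}

/-- constant matrices -/
def cmat (c : A →+* R) : GL (Fin 2) A →* GL (Fin 2) R :=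
  Units.map (c.mapMatrix : Matrix (Fin 2) (Fin 2) A →+* Matrix (Fin 2) (Fin 2) R).toMonoidHom

theorem cmat_apply (g : GL (Fin 2) A) (i j : Fin 2) :
    ((cmat c g : GL (Fin 2) R) : Matrix (Fin 2) (Fin 2) R) i j =
      c ((g : Matrix (Fin 2) (Fin 2) A) i j) := rfl

namespace DR

variable (D : DR c M)

include D in
theorem c_inj : Function.Injective c := by
  intro a b h
  rw [← D.co_c a, ← D.co_c b, h]

include D in
theorem cmat_inj : Function.Injective (cmat c) := by
  intro g h hgh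
  apply Units.ext
  ext i j
  have h1 := congrArg (fun x : GL (Fin 2) R => (x : Matrix (Fin 2) (Fin 2) R) i j) hgh
  have h2 : c ((g : Matrix (Fin 2) (Fin 2) A) i j) = c ((h : Matrix (Fin 2) (Fin 2) A) i j) := h1
  exact D.c_inj h2

/-- the elementary matrices without constant term -/
def Up : Subgroup (GL (Fin 2) R) where
  carrier := {g | ∃ r, D.co r D.m0 = 0 ∧ g = el r}
  one_mem' := ⟨0, by rw [map_zero]; rfl, el_zero.symm⟩
  mul_mem' := by
    rintro _ _ ⟨r, hr, rfl⟩ ⟨s, hs, rfl⟩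
    exact ⟨r + s, by rw [map_add, Finsupp.add_apply, hr, hs, add_zero], (el_add r s).symm⟩
  inv_mem' := by
    rintro _ ⟨r, hr, rfl⟩
    exact ⟨-r, by rw [map_neg, Finsupp.neg_apply, hr, neg_zero], (el_neg r).symm⟩

theorem mem_Up {g : GL (Fin 2) R} : g ∈ D.Up ↔ ∃ r, D.co r D.m0 = 0 ∧ g = el r := Iff.rfl

variable [NoZeroDivisors A] [NoZeroDivisors R]

/-- the constant upper triangular matrices -/
def Bp (_ : DR c M) : Subgroup (GL (Fin 2) R) :=
  (cmat c).range ⊓ upper _

theorem mem_Bp {b : GL (Fin 2) R} (hb : b ∈ D.Bp) : ∃ b0 ∈ upper A, b = cmat c b0 := by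
  obtain ⟨⟨b0, rfl⟩, h2⟩ := hb
  refine ⟨b0, ?_, rfl⟩
  have h3 : c ((b0 : Matrix (Fin 2) (Fin 2) A) 1 0) = 0 := h2
  exact D.c_inj (h3.trans (map_zero _).symm)

omit D in
theorem cmat_upper {b0 : GL (Fin 2) A} (hb : b0 ∈ upper A) : cmat c b0 ∈ upper _ := by
  show c ((b0 : Matrix (Fin 2) (Fin 2) A) 1 0) = 0
  have : (b0 : Matrix (Fin 2) (Fin 2) A) 1 0 = 0 := hb
  rw [this, map_zero]

omit D in
theorem cmat_el {b0 : GL (Fin 2) A} (hb : b0 ∈ upper A) (r : R) :
    cmat c b0 * el r * (cmat c b0)⁻¹ = el (c ((b0 : Matrix (Fin 2) (Fin 2) A) 0 0) *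
      r * c ((↑b0⁻¹ : Matrix (Fin 2) (Fin 2) A) 1 1)) := by
  have h1 := upper_el (cmat_upper (c := c) hb) r
  rw [← map_inv, cmat_apply, cmat_apply] at h1
  rw [← map_inv]
  exact h1

theorem Bp_Maps {b : GL (Fin 2) R} (hb : b ∈ D.Bp) : Maps b D.Up D.Up := by
  have h0 : ∀ b ∈ D.Bp, ∀ x ∈ D.Up, b * x * b⁻¹ ∈ D.Up := by
    intro b hb x hx
    obtain ⟨b0, hb0, rfl⟩ := D.mem_Bp hb
    obtain ⟨r, hr, rfl⟩ := hx
    rw [cmat_el hb0]
    refine ⟨_, ?_, rfl⟩
    rw [D.co_mul, hr, mul_zero, zero_mul]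
  intro x
  refine ⟨fun hx => h0 b hb x hx, fun hx => ?_⟩
  have h1 := h0 b⁻¹ (D.Bp.inv_mem hb) _ hx
  have h2 : b⁻¹ * (b * x * b⁻¹) * b⁻¹⁻¹ = x := by group
  rwa [h2] at h1

/-- conjugation by constant upper triangular matrices is realized -/
theorem Bp_CR (hC : Closed C) (hA : C (GL (Fin 2) A)) {b : GL (Fin 2) R}
    (hb : b ∈ D.Bp) : CR C b D.Up := by
  classical
  obtain ⟨b0, hb0, rfl⟩ := D.mem_Bp hb
  have hval : ∀ u : D.Up, ∃ r, (u : GL (Fin 2) R) = el r := fun u =>
    ⟨_, u.2.choose_spec.2⟩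
  choose ρ hρ using hval
  have hρm : ∀ u v, ρ (u * v) = ρ u + ρ v := by
    intro u v
    apply el_inj
    rw [el_add, ← hρ, ← hρ, ← hρ]
    rfl
  have hfin : ∀ u : D.Up, (fun o : Option M => match o with
      | none => (1 : GL (Fin 2) A)
      | some m => el (D.co (ρ u) m)) ∈ EvC M (GL (Fin 2) A) := by
    intro u
    refine ((D.co (ρ u)).support.finite_toSet.subset ?_ : Set.Finite _)
    intro m hm
    have hm' : el (D.co (ρ u) m) ≠ (1 : GL (Fin 2) A) := hm
    rw [Finset.mem_coe, Finsupp.mem_support_iff]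
    intro h0
    rw [h0, el_zero] at hm'
    exact hm' rfl
  have hconst : (fun _ : Option M => b0) ∈ EvC M (GL (Fin 2) A) := by
    show Set.Finite {m : M | b0 ≠ b0}
    simp
  refine ⟨EvC M (GL (Fin 2) A), inferInstance, MonoidHom.mk' (fun u => ⟨_, hfin u⟩) ?_,
    ⟨_, hconst⟩, EvC_mem hC hA, ?_, ?_⟩
  · intro u v
    apply Subtype.ext
    funext o
    cases o with
    | none => exact (one_mul 1).symm
    | some m =>
      show el (D.co (ρ (u * v)) m) = el (D.co (ρ u) m) * el (D.co (ρ v) m)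
      rw [hρm, map_add, Finsupp.add_apply, el_add]
  · intro u v huv
    have h1 : ρ u = ρ v := by
      apply D.co_inj
      ext m
      have h2 := congrFun (congrArg Subtype.val huv) (some m)
      exact el_inj h2
    apply Subtype.ext
    rw [hρ u, hρ v, h1]
  · intro a a' haa
    have h1 : ρ a' = c ((b0 : Matrix (Fin 2) (Fin 2) A) 0 0) * ρ a *
        c ((↑b0⁻¹ : Matrix (Fin 2) (Fin 2) A) 1 1) := by
      apply el_inj
      rw [← cmat_el hb0, ← hρ, ← hρ]
      exact haa
    apply Subtype.ext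
    funext o
    cases o with
    | none =>
      show (1 : GL (Fin 2) A) = b0 * 1 * b0⁻¹
      group
    | some m =>
      show el (D.co (ρ a') m) = b0 * el (D.co (ρ a) m) * b0⁻¹
      rw [upper_el hb0, h1, D.co_mul]

/-- the ping-pong -/
theorem ping (hU : D.Up ≠ ⊥) : Ping (cmat c).range D.Up D.Bp
    {z : V2 R | D.deg z.2 < D.deg z.1} {z : V2 R | ∃ a b : A, z = (c a, c b)}
    ((c 0, c 1) : R × R) := by
  have hd0 : D.deg 0 = 0 := by rw [← map_zero c, D.deg_c]
  have hle : ∀ (a : A) (s : R), D.deg (c a * s) ≤ D.deg s := by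
    intro a s
    by_cases ha : c a = 0
    · rw [ha, zero_mul, hd0]
      exact Nat.zero_le _
    · by_cases hs : s = 0
      · rw [hs, mul_zero]
      · rw [D.deg_mul _ _ ha hs, D.deg_c, zero_add]
  have key : ∀ q ∈ (cmat c).range, q ∉ D.Bp → ∀ z : V2 R,
      D.deg z.2 < D.deg z.1 → D.deg (q • z).2 = D.deg z.1 ∧
      D.deg (q • z).1 ≤ D.deg z.1 := by
    rintro _ ⟨q, rfl⟩ hq z hz
    have h1 : (q : Matrix (Fin 2) (Fin 2) A) 1 0 ≠ 0 := by
      intro h0
      apply hq
      refine ⟨⟨q, rfl⟩, ?_⟩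
      exact cmat_upper h0
    have hz0 : z.1 ≠ 0 := by
      intro h0
      rw [h0, hd0] at hz
      exact Nat.not_lt_zero _ hz
    have h2 : D.deg (c ((q : Matrix (Fin 2) (Fin 2) A) 1 0) * z.1) = D.deg z.1 := by
      rw [D.deg_mul _ _ _ hz0, D.deg_c, zero_add]
      intro h0
      exact h1 (D.c_inj (h0.trans (map_zero _).symm))
    have hcalc : cmat c q • z =
      ((c ((q : Matrix (Fin 2) (Fin 2) A) 0 0) * z.1 +
        c ((q : Matrix (Fin 2) (Fin 2) A) 0 1) * z.2,
        c ((q : Matrix (Fin 2) (Fin 2) A) 1 0) * z.1 +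
        c ((q : Matrix (Fin 2) (Fin 2) A) 1 1) * z.2) : R × R) := rfl
    rw [hcalc]
    constructor
    · show D.deg (c ((q : Matrix (Fin 2) (Fin 2) A) 1 0) * z.1 +
        c ((q : Matrix (Fin 2) (Fin 2) A) 1 1) * z.2) = _
      rw [D.deg_add, h2]
      rw [h2]
      exact (hle _ _).trans_lt hz
    · show D.deg (c ((q : Matrix (Fin 2) (Fin 2) A) 0 0) * z.1 +
        c ((q : Matrix (Fin 2) (Fin 2) A) 0 1) * z.2) ≤ _
      exact (D.deg_add_le _ _).trans
        (max_le (hle _ _) ((hle _ _).trans hz.le))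
  have hel : ∀ (r : R) (z : V2 R), el r • z = ((z.1 + r * z.2, z.2) : R × R) := by
    intro r z
    rw [vec_smul]
    show ((1 * z.1 + r * z.2, 0 * z.1 + 1 * z.2) : R × R) = _
    rw [one_mul, zero_mul, zero_add, one_mul]
  refine ⟨inf_le_left, fun b hb => D.Bp_Maps hb, ?_, ?_, ?_, ?_, ⟨0, 1, rfl⟩, ?_, hU⟩
  · intro u hu hu1 q hq hqB x hx
    obtain ⟨r, hr, rfl⟩ := hu
    have hr0 : r ≠ 0 := by
      rintro rfl
      exact hu1 el_zero
    have hx' : D.deg x.2 < D.deg x.1 := hx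
    obtain ⟨h1, h2⟩ := key q hq hqB x hx'
    rw [mul_smul]
    obtain ⟨z, hz⟩ : ∃ z, z = q • x := ⟨_, rfl⟩
    rw [← hz] at h1 h2 ⊢
    rw [hel]
    show D.deg z.2 < D.deg (z.1 + r * z.2)
    have hz0 : z.2 ≠ 0 := by
      intro h0
      rw [h0, hd0] at h1
      omega
    have h3 : D.deg (r * z.2) = D.deg r + D.deg z.2 := D.deg_mul _ _ hr0 hz0
    have h4 := D.deg_pos r hr hr0
    rw [add_comm, D.deg_add]
    · omega
    · omega
  · intro q hq hqB x hx hx2
    have hx' : D.deg x.2 < D.deg x.1 := hx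
    obtain ⟨h1, h2⟩ := key q hq hqB x hx'
    have hx3 : D.deg (q • x).2 < D.deg (q • x).1 := hx2
    omega
  · rintro _ ⟨q, rfl⟩ _ ⟨a, b, rfl⟩
    refine ⟨(q : Matrix (Fin 2) (Fin 2) A) 0 0 * a + (q : Matrix (Fin 2) (Fin 2) A) 0 1 * b,
      (q : Matrix (Fin 2) (Fin 2) A) 1 0 * a + (q : Matrix (Fin 2) (Fin 2) A) 1 1 * b, ?_⟩
    rw [map_add, map_mul, map_mul, map_add, map_mul, map_mul]
    rfl
  · rintro _ ⟨a, b, rfl⟩ h1
    have h2 : D.deg (c b) < D.deg (c a) := h1
    rw [D.deg_c, D.deg_c] at h2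
    exact lt_irrefl _ h2
  · rintro _ ⟨r, hr, rfl⟩ hu1
    have hr0 : r ≠ 0 := by
      rintro rfl
      exact hu1 el_zero
    have h0 := hel r (c 0, c 1)
    refine (congrArg (fun z : V2 R => D.deg z.2 < D.deg z.1) h0).mpr ?_
    show D.deg (c 1) < D.deg (c 0 + r * c 1)
    rw [map_zero, zero_add, D.deg_c, map_one, mul_one]
    exact D.deg_pos r hr hr0

/-- the elementary group -/
def Elem (c : A →+* R) : Subgroup (GL (Fin 2) R) :=
  Subgroup.closure {g | (∃ h : GL (Fin 2) A, ∀ i j, g.1 i j = c (h.1 i j)) ∨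
    ∃ (i j : Fin 2) (r : R), i ≠ j ∧ g.1 = 1 + Matrix.single i j r}

omit [NoZeroDivisors A] [NoZeroDivisors R] in
theorem Elem_le (T : Subgroup (GL (Fin 2) R)) (hQT : (cmat c).range ≤ T) (hUT : D.Up ≤ T) :
    Elem c ≤ T := by
  have hel : ∀ r : R, el r ∈ T := by
    intro r
    have h1 : el r = el (r - c (D.co r D.m0)) * cmat c (el (D.co r D.m0)) := by
      have h2 : cmat c (el (D.co r D.m0)) = el (c (D.co r D.m0)) := by
        apply Units.ext
        ext i j
        rw [cmat_apply, el_val, el_val]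
        fin_cases i <;> fin_cases j <;> simp
      rw [h2, ← el_add, sub_add_cancel]
    rw [h1]
    refine T.mul_mem (hUT ⟨_, ?_, rfl⟩) (hQT ⟨_, rfl⟩)
    rw [map_sub, Finsupp.sub_apply, D.co_c, sub_self]
  unfold Elem
  rw [Subgroup.closure_le]
  rintro g (⟨h, hg⟩ | ⟨i, j, r, hij, hg⟩)
  · have h1 : g = cmat c h := by
      apply Units.ext
      ext i j
      exact hg i j
    rw [h1]
    exact hQT ⟨h, rfl⟩
  · -- the permutation matrix
    let w0 : GL (Fin 2) A := ⟨!![0, 1; 1, 0], !![0, 1; 1, 0], by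
      rw [Matrix.mul_fin_two]; ext i j; fin_cases i <;> fin_cases j <;> simp, by
      rw [Matrix.mul_fin_two]; ext i j; fin_cases i <;> fin_cases j <;> simp⟩
    have hw : ∀ r : R, ((cmat c w0 * el r * cmat c w0 : GL (Fin 2) R) :
        Matrix (Fin 2) (Fin 2) R) = !![1, 0; r, 1] := by
      intro r
      have h1 : ((cmat c w0 : GL (Fin 2) R) : Matrix (Fin 2) (Fin 2) R) = !![0, 1; 1, 0] := by
        ext i j
        rw [cmat_apply]
        fin_cases i <;> fin_cases j <;> simp [w0]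
      rw [Units.val_mul, Units.val_mul, h1, el_val, Matrix.mul_fin_two, Matrix.mul_fin_two]
      ext i j
      fin_cases i <;> fin_cases j <;> simp
    fin_cases i <;> fin_cases j
    · exact absurd rfl hij
    · have h1 : g = el r := by
        apply Units.ext
        rw [hg, el_val]
        ext i j
        fin_cases i <;> fin_cases j <;> simp [Matrix.single_apply, Matrix.one_apply]
      rw [h1]
      exact hel r
    · have h1 : g = cmat c w0 * el r * cmat c w0 := by
        apply Units.ext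
        rw [hg, hw]
        ext i j
        fin_cases i <;> fin_cases j <;> simp [Matrix.single_apply, Matrix.one_apply]
      rw [h1]
      exact T.mul_mem (T.mul_mem (hQT ⟨_, rfl⟩) (hel r)) (hQT ⟨_, rfl⟩)
    · exact absurd rfl hij

include D in
/-- the group generated by the constant and the elementary matrices -/
theorem Elem_mem (hF : ClosedF C) (hA : C (GL (Fin 2) A)) : C ↥(Elem c) := by
  have hQ : C (cmat c).range := hF.base.base.of_injective _ (GL (Fin 2) A)
    (MonoidHom.ofInjective D.cmat_inj).symm.toMonoidHom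
    (MonoidHom.ofInjective D.cmat_inj).symm.injective hA
  by_cases hU : D.Up = ⊥
  · have h2 := D.Elem_le _ le_rfl (hU ▸ bot_le)
    exact hF.base.base.of_injective _ _ (Subgroup.inclusion h2) (Subgroup.inclusion_injective h2) hQ
  · have h2 := D.Elem_le _ (le_sup_left : (cmat c).range ≤ (cmat c).range ⊔ D.Up) le_sup_right
    refine hF.base.base.of_injective _ _ (Subgroup.inclusion h2) (Subgroup.inclusion_injective h2) ?_
    exact (D.ping hU).mem_sup hF hQ (fun b hb => D.Bp_CR hF.base.base hA hb)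

end DR

end Q30.FJ
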