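import Pool.Agent.Q30.FJ.GrP

/-!
# Partial isomorphisms of finite graphs extend to automorphisms of finite graphs
-/

set_option autoImplicit false

namespace Q30.FJ

open Pool.Agent.Y110.FJ

/-- a partial injection of a finite set extends to a permutation -/
theorem pinj {S : Type} [Finite S] (D : Set S) (f : D → S) (hf : Function.Injective f) :
    ∃ π : Equiv.Perm S, ∀ x : D, π x = f x := by
  classical
  have := Fintype.ofFinite S
  let e : {x // x ∈ D} ≃ {y // y ∈ Set.range f} := Equiv.ofInjective f hf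
  refine ⟨e.extendSubtype, ?_⟩
  intro x
  rw [Equiv.extendSubtype_apply_of_mem e (x : S) x.2]
  rfl

theorem eppa : S_EPPA := by
  classical
  intro S hS Λ D f hf hadj
  obtain ⟨n, ⟨e⟩⟩ := Finite.exists_equiv_fin S
  obtain ⟨π, hπ⟩ := pinj D f hf
  -- the valuations
  obtain ⟨χ, hχ⟩ : ∃ χ : S → S → Bool, ∀ x y, χ x y = decide (e y < e x ∧ Λ.Adj x y) :=
    ⟨_, fun _ _ => rfl⟩
  have hχe : ∀ x y, x ≠ y → ((χ x y ^^ χ y x) = true ↔ Λ.Adj x y) := by
    intro x y hxy
    have hne : e x ≠ e y := fun h => hxy (e.injective h)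
    rw [hχ, hχ]
    rcases lt_or_gt_of_ne hne with h | h
    · have h1 : ¬ (e y < e x ∧ Λ.Adj x y) := fun h2 => absurd h2.1 (not_lt_of_gt h)
      rw [decide_eq_false h1, Bool.false_xor, decide_eq_true_iff]
      exact ⟨fun h2 => h2.2.symm, fun h2 => ⟨h, h2.symm⟩⟩
    · have h1 : ¬ (e x < e y ∧ Λ.Adj y x) := fun h2 => absurd h2.1 (not_lt_of_gt h)
      rw [decide_eq_false h1, Bool.xor_false, decide_eq_true_iff]
      exact ⟨fun h2 => h2.2, fun h2 => ⟨h, h2⟩⟩
  have hχd : ∀ x, χ x x = false := by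
    intro x
    rw [hχ]
    exact decide_eq_false (fun h => absurd h.1 (lt_irrefl _))
  -- the flips
  obtain ⟨F, hF1, hF2, hF3⟩ : ∃ F : S → S → Bool,
      (∀ x (_ : x ∈ D) y, F x y = (χ x y ^^ χ (π x) (π y))) ∧
      (∀ x y, x ∉ D → y ∈ D → F x y = (χ y x ^^ χ (π y) (π x))) ∧
      ∀ x y, x ∉ D → y ∉ D → F x y = false := by
    refine ⟨fun x y => if x ∈ D then (χ x y ^^ χ (π x) (π y)) else
      if y ∈ D then (χ y x ^^ χ (π y) (π x)) else false, ?_, ?_, ?_⟩
    · intro x hx y
      simp only [if_pos hx]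
    · intro x y hx hy
      simp only [if_neg hx, if_pos hy]
    · intro x y hx hy
      simp only [if_neg hx, if_neg hy]
  have hFs : ∀ x y, F x y = F y x := by
    intro x y
    by_cases hx : x ∈ D
    · by_cases hy : y ∈ D
      · rw [hF1 x hx, hF1 y hy]
        by_cases hxy : x = y
        · rw [hxy]
        · have h1 := hχe x y hxy
          have h2 := hχe (π x) (π y) (fun h => hxy (π.injective h))
          have h3 : Λ.Adj (π x) (π y) ↔ Λ.Adj x y := by
            rw [hπ ⟨x, hx⟩, hπ ⟨y, hy⟩]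
            exact hadj ⟨x, hx⟩ ⟨y, hy⟩
          rw [h3, ← h1] at h2
          revert h2
          cases χ x y <;> cases χ y x <;> cases χ (π x) (π y) <;> cases χ (π y) (π x) <;> simp
      · rw [hF1 x hx, hF2 y x hy hx]
    · by_cases hy : y ∈ D
      · rw [hF1 y hy, hF2 x y hx hy]
      · rw [hF3 x y hx hy, hF3 y x hy hx]
  -- the graph
  let Λ' : SimpleGraph (S × (S → Bool)) :=
    { Adj := fun p q => p.1 ≠ q.1 ∧ (p.2 q.1 ^^ q.2 p.1) = true
      symm := ⟨fun p q h => ⟨h.1.symm, by rw [Bool.xor_comm]; exact h.2⟩⟩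
      loopless := ⟨fun p h => h.1 rfl⟩ }
  let τ : Equiv.Perm (S × (S → Bool)) :=
    { toFun := fun p => (π p.1, fun z => (p.2 (π.symm z) ^^ F p.1 (π.symm z)))
      invFun := fun p => (π.symm p.1, fun y => (p.2 (π y) ^^ F (π.symm p.1) y))
      left_inv := by
        rintro ⟨x, c⟩
        apply Prod.ext
        · simp
        · funext y
          simp
      right_inv := by
        rintro ⟨x, c⟩
        apply Prod.ext
        · simp
        · funext y
          simp }
  refine ⟨S × (S → Bool), inferInstance, Λ', fun x => (x, χ x), τ, ?_, ?_, ?_, ?_⟩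
  · intro x y h
    exact congrArg Prod.fst h
  · intro x y
    constructor
    · rintro ⟨h1, h2⟩
      exact (hχe x y h1).1 h2
    · intro h
      exact ⟨Λ.ne_of_adj h, (hχe x y (Λ.ne_of_adj h)).2 h⟩
  · rintro ⟨x, c⟩ ⟨y, d⟩
    show (π x ≠ π y ∧ ((c (π.symm (π y)) ^^ F x (π.symm (π y))) ^^
      (d (π.symm (π x)) ^^ F y (π.symm (π x)))) = true) ↔ (x ≠ y ∧ (c y ^^ d x) = true)
    rw [π.symm_apply_apply, π.symm_apply_apply, hFs y x]
    have h1 : (c y ^^ F x y ^^ (d x ^^ F x y)) = (c y ^^ d x) := by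
      cases c y <;> cases d x <;> cases F x y <;> rfl
    rw [h1]
    constructor
    · rintro ⟨h2, h3⟩
      exact ⟨fun h => h2 (by rw [h]), h3⟩
    · rintro ⟨h2, h3⟩
      exact ⟨fun h => h2 (π.injective h), h3⟩
  · intro x
    show (π x, fun z => (χ x (π.symm z) ^^ F x (π.symm z))) = (f x, χ (f x))
    apply Prod.ext
    · exact hπ x
    · funext z
      show (χ x (π.symm z) ^^ F x (π.symm z)) = χ (f x) z
      rw [hF1 x x.2, π.apply_symm_apply, hπ x]
      cases χ x (π.symm z) <;> cases χ (f x) z <;> rfl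

end Q30.FJ
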