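import Mathlib

/-!
# Kernels of free products in direct products are free
-/

set_option autoImplicit false

namespace Q30.FJ

section frk

variable {I : Type} {A : I → Type} [∀ i, Group (A i)] {P : Type} [Group P]

/-- translations on the second coordinate -/
def trP (I P : Type) [Group P] : P →* MulAut (FreeGroup (I × P)) where
  toFun p := FreeGroup.freeGroupCongr (Equiv.prodCongr (Equiv.refl I) (Equiv.mulLeft p))
  map_one' := by
    apply MulEquiv.toMonoidHom_injective
    apply FreeGroup.ext_hom
    rintro ⟨i, x⟩
    show FreeGroup.freeGroupCongr _ (FreeGroup.of (i, x)) = FreeGroup.of (i, x)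
    rw [FreeGroup.freeGroupCongr_apply, FreeGroup.map.of]
    simp
  map_mul' p q := by
    apply MulEquiv.toMonoidHom_injective
    apply FreeGroup.ext_hom
    rintro ⟨i, x⟩
    show FreeGroup.freeGroupCongr _ (FreeGroup.of (i, x)) =
      FreeGroup.freeGroupCongr _ (FreeGroup.freeGroupCongr _ (FreeGroup.of (i, x)))
    rw [FreeGroup.freeGroupCongr_apply, FreeGroup.map.of, FreeGroup.freeGroupCongr_apply,
      FreeGroup.freeGroupCongr_apply, FreeGroup.map.of, FreeGroup.map.of]
    simp [mul_assoc]

theorem trP_of (p : P) (i : I) (x : P) :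
    trP I P p (FreeGroup.of (i, x)) = FreeGroup.of (i, p * x) := by
  show FreeGroup.freeGroupCongr _ (FreeGroup.of (i, x)) = _
  rw [FreeGroup.freeGroupCongr_apply, FreeGroup.map.of]
  rfl

/-- the representation of a factor -/
def frI (q : ∀ i, A i →* P) (i : I) : A i →* FreeGroup (I × P) ⋊[trP I P] P where
  toFun a := ⟨FreeGroup.of (i, 1) * (FreeGroup.of (i, q i a))⁻¹, q i a⟩
  map_one' := by
    apply SemidirectProduct.ext
    · show FreeGroup.of (i, 1) * (FreeGroup.of (i, q i 1))⁻¹ = 1
      rw [map_one, mul_inv_cancel]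
    · show q i 1 = 1
      rw [map_one]
  map_mul' a b := by
    apply SemidirectProduct.ext
    · rw [SemidirectProduct.mul_left]
      show FreeGroup.of (i, 1) * (FreeGroup.of (i, q i (a * b)))⁻¹ =
        FreeGroup.of (i, 1) * (FreeGroup.of (i, q i a))⁻¹ *
        trP I P (q i a) (FreeGroup.of (i, 1) * (FreeGroup.of (i, q i b))⁻¹)
      rw [map_mul (trP I P (q i a)), map_inv (trP I P (q i a)), trP_of, trP_of, mul_one, map_mul]
      group
    · show q i (a * b) = q i a * q i b
      rw [map_mul]

/-- the representation of the free product -/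
def frR (q : ∀ i, A i →* P) : Monoid.CoprodI A →* FreeGroup (I × P) ⋊[trP I P] P :=
  Monoid.CoprodI.lift (frI q)

theorem frR_right (q : ∀ i, A i →* P) (x : Monoid.CoprodI A) :
    (frR q x).right = Monoid.CoprodI.lift q x := by
  have h : SemidirectProduct.rightHom.comp (frR q) = Monoid.CoprodI.lift q := by
    apply Monoid.CoprodI.ext_hom
    intro i
    ext a
    show (frR q (Monoid.CoprodI.of a)).right = Monoid.CoprodI.lift q (Monoid.CoprodI.of a)
    rw [frR, Monoid.CoprodI.lift_of, Monoid.CoprodI.lift_of]
    rfl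
  exact DFunLike.congr_fun h x

/-- the word in the free group -/
def frL (q : ∀ i, A i →* P) : P → List (Σ i, A i) → List ((I × P) × Bool)
  | _, [] => []
  | p, s :: l => ((s.1, p), true) :: ((s.1, p * q s.1 s.2), false) :: frL q (p * q s.1 s.2) l

theorem frL_mk (q : ∀ i, A i →* P) (l : List (Σ i, A i)) : ∀ p : P,
    trP I P p (frR q (l.map fun s => Monoid.CoprodI.of s.2).prod).left =
      FreeGroup.mk (frL q p l) := by
  induction l with
  | nil =>
    intro p
    rw [List.map_nil, List.prod_nil, map_one, SemidirectProduct.one_left, map_one]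
    rfl
  | cons s l ih =>
    intro p
    obtain ⟨i, a⟩ := s
    rw [List.map_cons, List.prod_cons, map_mul, SemidirectProduct.mul_left]
    have h1 : frR q (Monoid.CoprodI.of a) =
        ⟨FreeGroup.of (i, 1) * (FreeGroup.of (i, q i a))⁻¹, q i a⟩ := by
      rw [frR, Monoid.CoprodI.lift_of]
      rfl
    show trP I P p ((frR q (Monoid.CoprodI.of a)).left *
      trP I P (frR q (Monoid.CoprodI.of a)).right _) = _
    rw [h1, map_mul, ← MulAut.mul_apply, ← map_mul]
    show trP I P p (FreeGroup.of (i, 1) * (FreeGroup.of (i, q i a))⁻¹) *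
      trP I P (p * q i a) _ = _
    rw [ih (p * q i a), map_mul, map_inv, trP_of, trP_of, mul_one]
    rfl

theorem frL_reduced (q : ∀ i, A i →* P) (hq : ∀ i, Function.Injective (q i))
    (l : List (Σ i, A i)) : ∀ p : P, (∀ s ∈ l, Sigma.snd s ≠ 1) →
    (l.IsChain fun s s' => Sigma.fst s ≠ Sigma.fst s') → FreeGroup.IsReduced (frL q p l) := by
  induction l with
  | nil =>
    intro p _ _
    exact List.IsChain.nil
  | cons s l ih =>
    intro p h1 h2
    have h3 : q s.1 s.2 ≠ 1 := by
      intro h
      exact h1 s List.mem_cons_self (hq s.1 (h.trans (map_one _).symm))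
    have h4 : FreeGroup.IsReduced (frL q (p * q s.1 s.2) l) :=
      ih _ (fun s' hs' => h1 s' (List.mem_cons_of_mem _ hs')) h2.tail
    show List.IsChain _ (((s.1, p), true) :: ((s.1, p * q s.1 s.2), false) ::
      frL q (p * q s.1 s.2) l)
    rw [List.isChain_cons_cons]
    refine ⟨fun h => ?_, ?_⟩
    · exfalso
      have h5 : p = p * q s.1 s.2 := congrArg Prod.snd h
      exact h3 (mul_eq_left.1 h5.symm)
    · cases l with
      | nil => exact List.IsChain.singleton _
      | cons s' l' =>
        show List.IsChain _ (((s.1, p * q s.1 s.2), false) :: ((s'.1, p * q s.1 s.2), true) :: _)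
        rw [List.isChain_cons_cons]
        refine ⟨fun h => ?_, h4⟩
        exfalso
        have h5 : s.1 = s'.1 := congrArg Prod.fst h
        rw [List.isChain_cons_cons] at h2
        exact h2.1 h5

theorem frR_inj (q : ∀ i, A i →* P) (hq : ∀ i, Function.Injective (q i)) :
    Function.Injective (frR q) := by
  classical
  rw [injective_iff_map_eq_one]
  intro x hx
  obtain ⟨w, rfl⟩ := (Monoid.CoprodI.Word.equiv (M := A)).symm.surjective x
  have h1 : (Monoid.CoprodI.Word.equiv (M := A)).symm w =
    (w.toList.map fun s => Monoid.CoprodI.of s.2).prod := rfl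
  rw [h1] at hx ⊢
  have h2 := frL_mk q w.toList 1
  rw [hx, SemidirectProduct.one_left, map_one] at h2
  have h3 : FreeGroup.reduce (frL q 1 w.toList) = frL q 1 w.toList :=
    (frL_reduced q hq w.toList 1 w.ne_one w.chain_ne).reduce_eq
  have h4 : (FreeGroup.mk (frL q 1 w.toList)).toWord = [] := by
    rw [← h2]
    exact FreeGroup.toWord_one
  rw [FreeGroup.toWord_mk, h3] at h4
  cases h5 : w.toList with
  | nil => rfl
  | cons s l =>
    rw [h5] at h4
    exact absurd h4 (List.cons_ne_nil _ _)

/-- subgroups of the free product in the kernel of a homomorphism which is injective on the factors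
are free -/
theorem ker_free (q : ∀ i, A i →* P) (hq : ∀ i, Function.Injective (q i))
    (K : Subgroup (Monoid.CoprodI A)) (hK : ∀ x ∈ K, Monoid.CoprodI.lift q x = 1) :
    IsFreeGroup K := by
  have hr : ∀ x ∈ K, (frR q x).right = 1 := fun x hx => (frR_right q x).trans (hK x hx)
  let f : K →* FreeGroup (I × P) := MonoidHom.mk' (fun x => (frR q x.1).left) (by
    intro x y
    show (frR q (x.1 * y.1)).left = _
    rw [map_mul, SemidirectProduct.mul_left, hr x.1 x.2, map_one]
    rfl)
  have hf : Function.Injective f := by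
    intro x y hxy
    apply Subtype.ext
    apply frR_inj q hq
    apply SemidirectProduct.ext
    · exact hxy
    · rw [hr x.1 x.2, hr y.1 y.2]
  exact IsFreeGroup.ofMulEquiv (MonoidHom.ofInjective hf).symm

end frk

end Q30.FJ
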