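import Pool.Agent.Q30.FJ.Res
import Pool.Agent.Q30.FJ.FrK

/-!
# Kernels generated by retracts, free products
-/

set_option autoImplicit false

namespace Q30.FJ

open Pool.Agent.Y110.FJ
open Pool.Agent.Y462.SS (Closed Wr)

variable {C : ∀ (G : Type) [Group G], Prop}

/-- conjugation by `g` on the subgroup `A` is realized in a group in `C` that contains `A` -/
def CR (C : ∀ (G : Type) [Group G], Prop) {G : Type} [Group G] (g : G) (A : Subgroup G) : Prop :=
  ∃ (P : Type) (_ : Group P) (f : A →* P) (p : P), C P ∧ Function.Injective f ∧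
    ∀ a a' : A, (a' : G) = g * a * g⁻¹ → f a' = p * f a * p⁻¹

/-- the element `g` maps `A` onto `B` by conjugation -/
def Maps {G : Type} [Group G] (g : G) (A B : Subgroup G) : Prop :=
  ∀ x, x ∈ A ↔ g * x * g⁻¹ ∈ B

theorem Maps.mul {G : Type} [Group G] {g h : G} {A B D : Subgroup G} (h1 : Maps g A B)
    (h2 : Maps h B D) : Maps (h * g) A D := by
  intro x
  rw [h1 x, h2 _]
  have : h * (g * x * g⁻¹) * h⁻¹ = h * g * x * (h * g)⁻¹ := by group
  rw [this]

theorem Maps.inv {G : Type} [Group G] {g : G} {A B : Subgroup G} (h1 : Maps g A B) :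
    Maps g⁻¹ B A := by
  intro x
  rw [h1 _]
  have : g * (g⁻¹ * x * g⁻¹⁻¹) * g⁻¹ = x := by group
  rw [this]

theorem CR_mem {G : Type} [Group G] {g : G} {A : Subgroup G} (h : CR C g A) (hC : Closed C) :
    C A := by
  obtain ⟨P, _, f, p, hP, hf, -⟩ := h
  exact hC.of_injective _ _ f hf hP

/-- the criterion for quotients -/
theorem crit_quot (hC : ClosedE C) (G : Type) [Group G] (N R : Subgroup G) [N.Normal] [R.Normal]
    (hRN : R ≤ N) (hQ : C (G ⧸ N))
    (h : ∀ g : G, ∃ (P : Type) (_ : Group P) (f : N →* P) (p : P), C P ∧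
      (∀ x, f x = 1 ↔ (x : G) ∈ R) ∧ ∀ x y : N, (y : G) = g * x * g⁻¹ → f y = p * f x * p⁻¹) :
    C (G ⧸ R) := by
  classical
  have hnor : (N.map (QuotientGroup.mk' R)).Normal :=
    Subgroup.Normal.map inferInstance _ (QuotientGroup.mk'_surjective R)
  refine crit C hC (G ⧸ R) (N.map (QuotientGroup.mk' R)) ?_ ?_
  · exact hC.base.of_injective _ (G ⧸ N)
      (QuotientGroup.quotientQuotientEquivQuotient R N hRN).toMonoidHom
      (QuotientGroup.quotientQuotientEquivQuotient R N hRN).injective hQ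
  · intro g' E _ hEN
    obtain ⟨g, rfl⟩ := QuotientGroup.mk'_surjective R g'
    obtain ⟨P, _, f, p, hP, hf, hfp⟩ := h g
    have hex : ∀ y : ↥(N.map (QuotientGroup.mk' R)), ∃ x : N, QuotientGroup.mk' R x.1 = y.1 := by
      rintro ⟨_, x, hx, rfl⟩
      exact ⟨⟨x, hx⟩, rfl⟩
    choose s hs using hex
    have hfs : ∀ x y : N, QuotientGroup.mk' R x.1 = QuotientGroup.mk' R y.1 → f x = f y := by
      intro x y hxy
      have h1 : x.1⁻¹ * y.1 ∈ R := QuotientGroup.eq.1 hxy
      have h2 : f (x⁻¹ * y) = 1 := (hf (x⁻¹ * y)).2 h1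
      rw [map_mul, map_inv] at h2
      exact (inv_mul_eq_one.1 h2)
    have hcl : Subgroup.closure (E ∪ (fun x => QuotientGroup.mk' R g * x *
        (QuotientGroup.mk' R g)⁻¹) '' E) ≤ N.map (QuotientGroup.mk' R) := by
      rw [Subgroup.closure_le]
      rintro x (hx | ⟨y, hy, rfl⟩)
      · exact hEN hx
      · exact hnor.conj_mem y (hEN hy) _
    obtain ⟨F, hF⟩ : ∃ F : ↥(N.map (QuotientGroup.mk' R)) →* P, ∀ y, F y = f (s y) := by
      refine ⟨MonoidHom.mk' (fun y => f (s y)) ?_, fun y => rfl⟩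
      intro x y
      show f (s (x * y)) = f (s x) * f (s y)
      rw [← map_mul]
      apply hfs
      rw [hs]
      show x.1 * y.1 = QuotientGroup.mk' R ((s x).1 * (s y).1)
      rw [map_mul, hs, hs]
    have hFi : Function.Injective F := by
      rw [injective_iff_map_eq_one]
      intro x hx
      have h1 : f (s x) = 1 := (hF x).symm.trans hx
      have h2 := (hf (s x)).1 h1
      apply Subtype.ext
      rw [← hs]
      exact (QuotientGroup.eq_one_iff _).2 h2
    refine ⟨P, inferInstance, F.comp (Subgroup.inclusion hcl), p, hP,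
      hFi.comp (Subgroup.inclusion_injective hcl), ?_⟩
    · intro x y _ hy
      rw [MonoidHom.comp_apply, MonoidHom.comp_apply, hF, hF]
      have h0 : g * (s (Subgroup.inclusion hcl x)).1 * g⁻¹ ∈ N :=
        Subgroup.Normal.conj_mem inferInstance _ (s (Subgroup.inclusion hcl x)).2 g
      rw [← hfp (s (Subgroup.inclusion hcl x)) ⟨_, h0⟩ rfl]
      apply hfs
      rw [hs]
      show (y : G ⧸ R) = QuotientGroup.mk' R (g * (s (Subgroup.inclusion hcl x)).1 * g⁻¹)
      rw [map_mul, map_mul, map_inv, hs]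
      exact hy

/-- `N` is the graph product of its subgroups `A v` along the graph `Λ` -/
structure GProd {G : Type} [Group G] {V : Type} (Λ : SimpleGraph V) (A : V → Subgroup G)
    (N : Subgroup G) : Prop where
  le : ∀ v, A v ≤ N
  gen : ∀ M : Subgroup G, (∀ v, A v ≤ M) → N ≤ M
  comm : ∀ v w, Λ.Adj v w → ∀ a ∈ A v, ∀ b ∈ A w, a * b = b * a
  univ : ∀ (H : Type) [Group H] (f : ∀ v, A v →* H),
    (∀ v w, Λ.Adj v w → ∀ (a : A v) (b : A w), f v a * f w b = f w b * f v a) →
    ∃ φ : N →* H, ∀ v (a : A v), φ ⟨a, le v a.2⟩ = f v a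

/-- retractions to the subgroups `A i` which kill the other ones -/
structure Retr {G : Type} [Group G] {I : Type} (A : I → Subgroup G) (N : Subgroup G)
    (p : ∀ i, N →* A i) : Prop where
  le : ∀ i, A i ≤ N
  gen : ∀ M : Subgroup G, (∀ i, A i ≤ M) → N ≤ M
  same : ∀ i (a : A i), p i ⟨a, le i a.2⟩ = a
  other : ∀ i j (a : A j), i ≠ j → p i ⟨a, le j a.2⟩ = 1

theorem GProd.retr {G : Type} [Group G] {V : Type} {Λ : SimpleGraph V} {A : V → Subgroup G}
    {N : Subgroup G} (h : GProd Λ A N) : ∃ p : ∀ v, N →* A v, Retr A N p := by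
  classical
  have h0 : ∀ v, ∃ φ : N →* A v, (∀ a : A v, φ ⟨a, h.le v a.2⟩ = a) ∧
      ∀ w (a : A w), v ≠ w → φ ⟨a, h.le w a.2⟩ = 1 := by
    intro v
    let f : ∀ w, A w →* A v := fun w =>
      if e : w = v then Subgroup.inclusion (le_of_eq (congrArg A e)) else 1
    have hf1 : ∀ a : A v, f v a = a := by
      intro a
      have : f v = Subgroup.inclusion (le_of_eq (congrArg A rfl)) := dif_pos rfl
      rw [this]
      rfl
    have hf2 : ∀ w (a : A w), v ≠ w → f w a = 1 := by
      intro w a hvw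
      have : f w = 1 := dif_neg (fun e => hvw e.symm)
      rw [this]
      rfl
    obtain ⟨φ, hφ⟩ := h.univ (A v) f (by
      intro w w' hww a b
      by_cases hw : v = w
      · subst hw
        rw [hf2 w' b hww.ne, mul_one, one_mul]
      · rw [hf2 w a hw, mul_one, one_mul])
    refine ⟨φ, fun a => ?_, fun w a hvw => ?_⟩
    · rw [hφ, hf1]
    · rw [hφ, hf2 w a hvw]
  choose p hp1 hp2 using h0
  exact ⟨p, h.le, h.gen, hp1, fun i j a hij => hp2 i j a hij⟩

section retr

variable {G : Type} [Group G] {I : Type} {A : I → Subgroup G} {N : Subgroup G}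
  {p : ∀ i, N →* A i}

/-- the kernels of the retractions -/
def rk (N : Subgroup G) (p : ∀ i, N →* A i) (i : I) : Subgroup G := (p i).ker.map N.subtype

theorem mem_rk {i : I} {x : G} : x ∈ rk N p i ↔ ∃ hx : x ∈ N, p i ⟨x, hx⟩ = 1 := by
  constructor
  · rintro ⟨y, hy, rfl⟩
    exact ⟨y.2, hy⟩
  · rintro ⟨hx, h⟩
    exact ⟨⟨x, hx⟩, h, rfl⟩

/-- homomorphisms on `N` which agree on the subgroups `A i` -/
theorem Retr.hom_eq (h : Retr A N p) {H : Type} [Group H] (f g : N →* H)
    (hfg : ∀ i (a : A i), f ⟨a, h.le i a.2⟩ = g ⟨a, h.le i a.2⟩) : f = g := by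
  have h1 : N ≤ (f.eqLocus g).map N.subtype := by
    apply h.gen
    intro i a ha
    exact ⟨⟨a, h.le i ha⟩, hfg i ⟨a, ha⟩, rfl⟩
  ext x
  obtain ⟨y, hy, hyx⟩ := h1 x.2
  have h2 : y = x := Subtype.ext hyx
  rw [← h2]
  exact hy

/-- different factors are not conjugate -/
theorem Retr.conj_eq (h : Retr A N p) (hne : ∀ i, A i ≠ ⊥) {i j : I} {n : G} (hn : n ∈ N)
    (hm : Maps n (A i) (A j)) : i = j := by
  by_contra hij
  apply hne i
  rw [Subgroup.eq_bot_iff_forall]
  intro a ha
  have h1 := (hm a).1 ha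
  have h2 := h.other i j ⟨_, h1⟩ hij
  have h3 : (⟨n * a * n⁻¹, h.le j h1⟩ : N) = ⟨n, hn⟩ * ⟨a, h.le i ha⟩ * ⟨n, hn⟩⁻¹ := rfl
  have h4 : p i (⟨n * a * n⁻¹, h.le j h1⟩ : N) = 1 := h2
  rw [h3, map_mul, map_mul, map_inv, h.same i ⟨a, ha⟩] at h4
  have h5 : (⟨a, ha⟩ : A i) = 1 := conj_eq_one_iff.1 h4
  exact congrArg Subtype.val h5

variable [N.Normal]

/-- **equivariance of the retractions** -/
theorem Retr.equiv (h : Retr A N p) (hne : ∀ i, A i ≠ ⊥)
    (hperm : ∀ (g : G) (i : I), ∃ j, ∃ n ∈ N, Maps (n * g) (A i) (A j)) {g : G} {i j : I}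
    (hg : Maps g (A i) (A j)) (x y : N) (hxy : (y : G) = g * x * g⁻¹) :
    ((p j y : A j) : G) = g * (p i x : A i) * g⁻¹ := by
  let c : N →* N := MonoidHom.mk' (fun z => ⟨g * z * g⁻¹,
    Subgroup.Normal.conj_mem inferInstance _ z.2 g⟩) (by
      intro z w
      apply Subtype.ext
      show g * (z.1 * w.1) * g⁻¹ = g * z.1 * g⁻¹ * (g * w.1 * g⁻¹)
      group)
  let d : A i →* A j := MonoidHom.mk' (fun z => ⟨g * z * g⁻¹, (hg z.1).1 z.2⟩) (by
      intro z w
      apply Subtype.ext
      show g * (z.1 * w.1) * g⁻¹ = g * z.1 * g⁻¹ * (g * w.1 * g⁻¹)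
      group)
  have hcd : (p j).comp c = d.comp (p i) := by
    apply h.hom_eq
    intro k a
    show p j (c ⟨a, _⟩) = d (p i ⟨a, _⟩)
    by_cases hk : i = k
    · subst hk
      rw [h.same i a]
      exact h.same j ⟨g * a * g⁻¹, (hg a.1).1 a.2⟩
    · rw [h.other i k a hk, map_one]
      obtain ⟨l, m, hm, hl⟩ := hperm g k
      have hmem := (hl a.1).1 a.2
      have hlj : j ≠ l := by
        rintro rfl
        have h3 : Maps (g⁻¹ * (m * g)) (A k) (A i) := hl.mul hg.inv
        have h4 : g⁻¹ * (m * g) ∈ N := by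
          have h5 := Subgroup.Normal.conj_mem (inferInstance : N.Normal) m hm g⁻¹
          have h6 : g⁻¹ * m * g⁻¹⁻¹ = g⁻¹ * (m * g) := by group
          rwa [h6] at h5
        exact hk (h.conj_eq hne h4 h3).symm
      have h3 := h.other j l ⟨_, hmem⟩ hlj
      have h4 : (⟨m * g * a * (m * g)⁻¹, h.le l hmem⟩ : N) =
          ⟨m, hm⟩ * c ⟨a, h.le k a.2⟩ * ⟨m, hm⟩⁻¹ := by
        apply Subtype.ext
        show m * g * a.1 * (m * g)⁻¹ = m * (g * a.1 * g⁻¹) * m⁻¹
        group
      have h5 : p j (⟨m * g * a * (m * g)⁻¹, h.le l hmem⟩ : N) = 1 := h3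
      rw [h4, map_mul, map_mul, map_inv] at h5
      exact conj_eq_one_iff.1 h5
  have h1 := DFunLike.congr_fun hcd x
  have h2 : c x = y := Subtype.ext hxy.symm
  have h3 : p j (c x) = d (p i x) := h1
  rw [h2] at h3
  rw [h3]
  rfl

theorem rk_normal_N (i : I) (n : G) (hn : n ∈ N) (x : G) : x ∈ rk N p i ↔ n * x * n⁻¹ ∈ rk N p i := by
  have h0 : ∀ (n : G) (hn : n ∈ N) (x : G), x ∈ rk N p i → n * x * n⁻¹ ∈ rk N p i := by
    intro n hn x hx
    rw [mem_rk] at hx ⊢
    obtain ⟨hx, h⟩ := hx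
    refine ⟨Subgroup.Normal.conj_mem inferInstance x hx n, ?_⟩
    have h1 : (⟨n * x * n⁻¹, Subgroup.Normal.conj_mem inferInstance x hx n⟩ : N) =
      ⟨n, hn⟩ * ⟨x, hx⟩ * ⟨n, hn⟩⁻¹ := rfl
    rw [h1, map_mul, map_mul, map_inv, h, mul_one, mul_inv_cancel]
  refine ⟨h0 n hn x, fun h => ?_⟩
  have h1 := h0 n⁻¹ (N.inv_mem hn) _ h
  have h2 : n⁻¹ * (n * x * n⁻¹) * n⁻¹⁻¹ = x := by group
  rwa [h2] at h1

theorem Retr.maps_rk (h : Retr A N p) (hne : ∀ i, A i ≠ ⊥)
    (hperm : ∀ (g : G) (i : I), ∃ j, ∃ n ∈ N, Maps (n * g) (A i) (A j)) {g : G} {i j : I}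
    (hg : Maps g (A i) (A j)) : Maps g (rk N p i) (rk N p j) := by
  have h0 : ∀ (g : G) (i j : I), Maps g (A i) (A j) → ∀ x ∈ rk N p i, g * x * g⁻¹ ∈ rk N p j := by
    intro g i j hg x hx
    rw [mem_rk] at hx ⊢
    obtain ⟨hx, h1⟩ := hx
    have hy : g * x * g⁻¹ ∈ N := Subgroup.Normal.conj_mem inferInstance x hx g
    refine ⟨hy, ?_⟩
    apply Subtype.ext
    rw [h.equiv hne hperm hg ⟨x, hx⟩ ⟨_, hy⟩ rfl, h1]
    show g * 1 * g⁻¹ = 1
    group
  intro x
  refine ⟨h0 g i j hg x, fun h1 => ?_⟩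
  have h2 := h0 g⁻¹ j i hg.inv _ h1
  have h3 : g⁻¹ * (g * x * g⁻¹) * g⁻¹⁻¹ = x := by group
  rwa [h3] at h2

omit [N.Normal] in
theorem Retr.rk_inj (h : Retr A N p) (hne : ∀ i, A i ≠ ⊥) {i j : I} (hij : rk N p i = rk N p j) :
    i = j := by
  by_contra hc
  apply hne i
  rw [Subgroup.eq_bot_iff_forall]
  intro a ha
  have h1 : a ∈ rk N p j := by
    rw [mem_rk]
    exact ⟨h.le i ha, h.other j i ⟨a, ha⟩ (Ne.symm hc)⟩
  rw [← hij, mem_rk] at h1
  obtain ⟨h2, h3⟩ := h1
  have h4 := h.same i ⟨a, ha⟩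
  have h5 : p i ⟨a, h.le i ha⟩ = 1 := h3
  have h6 : p i ⟨a, h.le i ha⟩ = ⟨a, ha⟩ := h4
  rw [h5] at h6
  exact (congrArg Subtype.val h6).symm

omit [N.Normal] in
/-- every element of `N` is in almost all kernels -/
theorem Retr.finite (h : Retr A N p) (n : G) (hn : n ∈ N) : {i | n ∉ rk N p i}.Finite := by
  classical
  have hfin : N ≤ ({ carrier := {n | {i | n ∉ rk N p i}.Finite}
                     one_mem' := by
                      rw [Set.mem_ofPred_eq]
                      have : {i | (1 : G) ∉ rk N p i} = ∅ := by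
                        ext i
                        simp
                      rw [this]
                      exact Set.finite_empty
                     mul_mem' := by
                      intro x y hx hy
                      rw [Set.mem_ofPred_eq] at hx hy ⊢
                      refine (hx.union hy).subset ?_
                      intro i hi
                      by_contra hc
                      rw [Set.mem_union, not_or, Set.mem_ofPred_eq, Set.mem_ofPred_eq, not_not,
                        not_not] at hc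
                      exact hi (Subgroup.mul_mem _ hc.1 hc.2)
                     inv_mem' := by
                      intro x hx
                      rw [Set.mem_ofPred_eq] at hx ⊢
                      refine hx.subset ?_
                      intro i hi hc
                      exact hi (Subgroup.inv_mem _ hc) } : Subgroup G) := by
    apply h.gen
    intro i a ha
    show {i | a ∉ rk N p i}.Finite
    refine (Set.finite_singleton i).subset ?_
    intro j hj
    by_contra hc
    apply hj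
    rw [mem_rk]
    exact ⟨h.le i ha, h.other j i ⟨a, ha⟩ hc⟩
  exact hfin hn

/-- **groups generated by retracts** -/
theorem retr_core (hC : ClosedE C) (h : Retr A N p) (hQ : C (G ⧸ N)) (hne : ∀ i, A i ≠ ⊥)
    (hperm : ∀ (g : G) (i : I), ∃ j, ∃ n ∈ N, Maps (n * g) (A i) (A j))
    (hCR : ∀ (i : I) (g : G), Maps g (A i) (A i) → CR C g (A i))
    (K : Subgroup G) [K.Normal] (hKN : K ≤ N)
    (hK : ∀ x ∈ N, (x ∈ K ↔ ∀ i, x ∈ rk N p i)) : C (G ⧸ K) := by
  have hmaps : ∀ (g : G) (i : I), ∃ j, (rk N p i).map (MulAut.conj g).toMonoidHom = rk N p j ∧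
      ∃ n ∈ N, Maps (n * g) (A i) (A j) := by
    intro g i
    obtain ⟨j, n, hn, hj⟩ := hperm g i
    refine ⟨j, ?_, n, hn, hj⟩
    ext x
    rw [mem_map_conj, h.maps_rk hne hperm hj (g⁻¹ * x * g), rk_normal_N j n hn x]
    have : n * g * (g⁻¹ * x * g) * (n * g)⁻¹ = n * x * n⁻¹ := by group
    rw [this]
  refine residual hC N K hKN hQ (Set.range (rk N p)) ?_ ?_ ?_ ?_
  · rintro _ ⟨i, rfl⟩ g
    obtain ⟨j, hj, -⟩ := hmaps g i
    exact ⟨j, hj.symm⟩
  · intro n hn
    have h1 := (h.finite n hn).image (fun i => (⟨rk N p i, i, rfl⟩ : Set.range (rk N p)))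
    refine h1.subset ?_
    rintro ⟨_, i, rfl⟩ hR
    exact ⟨i, hR, rfl⟩
  · intro n hn
    rw [hK n hn]
    constructor
    · rintro h1 _ ⟨i, rfl⟩
      exact h1 i
    · intro h1 i
      exact h1 _ ⟨i, rfl⟩
  · rintro _ ⟨i, rfl⟩
    obtain ⟨M, hM⟩ : ∃ M, M = Subgroup.normalizer (rk N p i : Set G) := ⟨_, rfl⟩
    rw [← hM]
    have hMm : ∀ g, g ∈ M → ∀ x, x ∈ rk N p i ↔ g * x * g⁻¹ ∈ rk N p i := by
      intro g hg
      rw [hM, Subgroup.mem_normalizer_iff] at hg
      exact hg
    have hNM : N ≤ M := by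
      intro n hn
      rw [hM, Subgroup.mem_normalizer_iff]
      exact fun x => rk_normal_N i n hn x
    have hRM : rk N p i ≤ M := by rw [hM]; exact Subgroup.le_normalizer
    have hRN : rk N p i ≤ N := fun x hx => (mem_rk.1 hx).1
    have hn1 : ((rk N p i).subgroupOf M).Normal := by
      constructor
      intro x hx g
      exact (hMm g.1 g.2 x.1).1 hx
    refine ⟨M ⧸ (rk N p i).subgroupOf M, inferInstance, QuotientGroup.mk' _, ?_, ?_⟩
    · refine crit_quot hC M (N.subgroupOf M) ((rk N p i).subgroupOf M) ?_ ?_ ?_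
      · intro x hx
        exact hRN hx
      · refine hC.base.of_injective _ (G ⧸ N) (QuotientGroup.map (N.subgroupOf M) N M.subtype
          (fun x hx => hx)) ?_ hQ
        rw [injective_iff_map_eq_one]
        intro x
        induction x using QuotientGroup.induction_on with
        | H z =>
          intro hz
          have h1 : z.1 ∈ N := (QuotientGroup.eq_one_iff _).1 hz
          exact (QuotientGroup.eq_one_iff _).2 h1
      · intro g
        obtain ⟨j, hj, n, hn, hnj⟩ := hmaps g.1 i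
        have hgi : (rk N p i).map (MulAut.conj g.1).toMonoidHom = rk N p i := by
          ext x
          rw [mem_map_conj]
          rw [hMm g.1 g.2 (g.1⁻¹ * x * g.1)]
          have : g.1 * (g.1⁻¹ * x * g.1) * g.1⁻¹ = x := by group
          rw [this]
        have hij : i = j := h.rk_inj hne (hgi.symm.trans hj)
        subst hij
        obtain ⟨P, _, f, q, hP, hf, hfq⟩ := hCR i _ hnj
        have hcoe : ∀ x : ↥(N.subgroupOf M), (x.1.1 : G) ∈ N := fun x => x.2
        refine ⟨P, inferInstance, f.comp ((p i).comp (MonoidHom.mk' (fun x => ⟨x.1.1, hcoe x⟩)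
          (fun x y => rfl))), (f (p i ⟨n, hn⟩))⁻¹ * q, hP, ?_, ?_⟩
        · intro x
          show f (p i ⟨x.1.1, hcoe x⟩) = 1 ↔ x.1.1 ∈ rk N p i
          rw [mem_rk]
          constructor
          · intro h1
            exact ⟨hcoe x, hf (h1.trans (map_one f).symm)⟩
          · rintro ⟨h1, h2⟩
            rw [h2, map_one]
        · intro x y hxy
          show f (p i ⟨y.1.1, hcoe y⟩) = (f (p i ⟨n, hn⟩))⁻¹ * q * f (p i ⟨x.1.1, hcoe x⟩) *
            ((f (p i ⟨n, hn⟩))⁻¹ * q)⁻¹
          have hy : y.1.1 = g.1 * x.1.1 * g.1⁻¹ := congrArg Subtype.val hxy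
          have hz : n * g.1 * x.1.1 * (n * g.1)⁻¹ ∈ N :=
            Subgroup.Normal.conj_mem inferInstance _ (hcoe x) _
          have h1 := h.equiv hne hperm hnj ⟨x.1.1, hcoe x⟩ ⟨_, hz⟩ rfl
          have h2 := hfq _ _ h1
          have h3 : (⟨y.1.1, hcoe y⟩ : N) = ⟨n, hn⟩⁻¹ * ⟨_, hz⟩ * ⟨n, hn⟩ := by
            apply Subtype.ext
            show y.1.1 = n⁻¹ * (n * g.1 * x.1.1 * (n * g.1)⁻¹) * n
            rw [hy]
            group
          rw [h3, map_mul (p i), map_mul (p i), map_inv (p i), map_mul f, map_mul f, map_inv f, h2]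
          group
    · intro x
      exact QuotientGroup.eq_one_iff x

end retr

/-- A class of groups with the properties of `ClosedE` which is closed under extensions with free
kernel. -/
structure ClosedF (C : ∀ (G : Type) [Group G], Prop) : Prop where
  base : ClosedE C
  free : ∀ (G : Type) [Group G] (N : Subgroup G) [N.Normal], IsFreeGroup N → C (G ⧸ N) → C G

/-- **kernels which are free products** -/
theorem fp (hF : ClosedF C) {G : Type} [Group G] {I : Type} {A : I → Subgroup G} {N : Subgroup G}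
    [N.Normal] (hN : GProd (⊥ : SimpleGraph I) A N) (hQ : C (G ⧸ N)) (hne : ∀ i, A i ≠ ⊥)
    (hperm : ∀ (g : G) (i : I), ∃ j, ∃ n ∈ N, Maps (n * g) (A i) (A j))
    (hCR : ∀ (i : I) (g : G), Maps g (A i) (A i) → CR C g (A i)) : C G := by
  classical
  obtain ⟨p, hp⟩ := hN.retr
  obtain ⟨K, hK⟩ : ∃ K : Subgroup G, ∀ x, x ∈ K ↔ x ∈ N ∧ ∀ i, x ∈ rk N p i := by
    refine ⟨N ⊓ ⨅ i, rk N p i, fun x => ?_⟩
    rw [Subgroup.mem_inf, Subgroup.mem_iInf]
  have hKN : K ≤ N := fun x hx => ((hK x).1 hx).1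
  have hKn : K.Normal := by
    constructor
    intro x hx g
    rw [hK] at hx ⊢
    refine ⟨Subgroup.Normal.conj_mem inferInstance x hx.1 g, fun j => ?_⟩
    obtain ⟨i, n, hn, hi⟩ := hperm g⁻¹ j
    have h1 := hp.maps_rk hne hperm hi
    rw [h1, rk_normal_N i (n⁻¹) (N.inv_mem hn)]
    have h2 : n⁻¹ * (n * g⁻¹ * (g * x * g⁻¹) * (n * g⁻¹)⁻¹) * n⁻¹⁻¹ = x := by group
    rw [h2]
    exact hx.2 i
  refine hF.free G K ?_ (retr_core hF.base hp hQ hne hperm hCR K hKN ?_)
  · -- the kernel is free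
    obtain ⟨φ, hφ⟩ := hN.univ (Monoid.CoprodI fun i => A i)
      (fun i => Monoid.CoprodI.of (M := fun i => A i) (i := i))
      (fun v w h => h.elim)
    have hφi : Function.Injective φ := by
      have h1 : (Monoid.CoprodI.lift (M := fun i => A i) (N := N)
          (fun i => Subgroup.inclusion (hN.le i))).comp φ = MonoidHom.id N := by
        apply hp.hom_eq
        intro i a
        rw [MonoidHom.comp_apply, hφ, Monoid.CoprodI.lift_of]
        rfl
      intro x y hxy
      have h2 := DFunLike.congr_fun h1 x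
      have h3 := DFunLike.congr_fun h1 y
      have h4 : Monoid.CoprodI.lift (M := fun i => A i) (N := N)
        (fun i => Subgroup.inclusion (hN.le i)) (φ x) = x := h2
      have h5 : Monoid.CoprodI.lift (M := fun i => A i) (N := N)
        (fun i => Subgroup.inclusion (hN.le i)) (φ y) = y := h3
      rw [← h4, ← h5, hxy]
    let ψ : K →* Monoid.CoprodI fun i => A i := φ.comp (Subgroup.inclusion hKN)
    have hψ : Function.Injective ψ := hφi.comp (Subgroup.inclusion_injective hKN)
    have hfree : IsFreeGroup ψ.range := by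
      refine ker_free (P := ∀ i, A i) (fun i => MonoidHom.mulSingle (fun i => A i) i)
        (fun i => Pi.mulSingle_injective (M := fun i => A i) i) ψ.range ?_
      rintro _ ⟨x, rfl⟩
      have h1 : (Monoid.CoprodI.lift fun i => MonoidHom.mulSingle (fun i => A i) i).comp φ =
          MonoidHom.mk' (fun y : N => fun i => p i y) (fun y z => by
            funext i
            show p i (y * z) = p i y * p i z
            rw [map_mul]) := by
        apply hp.hom_eq
        intro i a
        show Monoid.CoprodI.lift _ (φ ⟨a, _⟩) = fun j => p j ⟨a, _⟩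
        rw [hφ, Monoid.CoprodI.lift_of]
        funext j
        by_cases hij : j = i
        · subst hij
          rw [hp.same]
          exact Pi.mulSingle_eq_same (M := fun i => A i) _ _
        · rw [hp.other j i a hij]
          exact Pi.mulSingle_eq_of_ne (M := fun i => A i) hij _
      have h2 := DFunLike.congr_fun h1 (Subgroup.inclusion hKN x)
      have h3 : Monoid.CoprodI.lift (fun i => MonoidHom.mulSingle (fun i => A i) i) (ψ x) =
        fun i => p i (Subgroup.inclusion hKN x) := h2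
      rw [h3]
      funext i
      have h4 := ((hK x.1).1 x.2).2 i
      rw [mem_rk] at h4
      obtain ⟨h5, h6⟩ := h4
      exact h6
    exact IsFreeGroup.ofMulEquiv (MonoidHom.ofInjective hψ).symm
  · intro x hx
    rw [hK]
    exact ⟨fun h => h.2, fun h => ⟨hx, h⟩⟩

end Q30.FJ
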