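import Pool.Agent.Q30.FJ.Mono

/-!
# Conjugation invariant families of subgroups
-/

set_option autoImplicit false

namespace Q30.FJ

open Pool.Agent.Y110.FJ
open Pool.Agent.Y462.SS (Closed Wr)

section fsum

variable {I : Type} (B : I → Type) [∀ i, Group (B i)]

/-- the families with finite support -/
def fsum : Subgroup (∀ i, B i) where
  carrier := {f | {i | f i ≠ 1}.Finite}
  one_mem' := by
    rw [Set.mem_ofPred_eq]
    simp
  mul_mem' {f g} hf hg := by
    rw [Set.mem_ofPred_eq] at hf hg ⊢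
    refine (hf.union hg).subset ?_
    intro i hi
    by_contra hc
    rw [Set.mem_union, not_or] at hc
    obtain ⟨h1, h2⟩ := hc
    rw [Set.mem_ofPred_eq, not_not] at h1 h2
    apply hi
    rw [Pi.mul_apply, h1, h2, mul_one]
  inv_mem' {f} hf := by
    rw [Set.mem_ofPred_eq] at hf ⊢
    refine hf.subset ?_
    intro i hi h1
    apply hi
    rw [Pi.inv_apply, h1, inv_one]

/-- the families with support in `s` -/
def fin_sup (s : Finset I) : Subgroup (∀ i, B i) where
  carrier := {f | ∀ i, i ∉ s → f i = 1}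
  one_mem' := fun _ _ => rfl
  mul_mem' {f g} hf hg i hi := by rw [Pi.mul_apply, hf i hi, hg i hi, mul_one]
  inv_mem' {f} hf i hi := by rw [Pi.inv_apply, hf i hi, inv_one]

variable {B}
variable {C : ∀ (G : Type) [Group G], Prop}

theorem fin_sup_mem (hC : Closed C) (hB : ∀ i, C (B i)) (s : Finset I) : C (fin_sup B s) := by
  classical
  induction s using Finset.induction_on with
  | empty =>
    refine hC.of_injective _ (Multiplicative ℤ) 1 ?_ hC.int
    intro f g _
    apply Subtype.ext
    funext i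
    rw [f.2 i (Finset.notMem_empty i), g.2 i (Finset.notMem_empty i)]
  | insert a s ha ih =>
    refine hC.of_injective _ (fin_sup B s × B a) (MonoidHom.mk' (fun f =>
      ((⟨fun i => if i = a then 1 else f.1 i, fun i hi => ?_⟩ : fin_sup B s), f.1 a)) ?_) ?_
      (hC.prod _ _ ih (hB a))
    · by_cases h : i = a
      · exact if_pos h
      · show (if i = a then 1 else f.1 i) = 1
        rw [if_neg h]
        exact f.2 i (by rw [Finset.mem_insert, not_or]; exact ⟨h, hi⟩)
    · intro f g
      apply Prod.ext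
      · apply Subtype.ext
        funext i
        show (if i = a then 1 else f.1 i * g.1 i) =
          (if i = a then 1 else f.1 i) * (if i = a then 1 else g.1 i)
        split_ifs
        · rw [mul_one]
        · rfl
      · rfl
    · intro f g hfg
      have h1 := congrArg (fun z => z.1.1) hfg
      have h2 : f.1 a = g.1 a := congrArg (fun z => z.2) hfg
      apply Subtype.ext
      funext i
      by_cases hi : i = a
      · subst hi
        exact h2
      · have h3 := congrFun h1 i
        have h4 : (if i = a then 1 else f.1 i) = (if i = a then 1 else g.1 i) := h3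
        rwa [if_neg hi, if_neg hi] at h4

theorem fsum_mem (hC : Closed C) (hB : ∀ i, C (B i)) : C (fsum B) := by
  classical
  refine Pool.Agent.Y430.SS.of_directed hC (fsum B) (Finset I) (fun i j => ?_)
    (fun s => (fin_sup B s).subgroupOf (fsum B)) ?_ ?_ ?_
  · exact ⟨i ∪ j, Finset.subset_union_left, Finset.subset_union_right⟩
  · intro s t hst f hf i hi
    exact hf i (fun h => hi (hst h))
  · rintro ⟨f, hf⟩
    refine ⟨Set.Finite.toFinset hf, fun i hi => ?_⟩
    by_contra h
    exact hi ((Set.Finite.mem_toFinset hf).2 h)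
  · intro s
    refine hC.of_injective _ (fin_sup B s) (MonoidHom.mk' (fun f => ⟨f.1.1, f.2⟩) ?_) ?_
      (fin_sup_mem hC hB s)
    · intro f g
      rfl
    · intro f g hfg
      have h1 := congrArg Subtype.val hfg
      exact Subtype.ext (Subtype.ext h1)

/-- the inclusion of a summand -/
theorem fsum_single [DecidableEq I] (i : I) : ∃ ι : B i →* fsum B, Function.Injective ι := by
  have hmem : ∀ g : B i, Pi.mulSingle i g ∈ fsum B := by
    intro g
    have : {j | (Pi.mulSingle i g : ∀ i, B i) j ≠ 1} ⊆ {i} := by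
      intro j hj
      by_contra h
      exact hj (Pi.mulSingle_eq_of_ne h g)
    exact (Set.finite_singleton i).subset this
  refine ⟨MonoidHom.mk' (fun g => ⟨Pi.mulSingle i g, hmem g⟩) ?_, ?_⟩
  · intro g g'
    apply Subtype.ext
    exact Pi.mulSingle_mul i g g'
  · intro g g' h
    have h1 := congrArg Subtype.val h
    exact Pi.mulSingle_injective i h1

end fsum

section res

variable {G : Type} [Group G]

theorem mem_map_conj (R : Subgroup G) (g x : G) :
    x ∈ R.map (MulAut.conj g).toMonoidHom ↔ g⁻¹ * x * g ∈ R := by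
  constructor
  · rintro ⟨y, hy, rfl⟩
    have : g⁻¹ * ((MulAut.conj g).toMonoidHom y) * g = y := by
      show g⁻¹ * (g * y * g⁻¹) * g = y
      group
    rw [this]
    exact hy
  · intro h
    refine ⟨_, h, ?_⟩
    show g * (g⁻¹ * x * g) * g⁻¹ = x
    group

/-- the action by conjugation on an invariant set of subgroups -/
def cact (S : Set (Subgroup G))
    (hinv : ∀ R ∈ S, ∀ g : G, R.map (MulAut.conj g).toMonoidHom ∈ S) : G →* Equiv.Perm S where
  toFun g :=
    { toFun := fun R => ⟨_, hinv R.1 R.2 g⟩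
      invFun := fun R => ⟨_, hinv R.1 R.2 g⁻¹⟩
      left_inv := by
        intro R
        apply Subtype.ext
        ext x
        show x ∈ (R.1.map (MulAut.conj g).toMonoidHom).map (MulAut.conj g⁻¹).toMonoidHom ↔ x ∈ R.1
        rw [mem_map_conj, mem_map_conj]
        have : g⁻¹ * (g⁻¹⁻¹ * x * g⁻¹) * g = x := by group
        rw [this]
      right_inv := by
        intro R
        apply Subtype.ext
        ext x
        show x ∈ (R.1.map (MulAut.conj g⁻¹).toMonoidHom).map (MulAut.conj g).toMonoidHom ↔ x ∈ R.1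
        rw [mem_map_conj, mem_map_conj]
        have : g⁻¹⁻¹ * (g⁻¹ * x * g) * g⁻¹ = x := by group
        rw [this] }
  map_one' := by
    ext R x
    show x ∈ R.1.map (MulAut.conj 1).toMonoidHom ↔ x ∈ R.1
    rw [mem_map_conj]
    have : (1 : G)⁻¹ * x * 1 = x := by group
    rw [this]
  map_mul' g h := by
    ext R x
    show x ∈ R.1.map (MulAut.conj (g * h)).toMonoidHom ↔
      x ∈ (R.1.map (MulAut.conj h).toMonoidHom).map (MulAut.conj g).toMonoidHom
    rw [mem_map_conj, mem_map_conj, mem_map_conj]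
    have : (g * h)⁻¹ * x * (g * h) = h⁻¹ * (g⁻¹ * x * g) * h := by group
    rw [this]

theorem mem_cact (S : Set (Subgroup G))
    (hinv : ∀ R ∈ S, ∀ g : G, R.map (MulAut.conj g).toMonoidHom ∈ S) (g : G) (R : S) (x : G) :
    x ∈ (cact S hinv g R).1 ↔ g⁻¹ * x * g ∈ R.1 := mem_map_conj _ _ _

theorem cact_fix (S : Set (Subgroup G))
    (hinv : ∀ R ∈ S, ∀ g : G, R.map (MulAut.conj g).toMonoidHom ∈ S) (g : G) (R : S) :
    cact S hinv g R = R ↔ g ∈ Subgroup.normalizer (R.1 : Set G) := by
  rw [Subgroup.mem_normalizer_iff]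
  constructor
  · intro h x
    have h1 := mem_cact S hinv g R (g * x * g⁻¹)
    rw [h] at h1
    have h2 : g⁻¹ * (g * x * g⁻¹) * g = x := by group
    rw [h2] at h1
    exact h1.symm
  · intro h
    apply Subtype.ext
    ext x
    rw [mem_cact]
    have h1 := h (g⁻¹ * x * g)
    have h2 : g * (g⁻¹ * x * g) * g⁻¹ = x := by group
    rw [h2] at h1
    exact h1

variable {C : ∀ (G : Type) [Group G], Prop}

/-- quotients by the kernel of a monomial representation -/
theorem mono_quot (hC : ClosedE C) (X H : Type) [Group H] (hH : C H) (N K : Subgroup G) [N.Normal]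
    [K.Normal] (hKN : K ≤ N) (hQ : C (G ⧸ N)) (ρ : G →* Wr X H) (hK : ∀ g ∈ K, ρ g = 1)
    (hρ : ∀ g ∈ N, ρ g = 1 → g ∈ K) (hfin : ∀ g ∈ N, (wsupp (ρ g)).Finite) : C (G ⧸ K) := by
  have hnor : (N.map (QuotientGroup.mk' K)).Normal :=
    Subgroup.Normal.map inferInstance _ (QuotientGroup.mk'_surjective K)
  refine mono_kernel hC X H hH (G ⧸ K) (N.map (QuotientGroup.mk' K)) ?_
    (QuotientGroup.lift K ρ hK) ?_ ?_
  · exact hC.base.of_injective _ (G ⧸ N)
      (QuotientGroup.quotientQuotientEquivQuotient K N hKN).toMonoidHom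
      (QuotientGroup.quotientQuotientEquivQuotient K N hKN).injective hQ
  · rintro _ ⟨g, hg, rfl⟩ h1
    exact (QuotientGroup.eq_one_iff g).2 (hρ g hg h1)
  · rintro _ ⟨g, hg, rfl⟩
    exact hfin g hg

/-- **invariant families**: `S` is a set of subgroups invariant under conjugation, every element of
`N` is in almost all members, and `K` is the intersection in `N` -/
theorem residual (hC : ClosedE C) (N K : Subgroup G) [N.Normal] [K.Normal] (hKN : K ≤ N)
    (hQ : C (G ⧸ N))
    (S : Set (Subgroup G)) (hinv : ∀ R ∈ S, ∀ g : G, R.map (MulAut.conj g).toMonoidHom ∈ S)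
    (hfin : ∀ n ∈ N, {R : S | n ∉ R.1}.Finite) (h1 : ∀ n ∈ N, (n ∈ K ↔ ∀ R ∈ S, n ∈ R))
    (hB : ∀ R ∈ S, ∃ (B : Type) (_ : Group B) (β : ↥(Subgroup.normalizer (R : Set G)) →* B), C B ∧
      ∀ x : ↥(Subgroup.normalizer (R : Set G)), β x = 1 ↔ (x : G) ∈ R) : C (G ⧸ K) := by
  classical
  have hB' : ∀ R : S, ∃ (B : Type) (_ : Group B)
      (β : ↥(Subgroup.normalizer (R.1 : Set G)) →* B), C B ∧
      ∀ x : ↥(Subgroup.normalizer (R.1 : Set G)), β x = 1 ↔ (x : G) ∈ R.1 := fun R => hB R.1 R.2
  choose B instB β hCB hβ using hB'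
  have hι : ∀ R : S, ∃ ι : B R →* fsum B, Function.Injective ι := fun R => fsum_single R
  choose ι hι using hι
  have hH : C (fsum B) := fsum_mem hC.base hCB
  obtain ⟨α, hα⟩ : ∃ α, α = cact S hinv := ⟨_, rfl⟩
  -- the labels
  obtain ⟨b, hb⟩ : ∃ b : S → G → fsum B, ∀ (R : S) (x : G)
      (hx : x ∈ Subgroup.normalizer (R.1 : Set G)), b R x = ι R (β R ⟨x, hx⟩) :=
    ⟨fun R x => if hx : x ∈ Subgroup.normalizer (R.1 : Set G) then ι R (β R ⟨x, hx⟩) else 1,
      fun R x hx => dif_pos hx⟩
  have hbm : ∀ (R : S) (x y : G), x ∈ Subgroup.normalizer (R.1 : Set G) →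
      y ∈ Subgroup.normalizer (R.1 : Set G) → b R (x * y) = b R x * b R y := by
    intro R x y hx hy
    rw [hb R x hx, hb R y hy, hb R (x * y) (Subgroup.mul_mem _ hx hy), ← map_mul, ← map_mul]
    rfl
  have hb1 : ∀ (R : S) (x : G), x ∈ Subgroup.normalizer (R.1 : Set G) →
      (b R x = 1 ↔ x ∈ R.1) := by
    intro R x hx
    rw [hb R x hx, ← hβ R ⟨x, hx⟩]
    constructor
    · intro h
      exact hι R (h.trans (map_one _).symm)
    · intro h
      rw [h, map_one]
  have hle : ∀ (R : S) (x : G), x ∈ R.1 → x ∈ Subgroup.normalizer (R.1 : Set G) :=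
    fun R x hx => Subgroup.le_normalizer hx
  -- representatives of the orbits
  let st : Setoid S :=
    { r := fun R R' => ∃ g, α g R = R'
      iseqv :=
        { refl := fun R => ⟨1, by rw [map_one]; rfl⟩
          symm := by
            rintro R R' ⟨g, rfl⟩
            exact ⟨g⁻¹, by rw [← Equiv.Perm.mul_apply, ← map_mul, inv_mul_cancel, map_one]; rfl⟩
          trans := by
            rintro R R' R'' ⟨g, rfl⟩ ⟨h, rfl⟩
            exact ⟨h * g, by rw [map_mul]; rfl⟩ } }
  obtain ⟨r, hr⟩ : ∃ r : S → S, r = fun R => Quotient.out (Quotient.mk st R) := ⟨_, rfl⟩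
  have hrt : ∀ R : S, ∃ t, α t (r R) = R := by
    intro R
    rw [hr]
    exact Quotient.exact (Quotient.out_eq (Quotient.mk st R))
  choose t ht using hrt
  have hrg : ∀ (g : G) (R : S), r (α g R) = r R := by
    intro g R
    rw [hr]
    show Quotient.out (Quotient.mk st (α g R)) = Quotient.out (Quotient.mk st R)
    congr 1
    exact (Quotient.sound ⟨g, rfl⟩ : Quotient.mk st R = Quotient.mk st (α g R)).symm
  have hcoc : ∀ (g : G) (R : S), (t (α g R))⁻¹ * g * t R ∈
      Subgroup.normalizer ((r R).1 : Set G) := by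
    intro g R
    rw [← cact_fix S hinv, ← hα, map_mul, map_mul, map_inv, Equiv.Perm.mul_apply,
      Equiv.Perm.mul_apply, ht R, Equiv.Perm.inv_eq_iff_eq]
    have h2 := ht (α g R)
    rw [hrg] at h2
    exact h2.symm
  -- the monomial representation
  obtain ⟨ρ, hρs, hρp⟩ : ∃ ρ : G →* Wr S (fsum B),
      (∀ g R, (ρ g).s R = b (r R) ((t (α g R))⁻¹ * g * t R)) ∧ ∀ g, (ρ g).p = α g := by
    refine ⟨MonoidHom.mk' (fun g => ⟨fun R => b (r R) ((t (α g R))⁻¹ * g * t R), α g⟩) ?_,
      fun g R => rfl, fun g => rfl⟩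
    intro g h
    apply Wr.ext
    · funext R
      show b (r R) ((t (α (g * h) R))⁻¹ * (g * h) * t R) =
        b (r (α h R)) ((t (α g (α h R)))⁻¹ * g * t (α h R)) * b (r R) ((t (α h R))⁻¹ * h * t R)
      have h2 : r (α h R) = r R := hrg h R
      have h3 := hcoc g (α h R)
      rw [h2] at h3 ⊢
      rw [← hbm _ _ _ h3 (hcoc h R), map_mul, Equiv.Perm.mul_apply]
      congr 1
      group
    · show α (g * h) = α g * α h
      rw [map_mul]
  have hmem : ∀ (R : S) (g : G), g ∈ R.1 ↔ (t R)⁻¹ * g * t R ∈ (r R).1 := by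
    intro R g
    rw [← mem_cact S hinv, ← hα, ht]
  have hR1 : ∀ (g : G) (R : S), g ∈ R.1 → (ρ g).s R = 1 ∧ (ρ g).p R = R := by
    intro g R hgR
    have h2 : α g R = R := by
      rw [hα, cact_fix]
      exact hle R g hgR
    refine ⟨?_, ?_⟩
    · rw [hρs, hb1 _ _ (hcoc g R), h2, ← hmem]
      exact hgR
    · rw [hρp]
      exact h2
  refine mono_quot hC S (fsum B) hH N K hKN hQ ρ ?_ ?_ ?_
  · intro g hg
    have h2 := (h1 g (hKN hg)).1 hg
    apply Wr.ext
    · funext R
      exact (hR1 g R (h2 R.1 R.2)).1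
    · ext1 R
      exact (hR1 g R (h2 R.1 R.2)).2
  · intro g hg hg1
    refine (h1 g hg).2 fun R hR => ?_
    have h2 : α g ⟨R, hR⟩ = ⟨R, hR⟩ := by
      rw [← hρp, hg1]
      rfl
    have h3 : b (r ⟨R, hR⟩) ((t (α g ⟨R, hR⟩))⁻¹ * g * t ⟨R, hR⟩) = 1 := by
      rw [← hρs, hg1]
      rfl
    rw [hb1 _ _ (hcoc g ⟨R, hR⟩), h2, ← hmem] at h3
    exact h3
  · intro g hg
    refine ((hfin g hg).subset ?_ : (wsupp (ρ g)).Finite)
    intro R hR hgR
    rcases hR with h | h
    · exact h (hR1 g R hgR).1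
    · exact h (hR1 g R hgR).2

end res

end Q30.FJ
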