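import Pool.Agent.Q30.FJ.Hnn

/-!
# The subgroup generated by a normal subgroup and one element of infinite order modulo it

It is a directed colimit of HNN extensions.
-/

set_option autoImplicit false

namespace Q30.FJ

open Pool.Agent.Y110.FJ

section col

variable {G : Type} [Group G] (g : G)

/-- the base -/
def ME (E : Set G) : Subgroup G := Subgroup.closure (E ∪ (fun x => g * x * g⁻¹) '' E)

/-- the first associated subgroup -/
def AE (E : Set G) : Subgroup (ME g E) := (Subgroup.closure E).subgroupOf (ME g E)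

/-- the second associated subgroup -/
def BE (E : Set G) : Subgroup (ME g E) :=
  (Subgroup.closure ((fun x => g * x * g⁻¹) '' E)).subgroupOf (ME g E)

theorem le_ME (E : Set G) : Subgroup.closure E ≤ ME g E :=
  Subgroup.closure_mono Set.subset_union_left

theorem le_ME' (E : Set G) : Subgroup.closure ((fun x => g * x * g⁻¹) '' E) ≤ ME g E :=
  Subgroup.closure_mono Set.subset_union_right

theorem cj_mem (E : Set G) {x : G} (hx : x ∈ Subgroup.closure E) :
    g * x * g⁻¹ ∈ Subgroup.closure ((fun x => g * x * g⁻¹) '' E) := by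
  have h := MonoidHom.map_closure (MulAut.conj g).toMonoidHom E
  have h2 : (MulAut.conj g).toMonoidHom x ∈ (Subgroup.closure E).map (MulAut.conj g).toMonoidHom :=
    ⟨x, hx, rfl⟩
  rw [h] at h2
  exact h2

theorem cj_mem' (E : Set G) {x : G} (hx : x ∈ Subgroup.closure ((fun x => g * x * g⁻¹) '' E)) :
    g⁻¹ * x * g ∈ Subgroup.closure E := by
  have h := MonoidHom.map_closure (MulAut.conj g).toMonoidHom E
  have h2 : x ∈ (Subgroup.closure E).map (MulAut.conj g).toMonoidHom := by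
    rw [h]; exact hx
  obtain ⟨y, hy, rfl⟩ := h2
  have : g⁻¹ * ((MulAut.conj g).toMonoidHom y) * g = y := by
    simp [MulAut.conj_apply, mul_assoc]
  rw [this]
  exact hy

/-- conjugation by `g` -/
def phiE (E : Set G) : AE g E ≃* BE g E where
  toFun a := ⟨⟨g * (a : G) * g⁻¹, le_ME' g E (cj_mem g E a.2)⟩, cj_mem g E a.2⟩
  invFun b := ⟨⟨g⁻¹ * (b : G) * g, le_ME g E (cj_mem' g E b.2)⟩, cj_mem' g E b.2⟩
  left_inv a := by
    apply Subtype.ext; apply Subtype.ext
    show g⁻¹ * (g * ((a : ME g E) : G) * g⁻¹) * g = ((a : ME g E) : G)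
    group
  right_inv b := by
    apply Subtype.ext; apply Subtype.ext
    show g * (g⁻¹ * ((b : ME g E) : G) * g) * g⁻¹ = ((b : ME g E) : G)
    group
  map_mul' a b := by
    apply Subtype.ext; apply Subtype.ext
    show g * (((a : ME g E) : G) * ((b : ME g E) : G)) * g⁻¹ =
      g * ((a : ME g E) : G) * g⁻¹ * (g * ((b : ME g E) : G) * g⁻¹)
    group

theorem phiE_coe (E : Set G) (a : AE g E) :
    ((phiE g E a : ME g E) : G) = g * ((a : ME g E) : G) * g⁻¹ := rfl

/-- the HNN extension -/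
abbrev HE (E : Set G) : Type := HNNExtension (ME g E) (AE g E) (BE g E) (phiE g E)

theorem ME_mono {E E' : Set G} (h : E ⊆ E') : ME g E ≤ ME g E' :=
  Subgroup.closure_mono (Set.union_subset_union h (Set.image_mono h))

/-- the map of the HNN extensions -/
def fE {E E' : Set G} (h : E ⊆ E') : HE g E →* HE g E' :=
  HNNExtension.lift (HNNExtension.of.comp (Subgroup.inclusion (ME_mono g h))) HNNExtension.t (by
    intro a
    have ha : Subgroup.inclusion (ME_mono g h) (a : ME g E) ∈ AE g E' :=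
      Subgroup.closure_mono h a.2
    have h1 := HNNExtension.t_mul_of (φ := phiE g E')
      (⟨Subgroup.inclusion (ME_mono g h) (a : ME g E), ha⟩ : AE g E')
    exact h1)

theorem fE_of {E E' : Set G} (h : E ⊆ E') (m : ME g E) :
    fE g h (HNNExtension.of m) = HNNExtension.of (Subgroup.inclusion (ME_mono g h) m) :=
  HNNExtension.lift_of _ _ _ m

theorem fE_t {E E' : Set G} (h : E ⊆ E') : fE g h HNNExtension.t = HNNExtension.t :=
  HNNExtension.lift_t _ _ _

theorem fE_id {E : Set G} (h : E ⊆ E) (x : HE g E) : fE g h x = x := by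
  have : fE g h = MonoidHom.id _ := by
    apply HNNExtension.hom_ext
    · ext m
      show fE g h (HNNExtension.of m) = HNNExtension.of m
      rw [fE_of]; rfl
    · exact fE_t g h
  exact DFunLike.congr_fun this x

theorem fE_comp {E E' E'' : Set G} (h : E ⊆ E') (h' : E' ⊆ E'') (x : HE g E) :
    fE g h' (fE g h x) = fE g (h.trans h') x := by
  have : (fE g h').comp (fE g h) = fE g (h.trans h') := by
    apply HNNExtension.hom_ext
    · ext m
      show fE g h' (fE g h (HNNExtension.of m)) = fE g (h.trans h') (HNNExtension.of m)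
      rw [fE_of, fE_of, fE_of]; rfl
    · show fE g h' (fE g h HNNExtension.t) = fE g (h.trans h') HNNExtension.t
      rw [fE_t, fE_t, fE_t]
  exact DFunLike.congr_fun this x

variable (N : Subgroup G) [hNn : N.Normal]

theorem ME_le {E : Set G} (hE : E ⊆ N) : ME g E ≤ N := by
  rw [ME, Subgroup.closure_le]
  rintro x (hx | ⟨y, hy, rfl⟩)
  · exact hE hx
  · exact hNn.conj_mem y (hE hy) g

/-- the map to the subgroup -/
def gE {E : Set G} (hE : E ⊆ N) : HE g E →* ↥(N ⊔ Subgroup.zpowers g) :=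
  HNNExtension.lift (Subgroup.inclusion ((ME_le g N hE).trans le_sup_left))
    ⟨g, Subgroup.mem_sup_right (Subgroup.mem_zpowers g)⟩ (by
      intro a
      apply Subtype.ext
      show g * ((a : ME g E) : G) = g * ((a : ME g E) : G) * g⁻¹ * g
      group)

theorem gE_of {E : Set G} (hE : E ⊆ N) (m : ME g E) :
    ((gE g N hE (HNNExtension.of m) : ↥(N ⊔ Subgroup.zpowers g)) : G) = (m : G) := by
  rw [gE, HNNExtension.lift_of]; rfl

theorem gE_t {E : Set G} (hE : E ⊆ N) :
    ((gE g N hE HNNExtension.t : ↥(N ⊔ Subgroup.zpowers g)) : G) = g := by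
  rw [gE, HNNExtension.lift_t]

theorem gE_fE {E E' : Set G} (h : E ⊆ E') (hE : E ⊆ N) (hE' : E' ⊆ N) (x : HE g E) :
    gE g N hE' (fE g h x) = gE g N hE x := by
  have : (gE g N hE').comp (fE g h) = gE g N hE := by
    apply HNNExtension.hom_ext
    · ext m
      show ((gE g N hE' (fE g h (HNNExtension.of m)) : ↥(N ⊔ Subgroup.zpowers g)) : G) =
        ((gE g N hE (HNNExtension.of m) : ↥(N ⊔ Subgroup.zpowers g)) : G)
      rw [fE_of, gE_of, gE_of]; rfl
    · apply Subtype.ext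
      show ((gE g N hE' (fE g h HNNExtension.t) : ↥(N ⊔ Subgroup.zpowers g)) : G) =
        ((gE g N hE HNNExtension.t : ↥(N ⊔ Subgroup.zpowers g)) : G)
      rw [fE_t, gE_t, gE_t]
  exact DFunLike.congr_fun this x

/-- moving the stable letter across an element -/
theorem move (E : Set G) (x y : ME g E) (hx : (x : G) ∈ E) (hy : (y : G) = g * x * g⁻¹) :
    (HNNExtension.t : HE g E) * HNNExtension.of x = HNNExtension.of y * HNNExtension.t := by
  have ha : x ∈ AE g E := Subgroup.subset_closure hx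
  have h1 := HNNExtension.t_mul_of (φ := phiE g E) (⟨x, ha⟩ : AE g E)
  have h2 : ((phiE g E ⟨x, ha⟩ : BE g E) : ME g E) = y := by
    apply Subtype.ext
    rw [phiE_coe, hy]
  rw [h2] at h1
  exact h1

theorem move_pow (E : Set G) : ∀ (k : ℕ) (x : ME g E),
    (∀ j : ℕ, j ≤ k → g ^ j * (x : G) * (g ^ j)⁻¹ ∈ E) →
    ∃ y : ME g E, (y : G) = g ^ k * (x : G) * (g ^ k)⁻¹ ∧
      (HNNExtension.t : HE g E) ^ k * HNNExtension.of x = HNNExtension.of y * HNNExtension.t ^ k := by
  intro k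
  induction k with
  | zero => intro x _; exact ⟨x, by simp, by simp⟩
  | succ k ih =>
    intro x hx
    obtain ⟨y, hy1, hy2⟩ := ih x (fun j hj => hx j (by omega))
    have hyE : (y : G) ∈ E := by rw [hy1]; exact hx k (by omega)
    have hz : g * (y : G) * g⁻¹ ∈ ME g E :=
      Subgroup.subset_closure (Or.inr ⟨_, hyE, rfl⟩)
    refine ⟨⟨_, hz⟩, ?_, ?_⟩
    · show g * (y : G) * g⁻¹ = _
      rw [hy1, pow_succ']
      group
    · rw [pow_succ', mul_assoc, hy2, ← mul_assoc, move g E y ⟨_, hz⟩ hyE rfl, mul_assoc, ← pow_succ']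

theorem move_inv (E : Set G) : ∀ (k : ℕ) (x : ME g E),
    (∀ j : ℕ, j ≤ k → (g ^ j)⁻¹ * (x : G) * g ^ j ∈ E) →
    ∃ y : ME g E, (y : G) = (g ^ k)⁻¹ * (x : G) * g ^ k ∧
      ((HNNExtension.t : HE g E) ^ k)⁻¹ * HNNExtension.of x =
        HNNExtension.of y * (HNNExtension.t ^ k)⁻¹ := by
  intro k
  induction k with
  | zero => intro x _; exact ⟨x, by simp, by simp⟩
  | succ k ih =>
    intro x hx
    obtain ⟨y, hy1, hy2⟩ := ih x (fun j hj => hx j (by omega))
    have hzE : (g ^ (k + 1))⁻¹ * (x : G) * g ^ (k + 1) ∈ E := hx (k + 1) le_rfl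
    have hz : (g ^ (k + 1))⁻¹ * (x : G) * g ^ (k + 1) ∈ ME g E :=
      Subgroup.subset_closure (Or.inl hzE)
    have h1 := move g E ⟨_, hz⟩ y hzE (by
      show (y : G) = g * ((g ^ (k + 1))⁻¹ * (x : G) * g ^ (k + 1)) * g⁻¹
      rw [hy1, pow_succ']
      group)
    refine ⟨⟨_, hz⟩, rfl, ?_⟩
    have h2 : (HNNExtension.t : HE g E)⁻¹ * HNNExtension.of y =
        HNNExtension.of (⟨_, hz⟩ : ME g E) * HNNExtension.t⁻¹ := by
      rw [inv_mul_eq_iff_eq_mul, ← mul_assoc, h1, mul_inv_cancel_right]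
    rw [pow_succ, mul_inv_rev, mul_assoc, hy2, ← mul_assoc, h2, mul_assoc, ← mul_inv_rev,
      ← pow_succ]

/-- every element is eventually of the form `n t ^ k` -/
theorem normal_form : ∀ (E : Finset G), (E : Set G) ⊆ N → ∀ w : HE g (E : Set G),
    ∃ (E' : Finset G) (h : (E : Set G) ⊆ E') (_ : (E' : Set G) ⊆ N) (n : ME g (E' : Set G)) (k : ℤ),
      fE g h w = HNNExtension.of n * HNNExtension.t ^ k := by
  classical
  intro E hE w
  -- one step: conjugates of `n` are added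
  have key : ∀ (E₁ : Finset G), (E₁ : Set G) ⊆ N → ∀ (n : ME g (E₁ : Set G)) (k : ℤ),
      ∃ (E' : Finset G) (h : (E₁ : Set G) ⊆ E') (_ : (E' : Set G) ⊆ N) (m : ME g (E' : Set G)),
        (HNNExtension.t : HE g (E' : Set G)) ^ k * fE g h (HNNExtension.of n) =
          HNNExtension.of m * HNNExtension.t ^ k := by
    intro E₁ hE₁ n k
    have hnN : (n : G) ∈ N := ME_le g N hE₁ n.2
    obtain ⟨F, hF⟩ : ∃ F : Finset G, F = E₁ ∪
        ((Finset.range (k.natAbs + 1)).image fun j : ℕ => g ^ j * (n : G) * (g ^ j)⁻¹) ∪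
        ((Finset.range (k.natAbs + 1)).image fun j : ℕ => (g ^ j)⁻¹ * (n : G) * g ^ j) := ⟨_, rfl⟩
    have h1 : (E₁ : Set G) ⊆ F := by
      intro x hx
      rw [hF]
      simp only [Finset.coe_union, Set.mem_union]
      exact Or.inl (Or.inl hx)
    have h2 : (F : Set G) ⊆ N := by
      intro x hx
      rw [hF] at hx
      simp only [Finset.coe_union, Finset.coe_image, Set.mem_union, Set.mem_image] at hx
      rcases hx with (hx | ⟨j, _, rfl⟩) | ⟨j, _, rfl⟩
      · exact hE₁ hx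
      · exact hNn.conj_mem _ hnN _
      · have := hNn.conj_mem _ hnN (g ^ j)⁻¹
        rwa [inv_inv] at this
    have h3 : ∀ j : ℕ, j ≤ k.natAbs → g ^ j * (n : G) * (g ^ j)⁻¹ ∈ (F : Set G) := by
      intro j hj
      rw [hF]
      simp only [Finset.coe_union, Finset.coe_image, Set.mem_union, Set.mem_image]
      exact Or.inl (Or.inr ⟨j, by simpa using Nat.lt_succ_of_le hj, rfl⟩)
    have h4 : ∀ j : ℕ, j ≤ k.natAbs → (g ^ j)⁻¹ * (n : G) * g ^ j ∈ (F : Set G) := by
      intro j hj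
      rw [hF]
      simp only [Finset.coe_union, Finset.coe_image, Set.mem_union, Set.mem_image]
      exact Or.inr ⟨j, by simpa using Nat.lt_succ_of_le hj, rfl⟩
    refine ⟨F, h1, h2, ?_⟩
    rw [fE_of]
    rcases Int.natAbs_eq k with hk | hk
    · obtain ⟨y, -, hy⟩ := move_pow g (F : Set G) k.natAbs
        (Subgroup.inclusion (ME_mono g h1) n) h3
      refine ⟨y, ?_⟩
      rw [hk, zpow_natCast]
      exact hy
    · obtain ⟨y, -, hy⟩ := move_inv g (F : Set G) k.natAbs
        (Subgroup.inclusion (ME_mono g h1) n) h4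
      refine ⟨y, ?_⟩
      rw [hk, zpow_neg, zpow_natCast]
      exact hy
  induction w using HNNExtension.induction_on with
  | of m => exact ⟨E, subset_rfl, hE, m, 0, by rw [fE_id, zpow_zero, mul_one]⟩
  | t => exact ⟨E, subset_rfl, hE, 1, 1, by rw [fE_id, zpow_one, map_one, one_mul]⟩
  | mul x y hx hy =>
    obtain ⟨E₁, h₁, hN₁, n₁, k₁, e₁⟩ := hx
    obtain ⟨E₂, h₂, hN₂, n₂, k₂, e₂⟩ := hy
    have hu1 : (E₁ : Set G) ⊆ (E₁ ∪ E₂ : Finset G) := by
      rw [Finset.coe_union]; exact Set.subset_union_left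
    have hu2 : (E₂ : Set G) ⊆ (E₁ ∪ E₂ : Finset G) := by
      rw [Finset.coe_union]; exact Set.subset_union_right
    have hu : ((E₁ ∪ E₂ : Finset G) : Set G) ⊆ N := by
      rw [Finset.coe_union]; exact Set.union_subset hN₁ hN₂
    obtain ⟨F, hF1, hF2, m, hm⟩ := key (E₁ ∪ E₂) hu (Subgroup.inclusion (ME_mono g hu2) n₂) k₁
    refine ⟨F, h₁.trans (hu1.trans hF1), hF2,
      Subgroup.inclusion (ME_mono g (hu1.trans hF1)) n₁ * m, k₁ + k₂, ?_⟩
    have e1 : fE g (h₁.trans (hu1.trans hF1)) x =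
        HNNExtension.of (Subgroup.inclusion (ME_mono g (hu1.trans hF1)) n₁) *
          HNNExtension.t ^ k₁ := by
      rw [← fE_comp g h₁ (hu1.trans hF1), e₁, map_mul, map_zpow, fE_of, fE_t]
    have e2 : fE g (h₁.trans (hu1.trans hF1)) y =
        fE g hF1 (HNNExtension.of (Subgroup.inclusion (ME_mono g hu2) n₂)) *
          HNNExtension.t ^ k₂ := by
      have : fE g (h₁.trans (hu1.trans hF1)) y = fE g (h₂.trans (hu2.trans hF1)) y := rfl
      rw [this, ← fE_comp g h₂ (hu2.trans hF1), e₂, map_mul, map_zpow, fE_of, fE_t, fE_of]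
      rfl
    rw [map_mul, e1, e2, map_mul, zpow_add]
    rw [mul_assoc, ← mul_assoc (HNNExtension.t ^ k₁), hm]
    simp only [mul_assoc]
  | inv x hx =>
    obtain ⟨E₁, h₁, hN₁, n₁, k₁, e₁⟩ := hx
    obtain ⟨F, hF1, hF2, m, hm⟩ := key E₁ hN₁ n₁⁻¹ (-k₁)
    refine ⟨F, h₁.trans hF1, hF2, m, -k₁, ?_⟩
    rw [← hm, map_inv, ← fE_comp g h₁ hF1, e₁, map_mul, mul_inv_rev, map_zpow, fE_t, map_inv,
      map_inv, zpow_neg]

end col

theorem t_col (hhnn : S_HNN) : S_COL := by
  classical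
  intro C hC G _ N hN g hg hreal
  let I : Type := {E : Finset G // (E : Set G) ⊆ N}
  have : Nonempty I := ⟨⟨∅, by simp⟩⟩
  refine hC.base.colim I (fun i j => ⟨⟨i.1 ∪ j.1, by
      rw [Finset.coe_union]; exact Set.union_subset i.2 j.2⟩, ?_, ?_⟩)
    (fun i => HE g (i.1 : Set G)) (fun i j h => fE g (Finset.coe_subset.2 h))
    ↥(N ⊔ Subgroup.zpowers g) (fun i => gE g N i.2) ?_ ?_ ?_ ?_ ?_ ?_
  · exact Finset.subset_union_left
  · exact Finset.subset_union_right
  · intro i h x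
    exact fE_id g _ x
  · intro i j k h h' x
    exact fE_comp g _ _ x
  · intro i j h x
    exact gE_fE g N _ i.2 j.2 x
  · rintro ⟨y, hy⟩
    have hy' : y ∈ ((N ⊔ Subgroup.zpowers g : Subgroup G) : Set G) := hy
    rw [Subgroup.normal_mul] at hy'
    obtain ⟨n, hn, z, ⟨k, rfl⟩, rfl⟩ := hy'
    have hE : (({n} : Finset G) : Set G) ⊆ N := by
      simpa using hn
    refine ⟨⟨{n}, hE⟩, HNNExtension.of ⟨n, Subgroup.subset_closure (Or.inl (by simp))⟩ *
      HNNExtension.t ^ k, ?_⟩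
    apply Subtype.ext
    rw [map_mul, map_zpow]
    show ((gE g N hE (HNNExtension.of _) : ↥(N ⊔ Subgroup.zpowers g)) : G) *
      (((gE g N hE HNNExtension.t) ^ k : ↥(N ⊔ Subgroup.zpowers g)) : G) = _
    rw [Subgroup.coe_zpow, gE_of, gE_t]
  · intro i x hx
    obtain ⟨F, h, hF, n, k, e⟩ := normal_form g N i.1 i.2 x
    refine ⟨⟨F, hF⟩, Finset.coe_subset.1 h, ?_⟩
    show fE g h x = 1
    have h1 : gE g N hF (fE g h x) = 1 := by
      rw [gE_fE g N h i.2 hF]; exact hx
    rw [e, map_mul, map_zpow] at h1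
    have h2 : (n : G) * g ^ k = 1 := by
      have h3 := congrArg (fun z : ↥(N ⊔ Subgroup.zpowers g) => (z : G)) h1
      simp only [Subgroup.coe_mul, Subgroup.coe_zpow, gE_of, gE_t, Subgroup.coe_one] at h3
      exact h3
    have h4 : g ^ k ∈ N := by
      rw [← mul_eq_one_iff_inv_eq.1 h2]
      exact N.inv_mem (ME_le g N hF n.2)
    have hk : k = 0 := by
      by_contra hk
      rcases Int.natAbs_eq k with hk' | hk'
      · exact hg k.natAbs (Int.natAbs_pos.2 hk) (by rw [hk', zpow_natCast] at h4; exact h4)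
      · exact hg k.natAbs (Int.natAbs_pos.2 hk) (by
          rw [hk', zpow_neg, zpow_natCast] at h4
          exact (N.inv_mem_iff).1 h4)
    rw [hk, zpow_zero, mul_one] at h2
    have h5 : n = 1 := Subtype.ext h2
    rw [e, hk, h5, zpow_zero, map_one, one_mul]
  · intro i
    obtain ⟨P, _, f, p, hP, hf, hfp⟩ : ∃ (P : Type) (_ : Group P) (f : ME g (i.1 : Set G) →* P)
        (p : P), C P ∧ Function.Injective f ∧
        ∀ x y : ME g (i.1 : Set G), (x : G) ∈ (i.1 : Set G) → (y : G) = g * x * g⁻¹ →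
          f y = p * f x * p⁻¹ := hreal (i.1 : Set G) (Finset.finite_toSet _) i.2
    have hcl : ∀ x ∈ Subgroup.closure (i.1 : Set G), ∀ (h1 : x ∈ ME g (i.1 : Set G))
        (h2 : g * x * g⁻¹ ∈ ME g (i.1 : Set G)), p * f ⟨x, h1⟩ = f ⟨g * x * g⁻¹, h2⟩ * p := by
      intro x hx
      induction hx using Subgroup.closure_induction with
      | mem x hx =>
        intro h1 h2
        rw [hfp ⟨x, h1⟩ ⟨_, h2⟩ hx rfl, inv_mul_cancel_right]
      | one =>
        intro h1 h2
        have e1 : (⟨1, h1⟩ : ME g (i.1 : Set G)) = 1 := rfl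
        have e2 : (⟨g * 1 * g⁻¹, h2⟩ : ME g (i.1 : Set G)) = 1 := by
          apply Subtype.ext; simp
        rw [e1, e2]
        have e3 : f 1 = 1 := map_one f
        rw [e3, mul_one, one_mul]
      | mul x y hx hy ihx ihy =>
        intro h1 h2
        have hx1 := le_ME g _ hx
        have hy1 := le_ME g _ hy
        have hx2 := le_ME' g _ (cj_mem g _ hx)
        have hy2 := le_ME' g _ (cj_mem g _ hy)
        have e1 : (⟨x * y, h1⟩ : ME g (i.1 : Set G)) = ⟨x, hx1⟩ * ⟨y, hy1⟩ := rfl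
        have e2 : (⟨g * (x * y) * g⁻¹, h2⟩ : ME g (i.1 : Set G)) =
            ⟨g * x * g⁻¹, hx2⟩ * ⟨g * y * g⁻¹, hy2⟩ := by
          apply Subtype.ext
          show g * (x * y) * g⁻¹ = g * x * g⁻¹ * (g * y * g⁻¹)
          group
        rw [e1, e2]
        have e3 : f (⟨x, hx1⟩ * ⟨y, hy1⟩) = f ⟨x, hx1⟩ * f ⟨y, hy1⟩ := map_mul f _ _
        have e4 : f (⟨g * x * g⁻¹, hx2⟩ * ⟨g * y * g⁻¹, hy2⟩) =
          f ⟨g * x * g⁻¹, hx2⟩ * f ⟨g * y * g⁻¹, hy2⟩ := map_mul f _ _
        rw [e3, e4, ← mul_assoc, ihx hx1 hx2, mul_assoc, ihy hy1 hy2]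
        exact (mul_assoc _ _ _).symm
      | inv x hx ih =>
        intro h1 h2
        have hx1 := le_ME g _ hx
        have hx2 := le_ME' g _ (cj_mem g _ hx)
        have e1 : (⟨x⁻¹, h1⟩ : ME g (i.1 : Set G)) = (⟨x, hx1⟩)⁻¹ := rfl
        have e2 : (⟨g * x⁻¹ * g⁻¹, h2⟩ : ME g (i.1 : Set G)) = (⟨g * x * g⁻¹, hx2⟩)⁻¹ := by
          apply Subtype.ext
          show g * x⁻¹ * g⁻¹ = (g * x * g⁻¹)⁻¹
          group
        rw [e1, e2]
        have e3 : f (⟨x, hx1⟩)⁻¹ = (f ⟨x, hx1⟩)⁻¹ := map_inv f _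
        have e4 : f (⟨g * x * g⁻¹, hx2⟩)⁻¹ = (f ⟨g * x * g⁻¹, hx2⟩)⁻¹ := map_inv f _
        have h3 := ih hx1 hx2
        rw [e3, e4, eq_inv_mul_iff_mul_eq, ← mul_assoc, ← h3, mul_inv_cancel_right]
    have hf' : ∀ a : AE g (i.1 : Set G), p * f ((a : ME g (i.1 : Set G))) =
        f ((phiE g (i.1 : Set G) a : BE g (i.1 : Set G)) : ME g (i.1 : Set G)) * p := by
      intro a
      exact hcl _ a.2 _ _
    refine hhnn C hC (ME g (i.1 : Set G)) P (AE g _) (BE g _) (phiE g _)
      (HNNExtension.lift f p hf') ?_ hP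
    intro x y hxy
    have h1 : ∀ m, (HNNExtension.lift f p hf') (HNNExtension.of m) = f m := fun m =>
      HNNExtension.lift_of _ _ _ m
    apply hf
    have hxy' : (HNNExtension.lift f p hf') (HNNExtension.of x) =
      (HNNExtension.lift f p hf') (HNNExtension.of y) := hxy
    rwa [h1, h1] at hxy'

end Q30.FJ
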