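import Pool.Agent.Q30.FJ.Crit

/-!
# Locally finite kernels and nominal semidirect products
-/

set_option autoImplicit false

namespace Q30.FJ

open Pool.Agent.Y110.FJ
open Pool.Agent.Y462.SS (Closed)

/-- left cosets times subgroup -/
noncomputable def eqA {M : Type} [Group M] (A : Subgroup M) : M ≃ (M ⧸ A) × A where
  toFun x := ((x : M ⧸ A), ⟨((x : M ⧸ A).out)⁻¹ * x, by
    rw [← QuotientGroup.eq, QuotientGroup.out_eq']⟩)
  invFun y := y.1.out * y.2
  left_inv x := by simp
  right_inv y := by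
    obtain ⟨q, a⟩ := y
    have h1 : ((q.out * (a : M) : M) : M ⧸ A) = q := by
      rw [QuotientGroup.mk_mul_of_mem _ a.2, QuotientGroup.out_eq']
    apply Prod.ext
    · exact h1
    · apply Subtype.ext
      show ((q.out * (a : M) : M) : M ⧸ A).out⁻¹ * (q.out * (a : M)) = a
      rw [h1, inv_mul_cancel_left]

theorem eqA_mul {M : Type} [Group M] (A : Subgroup M) (x : M) (a : A) :
    eqA A (x * a) = ((eqA A x).1, (eqA A x).2 * a) := by
  have h1 : ((x * (a : M) : M) : M ⧸ A) = (x : M ⧸ A) := QuotientGroup.mk_mul_of_mem _ a.2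
  apply Prod.ext
  · exact h1
  · apply Subtype.ext
    show ((x * (a : M) : M) : M ⧸ A).out⁻¹ * (x * (a : M)) = ((x : M ⧸ A).out)⁻¹ * x * a
    rw [h1, mul_assoc]

theorem eqA_symm_mul {M : Type} [Group M] (A : Subgroup M) (q : M ⧸ A) (b a : A) :
    (eqA A).symm (q, b * a) = (eqA A).symm (q, b) * a := by
  show q.out * ((b * a : A) : M) = q.out * (b : M) * a
  rw [Subgroup.coe_mul, mul_assoc]

/-- an isomorphism of subgroups of a finite group is realized in the symmetric group -/
theorem fin_real (M : Type) [Group M] [Finite M] (A B : Subgroup M) (φ : A ≃* B) :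
    ∃ (f : M →* Equiv.Perm M) (p : Equiv.Perm M), Function.Injective f ∧
      ∀ a : A, f (φ a : M) = p * f (a : M) * p⁻¹ := by
  classical
  have := Fintype.ofFinite M
  have hcard : Nat.card (M ⧸ A) = Nat.card (M ⧸ B) := by
    have h1 := Subgroup.card_eq_card_quotient_mul_card_subgroup A
    have h2 := Subgroup.card_eq_card_quotient_mul_card_subgroup B
    have h3 : Nat.card A = Nat.card B := Nat.card_congr φ.toEquiv
    rw [h1, ← h3] at h2
    exact Nat.eq_of_mul_eq_mul_right Nat.card_pos h2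
  obtain ⟨e⟩ : Nonempty ((M ⧸ A) ≃ (M ⧸ B)) := Finite.card_eq.1 hcard
  -- the bijection
  obtain ⟨p, hp⟩ : ∃ p : Equiv.Perm M, ∀ x, p x =
      (eqA B).symm (e (eqA A x).1, φ (eqA A x).2) :=
    ⟨(eqA A).trans ((Equiv.prodCongr e φ.toEquiv).trans (eqA B).symm), fun x => rfl⟩
  let f : M →* Equiv.Perm M :=
    { toFun := fun m => Equiv.mulRight m⁻¹
      map_one' := by ext x; simp
      map_mul' := by intro a b; ext x; simp [mul_assoc] }
  refine ⟨f, p, ?_, ?_⟩
  · intro a b hab
    have h1 := congrArg (fun e : Equiv.Perm M => e 1) hab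
    simpa [f] using h1
  · intro a
    rw [eq_mul_inv_iff_mul_eq]
    ext x
    show p x * (φ a : M)⁻¹ = p (x * (a : M)⁻¹)
    have h1 : (x * (a : M)⁻¹ : M) = x * ((a⁻¹ : A) : M) := by rw [Subgroup.coe_inv]
    rw [h1, hp, hp, eqA_mul, map_mul, eqA_symm_mul, map_inv, Subgroup.coe_inv]

variable {C : ∀ (G : Type) [Group G], Prop}

/-- **locally finite kernels** -/
theorem loc_fin (hC : ClosedE C) (G : Type) [Group G] (N : Subgroup G) [N.Normal]
    (hN : ∀ E : Set G, E.Finite → E ⊆ N → Finite ↥(Subgroup.closure E)) (hQ : C (G ⧸ N)) : C G := by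
  refine crit C hC G N hQ ?_
  intro g E hE hEN
  have hfin : Finite ↥(ME g E) := by
    refine hN _ (hE.union (hE.image _)) ?_
    rintro x (hx | ⟨y, hy, rfl⟩)
    · exact hEN hx
    · exact Subgroup.Normal.conj_mem inferInstance y (hEN hy) g
  obtain ⟨f, p, hf, hp⟩ := fin_real ↥(ME g E) (AE g E) (BE g E) (phiE g E)
  have hP : C (Equiv.Perm ↥(ME g E)) := Pool.Agent.Y430.SS.of_finite hC.base _ inferInstance
  refine ⟨Equiv.Perm ↥(ME g E), inferInstance, f, p, hP, hf, ?_⟩
  intro x y hx hy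
  have hxA : x ∈ AE g E := Subgroup.subset_closure hx
  have h1 : ((phiE g E ⟨x, hxA⟩ : BE g E) : ME g E) = y := by
    apply Subtype.ext
    rw [phiE_coe]
    exact hy.symm
  have h2 := hp ⟨x, hxA⟩
  rw [h1] at h2
  exact h2

/-- a permutation agrees on a finite set with a permutation of finite order -/
theorem perm_ext {Ω : Type} (π₀ : Equiv.Perm Ω) (S : Set Ω) (hS : S.Finite) :
    ∃ (π : Equiv.Perm Ω) (k : ℕ), 0 < k ∧ π ^ k = 1 ∧ ∀ s ∈ S, π s = π₀ s := by
  classical
  let T : Set Ω := S ∪ π₀ '' S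
  have hT : T.Finite := hS.union (hS.image _)
  have := hT.fintype
  let p : T → Prop := fun x => (x : Ω) ∈ S
  let q : T → Prop := fun x => (x : Ω) ∈ π₀ '' S
  let e : {x // p x} ≃ {x // q x} :=
    { toFun := fun x => ⟨⟨π₀ x, Or.inr ⟨x, x.2, rfl⟩⟩, ⟨x, x.2, rfl⟩⟩
      invFun := fun y => ⟨⟨π₀.symm y, by
          obtain ⟨s, hs, h⟩ := y.2
          rw [← h, Equiv.symm_apply_apply]; exact Or.inl hs⟩, by
          obtain ⟨s, hs, h⟩ := y.2
          show π₀.symm ((y : T) : Ω) ∈ S
          rw [← h, Equiv.symm_apply_apply]; exact hs⟩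
      left_inv := by
        intro x
        apply Subtype.ext; apply Subtype.ext
        simp
      right_inv := by
        intro y
        apply Subtype.ext; apply Subtype.ext
        simp }
  let τ : Equiv.Perm T := e.extendSubtype
  let π : Equiv.Perm Ω := Equiv.Perm.ofSubtype τ
  refine ⟨π, orderOf τ, orderOf_pos τ, ?_, ?_⟩
  · show (Equiv.Perm.ofSubtype τ) ^ orderOf τ = 1
    rw [← map_pow, pow_orderOf_eq_one, map_one]
  · intro s hs
    have h1 : Equiv.Perm.ofSubtype τ s = τ ⟨s, Or.inl hs⟩ :=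
      Equiv.Perm.ofSubtype_apply_of_mem τ (Or.inl hs)
    have h2 : τ ⟨s, Or.inl hs⟩ = e ⟨⟨s, Or.inl hs⟩, hs⟩ :=
      Equiv.extendSubtype_apply_of_mem e ⟨s, Or.inl hs⟩ hs
    show Equiv.Perm.ofSubtype τ s = π₀ s
    rw [h1, h2]
    rfl

/-- semidirect products given by permutations of a set on which `N` depends in a finitary way -/
theorem nom : S_NOM := by
  intro C hC Ω N Q _ _ α ρ hfs hN hQ
  have hker : ∀ x : (SemidirectProduct.rightHom : N ⋊[α.comp ρ] Q →* Q).ker, x.1.right = 1 :=
    fun x => x.2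
  refine crit_loc hC (N ⋊[α.comp ρ] Q) (SemidirectProduct.rightHom : N ⋊[α.comp ρ] Q →* Q).ker ?_ ?_
  · exact hC.base.of_injective _ Q
      (QuotientGroup.quotientKerEquivOfSurjective _
        (SemidirectProduct.rightHom_surjective)).toMonoidHom
      (QuotientGroup.quotientKerEquivOfSurjective _
        (SemidirectProduct.rightHom_surjective)).injective hQ
  · intro g E hE hEN
    choose S hSf hS using hfs
    obtain ⟨π, k, hk, hπk, hπ⟩ := perm_ext (ρ g.right) (⋃ x ∈ E, S x.left)
      (hE.biUnion fun x _ => hSf x.left)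
    have hpow : ∀ j : ℕ, ∃ p : N, (MulAut.conj g.left * α π) ^ j = MulAut.conj p * (α π) ^ j := by
      intro j
      induction j with
      | zero => exact ⟨1, by simp⟩
      | succ j ih =>
        obtain ⟨p, hp⟩ := ih
        refine ⟨p * ((α π) ^ j) g.left, ?_⟩
        rw [pow_succ, hp, pow_succ]
        ext y
        simp [MulAut.mul_apply, MulAut.conj_apply, mul_assoc]
    obtain ⟨p, hp⟩ := hpow k
    rw [← map_pow, hπk, map_one, mul_one] at hp
    have hle : Subgroup.closure (E ∪ (fun x => g * x * g⁻¹) '' E) ≤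
        (SemidirectProduct.rightHom : N ⋊[α.comp ρ] Q →* Q).ker := by
      rw [Subgroup.closure_le]
      rintro x (hx | ⟨y, hy, rfl⟩)
      · exact hEN hx
      · exact Subgroup.Normal.conj_mem inferInstance y (hEN hy) g
    have hr : ∀ x : ↥(Subgroup.closure (E ∪ (fun x => g * x * g⁻¹) '' E)),
        (x : N ⋊[α.comp ρ] Q).right = 1 := fun x => hle x.2
    refine ⟨N, inferInstance, MonoidHom.mk' (fun x => (x : N ⋊[α.comp ρ] Q).left) ?_,
      MulAut.conj g.left * α π, k, p, hN, ?_, hk, hp, ?_⟩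
    · intro x y
      show ((x : N ⋊[α.comp ρ] Q) * (y : N ⋊[α.comp ρ] Q)).left = _
      rw [SemidirectProduct.mul_left, hr x, map_one]
      rfl
    · intro x y hxy
      apply Subtype.ext
      apply SemidirectProduct.ext
      · exact hxy
      · rw [hr, hr]
    · intro x y hx hy
      show (y : N ⋊[α.comp ρ] Q).left = (MulAut.conj g.left * α π) (x : N ⋊[α.comp ρ] Q).left
      have h1 : α π (x : N ⋊[α.comp ρ] Q).left = α (ρ g.right) (x : N ⋊[α.comp ρ] Q).left := by
        have h2 : α ((ρ g.right)⁻¹ * π) (x : N ⋊[α.comp ρ] Q).left =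
            (x : N ⋊[α.comp ρ] Q).left := by
          refine hS (x : N ⋊[α.comp ρ] Q).left ((ρ g.right)⁻¹ * π) ?_
          intro s hs
          rw [Equiv.Perm.mul_apply, hπ s (Set.mem_biUnion hx hs)]
          exact Equiv.symm_apply_apply _ _
        have h3 : π = ρ g.right * ((ρ g.right)⁻¹ * π) := by group
        calc α π (x : N ⋊[α.comp ρ] Q).left
            = α (ρ g.right * ((ρ g.right)⁻¹ * π)) (x : N ⋊[α.comp ρ] Q).left := by rw [← h3]
          _ = α (ρ g.right) (α ((ρ g.right)⁻¹ * π) (x : N ⋊[α.comp ρ] Q).left) := by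
            rw [map_mul, MulAut.mul_apply]
          _ = _ := by rw [h2]
      rw [MulAut.mul_apply, h1, hy, MulAut.conj_apply]
      have h4 := hr x
      simp only [SemidirectProduct.mul_left, SemidirectProduct.mul_right,
        SemidirectProduct.inv_left, MonoidHom.comp_apply, h4, mul_one]
      have h5 : (α (ρ g.right)) ((α (ρ g.right⁻¹)) g.left⁻¹) = g.left⁻¹ := by
        rw [← MulAut.mul_apply, ← map_mul, ← map_mul, mul_inv_cancel, map_one, map_one]
        rfl
      rw [h5]

end Q30.FJ
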