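import Pool.Agent.Helper741.Tits

/-!
# Coxeter groups: inclusions of parabolic subgroups
-/

set_option autoImplicit false

namespace Q30.FJ

open Pool.Agent.Helper741

/-- the Coxeter matrix induced on a subset -/
def cmap {B A : Type} (M : CoxeterMatrix B) (ι : A → B) (hι : Function.Injective ι) :
    CoxeterMatrix A where
  M := fun a b => M (ι a) (ι b)
  isSymm := by
    ext a b
    exact M.symmetric _ _
  diagonal a := M.diagonal _
  off_diagonal a b h := M.off_diagonal _ _ (hι.ne h)

section fin

variable {B B' : Type} [Fintype B] [Fintype B'] [DecidableEq B] [DecidableEq B']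
variable {M : CoxeterMatrix B} {M' : CoxeterMatrix B'}
variable {W W' : Type} [Group W] [Group W'] (cs : CoxeterSystem M W) (cs' : CoxeterSystem M' W')

theorem par_inj_fin (ι : B → B') (hι : Function.Injective ι) (hM : ∀ i j, M' (ι i) (ι j) = M i j)
    (φ : W →* W') (hφ : ∀ i, φ (cs.simple i) = cs'.simple (ι i)) : Function.Injective φ := by
  classical
  let E : (B → ℝ) →ₗ[ℝ] (B' → ℝ) := Function.ExtendByZero.linearMap ℝ ι
  have hE : ∀ i, E (ee i) = ee (ι i) := by
    intro i
    funext b
    show Function.extend ι (ee i) 0 b = ee (ι i) b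
    by_cases hb : ∃ a, ι a = b
    · obtain ⟨a, rfl⟩ := hb
      rw [hι.extend_apply]
      by_cases h : a = i
      · subst h; simp [ee]
      · simp [ee, Pi.single_apply, h, hι.ne_iff]
    · rw [Function.extend_apply' _ _ _ hb]
      have : b ≠ ι i := fun h => hb ⟨i, h.symm⟩
      simp [ee, Pi.single_apply, this]
  have hEi : Function.Injective E := by
    intro v w h
    funext a
    have h1 := congrFun h (ι a)
    have h2 : ∀ u : B → ℝ, E u (ι a) = u a := fun u => hι.extend_apply _ _ _
    rwa [h2, h2] at h1
  have hcc : ∀ i j, cc M' (ι i) (ι j) = cc M i j := by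
    intro i j
    unfold cc
    rw [hM]
  have hint : ∀ (w : W) (v : B → ℝ), geo cs' (φ w) (E v) = E (geo cs w v) := by
    intro w
    induction w using cs.simple_induction with
    | simple i =>
      intro v
      rw [hφ, geo_simple, geo_simple]
      have h1 : (sg M' (ι i)).comp E = E.comp (sg M i) := by
        apply (Pi.basisFun ℝ B).ext
        intro j
        have h2 : (Pi.basisFun ℝ B) j = ee j := by
          rw [Pi.basisFun_apply]
        rw [h2, LinearMap.comp_apply, LinearMap.comp_apply, hE, sg_ee, sg_ee, map_add, map_smul,
          hE, hE, hcc]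
      exact LinearMap.congr_fun h1 v
    | one =>
      intro v
      rw [map_one, map_one, map_one, Module.End.one_apply, Module.End.one_apply]
    | mul w w' hw hw' =>
      intro v
      rw [map_mul, map_mul, map_mul, Module.End.mul_apply, Module.End.mul_apply, hw', hw]
  rw [injective_iff_map_eq_one]
  intro w hw
  apply eq_one_of_geo cs
  intro i
  have h1 := hint w (ee i)
  rw [hw, map_one, Module.End.one_apply] at h1
  rw [← hEi h1]
  exact ee_nonneg i

end fin

end Q30.FJ
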