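import Pool.Agent.Q30.FJ.Mono
import Pool.Agent.Q30.FJ.T2

/-!
# Embedding in two-generated groups: preparations
-/

set_option autoImplicit false

namespace Q30.FJ

open Pool.Agent.Y110.FJ
open Pool.Agent.Y462.SS (Closed Wr)

/-! ### powers of two -/

theorem two_pow_eq : ∀ a j i b : ℕ, 2 ^ a + 2 ^ j = 2 ^ i + 2 ^ b →
    (a = i ∧ j = b) ∨ (a = b ∧ j = i) := by
  intro a
  induction a with
  | zero =>
    intro j i b h
    rcases j with _ | j <;> rcases i with _ | i <;> rcases b with _ | b
    · simp
    · simp only [pow_succ] at h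
      have := Nat.two_pow_pos b
      omega
    · simp only [pow_succ] at h
      have := Nat.two_pow_pos i
      omega
    · simp only [pow_succ] at h
      have := Nat.two_pow_pos i
      have := Nat.two_pow_pos b
      omega
    · simp only [pow_succ] at h
      have := Nat.two_pow_pos j
      omega
    · left
      refine ⟨rfl, ?_⟩
      have h1 : 2 ^ (j + 1) = 2 ^ (b + 1) := by omega
      exact Nat.pow_right_injective le_rfl h1
    · right
      refine ⟨rfl, ?_⟩
      have h1 : 2 ^ (j + 1) = 2 ^ (i + 1) := by omega
      exact Nat.pow_right_injective le_rfl h1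
    · simp only [pow_succ] at h
      omega
  | succ a ih =>
    intro j i b h
    rcases j with _ | j
    · rcases i with _ | i <;> rcases b with _ | b
      · simp only [pow_succ] at h
        have := Nat.two_pow_pos a
        omega
      · right
        refine ⟨?_, rfl⟩
        have h1 : 2 ^ (a + 1) = 2 ^ (b + 1) := by omega
        exact Nat.pow_right_injective le_rfl h1
      · left
        refine ⟨?_, rfl⟩
        have h1 : 2 ^ (a + 1) = 2 ^ (i + 1) := by omega
        exact Nat.pow_right_injective le_rfl h1
      · simp only [pow_succ] at h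
        omega
    · rcases i with _ | i <;> rcases b with _ | b
      · simp only [pow_succ] at h
        have := Nat.two_pow_pos a
        have := Nat.two_pow_pos j
        omega
      · simp only [pow_succ] at h
        omega
      · simp only [pow_succ] at h
        omega
      · simp only [pow_succ] at h
        have h1 := ih j i b (by omega)
        omega

/-! ### elements of the unrestricted wreath product with the integers -/

section wr

variable {H : Type} [Group H]

/-- the translation -/
def trn : Multiplicative ℤ →* Equiv.Perm ℤ where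
  toFun k := Equiv.addRight (Multiplicative.toAdd k)
  map_one' := by
    ext x
    show x + 0 = x
    rw [add_zero]
  map_mul' a b := by
    ext x
    show x + (Multiplicative.toAdd a + Multiplicative.toAdd b) =
      (x + Multiplicative.toAdd b) + Multiplicative.toAdd a
    ring

theorem trn_apply (k : Multiplicative ℤ) (x : ℤ) : trn k x = x + Multiplicative.toAdd k := rfl

/-- the shift -/
def shf (H : Type) [Group H] : Multiplicative ℤ →* Wr ℤ H where
  toFun k := ⟨fun _ => 1, trn k⟩
  map_one' := by
    apply Wr.ext
    · rfl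
    · exact map_one trn
  map_mul' a b := by
    apply Wr.ext
    · funext x
      show (1 : H) = 1 * 1
      rw [mul_one]
    · exact map_mul trn a b

/-- functions -/
def fnc : (ℤ → H) →* Wr ℤ H where
  toFun φ := ⟨φ, 1⟩
  map_one' := rfl
  map_mul' φ ψ := by
    apply Wr.ext
    · funext x
      rfl
    · rfl

theorem fnc_s (φ : ℤ → H) (x : ℤ) : (fnc φ).s x = φ x := rfl

theorem fnc_p (φ : ℤ → H) : (fnc φ).p = 1 := rfl

theorem shf_fnc (k : Multiplicative ℤ) (φ : ℤ → H) :
    shf H k * fnc φ * (shf H k)⁻¹ = fnc (fun x => φ (x - Multiplicative.toAdd k)) := by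
  rw [mul_inv_eq_iff_eq_mul]
  apply Wr.ext
  · funext x
    show (1 : H) * φ x = φ (x + Multiplicative.toAdd k - Multiplicative.toAdd k) * 1
    rw [one_mul, mul_one, add_sub_cancel_right]
  · ext x
    rfl

/-- the elements with finite support -/
def finW (X H : Type) [Group H] : Subgroup (Wr X H) where
  carrier := {a | (wsupp a).Finite}
  one_mem' := by
    rw [Set.mem_ofPred_eq, wsupp_one]
    exact Set.finite_empty
  mul_mem' {a b} ha hb := (Set.Finite.union ha hb).subset (wsupp_mul a b)
  inv_mem' {a} ha := Set.Finite.subset ha (wsupp_inv a)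

theorem mem_finW {X : Type} (a : Wr X H) : a ∈ finW X H ↔ (wsupp a).Finite := Iff.rfl

theorem wsupp_conj {X : Type} (g a : Wr X H) : wsupp (g * a * g⁻¹) ⊆ g.p '' wsupp a := by
  intro w hw
  obtain ⟨z, rfl⟩ := g.p.surjective w
  refine ⟨z, ?_, rfl⟩
  by_contra hz
  obtain ⟨h1, h2⟩ := not_wsupp hz
  have h3 : g * a * g⁻¹ * g = g * a := by group
  rcases hw with h | h
  · apply h
    have h4 := congrArg (fun c : Wr X H => c.s z) h3
    simp only [Wr.mul_s] at h4
    rw [h2, h1, mul_one] at h4
    exact mul_eq_right.1 h4
  · apply h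
    have h4 := congrArg (fun c : Wr X H => c.p z) h3
    simp only [Wr.mul_p, Equiv.Perm.mul_apply] at h4
    rw [h2] at h4
    exact h4

instance (X : Type) : (finW X H).Normal := by
  constructor
  intro a ha g
  exact (Set.Finite.image _ ha).subset (wsupp_conj g a)

end wr

/-! ### the group of the functions which are eventually constant on the right -/

/-- functions which are `1` near `-∞` and constant near `+∞`, and translations -/
def EC (G : Type) [Group G] : Subgroup (Wr ℤ G × (G × Multiplicative ℤ)) where
  carrier := {w | w.1.p = trn w.2.2 ∧ ∃ n₀ : ℤ, (∀ n, n₀ ≤ n → w.1.s n = w.2.1) ∧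
    (∀ n, n ≤ -n₀ → w.1.s n = 1)}
  one_mem' := by
    refine ⟨?_, 0, fun _ _ => rfl, fun _ _ => rfl⟩
    exact (map_one trn).symm
  mul_mem' := by
    rintro a b ⟨ha, na, ha1, ha2⟩ ⟨hb, nb, hb1, hb2⟩
    refine ⟨?_, |na| + |nb| + |Multiplicative.toAdd b.2.2|, ?_, ?_⟩
    · show a.1.p * b.1.p = trn (a.2.2 * b.2.2)
      rw [ha, hb, map_mul]
    · intro n hn
      show a.1.s (b.1.p n) * b.1.s n = a.2.1 * b.2.1
      have e1 := le_abs_self na
      have e2 := le_abs_self nb
      have e3 := neg_abs_le (Multiplicative.toAdd b.2.2)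
      have e4 := abs_nonneg na
      have e5 := abs_nonneg nb
      have e6 := abs_nonneg (Multiplicative.toAdd b.2.2)
      rw [hb, trn_apply, ha1 _ (by linarith), hb1 _ (by linarith)]
    · intro n hn
      show a.1.s (b.1.p n) * b.1.s n = 1
      have e1 := le_abs_self na
      have e2 := le_abs_self nb
      have e3 := le_abs_self (Multiplicative.toAdd b.2.2)
      have e4 := abs_nonneg na
      have e5 := abs_nonneg nb
      have e6 := abs_nonneg (Multiplicative.toAdd b.2.2)
      rw [hb, trn_apply, ha2 _ (by linarith), hb2 _ (by linarith), mul_one]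
  inv_mem' := by
    rintro a ⟨ha, na, ha1, ha2⟩
    refine ⟨?_, |na| + |Multiplicative.toAdd a.2.2|, ?_, ?_⟩
    · show (a.1.p)⁻¹ = trn (a.2.2)⁻¹
      rw [ha, map_inv]
    · intro n hn
      show (a.1.s (a.1.p⁻¹ n))⁻¹ = (a.2.1)⁻¹
      have h1 : a.1.p⁻¹ n = n + Multiplicative.toAdd (a.2.2)⁻¹ := by
        rw [ha, ← map_inv, trn_apply]
      have e0 : Multiplicative.toAdd (a.2.2)⁻¹ = - Multiplicative.toAdd a.2.2 := rfl
      have e1 := le_abs_self na
      have e3 := le_abs_self (Multiplicative.toAdd a.2.2)
      rw [h1, e0, ha1 _ (by linarith)]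
    · intro n hn
      show (a.1.s (a.1.p⁻¹ n))⁻¹ = 1
      have h1 : a.1.p⁻¹ n = n + Multiplicative.toAdd (a.2.2)⁻¹ := by
        rw [ha, ← map_inv, trn_apply]
      have e0 : Multiplicative.toAdd (a.2.2)⁻¹ = - Multiplicative.toAdd a.2.2 := rfl
      have e1 := le_abs_self na
      have e3 := neg_abs_le (Multiplicative.toAdd a.2.2)
      rw [h1, e0, ha2 _ (by linarith), inv_one]

variable {C : ∀ (G : Type) [Group G], Prop}

theorem ec_mem (hC : ClosedE C) (G : Type) [Group G] (hG : C G) : C (EC G) := by
  let π : EC G →* G × Multiplicative ℤ := (MonoidHom.snd _ _).comp (EC G).subtype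
  let ρ : EC G →* Wr ℤ G := (MonoidHom.fst _ _).comp (EC G).subtype
  refine mono_kernel hC ℤ G hG (EC G) π.ker ?_ ρ ?_ ?_
  · exact hC.base.of_injective _ _ (QuotientGroup.kerLift π) (QuotientGroup.kerLift_injective π)
      (hC.base.prod _ _ hG hC.base.int)
  · intro w hw h1
    have h2 : w.1.2 = 1 := hw
    have h3 : w.1.1 = 1 := h1
    apply Subtype.ext
    exact Prod.ext h3 h2
  · intro w hw
    have h2 : w.1.2 = 1 := hw
    obtain ⟨h3, n₀, h4, h5⟩ := w.2
    refine (Set.finite_Icc (-n₀) n₀).subset ?_
    intro n hn
    have hp : w.1.1.p n = n := by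
      rw [h3, h2]
      exact add_zero n
    have hs : w.1.1.s n ≠ 1 := by
      rcases hn with h | h
      · exact h
      · exact absurd hp h
    constructor
    · by_contra hc
      exact hs (h5 n (by linarith))
    · by_contra hc
      apply hs
      rw [h4 n (by linarith), h2]
      rfl

end Q30.FJ
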