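import Pool.Agent.Q30.FJ.Emb1

/-!
# Countable groups in the class embed in two-generated groups in the class
-/

set_option autoImplicit false

namespace Q30.FJ

open Pool.Agent.Y110.FJ
open Pool.Agent.Y462.SS (Closed Wr)

/-! ### the sparse function -/

section sparse

variable {H : Type} [Group H] (h : ℕ → H)

open Classical in
/-- the value `h i` at `2 ^ i` -/
noncomputable def spf (n : ℤ) : H := if hn : ∃ i : ℕ, n = 2 ^ i then h hn.choose else 1

theorem spf_pow (i : ℕ) : spf h (2 ^ i) = h i := by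
  have hn : ∃ j : ℕ, (2 : ℤ) ^ i = 2 ^ j := ⟨i, rfl⟩
  rw [spf, dif_pos hn]
  have h1 := hn.choose_spec
  have h2 : (2 : ℕ) ^ i = 2 ^ hn.choose := by exact_mod_cast h1
  rw [← Nat.pow_right_injective le_rfl h2]

theorem spf_ne {n : ℤ} (hn : spf h n ≠ 1) : ∃ i : ℕ, n = 2 ^ i := by
  by_contra hc
  apply hn
  rw [spf, dif_neg hc]

/-- the shifted function -/
noncomputable def spv (v : ℤ) : Wr ℤ H := fnc (fun x => spf h (x - v))

theorem shf_spv (k : Multiplicative ℤ) (v : ℤ) :
    shf H k * spv h v * (shf H k)⁻¹ = spv h (Multiplicative.toAdd k + v) := by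
  rw [spv, shf_fnc, spv]
  congr 1
  funext x
  congr 1
  ring

/-- the commutator of two shifted functions -/
theorem spv_comm (v w : ℤ) :
    spv h v * spv h w * (spv h v)⁻¹ * (spv h w)⁻¹ =
      fnc (fun x => spf h (x - v) * spf h (x - w) * (spf h (x - v))⁻¹ * (spf h (x - w))⁻¹) := by
  rw [spv, spv, ← map_inv, ← map_inv, ← map_mul, ← map_mul, ← map_mul]
  rfl

theorem spv_fin {v w : ℤ} (hvw : v ≠ w) :
    spv h v * spv h w * (spv h v)⁻¹ * (spv h w)⁻¹ ∈ finW ℤ H := by
  rw [spv_comm, mem_finW]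
  refine (Set.finite_Icc v (v + 2 * |w - v|)).subset ?_
  intro n hn
  have hs : spf h (n - v) * spf h (n - w) * (spf h (n - v))⁻¹ * (spf h (n - w))⁻¹ ≠ 1 := by
    rcases hn with hn | hn
    · exact hn
    · exact absurd rfl hn
  have h1 : spf h (n - v) ≠ 1 := by
    intro h0
    apply hs
    rw [h0]
    simp
  have h2 : spf h (n - w) ≠ 1 := by
    intro h0
    apply hs
    rw [h0]
    simp
  obtain ⟨i, hi⟩ := spf_ne h h1
  obtain ⟨j, hj⟩ := spf_ne h h2
  have hij : i ≠ j := by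
    rintro rfl
    apply hvw
    linarith
  have hpi : (0 : ℤ) < 2 ^ i := by positivity
  have hpj : (0 : ℤ) < 2 ^ j := by positivity
  have e1 : w - v = 2 ^ i - 2 ^ j := by linarith
  constructor
  · linarith
  · rw [e1]
    rcases lt_or_gt_of_ne hij with hlt | hlt
    · have h3 : (2 : ℤ) ^ (i + 1) ≤ 2 ^ j := pow_le_pow_right₀ (by norm_num) hlt
      rw [pow_succ] at h3
      have h4 := neg_abs_le ((2 : ℤ) ^ i - 2 ^ j)
      linarith
    · have h3 : (2 : ℤ) ^ (j + 1) ≤ 2 ^ i := pow_le_pow_right₀ (by norm_num) hlt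
      rw [pow_succ] at h3
      have h4 := le_abs_self ((2 : ℤ) ^ i - 2 ^ j)
      linarith

theorem spv_single {i j : ℕ} (hij : i ≠ j) :
    spv h 0 * spv h (2 ^ i - 2 ^ j) * (spv h 0)⁻¹ * (spv h (2 ^ i - 2 ^ j))⁻¹ =
      fnc (fun x => if x = 2 ^ i then h i * h j * (h i)⁻¹ * (h j)⁻¹ else 1) := by
  rw [spv_comm]
  congr 1
  funext x
  by_cases hx : x = 2 ^ i
  · rw [if_pos hx, hx, sub_zero, spf_pow, sub_sub_cancel, spf_pow]
  · rw [if_neg hx]
    by_contra hs
    have h1 : spf h (x - 0) ≠ 1 := by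
      intro h0
      apply hs
      rw [h0]
      simp
    have h2 : spf h (x - (2 ^ i - 2 ^ j)) ≠ 1 := by
      intro h0
      apply hs
      rw [h0]
      simp
    obtain ⟨a, ha⟩ := spf_ne h h1
    obtain ⟨b, hb⟩ := spf_ne h h2
    rw [sub_zero] at ha
    have h3 : (2 : ℤ) ^ a + 2 ^ j = 2 ^ i + 2 ^ b := by
      rw [← hb, ha]
      ring
    have h4 : 2 ^ a + 2 ^ j = 2 ^ i + 2 ^ b := by exact_mod_cast h3
    rcases two_pow_eq a j i b h4 with ⟨h5, -⟩ | ⟨-, h5⟩
    · apply hx
      rw [ha, h5]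
    · exact hij h5.symm

end sparse

/-! ### the graph product over the complete graph -/

theorem gtop_eq_one {V A : Type} [DecidableEq V] [Group A]
    (x : GrP (⊤ : SimpleGraph V) (fun _ => A))
    (h : ∀ v, gvert (⊤ : SimpleGraph V) (fun _ => A) v x = 1) : x = 1 := by
  obtain ⟨S, hS⟩ := gsupp (⊤ : SimpleGraph V) (fun _ => A) x
  induction S using Finset.induction_on generalizing x with
  | empty =>
    have h1 : gsub (⊤ : SimpleGraph V) (fun _ => A) ((∅ : Finset V) : Set V) = ⊥ := by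
      rw [gsub, Subgroup.closure_eq_bot_iff]
      rintro _ ⟨v, hv, -⟩
      simp at hv
    rw [h1] at hS
    exact Subgroup.mem_bot.1 hS
  | insert v S hv ih =>
    rw [Finset.coe_insert] at hS
    obtain ⟨l, hl, a, hx⟩ := gstar (Λ := (⊤ : SimpleGraph V)) (A := fun _ => A) (L := (S : Set V))
      (fun w hw => by
        rw [SimpleGraph.top_adj]
        rintro rfl
        exact hv (by exact_mod_cast hw)) x hS
    have hlv : gvert (⊤ : SimpleGraph V) (fun _ => A) v l = 1 := by
      have h1 : gsub (⊤ : SimpleGraph V) (fun _ => A) (S : Set V) ≤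
          (gvert (⊤ : SimpleGraph V) (fun _ => A) v).ker := by
        rw [gsub, Subgroup.closure_le]
        rintro _ ⟨w, hw, b, rfl⟩
        have hwv : w ≠ v := by
          rintro rfl
          exact hv (by exact_mod_cast hw)
        exact gvert_of_ne (Λ := (⊤ : SimpleGraph V)) (A := fun _ => A) hwv b
      exact h1 hl
    have ha : a = 1 := by
      have h1 := h v
      rw [hx, map_mul, hlv, one_mul, gvert_of] at h1
      exact h1
    rw [ha, map_one, mul_one] at hx
    rw [hx] at h ⊢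
    exact ih l h hl

/-! ### the construction -/

/-- a group is torsion-free if `1` is the only element of finite order -/
def TorsionFree (G : Type) [Group G] : Prop := ∀ (g : G) (n : ℕ), 0 < n → g ^ n = 1 → g = 1

theorem tf_int : TorsionFree (Multiplicative ℤ) := by
  intro g n hn h
  have h1 : (n : ℤ) * Multiplicative.toAdd g = 0 := by
    have h2 := congrArg Multiplicative.toAdd h
    rw [toAdd_pow, toAdd_one, nsmul_eq_mul] at h2
    exact h2
  rcases mul_eq_zero.1 h1 with h2 | h2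
  · omega
  · exact h2

theorem wr_pow_s {X H : Type} [Group H] (a : Wr X H) (ha : a.p = 1) (n : ℕ) (x : X) :
    (a ^ n).s x = a.s x ^ n := by
  induction n with
  | zero => rw [pow_zero, pow_zero]; rfl
  | succ n ih => rw [pow_succ, Wr.mul_s, ha, Equiv.Perm.one_apply, ih, pow_succ]

theorem ec_tf {G : Type} [Group G] (hG : TorsionFree G) : TorsionFree (EC G) := by
  rintro ⟨⟨a, h, k⟩, hw⟩ n hn hwn
  have h1 : a ^ n = 1 := congrArg (fun z : EC G => z.1.1) hwn
  have h2 : h ^ n = 1 := congrArg (fun z : EC G => z.1.2.1) hwn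
  have h3 : k ^ n = 1 := congrArg (fun z : EC G => z.1.2.2) hwn
  have hk := tf_int k n hn h3
  have hh := hG h n hn h2
  have hp : a.p = 1 := by
    rw [hw.1, hk, map_one]
  have hs : ∀ x, a.s x = 1 := by
    intro x
    apply hG _ n hn
    rw [← wr_pow_s a hp, h1]
    rfl
  apply Subtype.ext
  have ha : a = 1 := Wr.ext (funext hs) hp
  exact Prod.ext ha (Prod.ext hh hk)

variable {C : ∀ (G : Type) [Group G], Prop}

/-- **the two-generated group**, for a group `H` and a sequence of elements of `H` -/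
theorem two_gen (hC : ClosedE C) (H : Type) [Group H] (hH : C H) (h : ℕ → H) :
    ∃ (Γ : Type) (_ : Group Γ) (a b : Γ), C Γ ∧ Subgroup.closure {a, b} = ⊤ ∧
      (TorsionFree H → TorsionFree Γ) ∧
      ∃ ι : ↥(Subgroup.closure {z : H | ∃ i j, i ≠ j ∧ z = h i * h j * (h i)⁻¹ * (h j)⁻¹}) →* Γ,
        Function.Injective ι := by
  classical
  obtain ⟨Λ, hΛdef⟩ : ∃ Λ : SimpleGraph ℤ, Λ = ⊤ := ⟨_, rfl⟩
  have hΛ : ∀ (q : Multiplicative ℤ) (v w : ℤ), Λ.Adj v w → Λ.Adj (q • v) (q • w) := by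
    intro q v w hvw
    rw [hΛdef, SimpleGraph.top_adj] at hvw ⊢
    exact fun h0 => hvw (MulAction.injective q h0)
  obtain ⟨α, hα⟩ := gact_exists (A := Multiplicative ℤ) Λ hΛ
  have hZ : C (GrP Λ (fun _ => Multiplicative ℤ) ⋊[α] Multiplicative ℤ) :=
    gw C hC ℤ _ _ Λ α hΛ (fun q v x => hα q v x) hC.base.int hC.base.int
  -- the homomorphism to the germs
  have hrel : GWRel (Q := Multiplicative ℤ) (A := Multiplicative ℤ) Λ
      (H := Wr ℤ H ⧸ finW ℤ H) (fun v => zpowersHom _ (QuotientGroup.mk' (finW ℤ H) (spv h v)))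
      ((QuotientGroup.mk' (finW ℤ H)).comp (shf H)) := by
    constructor
    · intro v w hvw x y
      rw [hΛdef, SimpleGraph.top_adj] at hvw
      have h1 : Commute (QuotientGroup.mk' (finW ℤ H) (spv h v))
          (QuotientGroup.mk' (finW ℤ H) (spv h w)) := by
        have h2 : QuotientGroup.mk' (finW ℤ H) (spv h v * spv h w * (spv h v)⁻¹ * (spv h w)⁻¹) =
            1 := (QuotientGroup.eq_one_iff _).2 (spv_fin h hvw)
        rw [map_mul, map_mul, map_mul, map_inv, map_inv, mul_inv_eq_one, mul_inv_eq_iff_eq_mul] at h2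
        exact h2
      rw [zpowersHom_apply, zpowersHom_apply]
      exact (h1.zpow_zpow _ _).eq
    · intro q v x
      rw [zpowersHom_apply, zpowersHom_apply, ← conj_zpow, MonoidHom.comp_apply, ← map_inv,
        ← map_mul, ← map_mul, shf_spv]
      rfl
  obtain ⟨Φ, hΦ1, hΦ2⟩ := gsemi_lift Λ α hα _ _ _ hrel
  -- the generators
  obtain ⟨t₀, ht₀⟩ : ∃ t₀ : Multiplicative ℤ, t₀ = Multiplicative.ofAdd 1 := ⟨_, rfl⟩
  obtain ⟨u, hu⟩ : ∃ u : Wr ℤ H × (GrP Λ (fun _ => Multiplicative ℤ) ⋊[α] Multiplicative ℤ),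
    u = (spv h 0, SemidirectProduct.inl (GrP.of Λ (fun _ => Multiplicative ℤ) 0 t₀)) := ⟨_, rfl⟩
  obtain ⟨y, hy⟩ : ∃ y : Wr ℤ H × (GrP Λ (fun _ => Multiplicative ℤ) ⋊[α] Multiplicative ℤ),
    y = (shf H t₀, SemidirectProduct.inr t₀) := ⟨_, rfl⟩
  obtain ⟨W, hW⟩ : ∃ W, W = Subgroup.closure {u, y} := ⟨_, rfl⟩
  have huW : u ∈ W := by rw [hW]; exact Subgroup.subset_closure (by simp)
  have hyW : y ∈ W := by rw [hW]; exact Subgroup.subset_closure (by simp)
  -- the kernel of the second projection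
  have hker : ∀ w ∈ W, QuotientGroup.mk' (finW ℤ H) w.1 = Φ w.2 := by
    have h1 : W ≤ MonoidHom.eqLocus ((QuotientGroup.mk' (finW ℤ H)).comp (MonoidHom.fst _ _))
        (Φ.comp (MonoidHom.snd _ _)) := by
      rw [hW, Subgroup.closure_le]
      rintro w (hw | hw)
      · show QuotientGroup.mk' (finW ℤ H) w.1 = Φ w.2
        rw [hw, hu, hΦ1, zpowersHom_apply, ht₀, toAdd_ofAdd, zpow_one]
      · show QuotientGroup.mk' (finW ℤ H) w.1 = Φ w.2
        rw [Set.mem_singleton_iff.1 hw, hy, hΦ2]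
        rfl
    exact fun w hw => h1 hw
  have hperm : ∀ w ∈ W, w.1.p = trn w.2.right := by
    have h1 : W ≤ MonoidHom.eqLocus
        ((MonoidHom.mk' (fun a : Wr ℤ H => a.p) (fun _ _ => rfl)).comp (MonoidHom.fst _ _))
        ((trn.comp SemidirectProduct.rightHom).comp (MonoidHom.snd _ _)) := by
      rw [hW, Subgroup.closure_le]
      rintro w (hw | hw)
      · show w.1.p = trn w.2.right
        rw [hw, hu]
        exact (map_one trn).symm
      · show w.1.p = trn w.2.right
        rw [Set.mem_singleton_iff.1 hw, hy]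
        rfl
    exact fun w hw => h1 hw
  -- membership in the class
  have hCW : C W := by
    let π : W →* (GrP Λ (fun _ => Multiplicative ℤ) ⋊[α] Multiplicative ℤ) :=
      (MonoidHom.snd _ _).comp W.subtype
    let ρ : W →* Wr ℤ H := (MonoidHom.fst _ _).comp W.subtype
    refine mono_kernel hC ℤ H hH W π.ker ?_ ρ ?_ ?_
    · exact hC.base.of_injective _ _ (QuotientGroup.kerLift π) (QuotientGroup.kerLift_injective π)
        hZ
    · intro w hw h1
      have h2 : w.1.2 = 1 := hw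
      have h3 : w.1.1 = 1 := h1
      apply Subtype.ext
      exact Prod.ext h3 h2
    · intro w hw
      have h2 : w.1.2 = 1 := hw
      have h3 := hker w.1 w.2
      rw [h2, map_one] at h3
      exact (QuotientGroup.eq_one_iff _).1 h3
  -- torsion
  have htf : TorsionFree H → TorsionFree W := by
    rintro hHt ⟨⟨a, z⟩, hw⟩ n hn hwn
    have h1 : a ^ n = 1 := congrArg (fun z : W => z.1.1) hwn
    have h2 : z ^ n = 1 := congrArg (fun z : W => z.1.2) hwn
    have h3 : z.right = 1 := by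
      apply tf_int _ n hn
      have h4 := congrArg (SemidirectProduct.rightHom) h2
      rw [map_pow, map_one] at h4
      exact h4
    have hp : a.p = 1 := by
      have h4 := hperm _ hw
      rw [h3, map_one] at h4
      exact h4
    have hs : ∀ x, a.s x = 1 := by
      intro x
      apply hHt _ n hn
      rw [← wr_pow_s a hp, h1]
      rfl
    have hz : z = SemidirectProduct.inl z.left := by
      apply SemidirectProduct.ext
      · rfl
      · exact h3
    have hz1 : z.left = 1 := by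
      rw [hz, ← map_pow] at h2
      have h5 : z.left ^ n = 1 := SemidirectProduct.inl_injective (h2.trans (map_one _).symm)
      subst hΛdef
      apply gtop_eq_one
      intro v
      apply tf_int _ n hn
      rw [← map_pow, h5, map_one]
    have hz2 : z = 1 := by rw [hz, hz1, map_one]
    apply Subtype.ext
    have ha : a = 1 := Wr.ext (funext hs) hp
    exact Prod.ext ha hz2
  -- the embedded group
  have hyk : ∀ k : ℤ, y ^ k = (shf H (Multiplicative.ofAdd k),
      SemidirectProduct.inr (Multiplicative.ofAdd k)) := by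
    intro k
    have h1 : t₀ ^ k = Multiplicative.ofAdd k := by
      rw [ht₀, ← ofAdd_zsmul, smul_eq_mul, mul_one]
    rw [hy, Prod.pow_mk, ← map_zpow, ← map_zpow, h1]
  have hcomm : ∀ i j : ℕ, i ≠ j →
      ((fnc (Pi.mulSingle 0 (h i * h j * (h i)⁻¹ * (h j)⁻¹)), 1) :
        Wr ℤ H × (GrP Λ (fun _ => Multiplicative ℤ) ⋊[α] Multiplicative ℤ)) ∈ W := by
    intro i j hij
    obtain ⟨k, hk⟩ : ∃ k : ℤ, k = 2 ^ i - 2 ^ j := ⟨_, rfl⟩
    obtain ⟨u', hu'⟩ : ∃ u', u' = y ^ k * u * (y ^ k)⁻¹ := ⟨_, rfl⟩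
    have hu'W : u' ∈ W := by
      rw [hu']
      exact W.mul_mem (W.mul_mem (W.zpow_mem hyW k) huW) (W.inv_mem (W.zpow_mem hyW k))
    have hu'1 : u' = (spv h k, SemidirectProduct.inl (GrP.of Λ (fun _ => Multiplicative ℤ) k t₀)) := by
      rw [hu', hyk, hu]
      apply Prod.ext
      · show shf H (Multiplicative.ofAdd k) * spv h 0 * (shf H (Multiplicative.ofAdd k))⁻¹ = spv h k
        rw [shf_spv, toAdd_ofAdd, add_zero]
      · have h5 := (gsemi_rel Λ α hα).2 (Multiplicative.ofAdd k) 0 t₀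
        refine Eq.trans h5 ?_
        show SemidirectProduct.inl (GrP.of Λ (fun _ => Multiplicative ℤ)
          ((Multiplicative.ofAdd k) • (0 : ℤ)) t₀) = _
        have h6 : (Multiplicative.ofAdd k) • (0 : ℤ) = k := add_zero k
        rw [h6]
    have hc : u * u' * u⁻¹ * u'⁻¹ =
        (fnc (fun x => if x = 2 ^ i then h i * h j * (h i)⁻¹ * (h j)⁻¹ else 1), 1) := by
      rw [hu'1, hu]
      apply Prod.ext
      · show spv h 0 * spv h k * (spv h 0)⁻¹ * (spv h k)⁻¹ = _
        rw [hk]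
        exact spv_single h hij
      · have hk0 : (0 : ℤ) ≠ k := by
          intro h0
          rw [hk] at h0
          have h1 : (2 : ℤ) ^ i = 2 ^ j := by linarith
          have h2 : (2 : ℕ) ^ i = 2 ^ j := by exact_mod_cast h1
          exact hij (Nat.pow_right_injective le_rfl h2)
        have h5 := (gsemi_rel Λ α hα).1 0 k (by rw [hΛdef, SimpleGraph.top_adj]; exact hk0) t₀ t₀
        have h6 : ∀ p q : GrP Λ (fun _ => Multiplicative ℤ) ⋊[α] Multiplicative ℤ,
            p * q = q * p → p * q * p⁻¹ * q⁻¹ = 1 := by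
          intro p q hpq
          rw [hpq]
          group
        exact h6 _ _ h5
    have hcW : u * u' * u⁻¹ * u'⁻¹ ∈ W :=
      W.mul_mem (W.mul_mem (W.mul_mem huW hu'W) (W.inv_mem huW)) (W.inv_mem hu'W)
    have hfin : y ^ (-(2 : ℤ) ^ i) * (u * u' * u⁻¹ * u'⁻¹) * (y ^ (-(2 : ℤ) ^ i))⁻¹ =
        (fnc (Pi.mulSingle 0 (h i * h j * (h i)⁻¹ * (h j)⁻¹)), 1) := by
      rw [hc, hyk]
      apply Prod.ext
      · show shf H (Multiplicative.ofAdd (-(2 : ℤ) ^ i)) * fnc _ *
          (shf H (Multiplicative.ofAdd (-(2 : ℤ) ^ i)))⁻¹ = _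
        rw [shf_fnc]
        congr 1
        funext x
        rw [toAdd_ofAdd, sub_neg_eq_add]
        by_cases hx : x = 0
        · subst hx
          rw [zero_add, if_pos rfl, Pi.mulSingle_eq_same]
        · rw [if_neg (fun h0 => hx (by linarith)), Pi.mulSingle_eq_of_ne hx]
      · show SemidirectProduct.inr (Multiplicative.ofAdd (-(2 : ℤ) ^ i)) * 1 *
          (SemidirectProduct.inr (Multiplicative.ofAdd (-(2 : ℤ) ^ i)))⁻¹ = 1
        rw [mul_one, mul_inv_cancel]
    rw [← hfin]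
    exact W.mul_mem (W.mul_mem (W.zpow_mem hyW _) hcW) (W.inv_mem (W.zpow_mem hyW _))
  let ι₀ : H →* Wr ℤ H × (GrP Λ (fun _ => Multiplicative ℤ) ⋊[α] Multiplicative ℤ) :=
    (MonoidHom.inl _ _).comp (fnc.comp (MonoidHom.mulSingle (fun _ : ℤ => H) 0))
  have hι₀ : ∀ z, ι₀ z = (fnc (Pi.mulSingle 0 z), 1) := fun z => rfl
  have hι₀W : ∀ z ∈ Subgroup.closure {z : H | ∃ i j, i ≠ j ∧ z = h i * h j * (h i)⁻¹ * (h j)⁻¹},
      ι₀ z ∈ W := by
    have h1 : Subgroup.closure {z : H | ∃ i j, i ≠ j ∧ z = h i * h j * (h i)⁻¹ * (h j)⁻¹} ≤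
        W.comap ι₀ := by
      rw [Subgroup.closure_le]
      rintro _ ⟨i, j, hij, rfl⟩
      exact hcomm i j hij
    exact fun z hz => h1 hz
  refine ⟨W, inferInstance, ⟨u, huW⟩, ⟨y, hyW⟩, hCW, ?_, htf,
    MonoidHom.mk' (fun z => ⟨ι₀ z, hι₀W z.1 z.2⟩) ?_, ?_⟩
  · have h1 := Subgroup.closure_closure_coe_preimage (k := ({u, y} : Set _))
    have h2 : (Subgroup.closure ({⟨u, huW⟩, ⟨y, hyW⟩} : Set W)).map W.subtype = W := by
      rw [MonoidHom.map_closure]
      conv_rhs => rw [hW]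
      congr 1
      rw [Set.image_pair]
      rfl
    apply Subgroup.map_injective W.subtype_injective
    rw [h2, ← MonoidHom.range_eq_map, Subgroup.range_subtype]
  · intro z z'
    apply Subtype.ext
    exact map_mul ι₀ _ _
  · intro z z' hzz
    have h1 : ι₀ (z : H) = ι₀ (z' : H) := congrArg Subtype.val hzz
    have h2 := congrArg (fun w => w.1.s 0) h1
    rw [hι₀, hι₀] at h2
    simp only [fnc_s, Pi.mulSingle_eq_same] at h2
    exact Subtype.ext h2

/-- **embedding theorem** -/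
theorem embed (hC : ClosedE C) (G : Type) [Group G] [Countable G] (hG : C G) :
    ∃ (Γ : Type) (_ : Group Γ) (a b : Γ) (ι : G →* Γ), C Γ ∧ Subgroup.closure {a, b} = ⊤ ∧
      Function.Injective ι ∧ (TorsionFree G → TorsionFree Γ) := by
  classical
  -- the elements of EC G
  have hcg : ∀ g : G, ∃ z : EC G, z.1 = (fnc (fun n => if 0 ≤ n then g else 1), (g, 1)) := by
    intro g
    refine ⟨⟨_, (map_one trn).symm, 1, ?_, ?_⟩, rfl⟩
    · intro n hn
      exact if_pos (by linarith)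
    · intro n hn
      exact if_neg (by linarith)
  choose cg hcg using hcg
  obtain ⟨tt, htt⟩ : ∃ z : EC G, z.1 = (shf G (Multiplicative.ofAdd 1), (1, Multiplicative.ofAdd 1)) := by
    refine ⟨⟨_, rfl, 0, ?_, ?_⟩, rfl⟩
    · intro n hn
      rfl
    · intro n hn
      rfl
  have hne : ∀ g, cg g ≠ tt := by
    intro g h0
    have h1 := congrArg (fun z : EC G => z.1.2.2) h0
    simp only [hcg, htt] at h1
    exact absurd h1 (by decide)
  have hcomm : ∀ g : G, (cg g * tt * (cg g)⁻¹ * tt⁻¹).1 = (fnc (Pi.mulSingle 0 g), (1, 1)) := by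
    intro g
    have h0 : (cg g * tt * (cg g)⁻¹ * tt⁻¹).1 = (cg g).1 * (tt.1 * ((cg g).1)⁻¹ * (tt.1)⁻¹) := by
      rw [Subgroup.coe_mul, Subgroup.coe_mul, Subgroup.coe_mul, Subgroup.coe_inv, Subgroup.coe_inv]
      group
    rw [h0, hcg, htt]
    apply Prod.ext
    · show fnc (fun n => if 0 ≤ n then g else 1) * (shf G (Multiplicative.ofAdd 1) *
        (fnc (fun n => if 0 ≤ n then g else 1))⁻¹ * (shf G (Multiplicative.ofAdd 1))⁻¹) = _
      rw [← map_inv, shf_fnc, ← map_mul]
      congr 1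
      funext x
      show (if 0 ≤ x then g else 1) * (if 0 ≤ x - Multiplicative.toAdd (Multiplicative.ofAdd (1 : ℤ))
        then g else 1)⁻¹ = (Pi.mulSingle 0 g : ℤ → G) x
      rw [toAdd_ofAdd]
      rcases lt_trichotomy x 0 with hx | hx | hx
      · rw [if_neg (by linarith), if_neg (by linarith), inv_one, mul_one,
          Pi.mulSingle_eq_of_ne hx.ne]
      · subst hx
        rw [if_pos le_rfl, if_neg (by norm_num), inv_one, mul_one, Pi.mulSingle_eq_same]
      · rw [if_pos hx.le, if_pos (by linarith), mul_inv_cancel, Pi.mulSingle_eq_of_ne hx.ne']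
    · apply Prod.ext
      · show g * (1 * g⁻¹ * 1⁻¹) = 1
        rw [inv_one, one_mul, mul_one, mul_inv_cancel]
      · show (1 : Multiplicative ℤ) * (Multiplicative.ofAdd 1 * 1⁻¹ * (Multiplicative.ofAdd 1)⁻¹) = 1
        rw [inv_one, mul_one, mul_inv_cancel, one_mul]
  -- a sequence
  have hcount : (insert tt (Set.range cg)).Countable := (Set.countable_range cg).insert tt
  obtain ⟨h, hh⟩ := hcount.exists_eq_range (Set.insert_nonempty _ _)
  have hi : ∀ g, ∃ i, h i = cg g := by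
    intro g
    have h1 : cg g ∈ Set.range h := by
      rw [← hh]
      exact Set.mem_insert_of_mem _ ⟨g, rfl⟩
    exact h1
  obtain ⟨j, hj⟩ : ∃ j, h j = tt := by
    have h1 : tt ∈ Set.range h := by
      rw [← hh]
      exact Set.mem_insert _ _
    exact h1
  obtain ⟨Γ, _, a, b, hΓ, hab, htf, ι, hι⟩ := two_gen hC (EC G) (ec_mem hC G hG) h
  obtain ⟨ε, hε⟩ : ∃ ε : G →* EC G, ∀ g, ε g = cg g * tt * (cg g)⁻¹ * tt⁻¹ := by
    refine ⟨MonoidHom.mk' (fun g => cg g * tt * (cg g)⁻¹ * tt⁻¹) ?_, fun g => rfl⟩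
    intro g g'
    apply Subtype.ext
    show (cg (g * g') * tt * (cg (g * g'))⁻¹ * tt⁻¹).1 =
      (cg g * tt * (cg g)⁻¹ * tt⁻¹).1 * (cg g' * tt * (cg g')⁻¹ * tt⁻¹).1
    rw [hcomm, hcomm, hcomm]
    apply Prod.ext
    · show fnc (Pi.mulSingle 0 (g * g')) = fnc (Pi.mulSingle 0 g) * fnc (Pi.mulSingle 0 g')
      rw [← map_mul, ← Pi.mulSingle_mul]
    · show ((1 : G), (1 : Multiplicative ℤ)) = (1, 1) * (1, 1)
      rw [Prod.mk_mul_mk, mul_one, mul_one]
  have hεm : ∀ g, ε g ∈ Subgroup.closure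
      {z : EC G | ∃ i j, i ≠ j ∧ z = h i * h j * (h i)⁻¹ * (h j)⁻¹} := by
    intro g
    obtain ⟨i, hi⟩ := hi g
    apply Subgroup.subset_closure
    refine ⟨i, j, ?_, ?_⟩
    · rintro rfl
      exact hne g (hi.symm.trans hj)
    · rw [hε, hi, hj]
  refine ⟨Γ, inferInstance, a, b, ι.comp (MonoidHom.mk' (fun g => ⟨ε g, hεm g⟩) ?_), hΓ, hab, ?_,
    fun hG => htf (ec_tf hG)⟩
  · intro g g'
    apply Subtype.ext
    exact map_mul ε g g'
  · intro g g' hgg
    have h1 := congrArg Subtype.val (hι hgg)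
    have h2 : ε g = ε g' := h1
    have h3 := congrArg (fun z : EC G => z.1.1.s 0) h2
    simp only [hε, hcomm, fnc_s, Pi.mulSingle_eq_same] at h3
    exact h3

end Q30.FJ
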