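import Pool.Agent.Q30.FJ.FPr

/-!
# Kernels of retractions of graph products are graph products
-/

set_option autoImplicit false

namespace Q30.FJ

open Pool.Agent.Y462.SS (Wr)

section nc

variable {G : Type} [Group G]

/-- the subgroup generated by the `N`-conjugates of the subgroups `A u` -/
def nc (N : Subgroup G) {U : Type} (A : U → Subgroup G) : Subgroup G :=
  Subgroup.closure {x | ∃ n ∈ N, ∃ u, ∃ a ∈ A u, x = n * a * n⁻¹}

variable {N : Subgroup G} {U : Type} {A : U → Subgroup G}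

theorem mem_nc {n a : G} (hn : n ∈ N) {u : U} (ha : a ∈ A u) : n * a * n⁻¹ ∈ nc N A :=
  Subgroup.subset_closure ⟨n, hn, u, a, ha, rfl⟩

theorem le_nc (u : U) : A u ≤ nc N A := by
  intro a ha
  have h1 := mem_nc (N := N) N.one_mem ha
  have h2 : (1 : G) * a * 1⁻¹ = a := by group
  rwa [h2] at h1

theorem nc_le_of {M : Subgroup G} (hM : ∀ n ∈ N, ∀ x ∈ M, n * x * n⁻¹ ∈ M)
    (hA : ∀ u, A u ≤ M) : nc N A ≤ M := by
  rw [nc, Subgroup.closure_le]
  rintro _ ⟨n, hn, u, a, ha, rfl⟩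
  exact hM n hn a (hA u ha)

theorem nc_le (hA : ∀ u, A u ≤ N) : nc N A ≤ N :=
  nc_le_of (fun _ hn _ hx => N.mul_mem (N.mul_mem hn hx) (N.inv_mem hn)) hA

theorem nc_conj {n : G} (hn : n ∈ N) {x : G} (hx : x ∈ nc N A) : n * x * n⁻¹ ∈ nc N A := by
  have h : nc N A ≤ (nc N A).comap (MulAut.conj n).toMonoidHom := by
    rw [nc, Subgroup.closure_le]
    rintro _ ⟨m, hm, u, a, ha, rfl⟩
    have h1 := mem_nc (A := A) (N.mul_mem hn hm) ha
    have h2 : n * m * a * (n * m)⁻¹ = n * (m * a * m⁻¹) * n⁻¹ := by group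
    rw [h2] at h1
    exact h1
  exact h hx

theorem nc_normal (h : ∀ (g : G) (u : U), ∃ u', ∃ n ∈ N, Maps (n * g) (A u) (A u')) :
    (nc N A).Normal := by
  constructor
  intro x hx g
  have h0 : nc N A ≤ (nc N A).comap (MulAut.conj g).toMonoidHom := by
    rw [nc, Subgroup.closure_le]
    rintro _ ⟨m, hm, u, a, ha, rfl⟩
    obtain ⟨u', n, hn, hu⟩ := h (g * m) u
    have h1 := mem_nc (A := A) (N.inv_mem hn) ((hu a).1 ha)
    have h2 : n⁻¹ * (n * (g * m) * a * (n * (g * m))⁻¹) * n⁻¹⁻¹ = g * (m * a * m⁻¹) * g⁻¹ := by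
      group
    rw [h2] at h1
    exact h1
  exact h0 hx

theorem nc_hom {H : Type} [Group H] (hA : ∀ u, A u ≤ N) (φ : N →* H)
    (hφ : ∀ u (a : G) (ha : a ∈ A u), φ ⟨a, hA u ha⟩ = 1) {x : G} (hx : x ∈ nc N A) (hxN : x ∈ N) :
    φ ⟨x, hxN⟩ = 1 := by
  have h0 : nc N A ≤ φ.ker.map N.subtype := by
    apply nc_le_of
    · rintro n hn _ ⟨y, hy, rfl⟩
      exact ⟨⟨n, hn⟩ * y * ⟨n, hn⟩⁻¹, (inferInstance : φ.ker.Normal).conj_mem y hy _, rfl⟩
    · intro u a ha
      exact ⟨⟨a, hA u ha⟩, hφ u a ha, rfl⟩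
  obtain ⟨y, hy, hyx⟩ := h0 hx
  have h1 : y = ⟨x, hxN⟩ := Subtype.ext hyx
  rw [← h1]
  exact hy

end nc

/-- `N` is given by its subgroups `A v` and `Q` with the commutation relations between `A v` and
`A w` for adjacent `v`, `w` and between `A v` and `L v` -/
structure Rel {G : Type} [Group G] {U : Type} (Λ : SimpleGraph U) (A : U → Subgroup G)
    (Q : Subgroup G) (L : U → Subgroup G) (N : Subgroup G) : Prop where
  le : ∀ v, A v ≤ N
  leQ : Q ≤ N
  leL : ∀ v, L v ≤ Q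
  gen : ∀ M : Subgroup G, (∀ v, A v ≤ M) → Q ≤ M → N ≤ M
  comm : ∀ v w, Λ.Adj v w → ∀ a ∈ A v, ∀ b ∈ A w, a * b = b * a
  commL : ∀ v, ∀ a ∈ A v, ∀ b ∈ L v, a * b = b * a
  univ : ∀ (H : Type) [Group H] (f : ∀ v, A v →* H) (h : Q →* H),
    (∀ v w, Λ.Adj v w → ∀ (a : A v) (b : A w), f v a * f w b = f w b * f v a) →
    (∀ v (a : A v) (b : L v), f v a * h ⟨b, leL v b.2⟩ = h ⟨b, leL v b.2⟩ * f v a) →
    ∃ φ : N →* H, (∀ v (a : A v), φ ⟨a, le v a.2⟩ = f v a) ∧
      ∀ x : Q, φ ⟨x, leQ x.2⟩ = h x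

section rel

variable {G : Type} [Group G] {U : Type} {Λ : SimpleGraph U} {A : U → Subgroup G}
  {Q : Subgroup G} {L : U → Subgroup G} {N : Subgroup G}

/-- the index set of the kernel -/
abbrev RelI (Q : Subgroup G) (L : U → Subgroup G) : Type := Σ v : U, Q ⧸ (L v).subgroupOf Q

/-- the graph of the kernel -/
def relG (Λ : SimpleGraph U) (Q : Subgroup G) (L : U → Subgroup G) : SimpleGraph (RelI Q L) where
  Adj i j := Λ.Adj i.1 j.1 ∧ ∃ x : Q, QuotientGroup.mk x = i.2 ∧ QuotientGroup.mk x = j.2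
  symm := ⟨fun i j h => ⟨h.1.symm, by
    obtain ⟨x, h1, h2⟩ := h.2
    exact ⟨x, h2, h1⟩⟩⟩
  loopless := ⟨fun i h => h.1.ne rfl⟩

/-- the vertex groups of the kernel -/
noncomputable def relA (A : U → Subgroup G) (Q : Subgroup G) (L : U → Subgroup G)
    (i : RelI Q L) : Subgroup G :=
  (A i.1).map (MulAut.conj (i.2.out : G)).toMonoidHom

theorem mem_relA {i : RelI Q L} {x : G} :
    x ∈ relA A Q L i ↔ (i.2.out : G)⁻¹ * x * (i.2.out : G) ∈ A i.1 := mem_map_conj _ _ _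

theorem Rel.conj_out (h : Rel Λ A Q L N) (v : U) (q : Q) {a : G} (ha : a ∈ A v) :
    (((QuotientGroup.mk q : Q ⧸ (L v).subgroupOf Q).out : Q) : G) * a *
      (((QuotientGroup.mk q : Q ⧸ (L v).subgroupOf Q).out : Q) : G)⁻¹ = q * a * (q : G)⁻¹ := by
  obtain ⟨r, hr⟩ : ∃ r : Q, r = (QuotientGroup.mk q : Q ⧸ (L v).subgroupOf Q).out := ⟨_, rfl⟩
  rw [← hr]
  have h1 : (QuotientGroup.mk r : Q ⧸ (L v).subgroupOf Q) = QuotientGroup.mk q := by
    rw [hr]
    exact QuotientGroup.out_eq' _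
  have h2' : r⁻¹ * q ∈ (L v).subgroupOf Q := QuotientGroup.eq.1 h1
  have h2 : (r⁻¹ * q : Q).1 ∈ L v := h2'
  have h3 := h.commL v a ha _ h2
  have h4 : (q : G) = r * (r⁻¹ * q : Q).1 := by
    show (q : G) = r * ((r : G)⁻¹ * q)
    group
  rw [h4]
  obtain ⟨l, hl⟩ : ∃ l, l = (r⁻¹ * q : Q).1 := ⟨_, rfl⟩
  rw [← hl] at h3 ⊢
  have h5 : r * l * a * (r * l : G)⁻¹ = r * (l * a * l⁻¹) * (r : G)⁻¹ := by group
  rw [h5, ← h3]
  group

theorem Rel.relA_le (h : Rel Λ A Q L N) (i : RelI Q L) : relA A Q L i ≤ nc N A := by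
  intro x hx
  rw [mem_relA] at hx
  have h1 := mem_nc (N := N) (h.leQ i.2.out.2) hx
  have h2 : (i.2.out : G) * ((i.2.out : G)⁻¹ * x * (i.2.out : G)) * (i.2.out : G)⁻¹ = x := by group
  rwa [h2] at h1

theorem Rel.mem_of (h : Rel Λ A Q L N) {M : Subgroup G} (hM : ∀ i, relA A Q L i ≤ M) (v : U)
    {q : G} (hq : q ∈ Q) {a : G} (ha : a ∈ A v) : q * a * q⁻¹ ∈ M := by
  have h1 := h.conj_out v ⟨q, hq⟩ ha
  have h2 : q * a * q⁻¹ = ((⟨q, hq⟩ : Q) : G) * a * ((⟨q, hq⟩ : Q) : G)⁻¹ := rfl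
  rw [h2, ← h1]
  apply hM ⟨v, QuotientGroup.mk ⟨q, hq⟩⟩
  rw [mem_relA]
  have h3 : ∀ r : G, r⁻¹ * (r * a * r⁻¹) * r = a := fun r => by group
  rw [h3]
  exact ha

/-- the conjugates by elements of `Q` generate the kernel -/
theorem Rel.nc_le (h : Rel Λ A Q L N) {M : Subgroup G} (hM : ∀ i, relA A Q L i ≤ M) :
    nc N A ≤ M := by
  obtain ⟨M', hM'⟩ : ∃ M', M' = ⨆ i, relA A Q L i := ⟨_, rfl⟩
  have hle : ∀ i, relA A Q L i ≤ M' := by
    rw [hM']
    exact fun i => le_iSup _ i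
  have hM'M : M' ≤ M := by
    rw [hM']
    exact iSup_le hM
  refine le_trans ?_ hM'M
  have hA : ∀ v, A v ≤ M' := by
    intro v a ha
    have h1 := h.mem_of hle v Q.one_mem ha
    have h2 : (1 : G) * a * 1⁻¹ = a := by group
    rwa [h2] at h1
  have hcQ : ∀ q ∈ Q, M' ≤ M'.comap (MulAut.conj q).toMonoidHom := by
    intro q hq
    rw [hM']
    apply iSup_le
    intro i x hx
    rw [← hM']
    rw [mem_relA] at hx
    have h1 := h.mem_of hle i.1 (Q.mul_mem hq i.2.out.2) hx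
    have h2 : q * (i.2.out : G) * ((i.2.out : G)⁻¹ * x * (i.2.out : G)) *
      (q * (i.2.out : G))⁻¹ = q * x * q⁻¹ := by group
    rw [h2] at h1
    exact h1
  have hnor : N ≤ Subgroup.normalizer (M' : Set G) := by
    apply h.gen
    · intro v a ha
      exact Subgroup.le_normalizer (hA v ha)
    · intro q hq
      rw [Subgroup.mem_normalizer_iff]
      intro x
      refine ⟨fun hx => hcQ q hq hx, fun hx => ?_⟩
      have h1 : q⁻¹ * (q * x * q⁻¹) * q⁻¹⁻¹ ∈ M' := hcQ q⁻¹ (Q.inv_mem hq) hx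
      have h2 : q⁻¹ * (q * x * q⁻¹) * q⁻¹⁻¹ = x := by group
      rwa [h2] at h1
  apply nc_le_of
  · intro n hn x hx
    exact (Subgroup.mem_normalizer_iff.1 (hnor hn) x).1 hx
  · exact hA

/-- every element of `N` is a product of an element of the kernel and an element of `Q` -/
theorem Rel.decomp (h : Rel Λ A Q L N) {n : G} (hn : n ∈ N) : ∃ m ∈ nc N A, ∃ q ∈ Q, n = m * q := by
  have h0 : N ≤ nc N A ⊔ Q := h.gen _ (fun v => (le_nc v).trans le_sup_left) le_sup_right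
  have h1 : n ∈ ((nc N A ⊔ Q : Subgroup G) : Set G) := h0 hn
  have h2 : Q ≤ Subgroup.normalizer (nc N A : Set G) := by
    intro q hq
    rw [Subgroup.mem_normalizer_iff]
    intro x
    refine ⟨fun hx => nc_conj (h.leQ hq) hx, fun hx => ?_⟩
    have h3 := nc_conj (N.inv_mem (h.leQ hq)) hx
    have h4 : q⁻¹ * (q * x * q⁻¹) * q⁻¹⁻¹ = x := by group
    rwa [h4] at h3
  rw [Subgroup.coe_mul_of_right_le_normalizer_left _ _ h2] at h1
  obtain ⟨m, hm, q, hq, rfl⟩ := h1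
  exact ⟨m, hm, q, hq, rfl⟩

/-- **the kernel is a graph product** -/
theorem Rel.kernel (h : Rel Λ A Q L N) : GProd (relG Λ Q L) (relA A Q L) (nc N A) where
  le := h.relA_le
  gen := fun M hM => h.nc_le hM
  comm := by
    rintro ⟨v, c⟩ ⟨w, d⟩ ⟨h1, x, hx1, hx2⟩ a ha b hb
    rw [mem_relA] at ha hb
    have hx1 : QuotientGroup.mk x = c := hx1
    have hx2 : QuotientGroup.mk x = d := hx2
    have e1 := h.conj_out v x ha
    have e2 := h.conj_out w x hb
    rw [hx1] at e1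
    rw [hx2] at e2
    have e3 : ∀ (r y : G), r * (r⁻¹ * y * r) * r⁻¹ = y := fun r y => by group
    rw [e3] at e1 e2
    have e4 := h.comm v w h1 _ ha _ hb
    rw [e1, e2]
    have e5 : ∀ r y z : G, r * y * r⁻¹ * (r * z * r⁻¹) = r * (y * z) * r⁻¹ := fun r y z => by group
    rw [e5, e5]
    exact congrArg (fun z => (x : G) * z * (x : G)⁻¹) e4
  univ := by
    classical
    intro H _ f hf
    obtain ⟨π, hπA, hπQ⟩ := h.univ Q (fun v => 1) (MonoidHom.id Q)
      (fun v w _ a b => rfl) (fun v a b => by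
        rw [MonoidHom.one_apply, one_mul, mul_one])
    -- the labels
    have hmem : ∀ (v : U) (c : Q ⧸ (L v).subgroupOf Q) (a : A v),
        (c.out : G) * a * (c.out : G)⁻¹ ∈ relA A Q L ⟨v, c⟩ := by
      intro v c a
      rw [mem_relA]
      have : (c.out : G)⁻¹ * ((c.out : G) * a * (c.out : G)⁻¹) * (c.out : G) = a := by group
      rw [this]
      exact a.2
    obtain ⟨F, hF⟩ : ∃ F : ∀ (v : U) (c : Q ⧸ (L v).subgroupOf Q), A v →* H,
        ∀ v c a, F v c a = f ⟨v, c⟩ ⟨_, hmem v c a⟩ := by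
      refine ⟨fun v c => MonoidHom.mk' (fun a => f ⟨v, c⟩ ⟨_, hmem v c a⟩) ?_, fun v c a => rfl⟩
      intro a b
      rw [← map_mul]
      congr 1
      apply Subtype.ext
      show (c.out : G) * (a.1 * b.1) * (c.out : G)⁻¹ =
        (c.out : G) * a * (c.out : G)⁻¹ * ((c.out : G) * b * (c.out : G)⁻¹)
      group
    have hFc : ∀ v w, Λ.Adj v w → ∀ (x : Q) (a : A v) (b : A w),
        F v (QuotientGroup.mk x) a * F w (QuotientGroup.mk x) b =
        F w (QuotientGroup.mk x) b * F v (QuotientGroup.mk x) a := by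
      intro v w hvw x a b
      rw [hF, hF]
      exact hf ⟨v, QuotientGroup.mk x⟩ ⟨w, QuotientGroup.mk x⟩ ⟨hvw, x, rfl, rfl⟩ _ _
    obtain ⟨Φ, hΦA, hΦQ⟩ := h.univ (Wr Q H)
      (fun v => MonoidHom.mk' (fun a => (⟨fun q => F v (QuotientGroup.mk q⁻¹) a, 1⟩ : Wr Q H)) (by
        intro a b
        apply Wr.ext
        · funext q
          show F v (QuotientGroup.mk q⁻¹) (a * b) =
            F v (QuotientGroup.mk q⁻¹) a * F v (QuotientGroup.mk q⁻¹) b
          rw [map_mul]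
        · show (1 : Equiv.Perm Q) = 1 * 1
          rw [one_mul]))
      (MonoidHom.mk' (fun q => (⟨fun _ => 1, Equiv.mulLeft q⟩ : Wr Q H)) (by
        intro q r
        apply Wr.ext
        · funext x
          show (1 : H) = 1 * 1
          rw [one_mul]
        · ext x
          show ((q * r * x : Q) : G) = ((q * (r * x) : Q) : G)
          rw [mul_assoc]))
      (by
        intro v w hvw a b
        apply Wr.ext
        · funext q
          exact hFc v w hvw q⁻¹ a b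
        · rfl)
      (by
        intro v a b
        apply Wr.ext
        · funext q
          show F v (QuotientGroup.mk ((⟨b, h.leL v b.2⟩ : Q) * q)⁻¹) a * 1 =
            1 * F v (QuotientGroup.mk q⁻¹) a
          rw [mul_one, one_mul]
          congr 2
          rw [mul_inv_rev]
          apply QuotientGroup.eq.2
          rw [Subgroup.mem_subgroupOf]
          have : (q⁻¹ * (⟨b, h.leL v b.2⟩ : Q)⁻¹)⁻¹ * q⁻¹ = ⟨b, h.leL v b.2⟩ := by group
          rw [this]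
          exact b.2
        · show (1 : Equiv.Perm Q) * Equiv.mulLeft _ = Equiv.mulLeft _ * 1
          rw [one_mul, mul_one])
    -- the permutation part
    have hperm : ∀ n : N, (Φ n).p = Equiv.mulLeft (π n) := by
      obtain ⟨M, hM⟩ : ∃ M : Subgroup N, ∀ n, n ∈ M ↔ (Φ n).p = Equiv.mulLeft (π n) := by
        refine ⟨{ carrier := {n | (Φ n).p = Equiv.mulLeft (π n)}
                  one_mem' := ?_
                  mul_mem' := ?_
                  inv_mem' := ?_ }, fun n => Iff.rfl⟩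
        · intro x y hx hy
          have hx : (Φ x).p = Equiv.mulLeft (π x) := hx
          have hy : (Φ y).p = Equiv.mulLeft (π y) := hy
          show (Φ (x * y)).p = Equiv.mulLeft (π (x * y))
          rw [map_mul, Wr.mul_p, hx, hy, map_mul]
          ext z
          show ((π x * (π y * z) : Q) : G) = ((π x * π y * z : Q) : G)
          rw [mul_assoc]
        · show (Φ 1).p = Equiv.mulLeft (π 1)
          rw [map_one, map_one]
          ext z
          show (z : G) = ((1 * z : Q) : G)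
          rw [one_mul]
        · intro x hx
          have hx : (Φ x).p = Equiv.mulLeft (π x) := hx
          show (Φ x⁻¹).p = Equiv.mulLeft (π x⁻¹)
          rw [map_inv, Wr.inv_p, hx, map_inv]
          rw [inv_eq_iff_mul_eq_one]
          ext z
          show ((π x * ((π x)⁻¹ * z) : Q) : G) = z
          rw [mul_inv_cancel_left]
      have h1 : N ≤ M.map N.subtype := by
        apply h.gen
        · intro v a ha
          refine ⟨⟨a, h.le v ha⟩, (hM _).2 ?_, rfl⟩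
          have e1 := hΦA v ⟨a, ha⟩
          have e2 : π ⟨a, h.le v ha⟩ = 1 := hπA v ⟨a, ha⟩
          have e3 : Φ ⟨a, h.le v ha⟩ = _ := e1
          rw [e2, e3]
          ext z
          show (z : G) = ((1 * z : Q) : G)
          rw [one_mul]
        · intro q hq
          refine ⟨⟨q, h.leQ hq⟩, (hM _).2 ?_, rfl⟩
          have e1 := hΦQ ⟨q, hq⟩
          have e2 : π ⟨q, h.leQ hq⟩ = ⟨q, hq⟩ := hπQ ⟨q, hq⟩
          have e3 : Φ ⟨q, h.leQ hq⟩ = _ := e1
          rw [e2, e3]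
          rfl
      intro n
      obtain ⟨y, hy, hyn⟩ := h1 n.2
      have h2 : y = n := Subtype.ext hyn
      rw [← h2]
      exact (hM y).1 hy
    have hle : nc N A ≤ N := Q30.FJ.nc_le h.le
    have hπ1 : ∀ m : nc N A, π ⟨m.1, hle m.2⟩ = 1 := fun m =>
      nc_hom h.le π (fun v a ha => hπA v ⟨a, ha⟩) m.2 _
    refine ⟨MonoidHom.mk' (fun m => (Φ ⟨m.1, hle m.2⟩).s 1) ?_, ?_⟩
    · intro x y
      have e1 : (⟨(x * y).1, hle (x * y).2⟩ : N) = ⟨x.1, hle x.2⟩ * ⟨y.1, hle y.2⟩ := rfl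
      rw [e1, map_mul, Wr.mul_s, hperm, hπ1 y]
      have e2 : (Equiv.mulLeft (1 : Q)) 1 = 1 := one_mul 1
      rw [e2]
    · rintro ⟨v, c⟩ ⟨x, hx⟩
      show (Φ ⟨x, _⟩).s 1 = f ⟨v, c⟩ ⟨x, hx⟩
      have hx' := mem_relA.1 hx
      obtain ⟨a, ha⟩ : ∃ a : A v, a.1 = (c.out : G)⁻¹ * x * (c.out : G) := ⟨⟨_, hx'⟩, rfl⟩
      have e1 : x = (c.out : G) * a * (c.out : G)⁻¹ := by
        rw [ha]
        group
      have e2 : (⟨x, hle (h.relA_le ⟨v, c⟩ hx)⟩ : N) =
          ⟨c.out, h.leQ c.out.2⟩ * ⟨a, h.le v a.2⟩ * ⟨c.out, h.leQ c.out.2⟩⁻¹ := Subtype.ext e1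
      have e3 : Φ ⟨x, hle (h.relA_le ⟨v, c⟩ hx)⟩ =
          Φ ⟨c.out, h.leQ c.out.2⟩ * Φ ⟨a, h.le v a.2⟩ * (Φ ⟨c.out, h.leQ c.out.2⟩)⁻¹ := by
        rw [e2, map_mul, map_mul, map_inv]
      rw [e3, hΦA, hΦQ]
      show 1 * F v (QuotientGroup.mk ((Equiv.mulLeft c.out)⁻¹ (1 : Q))⁻¹) a * 1⁻¹ = _
      have e4 : ((Equiv.mulLeft c.out)⁻¹ (1 : Q))⁻¹ = c.out := by
        show ((c.out)⁻¹ * 1)⁻¹ = c.out
        rw [mul_one, inv_inv]
      rw [e4, QuotientGroup.out_eq', hF, one_mul, inv_one, mul_one]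
      congr 1
      exact Subtype.ext e1.symm

end rel

end Q30.FJ
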