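import Pool.Agent.Q30.FJ.GPm

/-!
# Kernels which are free products of graph products and free groups
-/

set_option autoImplicit false

namespace Q30.FJ

open Pool.Agent.Y110.FJ
open Pool.Agent.Y462.SS (Closed Wr)

variable {C : ∀ (G : Type) [Group G], Prop}

/-- `N` is the free product of the graph product of its subgroups `A v` along the graph `Λ` and of
the free group on the elements `x j` -/
structure GFree {G : Type} [Group G] {V J : Type} (Λ : SimpleGraph V) (A : V → Subgroup G)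
    (x : J → G) (N : Subgroup G) : Prop where
  le : ∀ v, A v ≤ N
  mem : ∀ j, x j ∈ N
  gen : ∀ M : Subgroup G, (∀ v, A v ≤ M) → (∀ j, x j ∈ M) → N ≤ M
  comm : ∀ v w, Λ.Adj v w → ∀ a ∈ A v, ∀ b ∈ A w, a * b = b * a
  univ : ∀ (H : Type) [Group H] (f : ∀ v, A v →* H) (y : J → H),
    (∀ v w, Λ.Adj v w → ∀ (a : A v) (b : A w), f v a * f w b = f w b * f v a) →
    ∃ φ : N →* H, (∀ v (a : A v), φ ⟨a, le v a.2⟩ = f v a) ∧ ∀ j, φ ⟨x j, mem j⟩ = y j

section free

variable {G : Type} [Group G] {V J : Type} {Λ : SimpleGraph V} {A : V → Subgroup G}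
  {x : J → G} {N : Subgroup G}

theorem GFree.rel (h : GFree Λ A x N) : Rel Λ A (Subgroup.closure (Set.range x)) (fun _ => ⊥) N := by
  have hQN : Subgroup.closure (Set.range x) ≤ N := by
    rw [Subgroup.closure_le]
    rintro _ ⟨j, rfl⟩
    exact h.mem j
  refine ⟨h.le, hQN, fun v => bot_le, ?_, h.comm, ?_, ?_⟩
  · intro M hM hQ
    exact h.gen M hM fun j => hQ (Subgroup.subset_closure ⟨j, rfl⟩)
  · intro v a _ b hb
    rw [Subgroup.mem_bot.1 hb, mul_one, one_mul]
  · intro H _ f k hf _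
    obtain ⟨φ, hφ, hφx⟩ := h.univ H f (fun j => k ⟨x j, Subgroup.subset_closure ⟨j, rfl⟩⟩) hf
    refine ⟨φ, hφ, ?_⟩
    have h1 : Subgroup.closure (Set.range x) ≤
        ((φ.comp (Subgroup.inclusion hQN)).eqLocus k).map
        (Subgroup.subtype (Subgroup.closure (Set.range x))) := by
      rw [Subgroup.closure_le]
      rintro _ ⟨j, rfl⟩
      exact ⟨⟨x j, Subgroup.subset_closure ⟨j, rfl⟩⟩, hφx j, rfl⟩
    intro z
    obtain ⟨y, hy, hyz⟩ := h1 z.2
    have h2 : y = z := Subtype.ext hyz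
    rw [← h2]
    exact hy

/-- the quotient by the vertex groups is free -/
theorem GFree.free (h : GFree Λ A x N) (K : Subgroup G) [K.Normal] (hK : K = nc N A) :
    IsFreeGroup ↥(N.map (QuotientGroup.mk' K)) := by
  obtain ⟨φ, hφ, hφx⟩ := h.univ (FreeGroup J) (fun v => 1) FreeGroup.of
    (fun v w _ a b => rfl)
  obtain ⟨F, hF⟩ := desc K N φ (by
    intro y hy
    rw [hK] at hy
    exact nc_hom h.le φ (fun v a ha => hφ v ⟨a, ha⟩) hy y.2)
  have hinj : Function.Injective F := by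
    let ψ : FreeGroup J →* G ⧸ K := FreeGroup.lift fun j => QuotientGroup.mk' K (x j)
    have h1 : N ≤ ((ψ.comp φ).eqLocus ((QuotientGroup.mk' K).comp N.subtype)).map N.subtype := by
      apply h.gen
      · intro v a ha
        refine ⟨⟨a, h.le v ha⟩, ?_, rfl⟩
        show ψ (φ ⟨a, _⟩) = QuotientGroup.mk' K a
        have h2 : φ ⟨a, h.le v ha⟩ = 1 := hφ v ⟨a, ha⟩
        have h3 : a ∈ K := by
          rw [hK]
          exact le_nc v ha
        rw [h2, map_one]
        exact ((QuotientGroup.eq_one_iff a).2 h3).symm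
      · intro j
        refine ⟨⟨x j, h.mem j⟩, ?_, rfl⟩
        show ψ (φ ⟨x j, _⟩) = QuotientGroup.mk' K (x j)
        rw [hφx]
        exact FreeGroup.lift_apply_of
    have h2 : ∀ y : N, ψ (φ y) = QuotientGroup.mk' K y := by
      intro y
      obtain ⟨z, hz, hzy⟩ := h1 y.2
      have h3 : z = y := Subtype.ext hzy
      rw [← h3]
      exact hz
    rw [injective_iff_map_eq_one]
    rintro ⟨_, y, hy, rfl⟩ hy1
    rw [hF ⟨y, hy⟩ _ rfl] at hy1
    apply Subtype.ext
    show QuotientGroup.mk' K y = 1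
    rw [← h2 ⟨y, hy⟩, hy1, map_one]
  exact IsFreeGroup.ofMulEquiv (MonoidHom.ofInjective hinj).symm

variable [N.Normal]

/-- **kernels which are free products of graph products and free groups** -/
theorem gfree_main (hF : ClosedF C) (h : GFree Λ A x N) (hQ : C (G ⧸ N)) (hne : ∀ v, A v ≠ ⊥)
    (hperm : ∀ (g : G) (v : V), ∃ w, Mv N g (A v) (A w))
    (hst : ∀ (g : G) (v : V), ∃ k : ℕ, 0 < k ∧ ∀ (m : ℤ) (w : V),
      Mv N (g ^ ((k : ℤ) * m)) (A v) (A w) → ¬ Λ.Adj v w)
    (hC : ∀ (v : V) (g : G), Maps g (A v) (A v) → C ↥(A v ⊔ Subgroup.zpowers g)) : C G := by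
  have hrel := h.rel
  have hcr : ∀ (v : V) (g : G), Maps g (A v) (A v) → CR C g (A v) := by
    intro v g hg
    have hle : A v ≤ A v ⊔ Subgroup.zpowers g := le_sup_left
    refine ⟨↥(A v ⊔ Subgroup.zpowers g), inferInstance, Subgroup.inclusion hle,
      ⟨g, Subgroup.mem_sup_right (Subgroup.mem_zpowers g)⟩, hC v g hg,
      Subgroup.inclusion_injective hle, ?_⟩
    intro a a' haa
    exact Subtype.ext haa
  have hKn : (nc N A).Normal := nc_normal hperm
  have hKN : nc N A ≤ N := nc_le h.le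
  have hnor : (N.map (QuotientGroup.mk' (nc N A))).Normal :=
    Subgroup.Normal.map inferInstance _ (QuotientGroup.mk'_surjective _)
  have hGK : C (G ⧸ nc N A) := by
    refine hF.free _ (N.map (QuotientGroup.mk' (nc N A))) (h.free _ rfl) ?_
    exact hF.base.base.of_injective _ (G ⧸ N)
      (QuotientGroup.quotientQuotientEquivQuotient (nc N A) N hKN).toMonoidHom
      (QuotientGroup.quotientQuotientEquivQuotient (nc N A) N hKN).injective hQ
  have hyp : Hyp C (relG Λ (Subgroup.closure (Set.range x)) (fun _ => ⊥))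
      (relA A (Subgroup.closure (Set.range x)) (fun _ => ⊥)) (nc N A) :=
    ⟨hrel.kernel, relA_ne hne, hrel.perm hperm, relA_cr hcr⟩
  refine gpk_main hF hyp hGK ?_
  intro g i
  obtain ⟨k, hk0, hk⟩ := hst g i.1
  refine ⟨k, hk0, ?_⟩
  rintro m j ⟨n, hn, hm⟩ hij
  refine hk m j.1 ?_ hij.1
  have hQN : Subgroup.closure (Set.range x) ≤ N := hrel.leQ
  obtain ⟨q, hq⟩ : ∃ q : G, q = (i.2.out : G) := ⟨_, rfl⟩
  obtain ⟨r, hr⟩ : ∃ r : G, r = (j.2.out : G) := ⟨_, rfl⟩
  have hqN : q ∈ N := by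
    rw [hq]
    exact hQN i.2.out.2
  have hrN : r ∈ N := by
    rw [hr]
    exact hQN j.2.out.2
  refine ⟨r⁻¹ * n * (g ^ ((k : ℤ) * m) * q * (g ^ ((k : ℤ) * m))⁻¹),
    N.mul_mem (N.mul_mem (N.inv_mem hrN) (hKN hn))
      (Subgroup.Normal.conj_mem inferInstance q hqN _), ?_⟩
  intro a
  have h1 := hm (q * a * q⁻¹)
  rw [mem_relA, mem_relA, ← hq, ← hr] at h1
  have h2 : q⁻¹ * (q * a * q⁻¹) * q = a := by group
  rw [h2] at h1
  rw [h1]
  have h3 : ∀ z : G, r⁻¹ * (n * z * (q * a * q⁻¹) * (n * z)⁻¹) * r =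
      r⁻¹ * n * (z * q * z⁻¹) * z * a * (r⁻¹ * n * (z * q * z⁻¹) * z)⁻¹ := by
    intro z
    group
  rw [h3]

end free

end Q30.FJ
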