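import Pool.Agent.Q30.FJ.GKer

/-!
# Kernels which are graph products: invariant colorings with finitely many colors
-/

set_option autoImplicit false

namespace Q30.FJ

open Pool.Agent.Y110.FJ
open Pool.Agent.Y462.SS (Closed Wr)

variable {C : ∀ (G : Type) [Group G], Prop}

/-- the element `g` maps the `N`-conjugacy class of `A` to the one of `B` -/
def Mv {G : Type} [Group G] (N : Subgroup G) (g : G) (A B : Subgroup G) : Prop :=
  ∃ n ∈ N, Maps (n * g) A B

/-- the hypotheses on a kernel `N` which is a graph product -/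
structure Hyp (C : ∀ (G : Type) [Group G], Prop) {G : Type} [Group G] {V : Type}
    (Λ : SimpleGraph V) (A : V → Subgroup G) (N : Subgroup G) : Prop where
  prod : GProd Λ A N
  ne : ∀ v, A v ≠ ⊥
  perm : ∀ (g : G) (v : V), ∃ w, Mv N g (A v) (A w)
  cr : ∀ (v : V) (g : G), Maps g (A v) (A v) → CR C g (A v)

/-- homomorphisms to quotients -/
theorem desc {G : Type} [Group G] (K : Subgroup G) [K.Normal] (N : Subgroup G) {H : Type}
    [Group H] (f : N →* H) (hf : ∀ x : N, (x : G) ∈ K → f x = 1) :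
    ∃ F : ↥(N.map (QuotientGroup.mk' K)) →* H, ∀ (x : N) (y : ↥(N.map (QuotientGroup.mk' K))),
      (y : G ⧸ K) = QuotientGroup.mk' K x → F y = f x := by
  have hex : ∀ y : ↥(N.map (QuotientGroup.mk' K)), ∃ x : N, QuotientGroup.mk' K x.1 = y.1 := by
    rintro ⟨_, x, hx, rfl⟩
    exact ⟨⟨x, hx⟩, rfl⟩
  choose s hs using hex
  have hfs : ∀ x y : N, QuotientGroup.mk' K x.1 = QuotientGroup.mk' K y.1 → f x = f y := by
    intro x y hxy
    have h1 : x.1⁻¹ * y.1 ∈ K := QuotientGroup.eq.1 hxy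
    have h2 : f (x⁻¹ * y) = 1 := hf (x⁻¹ * y) h1
    rw [map_mul, map_inv] at h2
    exact (inv_mul_eq_one.1 h2)
  refine ⟨MonoidHom.mk' (fun y => f (s y)) ?_, ?_⟩
  · intro x y
    show f (s (x * y)) = f (s x) * f (s y)
    rw [← map_mul]
    apply hfs
    rw [hs]
    show x.1 * y.1 = QuotientGroup.mk' K ((s x).1 * (s y).1)
    rw [map_mul, hs, hs]
  · intro x y hxy
    show f (s y) = f x
    apply hfs
    rw [hs, hxy]

theorem Maps.quot {G : Type} [Group G] {g : G} {A B : Subgroup G} (h : Maps g A B)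
    (K : Subgroup G) [K.Normal] :
    Maps (QuotientGroup.mk' K g) (A.map (QuotientGroup.mk' K)) (B.map (QuotientGroup.mk' K)) := by
  intro x
  constructor
  · rintro ⟨a, ha, rfl⟩
    exact ⟨g * a * g⁻¹, (h a).1 ha, by rw [map_mul, map_mul, map_inv]⟩
  · rintro ⟨b, hb, hbx⟩
    refine ⟨g⁻¹ * b * g, (h _).2 ?_, ?_⟩
    · have : g * (g⁻¹ * b * g) * g⁻¹ = b := by group
      rw [this]
      exact hb
    · rw [map_mul, map_mul, hbx, map_inv]
      group

theorem CR_conj {G : Type} [Group G] {A : Subgroup G} {g q : G} (h : CR C (q⁻¹ * g * q) A) :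
    CR C g (A.map (MulAut.conj q).toMonoidHom) := by
  obtain ⟨P, _, f, p, hP, hf, hfp⟩ := h
  have hm : ∀ x : ↥(A.map (MulAut.conj q).toMonoidHom), q⁻¹ * x * q ∈ A :=
    fun x => (mem_map_conj _ _ _).1 x.2
  refine ⟨P, inferInstance, f.comp (MonoidHom.mk' (fun x => ⟨q⁻¹ * x * q, hm x⟩) ?_), p, hP, ?_, ?_⟩
  · intro x y
    apply Subtype.ext
    show q⁻¹ * (x.1 * y.1) * q = q⁻¹ * x.1 * q * (q⁻¹ * y.1 * q)
    group
  · refine hf.comp ?_
    intro x y hxy
    have h1 : q⁻¹ * x.1 * q = q⁻¹ * y.1 * q := congrArg Subtype.val hxy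
    have h2 : q⁻¹ * x.1 = q⁻¹ * y.1 := mul_right_cancel h1
    exact Subtype.ext (mul_left_cancel h2)
  · intro a a' haa
    show f ⟨q⁻¹ * a' * q, hm a'⟩ = p * f ⟨q⁻¹ * a * q, hm a⟩ * p⁻¹
    apply hfp
    show q⁻¹ * a'.1 * q = q⁻¹ * g * q * (q⁻¹ * a.1 * q) * (q⁻¹ * g * q)⁻¹
    rw [haa]
    group

section quot

variable {G : Type} [Group G] {V : Type} {Λ : SimpleGraph V} {A : V → Subgroup G}
  {N : Subgroup G}

/-- the quotient which kills the vertices outside `W` -/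
theorem GProd.quot (h : GProd Λ A N) (W : Set V) (K : Subgroup G) [K.Normal]
    (hK : K = nc N (fun u : {v // v ∉ W} => A u)) :
    GProd (Λ.induce W) (fun w : W => (A w).map (QuotientGroup.mk' K))
      (N.map (QuotientGroup.mk' K)) where
  le := fun w => Subgroup.map_mono (h.le w)
  gen := by
    intro M hM
    rw [Subgroup.map_le_iff_le_comap]
    apply h.gen
    intro v
    by_cases hv : v ∈ W
    · exact Subgroup.map_le_iff_le_comap.1 (hM ⟨v, hv⟩)
    · intro a ha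
      have h1 : a ∈ K := by
        rw [hK]
        exact le_nc (A := fun u : {v // v ∉ W} => A u) ⟨v, hv⟩ ha
      have h2 : QuotientGroup.mk' K a = 1 := (QuotientGroup.eq_one_iff a).2 h1
      show QuotientGroup.mk' K a ∈ M
      rw [h2]
      exact M.one_mem
  comm := by
    rintro v w hvw _ ⟨a, ha, rfl⟩ _ ⟨b, hb, rfl⟩
    rw [← map_mul, ← map_mul, h.comm v w hvw a ha b hb]
  univ := by
    classical
    intro H _ f hf
    let f' : ∀ v, A v →* H := fun v =>
      if hv : v ∈ W then (f ⟨v, hv⟩).comp ((QuotientGroup.mk' K).subgroupMap (A v)) else 1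
    have hf1 : ∀ (v : W) (a : A v.1), f' v a = f v ((QuotientGroup.mk' K).subgroupMap (A v) a) := by
      intro v a
      have : f' v.1 = (f v).comp ((QuotientGroup.mk' K).subgroupMap (A v)) := dif_pos v.2
      rw [this]
      rfl
    have hf2 : ∀ v, v ∉ W → ∀ a : A v, f' v a = 1 := by
      intro v hv a
      have : f' v = 1 := dif_neg hv
      rw [this]
      rfl
    obtain ⟨φ, hφ⟩ := h.univ H f' (by
      intro v w hvw a b
      by_cases hv : v ∈ W
      · by_cases hw : w ∈ W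
        · have e1 := hf1 ⟨v, hv⟩ a
          have e2 := hf1 ⟨w, hw⟩ b
          have e3 : f' v a = _ := e1
          have e4 : f' w b = _ := e2
          rw [e3, e4]
          exact hf ⟨v, hv⟩ ⟨w, hw⟩ hvw _ _
        · rw [hf2 w hw b, mul_one, one_mul]
      · rw [hf2 v hv a, mul_one, one_mul])
    obtain ⟨F, hF⟩ := desc K N φ (by
      intro x hx
      rw [hK] at hx
      exact nc_hom (A := fun u : {v // v ∉ W} => A u) (fun u => h.le u) φ
        (fun u a ha => (hφ u.1 ⟨a, ha⟩).trans (hf2 u.1 u.2 ⟨a, ha⟩)) hx x.2)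
    refine ⟨F, ?_⟩
    rintro v ⟨_, a, ha, rfl⟩
    rw [hF ⟨a, h.le v ha⟩ _ rfl]
    exact (hφ v.1 ⟨a, ha⟩).trans (hf1 v ⟨a, ha⟩)

variable [N.Normal]

theorem Hyp.quot (h : Hyp C Λ A N) (W : Set V)
    (hW : ∀ (g : G) (v w : V), v ∈ W → Mv N g (A v) (A w) → w ∈ W) (K : Subgroup G) [K.Normal]
    (hK : K = nc N (fun u : {v // v ∉ W} => A u)) :
    Hyp C (Λ.induce W) (fun w : W => (A w).map (QuotientGroup.mk' K))
      (N.map (QuotientGroup.mk' K)) ∧
    ∀ (g : G) (v w : W), Mv (N.map (QuotientGroup.mk' K)) (QuotientGroup.mk' K g)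
      ((A v).map (QuotientGroup.mk' K)) ((A w).map (QuotientGroup.mk' K)) →
      Mv N g (A v) (A w) := by
  obtain ⟨p, hp⟩ := h.prod.retr
  have hpK : ∀ (w : W) (x : G) (hxN : x ∈ N), x ∈ K → p w ⟨x, hxN⟩ = 1 := by
    intro w x hxN hx
    rw [hK] at hx
    exact nc_hom (A := fun u : {v // v ∉ W} => A u) (fun u => h.prod.le u) (p w)
        (fun u a ha => hp.other w u.1 ⟨a, ha⟩ (fun e => u.2 (by rw [← e]; exact w.2))) hx hxN
  have hAK : ∀ (w : W) (a : G), a ∈ A w → a ∈ K → a = 1 := by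
    intro w a ha haK
    have h1 := hpK w a (h.prod.le w ha) haK
    have h2 := hp.same w ⟨a, ha⟩
    have h3 : p w ⟨a, h.prod.le w ha⟩ = ⟨a, ha⟩ := h2
    rw [h1] at h3
    exact (congrArg Subtype.val h3).symm
  have hprod := h.prod.quot W K hK
  have hne : ∀ w : W, (A w).map (QuotientGroup.mk' K) ≠ ⊥ := by
    intro w hbot
    apply h.ne w
    rw [Subgroup.eq_bot_iff_forall] at hbot ⊢
    intro a ha
    have h1 := hbot (QuotientGroup.mk' K a) ⟨a, ha, rfl⟩
    exact hAK w a ha ((QuotientGroup.eq_one_iff a).1 h1)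
  have hnor : (N.map (QuotientGroup.mk' K)).Normal :=
    Subgroup.Normal.map inferInstance _ (QuotientGroup.mk'_surjective K)
  obtain ⟨p', hp'⟩ := hprod.retr
  -- moving
  have hmv : ∀ (g : G) (v w : W), Mv (N.map (QuotientGroup.mk' K)) (QuotientGroup.mk' K g)
      ((A v).map (QuotientGroup.mk' K)) ((A w).map (QuotientGroup.mk' K)) →
      ∃ n ∈ N, Maps (n * g) (A v) (A w) := by
    rintro g v w ⟨_, ⟨n, hn, rfl⟩, hm⟩
    obtain ⟨w', n', hn', hm'⟩ := h.perm g v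
    have hw' : w' ∈ W := hW g v w' v.2 ⟨n', hn', hm'⟩
    have h1 := hm'.quot K
    have h2 := hm.inv.mul h1
    have h3 : QuotientGroup.mk' K (n' * g) * (QuotientGroup.mk' K n * QuotientGroup.mk' K g)⁻¹ =
        QuotientGroup.mk' K (n' * n⁻¹) := by
      rw [map_mul, map_mul, map_inv]
      group
    rw [h3] at h2
    have h4 := hp'.conj_eq hne (i := w) (j := ⟨w', hw'⟩)
      (Subgroup.mem_map_of_mem _ (N.mul_mem hn' (N.inv_mem hn))) h2
    subst h4
    exact ⟨n', hn', hm'⟩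
  refine ⟨⟨hprod, hne, ?_, ?_⟩, hmv⟩
  · intro g' v
    obtain ⟨g, rfl⟩ := QuotientGroup.mk'_surjective K g'
    obtain ⟨w, n, hn, hm⟩ := h.perm g v
    refine ⟨⟨w, hW g v w v.2 ⟨n, hn, hm⟩⟩, _, Subgroup.mem_map_of_mem _ hn, ?_⟩
    rw [← map_mul]
    exact hm.quot K
  · intro v g' hg'
    obtain ⟨g, rfl⟩ := QuotientGroup.mk'_surjective K g'
    obtain ⟨n, hn, hm⟩ := hmv g v v ⟨1, Subgroup.one_mem _, by rwa [one_mul]⟩
    obtain ⟨P, _, f, q, hP, hf, hfq⟩ := h.cr v (n * g) hm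
    obtain ⟨F, hF⟩ := desc K (A v) f (fun x hx => by
      have h1 : x = 1 := Subtype.ext (hAK v x.1 x.2 hx)
      rw [h1, map_one])
    refine ⟨P, inferInstance, F, (f (p v ⟨n, hn⟩))⁻¹ * q, hP, ?_, ?_⟩
    · rw [injective_iff_map_eq_one]
      rintro ⟨_, a, ha, rfl⟩ hx
      rw [hF ⟨a, ha⟩ _ rfl] at hx
      have h1 : (⟨a, ha⟩ : A v) = 1 := hf (hx.trans (map_one f).symm)
      have h2 : a = 1 := congrArg Subtype.val h1
      subst h2
      exact Subtype.ext (map_one _)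
    · rintro ⟨_, a, ha, rfl⟩ ⟨_, a', ha', rfl⟩ haa
      rw [hF ⟨a', ha'⟩ _ rfl, hF ⟨a, ha⟩ _ rfl]
      have haN : a ∈ N := h.prod.le v ha
      have haN' : a' ∈ N := h.prod.le v ha'
      have h1 : QuotientGroup.mk' K a' = QuotientGroup.mk' K (g * a * g⁻¹) := by
        rw [map_mul, map_mul, map_inv]
        exact haa
      have h2 : a'⁻¹ * (g * a * g⁻¹) ∈ K := QuotientGroup.eq.1 h1
      have h3 : g * a * g⁻¹ ∈ N := Subgroup.Normal.conj_mem inferInstance a haN g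
      have h4 := hpK v _ (N.mul_mem (N.inv_mem haN') h3) h2
      have h5 : (⟨a'⁻¹ * (g * a * g⁻¹), N.mul_mem (N.inv_mem haN') h3⟩ : N) =
        ⟨a', haN'⟩⁻¹ * ⟨g * a * g⁻¹, h3⟩ := rfl
      rw [h5, map_mul, map_inv, inv_mul_eq_one] at h4
      have h6 : p v ⟨a', haN'⟩ = ⟨a', ha'⟩ := hp.same v ⟨a', ha'⟩
      have h7 : n * g * a * (n * g)⁻¹ ∈ A v := (hm a).1 ha
      have h8 : (⟨g * a * g⁻¹, h3⟩ : N) = ⟨n, hn⟩⁻¹ * ⟨n * g * a * (n * g)⁻¹, h.prod.le v h7⟩ *
          ⟨n, hn⟩ := by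
        apply Subtype.ext
        show g * a * g⁻¹ = n⁻¹ * (n * g * a * (n * g)⁻¹) * n
        group
      have h9 : p v ⟨n * g * a * (n * g)⁻¹, h.prod.le v h7⟩ = ⟨_, h7⟩ := hp.same v ⟨_, h7⟩
      rw [h6, h8, map_mul (p v), map_mul (p v), map_inv (p v), h9] at h4
      have h10 := hfq ⟨a, ha⟩ ⟨_, h7⟩ rfl
      rw [h4, map_mul f, map_mul f, map_inv f, h10]
      group

end quot

section rel

variable {G : Type} [Group G] {U : Type} {Λ : SimpleGraph U} {A : U → Subgroup G}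
  {Q : Subgroup G} {L : U → Subgroup G} {N : Subgroup G}

theorem Rel.mem_mk (h : Rel Λ A Q L N) (v : U) (q : Q) (x : G) :
    x ∈ relA A Q L ⟨v, QuotientGroup.mk q⟩ ↔ (q : G)⁻¹ * x * q ∈ A v := by
  rw [mem_relA]
  show (((QuotientGroup.mk q : Q ⧸ (L v).subgroupOf Q).out : Q) : G)⁻¹ * x *
    (((QuotientGroup.mk q : Q ⧸ (L v).subgroupOf Q).out : Q) : G) ∈ A v ↔ _
  have h1 := fun a ha => h.conj_out v q (a := a) ha
  obtain ⟨r, hr⟩ : ∃ r : Q, r = (QuotientGroup.mk q : Q ⧸ (L v).subgroupOf Q).out := ⟨_, rfl⟩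
  rw [← hr] at h1 ⊢
  constructor
  · intro hx
    have h2 := h1 _ hx
    have h3 : (r : G) * ((r : G)⁻¹ * x * r) * (r : G)⁻¹ = x := by group
    rw [h3] at h2
    have h4 : (q : G)⁻¹ * x * q = (r : G)⁻¹ * x * r := by
      conv_lhs => rw [h2]
      group
    rw [h4]
    exact hx
  · intro hx
    have h2 := h1 _ hx
    have h3 : (q : G) * ((q : G)⁻¹ * x * q) * (q : G)⁻¹ = x := by group
    rw [h3] at h2
    have h4 : (r : G)⁻¹ * x * r = (q : G)⁻¹ * x * q := by
      conv_lhs => rw [← h2]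
      group
    rw [h4]
    exact hx

/-- the action on the vertex groups of the kernel -/
theorem Rel.perm (h : Rel Λ A Q L N) (hperm : ∀ (g : G) (v : U), ∃ w, Mv N g (A v) (A w)) (g : G)
    (i : RelI Q L) : ∃ j : RelI Q L, ∃ n ∈ nc N A, Maps (n * g) (relA A Q L i) (relA A Q L j) := by
  obtain ⟨w, n, hn, hm⟩ := hperm (g * i.2.out) i.1
  obtain ⟨m, hm1, q, hq, hmq⟩ := h.decomp (N.inv_mem hn)
  refine ⟨⟨w, QuotientGroup.mk ⟨q, hq⟩⟩, m⁻¹, Subgroup.inv_mem _ hm1, ?_⟩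
  intro x
  rw [h.mem_mk, mem_relA, hm]
  have e1 : n * (g * (i.2.out : G)) * ((i.2.out : G)⁻¹ * x * (i.2.out : G)) *
      (n * (g * (i.2.out : G)))⁻¹ = (n⁻¹)⁻¹ * g * x * g⁻¹ * n⁻¹ := by group
  rw [e1, hmq]
  have e2 : (m * q)⁻¹ * g * x * g⁻¹ * (m * q) =
      ((⟨q, hq⟩ : Q) : G)⁻¹ * (m⁻¹ * g * x * (m⁻¹ * g)⁻¹) * ((⟨q, hq⟩ : Q) : G) := by
    show (m * q)⁻¹ * g * x * g⁻¹ * (m * q) = q⁻¹ * (m⁻¹ * g * x * (m⁻¹ * g)⁻¹) * q
    group
  rw [e2]

theorem relA_ne (hne : ∀ v, A v ≠ ⊥) (i : RelI Q L) : relA A Q L i ≠ ⊥ := by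
  intro hbot
  apply hne i.1
  rw [Subgroup.eq_bot_iff_forall] at hbot ⊢
  intro a ha
  have h1 := hbot ((i.2.out : G) * a * (i.2.out : G)⁻¹) (by
    rw [mem_relA]
    have : (i.2.out : G)⁻¹ * ((i.2.out : G) * a * (i.2.out : G)⁻¹) * (i.2.out : G) = a := by group
    rw [this]
    exact ha)
  exact conj_eq_one_iff.1 h1

theorem relA_cr (hcr : ∀ (v : U) (g : G), Maps g (A v) (A v) → CR C g (A v)) (i : RelI Q L) (g : G)
    (hg : Maps g (relA A Q L i) (relA A Q L i)) : CR C g (relA A Q L i) := by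
  apply CR_conj
  apply hcr
  intro x
  have h1 := hg ((i.2.out : G) * x * (i.2.out : G)⁻¹)
  rw [mem_relA, mem_relA] at h1
  have h2 : (i.2.out : G)⁻¹ * ((i.2.out : G) * x * (i.2.out : G)⁻¹) * (i.2.out : G) = x := by group
  have h3 : (i.2.out : G)⁻¹ * (g * ((i.2.out : G) * x * (i.2.out : G)⁻¹) * g⁻¹) * (i.2.out : G) =
    (i.2.out : G)⁻¹ * g * (i.2.out : G) * x * ((i.2.out : G)⁻¹ * g * (i.2.out : G))⁻¹ := by group
  rw [h2, h3] at h1
  exact h1

end rel

/-- splitting a graph product along an independent set of vertices -/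
theorem GProd.rel {G : Type} [Group G] {V : Type} {Λ : SimpleGraph V} {A : V → Subgroup G}
    {N : Subgroup G} (h : GProd Λ A N) (W : Set V) (hW : ∀ v w, v ∉ W → w ∉ W → ¬ Λ.Adj v w) :
    ∃ (Q : Subgroup G) (L : {v // v ∉ W} → Subgroup G),
      Rel (⊥ : SimpleGraph {v // v ∉ W}) (fun u : {v // v ∉ W} => A u) Q L N := by
  classical
  have hQ : ∀ w : W, A w ≤ ⨆ w : W, A w := fun w => le_iSup (fun w : W => A w) w
  have hL : ∀ (u : {v // v ∉ W}) (w : {w : W // Λ.Adj u w}),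
      A w.1 ≤ ⨆ w : {w : W // Λ.Adj u w}, A w.1 :=
    fun u w => le_iSup (fun w : {w : W // Λ.Adj u w} => A w.1) w
  have hQN : ⨆ w : W, A w ≤ N := iSup_le fun w => h.le w
  refine ⟨⨆ w : W, A w, fun u => ⨆ w : {w : W // Λ.Adj u w}, A w.1,
    ⟨fun u => h.le u, hQN, ?_, ?_, ?_, ?_, ?_⟩⟩
  · exact fun u => iSup_le fun w => hQ w.1
  · intro M hM hQM
    apply h.gen
    intro v
    by_cases hv : v ∈ W
    · exact (hQ ⟨v, hv⟩).trans hQM
    · exact hM ⟨v, hv⟩
  · exact fun u w huw => huw.elim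
  · intro u a ha b hb
    have h1 : ⨆ w : {w : W // Λ.Adj u w}, A w.1 ≤ Subgroup.centralizer {a} := by
      apply iSup_le
      intro w b hb
      rw [Subgroup.mem_centralizer_iff]
      intro y hy
      rw [Set.mem_singleton_iff.1 hy]
      exact h.comm u w.1 w.2 a ha b hb
    exact Subgroup.mem_centralizer_iff.1 (h1 hb) a rfl
  · intro H _ f k _ hfk
    let f' : ∀ v, A v →* H := fun v =>
      if hv : v ∈ W then k.comp (Subgroup.inclusion (hQ ⟨v, hv⟩)) else f ⟨v, hv⟩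
    have hf1 : ∀ (v : W) (a : A v.1), f' v a = k ⟨a, hQ v a.2⟩ := by
      intro v a
      have : f' v.1 = k.comp (Subgroup.inclusion (hQ v)) := dif_pos v.2
      rw [this]
      rfl
    have hf2 : ∀ (v : {v // v ∉ W}) (a : A v.1), f' v a = f v a := by
      intro v a
      have : f' v.1 = f v := dif_neg v.2
      rw [this]
    obtain ⟨φ, hφ⟩ := h.univ H f' (by
      intro v w hvw a b
      by_cases hv : v ∈ W
      · by_cases hw : w ∈ W
        · have e1 : f' v a = _ := hf1 ⟨v, hv⟩ a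
          have e2 : f' w b = _ := hf1 ⟨w, hw⟩ b
          rw [e1, e2, ← map_mul, ← map_mul]
          congr 1
          exact Subtype.ext (h.comm v w hvw a a.2 b b.2)
        · have e1 : f' v a = _ := hf1 ⟨v, hv⟩ a
          have e2 : f' w b = _ := hf2 ⟨w, hw⟩ b
          rw [e1, e2]
          exact (hfk ⟨w, hw⟩ b ⟨a, hL ⟨w, hw⟩ ⟨⟨v, hv⟩, hvw.symm⟩ a.2⟩).symm
      · by_cases hw : w ∈ W
        · have e1 : f' v a = _ := hf2 ⟨v, hv⟩ a
          have e2 : f' w b = _ := hf1 ⟨w, hw⟩ b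
          rw [e1, e2]
          exact hfk ⟨v, hv⟩ a ⟨b, hL ⟨v, hv⟩ ⟨⟨w, hw⟩, hvw⟩ b.2⟩
        · exact absurd hvw (hW v w hv hw))
    refine ⟨φ, fun u a => (hφ u.1 a).trans (hf2 u a), ?_⟩
    have h1 : ⨆ w : W, A w ≤ ((φ.comp (Subgroup.inclusion hQN)).eqLocus k).map
        (Subgroup.subtype (⨆ w : W, A w)) := by
      apply iSup_le
      intro w a ha
      refine ⟨⟨a, hQ w ha⟩, ?_, rfl⟩
      show φ ⟨a, _⟩ = k ⟨a, _⟩
      exact (hφ w.1 ⟨a, ha⟩).trans (hf1 w ⟨a, ha⟩)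
    intro x
    obtain ⟨y, hy, hyx⟩ := h1 x.2
    have h2 : y = x := Subtype.ext hyx
    rw [← h2]
    exact hy

/-- **finitely many colors** -/
theorem gpk_fin (hF : ClosedF C) (m : ℕ) : ∀ {G : Type} [Group G] {V : Type} {Λ : SimpleGraph V}
    {A : V → Subgroup G} {N : Subgroup G} [N.Normal], Hyp C Λ A N → C (G ⧸ N) →
    ∀ c : V → ℕ, (∀ v, c v < m) → (∀ v w, Λ.Adj v w → c v ≠ c w) →
    (∀ (g : G) (v w : V), Mv N g (A v) (A w) → c w = c v) → C G := by
  induction m with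
  | zero =>
    intro G _ V Λ A N _ h hQ c hc _ _
    have hN : N ≤ ⊥ := h.prod.gen ⊥ (fun v => absurd (hc v) (Nat.not_lt_zero _))
    refine hF.base.base.of_injective G (G ⧸ N) (QuotientGroup.mk' N) ?_ hQ
    rw [injective_iff_map_eq_one]
    intro x hx
    exact hN ((QuotientGroup.eq_one_iff x).1 hx)
  | succ m ih =>
    intro G _ V Λ A N _ h hQ c hc hadj hinv
    obtain ⟨W, hWc⟩ : ∃ W : Set V, ∀ v, v ∈ W ↔ c v < m := ⟨{v | c v < m}, fun v => Iff.rfl⟩
    have hcm : ∀ v, v ∉ W → c v = m := by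
      intro v hv
      rw [hWc] at hv
      have := hc v
      omega
    obtain ⟨Q, L, hrel⟩ := h.prod.rel W (by
      intro v w hv hw hvw
      exact hadj v w hvw ((hcm v hv).trans (hcm w hw).symm))
    obtain ⟨K, hK⟩ : ∃ K, K = nc N (fun u : {v // v ∉ W} => A u) := ⟨_, rfl⟩
    have hpU : ∀ (g : G) (u : {v // v ∉ W}), ∃ u' : {v // v ∉ W}, Mv N g (A u) (A u') := by
      intro g u
      obtain ⟨w, hw⟩ := h.perm g u
      have h1 := hinv g u w hw
      refine ⟨⟨w, ?_⟩, hw⟩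
      rw [hWc, h1, hcm u u.2]
      exact lt_irrefl m
    have hKn : K.Normal := by
      rw [hK]
      exact nc_normal hpU
    obtain ⟨hyp, hmv⟩ := h.quot W (by
      intro g v w hv hvw
      rw [hWc] at hv ⊢
      rw [hinv g v w hvw]
      exact hv) K hK
    have hKN : K ≤ N := by
      rw [hK]
      exact nc_le (fun u => h.prod.le u)
    have hnor : (N.map (QuotientGroup.mk' K)).Normal :=
      Subgroup.Normal.map inferInstance _ (QuotientGroup.mk'_surjective K)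
    have hGK : C (G ⧸ K) := by
      refine ih hyp ?_ (fun v => c v) (fun v => (hWc v).1 v.2) (fun v w hvw => hadj v w hvw) ?_
      · exact hF.base.base.of_injective _ (G ⧸ N)
          (QuotientGroup.quotientQuotientEquivQuotient K N hKN).toMonoidHom
          (QuotientGroup.quotientQuotientEquivQuotient K N hKN).injective hQ
      · intro g' v w hvw
        obtain ⟨g, rfl⟩ := QuotientGroup.mk'_surjective K g'
        exact hinv g v w (hmv g v w hvw)
    have hker := hrel.kernel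
    have hbot : relG (⊥ : SimpleGraph {v // v ∉ W}) Q L = ⊥ := by
      ext i j
      constructor
      · rintro ⟨h1, -⟩
        exact h1.elim
      · intro h1
        exact h1.elim
    rw [hbot, ← hK] at hker
    refine fp hF hker hGK (relA_ne fun u => h.ne u) ?_ (relA_cr fun u => h.cr u)
    intro g i
    rw [hK]
    exact hrel.perm hpU g i

end Q30.FJ
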