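import Pool.Agent.Q30.FJ.GPk

/-!
# Kernels which are graph products: the action on the graph
-/

set_option autoImplicit false

namespace Q30.FJ

open Pool.Agent.Y110.FJ
open Pool.Agent.Y462.SS (Closed Wr)

variable {C : ∀ (G : Type) [Group G], Prop}

section mv

variable {G : Type} [Group G] {N : Subgroup G}

theorem Maps.refl (A : Subgroup G) : Maps 1 A A := by
  intro x
  have : (1 : G) * x * 1⁻¹ = x := by group
  rw [this]

theorem Mv.refl (A : Subgroup G) : Mv N 1 A A := ⟨1, N.one_mem, by rw [one_mul]; exact Maps.refl A⟩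

variable [N.Normal]

theorem Mv.mul {g h : G} {A B D : Subgroup G} (h1 : Mv N g A B) (h2 : Mv N h B D) :
    Mv N (h * g) A D := by
  obtain ⟨n, hn, hm⟩ := h1
  obtain ⟨n', hn', hm'⟩ := h2
  refine ⟨n' * (h * n * h⁻¹), N.mul_mem hn' (Subgroup.Normal.conj_mem inferInstance n hn h), ?_⟩
  have h3 := hm.mul hm'
  have h4 : n' * h * (n * g) = n' * (h * n * h⁻¹) * (h * g) := by group
  rwa [h4] at h3

theorem Mv.inv {g : G} {A B : Subgroup G} (h1 : Mv N g A B) : Mv N g⁻¹ B A := by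
  obtain ⟨n, hn, hm⟩ := h1
  refine ⟨g⁻¹ * n⁻¹ * g⁻¹⁻¹, Subgroup.Normal.conj_mem inferInstance _ (N.inv_mem hn) _, ?_⟩
  have h3 := hm.inv
  have h4 : (n * g)⁻¹ = g⁻¹ * n⁻¹ * g⁻¹⁻¹ * g⁻¹ := by group
  rwa [h4] at h3

omit [N.Normal] in
theorem Mv.of_mul {g n : G} (hn : n ∈ N) {A B : Subgroup G} (h1 : Mv N (n * g) A B) :
    Mv N g A B := by
  obtain ⟨m, hm, h⟩ := h1
  refine ⟨m * n, N.mul_mem hm hn, ?_⟩
  rwa [mul_assoc]

theorem Mv.eq {V : Type} {Λ : SimpleGraph V} {A : V → Subgroup G} (h : GProd Λ A N)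
    (hne : ∀ v, A v ≠ ⊥) {g : G} {v w w' : V} (h1 : Mv N g (A v) (A w))
    (h2 : Mv N g (A v) (A w')) : w = w' := by
  obtain ⟨p, hp⟩ := h.retr
  have h3 := h1.inv.mul h2
  rw [mul_inv_cancel] at h3
  obtain ⟨n, hn, hm⟩ := h3
  rw [mul_one] at hm
  exact hp.conj_eq hne hn hm

/-- **the action on the vertices preserves adjacency** -/
theorem adj_pres {V : Type} {Λ : SimpleGraph V} {A : V → Subgroup G} (h : GProd Λ A N)
    (hne : ∀ v, A v ≠ ⊥) {g : G} {v v' w w' : V} (h1 : Mv N g (A v) (A v'))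
    (h2 : Mv N g (A w) (A w')) (hvw : Λ.Adj v w) : Λ.Adj v' w' := by
  classical
  by_contra hc
  have hne' : v' ≠ w' := by
    rintro rfl
    exact hvw.ne (Mv.eq h hne h1.inv h2.inv)
  obtain ⟨n, hn, hm⟩ := h1
  obtain ⟨n', hn', hm'⟩ := h2
  obtain ⟨⟨a, ha⟩, ha1⟩ := Subgroup.ne_bot_iff_exists_ne_one.1 (hne v)
  obtain ⟨⟨b, hb⟩, hb1⟩ := Subgroup.ne_bot_iff_exists_ne_one.1 (hne w)
  have hy := (hm a).1 ha
  have hz := (hm' b).1 hb
  -- the representation
  let dl : A v' →* Wr (A w') (A v') := MonoidHom.mk' (fun y => ⟨fun q => if q = 1 then y else 1, 1⟩)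
    (by
      intro y z
      apply Wr.ext
      · funext q
        show (if q = 1 then y * z else 1) = (if q = 1 then y else 1) * (if q = 1 then z else 1)
        split_ifs
        · rfl
        · rw [one_mul]
      · rfl)
  let tr : A w' →* Wr (A w') (A v') := MonoidHom.mk' (fun z => ⟨fun _ => 1, Equiv.mulLeft z⟩)
    (by
      intro y z
      apply Wr.ext
      · funext q
        show (1 : A v') = 1 * 1
        rw [one_mul]
      · ext q
        show ((y * z * q : A w') : G) = ((y * (z * q) : A w') : G)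
        rw [mul_assoc])
  let f : ∀ u, A u →* Wr (A w') (A v') := fun u =>
    if e : u = v' then dl.comp (Subgroup.inclusion (le_of_eq (congrArg A e)))
    else if e : u = w' then tr.comp (Subgroup.inclusion (le_of_eq (congrArg A e))) else 1
  have hf1 : ∀ y : A v', f v' y = dl y := by
    intro y
    have : f v' = dl.comp (Subgroup.inclusion (le_of_eq (congrArg A rfl))) := dif_pos rfl
    rw [this]
    rfl
  have hf2 : ∀ z : A w', f w' z = tr z := by
    intro z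
    have : f w' = tr.comp (Subgroup.inclusion (le_of_eq (congrArg A rfl))) :=
      (dif_neg (Ne.symm hne')).trans (dif_pos rfl)
    rw [this]
    rfl
  have hf3 : ∀ u, u ≠ v' → u ≠ w' → ∀ x : A u, f u x = 1 := by
    intro u h1 h2 x
    have : f u = 1 := (dif_neg h1).trans (dif_neg h2)
    rw [this]
    rfl
  obtain ⟨Φ, hΦ⟩ := h.univ _ f (by
    intro u t hut x y
    by_cases hu : u ≠ v' ∧ u ≠ w'
    · rw [hf3 u hu.1 hu.2, one_mul, mul_one]
    · by_cases ht : t ≠ v' ∧ t ≠ w'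
      · rw [hf3 t ht.1 ht.2, one_mul, mul_one]
      · exfalso
        rw [not_and_or, not_not, not_not] at hu ht
        rcases hu with rfl | rfl
        · rcases ht with rfl | rfl
          · exact hut.ne rfl
          · exact hc hut
        · rcases ht with rfl | rfl
          · exact hc hut.symm
          · exact hut.ne rfl)
  obtain ⟨T, hT⟩ : ∃ T, T = Φ ⟨_, h.le v' hy⟩ := ⟨_, rfl⟩
  obtain ⟨S, hS⟩ : ∃ S, S = Φ ⟨_, h.le w' hz⟩ := ⟨_, rfl⟩
  have hT1 : T = dl ⟨_, hy⟩ := by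
    rw [hT]
    exact (hΦ v' ⟨_, hy⟩).trans (hf1 _)
  have hS1 : S = tr ⟨_, hz⟩ := by
    rw [hS]
    exact (hΦ w' ⟨_, hz⟩).trans (hf2 _)
  obtain ⟨X, hX⟩ : ∃ X, X = Φ ⟨n, hn⟩ := ⟨_, rfl⟩
  obtain ⟨X', hX'⟩ : ∃ X', X' = Φ ⟨n', hn'⟩ := ⟨_, rfl⟩
  have hga : g * a * g⁻¹ ∈ N := Subgroup.Normal.conj_mem inferInstance a (h.le v ha) g
  have hgb : g * b * g⁻¹ ∈ N := Subgroup.Normal.conj_mem inferInstance b (h.le w hb) g
  have hY : Φ ⟨_, hga⟩ = X⁻¹ * T * X := by
    rw [hX, hT, ← map_inv, ← map_mul, ← map_mul]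
    congr 1
    apply Subtype.ext
    show g * a * g⁻¹ = n⁻¹ * (n * g * a * (n * g)⁻¹) * n
    group
  have hZ : Φ ⟨_, hgb⟩ = X'⁻¹ * S * X' := by
    rw [hX', hS, ← map_inv, ← map_mul, ← map_mul]
    congr 1
    apply Subtype.ext
    show g * b * g⁻¹ = n'⁻¹ * (n' * g * b * (n' * g)⁻¹) * n'
    group
  obtain ⟨Y, hYY⟩ : ∃ Y, Y = X⁻¹ * T * X := ⟨_, rfl⟩
  obtain ⟨Z, hZZ⟩ : ∃ Z, Z = X'⁻¹ * S * X' := ⟨_, rfl⟩
  have hYZ : Y * Z = Z * Y := by
    rw [hYY, hZZ, ← hY, ← hZ, ← map_mul, ← map_mul]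
    congr 1
    apply Subtype.ext
    show g * a * g⁻¹ * (g * b * g⁻¹) = g * b * g⁻¹ * (g * a * g⁻¹)
    have e1 : g * a * g⁻¹ * (g * b * g⁻¹) = g * (a * b) * g⁻¹ := by group
    have e2 : g * b * g⁻¹ * (g * a * g⁻¹) = g * (b * a) * g⁻¹ := by group
    rw [e1, e2, h.comm v w hvw a ha b hb]
  have hTp : T.p = 1 := by rw [hT1]; rfl
  have hYp : Y.p = 1 := by
    rw [hYY, Wr.mul_p, Wr.mul_p, Wr.inv_p, hTp, mul_one, inv_mul_cancel]
  have hYs : ∀ q, Y.s q = (X.s q)⁻¹ * T.s (X.p q) * X.s q := by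
    intro q
    have e1 : X.p⁻¹ (X.p q) = q := by
      rw [← Equiv.Perm.mul_apply, inv_mul_cancel, Equiv.Perm.one_apply]
    rw [hYY, Wr.mul_s, Wr.mul_s, Wr.inv_s, hTp, Equiv.Perm.one_apply, e1]
  have hy1 : (⟨_, hy⟩ : A v') ≠ 1 := by
    intro e
    have e1 : n * g * a * (n * g)⁻¹ = 1 := congrArg Subtype.val e
    rw [conj_eq_one_iff] at e1
    exact ha1 (Subtype.ext e1)
  have hz1 : (⟨_, hz⟩ : A w') ≠ 1 := by
    intro e
    have e1 : n' * g * b * (n' * g)⁻¹ = 1 := congrArg Subtype.val e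
    rw [conj_eq_one_iff] at e1
    exact hb1 (Subtype.ext e1)
  have hTs : ∀ q, T.s q ≠ 1 → q = 1 := by
    intro q hq
    by_contra hq1
    apply hq
    rw [hT1]
    exact if_neg hq1
  have hTs1 : T.s 1 ≠ 1 := by
    rw [hT1]
    have : (dl ⟨_, hy⟩).s 1 = ⟨_, hy⟩ := if_pos rfl
    rw [this]
    exact hy1
  obtain ⟨q0, hq0⟩ := X.p.surjective 1
  have hYs0 : Y.s q0 ≠ 1 := by
    rw [hYs, hq0]
    intro e
    apply hTs1
    have e1 : (X.s q0)⁻¹ * T.s 1 * X.s q0 = 1 := e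
    have e2 : T.s 1 = X.s q0 * ((X.s q0)⁻¹ * T.s 1 * X.s q0) * (X.s q0)⁻¹ := by group
    rw [e2, e1]
    group
  have h5 := congrArg (fun z => z.s q0) hYZ
  have h6 : Y.s (Z.p q0) * Z.s q0 = Z.s (Y.p q0) * Y.s q0 := h5
  rw [hYp, Equiv.Perm.one_apply] at h6
  have h7 : Y.s (Z.p q0) ≠ 1 := by
    intro e
    rw [e, one_mul] at h6
    exact hYs0 (mul_eq_left.1 h6.symm)
  have h8 : X.p (Z.p q0) = 1 := by
    apply hTs
    intro e
    apply h7
    rw [hYs, e]
    group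
  have h9 : Z.p q0 = q0 := X.p.injective (h8.trans hq0.symm)
  rw [hZZ, Wr.mul_p, Wr.mul_p, Wr.inv_p, Equiv.Perm.mul_apply, Equiv.Perm.mul_apply,
    Equiv.Perm.inv_eq_iff_eq] at h9
  rw [hS1] at h9
  have h10 : (⟨_, hz⟩ : A w') * X'.p q0 = X'.p q0 := h9
  exact hz1 (mul_eq_right.1 h10)

end mv

section sub

variable {G : Type} [Group G] {V : Type} {Λ : SimpleGraph V} {A : V → Subgroup G}
  {N : Subgroup G}

/-- subgroups which contain the kernel -/
theorem GProd.sub (h : GProd Λ A N) (B : Subgroup G) (hNB : N ≤ B) :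
    GProd Λ (fun v => (A v).subgroupOf B) (N.subgroupOf B) where
  le := fun v x hx => h.le v hx
  gen := by
    intro M hM
    have h1 : N ≤ M.map B.subtype := by
      apply h.gen
      intro v a ha
      exact ⟨⟨a, hNB (h.le v ha)⟩, hM v ha, rfl⟩
    intro x hx
    obtain ⟨y, hy, hyx⟩ := h1 hx
    have h2 : y = x := Subtype.ext hyx
    rw [← h2]
    exact hy
  comm := by
    intro v w hvw a ha b hb
    exact Subtype.ext (h.comm v w hvw a ha b hb)
  univ := by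
    intro H _ f hf
    obtain ⟨φ, hφ⟩ := h.univ H (fun v => (f v).comp (MonoidHom.mk' (fun a =>
      (⟨⟨a, hNB (h.le v a.2)⟩, a.2⟩ : (A v).subgroupOf B)) (fun a b => rfl))) (by
        intro v w hvw a b
        exact hf v w hvw _ _)
    refine ⟨φ.comp (MonoidHom.mk' (fun x => (⟨x.1.1, x.2⟩ : N)) (fun x y => rfl)), ?_⟩
    intro v a
    exact hφ v ⟨a.1.1, a.2⟩

theorem Maps.of_sub {B : Subgroup G} {g : B} {A D : Subgroup G} (hA : A ≤ B) (hD : D ≤ B)
    (h : Maps g (A.subgroupOf B) (D.subgroupOf B)) : Maps (g : G) A D := by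
  intro x
  constructor
  · intro hx
    exact (h ⟨x, hA hx⟩).1 hx
  · intro hx
    have h1 : x ∈ B := by
      have h2 := B.mul_mem (B.mul_mem (B.inv_mem g.2) (hD hx)) g.2
      have h3 : (g : G)⁻¹ * (g * x * (g : G)⁻¹) * g = x := by group
      rwa [h3] at h2
    exact (h ⟨x, h1⟩).2 hx

theorem Maps.sub {B : Subgroup G} {g : B} {A D : Subgroup G} (h : Maps (g : G) A D) :
    Maps g (A.subgroupOf B) (D.subgroupOf B) := fun x => h x

theorem Hyp.sub (h : Hyp C Λ A N) (B : Subgroup G) (hNB : N ≤ B) :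
    Hyp C Λ (fun v => (A v).subgroupOf B) (N.subgroupOf B) ∧
    ∀ (g : B) (v w : V), Mv (N.subgroupOf B) g ((A v).subgroupOf B) ((A w).subgroupOf B) →
      Mv N (g : G) (A v) (A w) := by
  have hA : ∀ v, A v ≤ B := fun v => (h.prod.le v).trans hNB
  refine ⟨⟨h.prod.sub B hNB, ?_, ?_, ?_⟩, ?_⟩
  · intro v hv
    apply h.ne v
    rw [Subgroup.eq_bot_iff_forall] at hv ⊢
    intro a ha
    exact congrArg Subtype.val (hv ⟨a, hA v ha⟩ ha)
  · intro g v
    obtain ⟨w, n, hn, hm⟩ := h.perm g v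
    exact ⟨w, ⟨n, hNB hn⟩, hn, Maps.sub (g := ⟨n, hNB hn⟩ * g) hm⟩
  · intro v g hg
    obtain ⟨P, _, f, p, hP, hf, hfp⟩ := h.cr v g (hg.of_sub (hA v) (hA v))
    refine ⟨P, inferInstance, f.comp (MonoidHom.mk' (fun a => (⟨a.1.1, a.2⟩ : A v))
      (fun a b => rfl)), p, hP, ?_, ?_⟩
    · intro x y hxy
      have h1 := congrArg Subtype.val (hf hxy)
      exact Subtype.ext (Subtype.ext h1)
    · intro a a' haa
      exact hfp ⟨a.1.1, a.2⟩ ⟨a'.1.1, a'.2⟩ (congrArg Subtype.val haa)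
  · rintro g v w ⟨n, hn, hm⟩
    exact ⟨n, hn, Maps.of_sub (g := n * g) (hA v) (hA w) hm⟩

end sub

section cyc

variable {G : Type} [Group G] {V : Type} {Λ : SimpleGraph V} {A : V → Subgroup G}
  {N : Subgroup G} [N.Normal]

open scoped Pointwise in
theorem mem_sup_zpowers (g x : G) : x ∈ N ⊔ Subgroup.zpowers g ↔ ∃ n ∈ N, ∃ m : ℤ, x = n * g ^ m := by
  have h1 : ((N ⊔ Subgroup.zpowers g : Subgroup G) : Set G) = N * Subgroup.zpowers g :=
    Subgroup.normal_mul _ _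
  constructor
  · intro hx
    have h2 : x ∈ ((N ⊔ Subgroup.zpowers g : Subgroup G) : Set G) := hx
    rw [h1] at h2
    obtain ⟨n, hn, y, hy, rfl⟩ := h2
    obtain ⟨m, rfl⟩ := Subgroup.mem_zpowers_iff.1 hy
    exact ⟨n, hn, m, rfl⟩
  · rintro ⟨n, hn, m, rfl⟩
    exact Subgroup.mul_mem _ (Subgroup.mem_sup_left hn)
      (Subgroup.mem_sup_right (Subgroup.zpow_mem _ (Subgroup.mem_zpowers g) m))

/-- cyclic quotients and finitely many orbits of vertices -/
theorem gpk_cyc (hF : ClosedF C) (h : Hyp C Λ A N) (hQ : C (G ⧸ N)) (g : G)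
    (hg : ∀ x : G, ∃ n ∈ N, ∃ m : ℤ, x = n * g ^ m) (s : Finset V)
    (hs : ∀ w, ∃ v ∈ s, ∃ m : ℤ, Mv N (g ^ m) (A v) (A w))
    (hst : ∀ v, ∃ k : ℕ, 0 < k ∧ ∀ (m : ℤ) (w : V), Mv N (g ^ ((k : ℤ) * m)) (A v) (A w) →
      ¬ Λ.Adj v w) : C G := by
  classical
  choose κ hκ0 hκ using hst
  obtain ⟨k, hk⟩ : ∃ k : ℕ, k = ∏ v ∈ s, κ v := ⟨_, rfl⟩
  have hk0 : 0 < k := by
    rw [hk]
    exact Finset.prod_pos fun v _ => hκ0 v
  have hadj : ∀ (m : ℤ) (w w' : V), Mv N (g ^ ((k : ℤ) * m)) (A w) (A w') → ¬ Λ.Adj w w' := by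
    intro m w w' hm hww
    obtain ⟨v, hv, j, hj⟩ := hs w
    obtain ⟨v', hv'⟩ := h.perm (g ^ j)⁻¹ w'
    have h1 : Λ.Adj v v' := adj_pres h.prod h.ne hj.inv hv' hww
    have h2 := (hj.mul hm).mul hv'
    have h3 : (g ^ j)⁻¹ * (g ^ ((k : ℤ) * m) * g ^ j) = g ^ ((k : ℤ) * m) := by
      rw [← zpow_add, ← zpow_neg, ← zpow_add]
      congr 1
      ring
    rw [h3] at h2
    obtain ⟨k', hk'⟩ : κ v ∣ k := by
      rw [hk]
      exact Finset.dvd_prod_of_mem κ hv
    have h4 : (k : ℤ) * m = (κ v : ℤ) * ((k' : ℤ) * m) := by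
      rw [hk']
      push_cast
      ring
    rw [h4] at h2
    exact hκ v _ v' h2 h1
  -- the equivalence relation
  let st : Setoid V :=
    { r := fun v w => ∃ m : ℤ, Mv N (g ^ ((k : ℤ) * m)) (A v) (A w)
      iseqv :=
        { refl := fun v => ⟨0, by rw [mul_zero, zpow_zero]; exact Mv.refl _⟩
          symm := by
            rintro v w ⟨m, hm⟩
            refine ⟨-m, ?_⟩
            have h1 := hm.inv
            rw [← zpow_neg] at h1
            rwa [mul_neg]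
          trans := by
            rintro v w u ⟨m, hm⟩ ⟨m', hm'⟩
            refine ⟨m' + m, ?_⟩
            have h1 := hm.mul hm'
            rw [← zpow_add] at h1
            rwa [mul_add] } }
  have hτ : ∀ (j : ℕ) (v : V), ∃ w, Mv N (g ^ (j : ℤ)) (A v) (A w) := fun j v => h.perm _ v
  choose τ hτ using hτ
  have hfin : Finite (Quotient st) := by
    refine Finite.of_surjective (fun z : s × Fin k => Quotient.mk st (τ z.2 z.1)) ?_
    intro c
    induction c using Quotient.inductionOn with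
    | h w =>
      obtain ⟨v, hv, m, hm⟩ := hs w
      have h1 : 0 ≤ m % (k : ℤ) := Int.emod_nonneg _ (by exact_mod_cast hk0.ne')
      have h2 : m % (k : ℤ) < k := Int.emod_lt_of_pos _ (by exact_mod_cast hk0)
      obtain ⟨j, hj⟩ := Int.eq_ofNat_of_zero_le h1
      rw [hj] at h2
      have h3 : j < k := by exact_mod_cast h2
      refine ⟨(⟨v, hv⟩, ⟨j, h3⟩), Quotient.sound ?_⟩
      refine ⟨m / (k : ℤ), ?_⟩
      have h4 := (hτ j v).inv.mul hm
      have h5 : g ^ m * (g ^ (j : ℤ))⁻¹ = g ^ ((k : ℤ) * (m / (k : ℤ))) := by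
        rw [← zpow_neg, ← zpow_add]
        congr 1
        have h6 := Int.emod_add_mul_ediv m (k : ℤ)
        rw [hj] at h6
        omega
      rwa [h5] at h4
  obtain ⟨m, ⟨e⟩⟩ := Finite.exists_equiv_fin (Quotient st)
  -- the subgroup of finite index
  obtain ⟨B, hB⟩ : ∃ B, B = N ⊔ Subgroup.zpowers (g ^ k) := ⟨_, rfl⟩
  have hBm : ∀ x, x ∈ B ↔ ∃ n ∈ N, ∃ j : ℤ, x = n * g ^ ((k : ℤ) * j) := by
    intro x
    rw [hB, mem_sup_zpowers]
    have h1 : ∀ j : ℤ, (g ^ k) ^ j = g ^ ((k : ℤ) * j) := by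
      intro j
      rw [zpow_mul, zpow_natCast]
    simp only [h1]
  have hNB : N ≤ B := by
    rw [hB]
    exact le_sup_left
  have hBi : B.FiniteIndex := by
    have h0 : Finite (G ⧸ B) := by
      refine Finite.of_surjective (fun z : Fin k => (QuotientGroup.mk (g ^ (z : ℕ)) : G ⧸ B)) ?_
      intro c
      induction c using QuotientGroup.induction_on with
      | H x =>
        obtain ⟨n, hn, m, hm⟩ := hg x
        have h1 : 0 ≤ m % (k : ℤ) := Int.emod_nonneg _ (by exact_mod_cast hk0.ne')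
        have h2 : m % (k : ℤ) < k := Int.emod_lt_of_pos _ (by exact_mod_cast hk0)
        obtain ⟨j, hj⟩ := Int.eq_ofNat_of_zero_le h1
        rw [hj] at h2
        have h3 : j < k := by exact_mod_cast h2
        refine ⟨⟨j, h3⟩, QuotientGroup.eq.2 ?_⟩
        rw [hBm]
        refine ⟨(g ^ j)⁻¹ * n * (g ^ j)⁻¹⁻¹, Subgroup.Normal.conj_mem inferInstance n hn _,
          m / (k : ℤ), ?_⟩
        have h5 : g ^ m = g ^ j * g ^ ((k : ℤ) * (m / (k : ℤ))) := by
          rw [← zpow_natCast, ← zpow_add]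
          congr 1
          have h6 := Int.emod_add_mul_ediv m (k : ℤ)
          rw [hj] at h6
          omega
        rw [hm, h5]
        group
    exact Subgroup.finiteIndex_of_finite_quotient
  refine hF.base.base.finiteIndex G B hBi ?_
  obtain ⟨hyp, hmv⟩ := h.sub B hNB
  refine gpk_fin hF m hyp ?_ (fun v => (e (Quotient.mk st v) : ℕ)) (fun v => (e _).2) ?_ ?_
  · refine hF.base.base.of_injective _ (G ⧸ N) (QuotientGroup.map (N.subgroupOf B) N B.subtype
      (fun x hx => hx)) ?_ hQ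
    rw [injective_iff_map_eq_one]
    intro x
    induction x using QuotientGroup.induction_on with
    | H z =>
      intro hz
      have h1 : z.1 ∈ N := (QuotientGroup.eq_one_iff _).1 hz
      exact (QuotientGroup.eq_one_iff _).2 h1
  · intro v w hvw he
    have h1 : Quotient.mk st v = Quotient.mk st w := e.injective (Fin.ext he)
    obtain ⟨j, hj⟩ := Quotient.exact h1
    exact hadj j v w hj hvw
  · intro b v w hvw
    have h1 := hmv b v w hvw
    obtain ⟨n, hn, j, hj⟩ := (hBm b.1).1 b.2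
    rw [hj] at h1
    have h2 := h1.of_mul hn
    have h3 : Quotient.mk st v = Quotient.mk st w := Quotient.sound ⟨j, h2⟩
    show (e (Quotient.mk st w) : ℕ) = (e (Quotient.mk st v) : ℕ)
    rw [h3]

/-- **kernels which are graph products** -/
theorem gpk_main (hF : ClosedF C) (h : Hyp C Λ A N) (hQ : C (G ⧸ N))
    (hst : ∀ (g : G) (v : V), ∃ k : ℕ, 0 < k ∧ ∀ (m : ℤ) (w : V),
      Mv N (g ^ ((k : ℤ) * m)) (A v) (A w) → ¬ Λ.Adj v w) : C G := by
  classical
  refine crit C hF.base G N hQ ?_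
  intro g E hE hEN
  have hcl : Subgroup.closure (E ∪ (fun x => g * x * g⁻¹) '' E) ≤ N := by
    rw [Subgroup.closure_le]
    rintro x (hx | ⟨y, hy, rfl⟩)
    · exact hEN hx
    · exact Subgroup.Normal.conj_mem inferInstance y (hEN hy) g
  -- finitely many vertices
  have hdir : Directed (· ≤ ·) (fun s : Finset V => ⨆ v ∈ s, A v) := by
    intro s t
    refine ⟨s ∪ t, ?_, ?_⟩
    · exact biSup_mono fun v hv => Finset.mem_union_left _ hv
    · exact biSup_mono fun v hv => Finset.mem_union_right _ hv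
  have hex : ∀ x ∈ N, ∃ s : Finset V, x ∈ ⨆ v ∈ s, A v := by
    have h1 : N ≤ ⨆ s : Finset V, ⨆ v ∈ s, A v := by
      apply h.prod.gen
      intro v
      refine le_trans ?_ (le_iSup _ {v})
      simp
    intro x hx
    exact (Subgroup.mem_iSup_of_directed hdir).1 (h1 hx)
  have hs : ∃ s : Finset V, ∀ x ∈ E ∪ (fun x => g * x * g⁻¹) '' E, x ∈ ⨆ v ∈ s, A v := by
    have hEf : (E ∪ (fun x => g * x * g⁻¹) '' E).Finite := hE.union (hE.image _)
    have h2 : ∀ x : (E ∪ (fun x => g * x * g⁻¹) '' E : Set G), ∃ s : Finset V,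
        (x : G) ∈ ⨆ v ∈ s, A v := fun x => hex x (hcl (Subgroup.subset_closure x.2))
    choose σ hσ using h2
    have := hEf.fintype
    refine ⟨Finset.univ.biUnion σ, fun x hx => ?_⟩
    have h3 := hσ ⟨x, hx⟩
    have h4 : (⨆ v ∈ σ ⟨x, hx⟩, A v) ≤ ⨆ v ∈ Finset.univ.biUnion σ, A v :=
      biSup_mono fun v hv => Finset.mem_biUnion.2 ⟨_, Finset.mem_univ _, hv⟩
    exact h4 h3
  obtain ⟨s, hs⟩ := hs
  obtain ⟨W, hWm⟩ : ∃ W : Set V, ∀ w, w ∈ W ↔ ∃ v ∈ s, ∃ m : ℤ, Mv N (g ^ m) (A v) (A w) :=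
    ⟨{w | ∃ v ∈ s, ∃ m : ℤ, Mv N (g ^ m) (A v) (A w)}, fun w => Iff.rfl⟩
  have hsW : ∀ v ∈ s, v ∈ W := by
    intro v hv
    rw [hWm]
    exact ⟨v, hv, 0, by rw [zpow_zero]; exact Mv.refl _⟩
  -- the subgroup
  obtain ⟨B, hB⟩ : ∃ B, B = N ⊔ Subgroup.zpowers g := ⟨_, rfl⟩
  have hBm : ∀ x, x ∈ B ↔ ∃ n ∈ N, ∃ j : ℤ, x = n * g ^ j := by
    intro x
    rw [hB, mem_sup_zpowers]
  have hNB : N ≤ B := by
    rw [hB]
    exact le_sup_left
  have hgB : g ∈ B := by
    rw [hB]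
    exact Subgroup.mem_sup_right (Subgroup.mem_zpowers g)
  obtain ⟨hyp, hmv⟩ := h.sub B hNB
  have hWB : ∀ (b : B) (v w : V), v ∈ W → Mv (N.subgroupOf B) b ((A v).subgroupOf B)
      ((A w).subgroupOf B) → w ∈ W := by
    intro b v w hv hvw
    have h1 := hmv b v w hvw
    obtain ⟨n, hn, j, hj⟩ := (hBm b.1).1 b.2
    rw [hj] at h1
    have h2 := h1.of_mul hn
    rw [hWm] at hv ⊢
    obtain ⟨u, hu, m, hm⟩ := hv
    refine ⟨u, hu, j + m, ?_⟩
    rw [zpow_add]
    exact hm.mul h2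
  obtain ⟨K, hK⟩ : ∃ K, K = nc (N.subgroupOf B)
    (fun u : {v // v ∉ W} => (A u).subgroupOf B) := ⟨_, rfl⟩
  have hKn : K.Normal := by
    rw [hK]
    apply nc_normal
    intro b u
    obtain ⟨w, hw⟩ := hyp.perm b u
    refine ⟨⟨w, fun hwW => u.2 ?_⟩, hw⟩
    exact hWB b⁻¹ w u hwW hw.inv
  obtain ⟨hyp2, hmv2⟩ := hyp.quot W hWB K hK
  have hKN : K ≤ N.subgroupOf B := by
    rw [hK]
    exact nc_le (fun u => hyp.prod.le u)
  have hnor : ((N.subgroupOf B).map (QuotientGroup.mk' K)).Normal :=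
    Subgroup.Normal.map inferInstance _ (QuotientGroup.mk'_surjective K)
  have hBK : C (B ⧸ K) := by
    have hQB : C (B ⧸ N.subgroupOf B) := by
      refine hF.base.base.of_injective _ (G ⧸ N) (QuotientGroup.map (N.subgroupOf B) N B.subtype
        (fun x hx => hx)) ?_ hQ
      rw [injective_iff_map_eq_one]
      intro x
      induction x using QuotientGroup.induction_on with
      | H z =>
        intro hz
        have h1 : z.1 ∈ N := (QuotientGroup.eq_one_iff _).1 hz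
        exact (QuotientGroup.eq_one_iff _).2 h1
    have hback : ∀ (j : ℤ) (v w : W), Mv N (g ^ j) (A v) (A w) →
        Mv ((N.subgroupOf B).map (QuotientGroup.mk' K)) (QuotientGroup.mk' K ⟨g, hgB⟩ ^ j)
        (((A v).subgroupOf B).map (QuotientGroup.mk' K))
        (((A w).subgroupOf B).map (QuotientGroup.mk' K)) := by
      rintro j v w ⟨n, hn, hm⟩
      refine ⟨_, Subgroup.mem_map_of_mem _ (show (⟨n, hNB hn⟩ : B) ∈ N.subgroupOf B from hn), ?_⟩
      rw [← map_zpow, ← map_mul]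
      apply Maps.quot
      obtain ⟨b, hb⟩ : ∃ b : B, b = (⟨n, hNB hn⟩ : B) * (⟨g, hgB⟩ : B) ^ j := ⟨_, rfl⟩
      have h1 : (b : G) = n * g ^ j := by
        rw [hb, Subgroup.coe_mul, Subgroup.coe_zpow]
      rw [← hb]
      apply Maps.sub
      rw [h1]
      exact hm
    refine gpk_cyc hF hyp2 ?_ (QuotientGroup.mk' K ⟨g, hgB⟩) ?_ (s.subtype (· ∈ W)) ?_ ?_
    · exact hF.base.base.of_injective _ (B ⧸ N.subgroupOf B)
        (QuotientGroup.quotientQuotientEquivQuotient K (N.subgroupOf B) hKN).toMonoidHom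
        (QuotientGroup.quotientQuotientEquivQuotient K (N.subgroupOf B) hKN).injective hQB
    · intro x
      obtain ⟨b, rfl⟩ := QuotientGroup.mk'_surjective K x
      obtain ⟨n, hn, j, hj⟩ := (hBm b.1).1 b.2
      refine ⟨_, Subgroup.mem_map_of_mem _ (show (⟨n, hNB hn⟩ : B) ∈ N.subgroupOf B from hn), j, ?_⟩
      rw [← map_zpow, ← map_mul]
      congr 1
      apply Subtype.ext
      rw [Subgroup.coe_mul, Subgroup.coe_zpow]
      exact hj
    · intro w
      obtain ⟨v, hv, m, hm⟩ := (hWm w.1).1 w.2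
      exact ⟨⟨v, hsW v hv⟩, Finset.mem_subtype.2 hv, m, hback m ⟨v, hsW v hv⟩ w hm⟩
    · intro v
      obtain ⟨k, hk0, hk⟩ := hst g v
      refine ⟨k, hk0, fun m w hm => ?_⟩
      have h1 : Mv ((N.subgroupOf B).map (QuotientGroup.mk' K))
        (QuotientGroup.mk' K ((⟨g, hgB⟩ : B) ^ ((k : ℤ) * m)))
        (((A v).subgroupOf B).map (QuotientGroup.mk' K))
        (((A w).subgroupOf B).map (QuotientGroup.mk' K)) := by
        rw [map_zpow]
        exact hm
      have h2 := hmv _ v w (hmv2 _ v w h1)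
      rw [Subgroup.coe_zpow] at h2
      exact hk m w h2
  -- the retraction to the subgroup generated by the vertex groups in `W`
  have hSN : ⨆ w : W, A w ≤ N := iSup_le fun w => h.prod.le w
  have hAS : ∀ w : W, A w ≤ ⨆ w : W, A w := fun w => le_iSup (fun w : W => A w) w
  let f' : ∀ v, A v →* ↥(⨆ w : W, A w) := fun v =>
      if hv : v ∈ W then Subgroup.inclusion (hAS ⟨v, hv⟩) else 1
  have hf1 : ∀ (v : W) (a : A v.1), f' v a = ⟨a, hAS v a.2⟩ := by
    intro v a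
    have : f' v.1 = Subgroup.inclusion (hAS v) := dif_pos v.2
    rw [this]
    rfl
  have hf2 : ∀ v, v ∉ W → ∀ a : A v, f' v a = 1 := by
    intro v hv a
    have : f' v = 1 := dif_neg hv
    rw [this]
    rfl
  obtain ⟨φ, hφ⟩ := h.prod.univ _ f' (by
    intro v w hvw a b
    by_cases hv : v ∈ W
    · by_cases hw : w ∈ W
      · have e1 : f' v a = _ := hf1 ⟨v, hv⟩ a
        have e2 : f' w b = _ := hf1 ⟨w, hw⟩ b
        rw [e1, e2]
        exact Subtype.ext (h.prod.comm v w hvw a a.2 b b.2)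
      · rw [hf2 w hw b, mul_one, one_mul]
    · rw [hf2 v hv a, mul_one, one_mul])
  have hφS : ∀ x : ↥(⨆ w : W, A w), φ ⟨x, hSN x.2⟩ = x := by
    have h1 : ⨆ w : W, A w ≤ ((φ.comp (Subgroup.inclusion hSN)).eqLocus (MonoidHom.id _)).map
        (Subgroup.subtype (⨆ w : W, A w)) := by
      apply iSup_le
      intro w a ha
      refine ⟨⟨a, hAS w ha⟩, ?_, rfl⟩
      show φ ⟨a, _⟩ = ⟨a, _⟩
      exact (hφ w.1 ⟨a, ha⟩).trans (hf1 w ⟨a, ha⟩)
    intro x
    obtain ⟨y, hy, hyx⟩ := h1 x.2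
    have h2 : y = x := Subtype.ext hyx
    rw [← h2]
    exact hy
  have hSK : ∀ (x : G) (hx : x ∈ ⨆ w : W, A w), (⟨x, hNB (hSN hx)⟩ : B) ∈ K → x = 1 := by
    intro x hx hxK
    rw [hK] at hxK
    have h1 := nc_hom (N := N.subgroupOf B) (A := fun u : {v // v ∉ W} => (A u).subgroupOf B)
      (fun u => hyp.prod.le u) (φ.comp (MonoidHom.mk' (fun x => (⟨x.1.1, x.2⟩ : N))
        (fun x y => rfl))) (by
        intro u a ha
        exact (hφ u.1 ⟨a.1, ha⟩).trans (hf2 u.1 u.2 ⟨a.1, ha⟩)) hxK (hSN hx)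
    have h2 : φ ⟨x, hSN hx⟩ = 1 := h1
    have h3 := hφS ⟨x, hx⟩
    rw [h2] at h3
    exact (congrArg Subtype.val h3).symm
  have hclS : Subgroup.closure (E ∪ (fun x => g * x * g⁻¹) '' E) ≤ ⨆ w : W, A w := by
    rw [Subgroup.closure_le]
    intro x hx
    have h1 : (⨆ v ∈ s, A v) ≤ ⨆ w : W, A w := iSup₂_le fun v hv => hAS ⟨v, hsW v hv⟩
    exact h1 (hs x hx)
  refine ⟨B ⧸ K, inferInstance, (QuotientGroup.mk' K).comp (Subgroup.inclusion (hcl.trans hNB)),
    QuotientGroup.mk' K ⟨g, hgB⟩, hBK, ?_, ?_⟩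
  · rw [injective_iff_map_eq_one]
    intro x hx
    have h1 : (⟨x.1, hNB (hSN (hclS x.2))⟩ : B) ∈ K := (QuotientGroup.eq_one_iff _).1 hx
    exact Subtype.ext (hSK x.1 (hclS x.2) h1)
  · intro x y _ hy
    rw [MonoidHom.comp_apply, MonoidHom.comp_apply, ← map_mul, ← map_inv, ← map_mul]
    congr 1
    exact Subtype.ext hy

end cyc

end Q30.FJ
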