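import Pool.Agent.Q30.FJ.Eppa

/-!
# Graph-wreath products
-/

set_option autoImplicit false

namespace Q30.FJ

open Pool.Agent.Y110.FJ
open Pool.Agent.Y462.SS (Closed)

section perm

variable {T : Type} (Λ : SimpleGraph T) (A : Type) [Group A]

/-- an injective map of graphs (onto an induced subgraph) gives a homomorphism; vertices outside of a
set are killed -/
theorem gmap {V : Type} (Λ₀ : SimpleGraph V) (S : Set V) (ι : S → T)
    (hι : ∀ x y : S, Λ₀.Adj x y → Λ.Adj (ι x) (ι y)) :
    ∃ F : GrP Λ₀ (fun _ => A) →* GrP Λ (fun _ => A),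
      (∀ (v : S) (a : A), F (GrP.of Λ₀ (fun _ => A) v a) = GrP.of Λ (fun _ => A) (ι v) a) ∧
      ∀ v, v ∉ S → ∀ a : A, F (GrP.of Λ₀ (fun _ => A) v a) = 1 := by
  classical
  have hex : ∀ v : V, ∃ φ : A →* GrP Λ (fun _ => A),
      (∀ (h : v ∈ S) (a : A), φ a = GrP.of Λ (fun _ => A) (ι ⟨v, h⟩) a) ∧ (v ∉ S → φ = 1) := by
    intro v
    by_cases h : v ∈ S
    · exact ⟨GrP.of Λ (fun _ => A) (ι ⟨v, h⟩), fun _ _ => rfl, fun h' => absurd h h'⟩
    · exact ⟨1, fun h' => absurd h' h, fun _ => rfl⟩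
  choose φ hφ hφ' using hex
  refine ⟨glift φ ?_, ?_, ?_⟩
  · intro v w hvw a b
    by_cases hv : v ∈ S
    · by_cases hw : w ∈ S
      · rw [hφ v hv a, hφ w hw b]
        exact gcomm (A := fun _ => A) (hι ⟨v, hv⟩ ⟨w, hw⟩ hvw) a b
      · rw [hφ' w hw, MonoidHom.one_apply, mul_one, one_mul]
    · rw [hφ' v hv, MonoidHom.one_apply, mul_one, one_mul]
  · intro v a
    rw [glift_of, hφ v v.2 a]
  · intro v hv a
    rw [glift_of, hφ' v hv, MonoidHom.one_apply]

/-- an automorphism of the graph gives an automorphism -/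
theorem gaut (τ : Equiv.Perm T) (hτ : ∀ x y, Λ.Adj (τ x) (τ y) ↔ Λ.Adj x y) :
    ∃ σ : MulAut (GrP Λ (fun _ => A)), ∀ v (a : A),
      σ (GrP.of Λ (fun _ => A) v a) = GrP.of Λ (fun _ => A) (τ v) a := by
  let f : GrP Λ (fun _ => A) →* GrP Λ (fun _ => A) :=
    glift (fun v => GrP.of Λ (fun _ => A) (τ v)) (fun v w h a b =>
      gcomm (A := fun _ => A) ((hτ v w).2 h) a b)
  let g : GrP Λ (fun _ => A) →* GrP Λ (fun _ => A) :=
    glift (fun v => GrP.of Λ (fun _ => A) (τ.symm v)) (fun v w h a b => gcomm (A := fun _ => A) (by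
      rw [← hτ, τ.apply_symm_apply, τ.apply_symm_apply]
      exact h) a b)
  have hf : ∀ v (a : A), f (GrP.of Λ (fun _ => A) v a) = GrP.of Λ (fun _ => A) (τ v) a :=
    fun v a => glift_of (A := fun _ => A) _ _ v a
  have hg : ∀ v (a : A), g (GrP.of Λ (fun _ => A) v a) = GrP.of Λ (fun _ => A) (τ.symm v) a :=
    fun v a => glift_of (A := fun _ => A) _ _ v a
  have h1 : g.comp f = MonoidHom.id _ := by
    apply gext
    intro v a
    rw [MonoidHom.comp_apply, hf, hg, τ.symm_apply_apply, MonoidHom.id_apply]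
  have h2 : f.comp g = MonoidHom.id _ := by
    apply gext
    intro v a
    rw [MonoidHom.comp_apply, hg, hf, τ.apply_symm_apply, MonoidHom.id_apply]
  exact ⟨MonoidHom.toMulEquiv f g h1 h2, hf⟩

end perm

/-- **graph-wreath products** -/
theorem gw : S_GW := by
  classical
  intro C hC V Q A _ _ _ Λ α hΛ hα hA hQ
  have hker : ∀ x : (SemidirectProduct.rightHom : GrP Λ (fun _ => A) ⋊[α] Q →* Q).ker,
    x.1.right = 1 := fun x => x.2
  refine crit_loc hC (GrP Λ (fun _ => A) ⋊[α] Q)
    (SemidirectProduct.rightHom : GrP Λ (fun _ => A) ⋊[α] Q →* Q).ker ?_ ?_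
  · exact hC.base.of_injective _ Q
      (QuotientGroup.quotientKerEquivOfSurjective _
        (SemidirectProduct.rightHom_surjective)).toMonoidHom
      (QuotientGroup.quotientKerEquivOfSurjective _
        (SemidirectProduct.rightHom_surjective)).injective hQ
  · intro g E hE hEN
    choose supp hsupp using gsupp Λ (fun _ => A)
    obtain ⟨q, hq⟩ : ∃ q : Q, q = g.right := ⟨_, rfl⟩
    obtain ⟨S, hS⟩ : ∃ S : Finset V, S = hE.toFinset.biUnion fun x => supp x.left := ⟨_, rfl⟩
    have hSx : ∀ x ∈ E, x.left ∈ gsub Λ (fun _ => A) (S : Set V) := by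
      intro x hx
      refine gsub_mono ?_ (hsupp x.left)
      rw [hS]
      exact_mod_cast Finset.subset_biUnion_of_mem (fun x : GrP Λ (fun _ => A) ⋊[α] Q => supp x.left)
        (hE.mem_toFinset.2 hx)
    obtain ⟨T₀, hT₀⟩ : ∃ T₀ : Finset V, T₀ = S ∪ S.image (fun v => q • v) ∪ supp g.left := ⟨_, rfl⟩
    have hST : (S : Set V) ⊆ T₀ := by
      intro v hv
      rw [hT₀]
      simp only [Finset.coe_union, Set.mem_union]
      exact Or.inl (Or.inl hv)
    have hqST : ∀ v ∈ S, q • v ∈ T₀ := by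
      intro v hv
      rw [hT₀]
      simp only [Finset.mem_union, Finset.mem_image]
      exact Or.inl (Or.inr ⟨v, hv, rfl⟩)
    have hgT : g.left ∈ gsub Λ (fun _ => A) (T₀ : Set V) := by
      refine gsub_mono ?_ (hsupp g.left)
      rw [hT₀]
      intro v hv
      simp only [Finset.coe_union, Set.mem_union]
      exact Or.inr hv
    -- the partial isomorphism
    have hadjq : ∀ v w, Λ.Adj (q • v) (q • w) ↔ Λ.Adj v w := by
      intro v w
      constructor
      · intro h
        have := hΛ q⁻¹ _ _ h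
        rwa [inv_smul_smul, inv_smul_smul] at this
      · exact hΛ q v w
    obtain ⟨T, hT, Λ', ι, τ, hι, hιa, hτ, hτι⟩ := eppa {v // v ∈ T₀} inferInstance
      (Λ.comap Subtype.val) {x | x.1 ∈ S} (fun x => ⟨q • (x : {v // v ∈ T₀}).1, hqST _ x.2⟩) (by
        intro x y h
        have h1 : q • (x : {v // v ∈ T₀}).1 = q • (y : {v // v ∈ T₀}).1 := congrArg Subtype.val h
        exact Subtype.ext (Subtype.ext (MulAction.injective q h1))) (by
        intro x y
        exact hadjq _ _)
    obtain ⟨F, hF, -⟩ := gmap Λ' A Λ (T₀ : Set V) (fun x => ι ⟨x.1, by exact_mod_cast x.2⟩) (by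
      intro x y h
      exact (hιa _ _).2 h)
    obtain ⟨R, hR, -⟩ := gmap Λ A Λ' (Set.range ι) (fun x => (x.2.choose : {v // v ∈ T₀}).1) (by
      intro x y h
      have h1 := (hιa x.2.choose y.2.choose).1 (by
        rw [x.2.choose_spec, y.2.choose_spec]; exact h)
      exact h1)
    have hRF : ∀ x ∈ gsub Λ (fun _ => A) (T₀ : Set V), R (F x) = x := by
      have h1 := gsub_eq (Λ := Λ) (A := fun _ => A) (S := (T₀ : Set V)) (f := R.comp F)
        (g := MonoidHom.id _) (by
        intro v hv a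
        rw [MonoidHom.comp_apply, MonoidHom.id_apply]
        have h2 := hF ⟨v, hv⟩ a
        have h3 := hR ⟨ι ⟨v, by exact_mod_cast hv⟩, ⟨_, rfl⟩⟩ a
        have h4 : ((⟨ι ⟨v, by exact_mod_cast hv⟩, ⟨_, rfl⟩⟩ : Set.range ι).2.choose :
            {v // v ∈ T₀}) = ⟨v, by exact_mod_cast hv⟩ :=
          hι ((⟨ι ⟨v, by exact_mod_cast hv⟩, ⟨_, rfl⟩⟩ : Set.range ι).2.choose_spec)
        rw [h2]
        refine h3.trans ?_
        rw [h4])
      exact h1
    obtain ⟨σ₀, hσ₀⟩ := gaut Λ' A τ hτ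
    have hσpow : ∀ (j : ℕ) (v : T) (a : A), (σ₀ ^ j) (GrP.of Λ' (fun _ => A) v a) =
        GrP.of Λ' (fun _ => A) ((τ ^ j) v) a := by
      intro j
      induction j with
      | zero => intro v a; simp
      | succ j ih =>
        intro v a
        rw [pow_succ, MulAut.mul_apply, hσ₀, ih, pow_succ, Equiv.Perm.mul_apply]
    have hσk : σ₀ ^ orderOf τ = 1 := by
      have h1 : (σ₀ ^ orderOf τ).toMonoidHom = MonoidHom.id _ := by
        apply gext
        intro v a
        show (σ₀ ^ orderOf τ) (GrP.of Λ' (fun _ => A) v a) = GrP.of Λ' (fun _ => A) v a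
        rw [hσpow, pow_orderOf_eq_one, Equiv.Perm.one_apply]
      ext x
      exact DFunLike.congr_fun h1 x
    have hpow : ∀ j : ℕ, ∃ p : GrP Λ' (fun _ => A),
        (MulAut.conj (F g.left) * σ₀) ^ j = MulAut.conj p * σ₀ ^ j := by
      intro j
      induction j with
      | zero => exact ⟨1, by simp⟩
      | succ j ih =>
        obtain ⟨p, hp⟩ := ih
        refine ⟨p * (σ₀ ^ j) (F g.left), ?_⟩
        rw [pow_succ, hp, pow_succ]
        ext y
        simp [MulAut.mul_apply, MulAut.conj_apply, mul_assoc]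
    obtain ⟨p, hp⟩ := hpow (orderOf τ)
    rw [hσk, mul_one] at hp
    -- the equivariance
    have heq : ∀ x ∈ gsub Λ (fun _ => A) (S : Set V), F (α q x) = σ₀ (F x) := by
      have h1 := gsub_eq (Λ := Λ) (A := fun _ => A) (S := (S : Set V))
        (f := F.comp (α q).toMonoidHom) (g := σ₀.toMonoidHom.comp F) (by
        intro v hv a
        show F (α q (GrP.of Λ (fun _ => A) v a)) = σ₀ (F (GrP.of Λ (fun _ => A) v a))
        rw [hα q v a]
        have hv' : v ∈ S := by exact_mod_cast hv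
        have h2 := hF ⟨v, hST hv⟩ a
        have h3 := hF ⟨q • v, by exact_mod_cast hqST v hv'⟩ a
        have h4 := hτι ⟨⟨v, by exact_mod_cast hST hv⟩, hv'⟩
        rw [h2, hσ₀]
        refine h3.trans ?_
        rw [← h4])
      exact h1
    have hle : Subgroup.closure (E ∪ (fun x => g * x * g⁻¹) '' E) ≤
        (SemidirectProduct.rightHom : GrP Λ (fun _ => A) ⋊[α] Q →* Q).ker := by
      rw [Subgroup.closure_le]
      rintro x (hx | ⟨y, hy, rfl⟩)
      · exact hEN hx
      · exact Subgroup.Normal.conj_mem inferInstance y (hEN hy) g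
    have hr : ∀ x : ↥(Subgroup.closure (E ∪ (fun x => g * x * g⁻¹) '' E)),
        (x : GrP Λ (fun _ => A) ⋊[α] Q).right = 1 := fun x => hle x.2
    have hrE : ∀ x ∈ E, x.right = 1 := fun x hx => hEN hx
    have hconj : ∀ x ∈ E, (g * x * g⁻¹).left = g.left * α q x.left * g.left⁻¹ := by
      intro x hx
      have h4 := hrE x hx
      simp only [SemidirectProduct.mul_left, SemidirectProduct.mul_right,
        SemidirectProduct.inv_left, h4, mul_one, ← hq]
      have h5 : (α q) ((α q⁻¹) g.left⁻¹) = g.left⁻¹ := by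
        rw [← MulAut.mul_apply, ← map_mul, mul_inv_cancel, map_one]
        rfl
      rw [h5]
    have hαT : ∀ x ∈ E, α q x.left ∈ gsub Λ (fun _ => A) (T₀ : Set V) := by
      intro x hx
      have h1 : (gsub Λ (fun _ => A) (S : Set V)).map (α q).toMonoidHom ≤
          gsub Λ (fun _ => A) (T₀ : Set V) := by
        rw [gsub, MonoidHom.map_closure, Subgroup.closure_le]
        rintro _ ⟨_, ⟨v, hv, a, rfl⟩, rfl⟩
        show α q (GrP.of Λ (fun _ => A) v a) ∈ gsub Λ (fun _ => A) (T₀ : Set V)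
        rw [hα q v a]
        exact gsub_of (A := fun _ => A) (by exact_mod_cast hqST v (by exact_mod_cast hv)) a
      exact h1 ⟨_, hSx x hx, rfl⟩
    -- the left parts
    have hlT : ∀ x ∈ Subgroup.closure (E ∪ (fun x => g * x * g⁻¹) '' E),
        x.left ∈ gsub Λ (fun _ => A) (T₀ : Set V) := by
      intro x hx
      induction hx using Subgroup.closure_induction with
      | mem x hx =>
        rcases hx with hx | ⟨y, hy, rfl⟩
        · exact gsub_mono hST (hSx x hx)
        · show (g * y * g⁻¹).left ∈ _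
          rw [hconj y hy]
          exact Subgroup.mul_mem _ (Subgroup.mul_mem _ hgT (hαT y hy)) (Subgroup.inv_mem _ hgT)
      | one => exact Subgroup.one_mem _
      | mul x y hx hy ihx ihy =>
        have h1 : x.right = 1 := hle hx
        rw [SemidirectProduct.mul_left, h1, map_one]
        exact Subgroup.mul_mem _ ihx ihy
      | inv x hx ih =>
        have h1 : x.right = 1 := hle hx
        rw [SemidirectProduct.inv_left, h1, inv_one, map_one]
        exact Subgroup.inv_mem _ ih
    refine ⟨GrP Λ' (fun _ => A), inferInstance,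
      F.comp (MonoidHom.mk' (fun x => (x : GrP Λ (fun _ => A) ⋊[α] Q).left) ?_),
      MulAut.conj (F g.left) * σ₀, orderOf τ, p, gp C hC T Λ' _ (fun _ => hA), ?_,
      orderOf_pos τ, hp, ?_⟩
    · intro x y
      show ((x : GrP Λ (fun _ => A) ⋊[α] Q) * (y : GrP Λ (fun _ => A) ⋊[α] Q)).left = _
      rw [SemidirectProduct.mul_left, hr x, map_one]
      rfl
    · intro x y hxy
      have h1 : F (x : GrP Λ (fun _ => A) ⋊[α] Q).left = F (y : GrP Λ (fun _ => A) ⋊[α] Q).left :=
        hxy
      have h2 := congrArg R h1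
      rw [hRF _ (hlT _ x.2), hRF _ (hlT _ y.2)] at h2
      apply Subtype.ext
      apply SemidirectProduct.ext
      · exact h2
      · rw [hr, hr]
    · intro x y hx hy
      show F (y : GrP Λ (fun _ => A) ⋊[α] Q).left =
        (MulAut.conj (F g.left) * σ₀) (F (x : GrP Λ (fun _ => A) ⋊[α] Q).left)
      rw [hy, hconj _ hx, map_mul, map_mul, map_inv, heq _ (hSx _ hx), MulAut.mul_apply,
        MulAut.conj_apply]

end Q30.FJ
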