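import Pool.Agent.Y417.FJ.Am

/-!
# HNN extensions with a homomorphism to a group in `C` which is injective on the base

The HNN extension with base `M` and stable letter `t` embeds in `F(X) ⋊ P`, where `X = P / f B`:
an element `m` of the base is mapped to `f m` and `t` to `x₁ (f t)`.
-/

set_option autoImplicit false

namespace Q30.FJ

open Pool.Agent.Y110.FJ Pool.Agent.Y417.FJ

section hnn

variable {M P : Type} [Group M] [Group P] {A B : Subgroup M} {φ : A ≃* B}

/-- the first letter -/
noncomputable def cl (X : Type) [MulAction P X] (x1 : X) (q : P) (u : ℤˣ) : X × Bool :=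
  if u = 1 then (x1, true) else (q⁻¹ • x1, false)

/-- the word of a list -/
noncomputable def wd (X : Type) [MulAction P X] (x1 : X) (h : M → P) (q : P) :
    List (ℤˣ × M) → List (X × Bool)
  | [] => []
  | a :: L => cl X x1 q a.1 :: (wd X x1 h q L).map fun y => ((q ^ (a.1 : ℤ) * h a.2) • y.1, y.2)

theorem wd_reduced (X : Type) [MulAction P X] (x1 : X) (h : M →* P) (q : P)
    (hx1 : ∀ p : P, p • x1 = x1 ↔ p ∈ B.map h) (hh : Function.Injective h)
    (hq : ∀ a : A, q * h a = h (φ a : M) * q) :
    ∀ L : List (ℤˣ × M),
      L.IsChain (fun a b => a.2 ∈ HNNExtension.toSubgroup A B a.1 → a.1 = b.1) →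
      FreeGroup.IsReduced (wd X x1 h q L) := by
  intro L
  induction L with
  | nil => intro _; exact FreeGroup.IsReduced.nil
  | cons a L ih =>
    intro hc
    have ih' := ih (List.isChain_cons.1 hc).2
    have hmap := reduced_map (q ^ (a.1 : ℤ) * h a.2) _ ih'
    cases L with
    | nil =>
      show FreeGroup.IsReduced [cl X x1 q a.1]
      exact FreeGroup.IsReduced.singleton
    | cons b L =>
      show FreeGroup.IsReduced (cl X x1 q a.1 ::
        ((q ^ (a.1 : ℤ) * h a.2) • (cl X x1 q b.1).1, (cl X x1 q b.1).2) :: _)
      rw [FreeGroup.isReduced_cons_cons]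
      refine ⟨?_, hmap⟩
      have hab : a.2 ∈ HNNExtension.toSubgroup A B a.1 → a.1 = b.1 :=
        (List.isChain_cons_cons.1 hc).1
      intro he
      rcases Int.units_eq_one_or a.1 with ha | ha <;> rcases Int.units_eq_one_or b.1 with hb | hb
      · simp [cl, ha, hb]
      · exfalso
        rw [ha, hb] at he hab
        have he' : x1 = (q ^ ((1 : ℤˣ) : ℤ) * h a.2) • q⁻¹ • x1 := by
          simpa [cl] using he
        rw [smul_smul, Units.val_one, zpow_one] at he'
        obtain ⟨c, hc1, hc2⟩ := (hx1 _).1 he'.symm
        have h1 := hq (φ.symm ⟨c, hc1⟩)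
        rw [MulEquiv.apply_symm_apply] at h1
        have h2 : h c * q = q * h a.2 := by
          have h3 : h c = q * h a.2 * q⁻¹ := hc2
          rw [h3]; group
        have h4 : h (φ.symm ⟨c, hc1⟩ : A) = h a.2 := by
          have h5 : q * h (φ.symm ⟨c, hc1⟩ : A) = q * h a.2 := by
            rw [h1]; exact h2
          exact mul_left_cancel h5
        have h6 : a.2 ∈ A := by
          rw [← hh h4]; exact (φ.symm ⟨c, hc1⟩).2
        exact absurd (hab h6) (by decide)
      · exfalso
        rw [ha, hb] at he hab
        have he' : q⁻¹ • x1 = (q ^ ((-1 : ℤˣ) : ℤ) * h a.2) • x1 := by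
          simpa [cl] using he
        rw [Units.val_neg, Units.val_one, zpow_neg, zpow_one, mul_smul] at he'
        have he'' : h a.2 • x1 = x1 := (MulAction.injective q⁻¹ he').symm
        obtain ⟨c, hc1, hc2⟩ := (hx1 _).1 he''
        have h6 : a.2 ∈ B := by
          rw [← hh hc2]; exact hc1
        exact absurd (hab h6) (by decide)
      · simp [cl, ha, hb]

end hnn

theorem t_hnn (hperm : S_PERM) : S_HNN := by
  intro C hC M P _ _ A B φ f hf hCP
  let h : M →* P := f.comp HNNExtension.of
  let q : P := f HNNExtension.t
  let X : Type := P ⧸ B.map h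
  let x1 : X := ((1 : P) : P ⧸ B.map h)
  have hx1 : ∀ p : P, p • x1 = x1 ↔ p ∈ B.map h := by
    intro p
    show ((p * 1 : P) : P ⧸ B.map h) = ((1 : P) : P ⧸ B.map h) ↔ _
    rw [mul_one, eq_comm, QuotientGroup.eq]
    simp
  have hq : ∀ a : A, q * h a = h (φ a : M) * q := by
    intro a
    show f HNNExtension.t * f (HNNExtension.of (a : M)) = f (HNNExtension.of (φ a : M)) * f HNNExtension.t
    rw [← map_mul, ← map_mul, HNNExtension.t_mul_of]
  have hpx : ∀ p : P, permAut X P p (FreeGroup.of x1) = FreeGroup.of (p • x1) := by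
    intro p
    exact permAut_mk p [((x1, true) : X × Bool)]
  let z : FreeGroup X ⋊[permAut X P] P :=
    SemidirectProduct.inl (FreeGroup.of x1) * SemidirectProduct.inr q
  let Θ : HNNExtension M A B φ →* FreeGroup X ⋊[permAut X P] P :=
    HNNExtension.lift (SemidirectProduct.inr.comp h) z (by
      intro a
      apply SemidirectProduct.ext
      · have h1 : φ a ∈ (⊤ : Subgroup B) := trivial
        have h2 : h (φ a : M) • x1 = x1 := (hx1 _).2 ⟨_, (φ a).2, rfl⟩
        simp only [z, SemidirectProduct.mul_left, SemidirectProduct.mul_right, MonoidHom.comp_apply,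
          SemidirectProduct.left_inl, SemidirectProduct.left_inr, SemidirectProduct.right_inl,
          SemidirectProduct.right_inr, map_one, mul_one, one_mul]
        rw [hpx, h2]
      · simp only [z, SemidirectProduct.mul_right, MonoidHom.comp_apply,
          SemidirectProduct.right_inl, SemidirectProduct.right_inr, one_mul]
        exact hq a)
  have hΘof : ∀ m, Θ (HNNExtension.of m) = SemidirectProduct.inr (h m) := by
    intro m
    exact HNNExtension.lift_of _ _ _ m
  have hΘt : Θ HNNExtension.t = z := HNNExtension.lift_t _ _ _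
  have hright : ∀ g : HNNExtension M A B φ, (Θ g).right = f g := by
    intro g
    have h1 : (SemidirectProduct.rightHom.comp Θ) = f := by
      apply HNNExtension.hom_ext
      · ext m
        show SemidirectProduct.rightHom (Θ (HNNExtension.of m)) = f (HNNExtension.of m)
        rw [hΘof]; rfl
      · show SemidirectProduct.rightHom (Θ HNNExtension.t) = f HNNExtension.t
        rw [hΘt]
        simp [z, q]
    exact DFunLike.congr_fun h1 g
  have hleft : ∀ g k : HNNExtension M A B φ,
      (Θ (g * k)).left = (Θ g).left * permAut X P (f g) (Θ k).left := by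
    intro g k
    rw [map_mul, SemidirectProduct.mul_left, hright]
  have hlof : ∀ m, (Θ (HNNExtension.of m)).left = 1 := by
    intro m; rw [hΘof]; rfl
  have hlt : ∀ u : ℤˣ, (Θ (HNNExtension.t ^ (u : ℤ))).left = FreeGroup.mk [cl X x1 q u] := by
    intro u
    rcases Int.units_eq_one_or u with rfl | rfl
    · rw [Units.val_one, zpow_one, hΘt]
      simp [z, cl, SemidirectProduct.mul_left, FreeGroup.of]
    · rw [Units.val_neg, Units.val_one, zpow_neg, zpow_one, map_inv, hΘt]
      have h1 : (z⁻¹).left = permAut X P q⁻¹ (FreeGroup.of x1)⁻¹ := by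
        simp [z, SemidirectProduct.mul_left]
      rw [h1, FreeGroup.of, FreeGroup.inv_mk]
      have := permAut_mk q⁻¹ [((x1, false) : X × Bool)]
      exact this
  have hlist : ∀ L : List (ℤˣ × M),
      (Θ (L.map fun x => HNNExtension.t ^ (x.1 : ℤ) * HNNExtension.of x.2).prod).left =
        FreeGroup.mk (wd X x1 h q L) := by
    intro L
    induction L with
    | nil => simp [wd, FreeGroup.one_eq_mk]
    | cons a L ih =>
      rw [List.map_cons, List.prod_cons, hleft, ih, hleft, hlof, map_one, mul_one, hlt, permAut_mk,
        FreeGroup.mul_mk]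
      have hfa : f (HNNExtension.t ^ (a.1 : ℤ) * HNNExtension.of a.2) = q ^ (a.1 : ℤ) * h a.2 := by
        rw [map_mul, map_zpow]; rfl
      rw [hfa]
      rfl
  have hinj : Function.Injective Θ := by
    rw [injective_iff_map_eq_one]
    intro g hg
    obtain ⟨d⟩ := HNNExtension.NormalWord.TransversalPair.nonempty M A B
    have hgw : ((g • (HNNExtension.NormalWord.empty : HNNExtension.NormalWord d)).prod φ) = g := by
      rw [HNNExtension.NormalWord.prod_smul, HNNExtension.NormalWord.prod_empty, mul_one]
    obtain ⟨w, hw⟩ : ∃ w : HNNExtension.NormalWord d,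
      w = g • (HNNExtension.NormalWord.empty : HNNExtension.NormalWord d) := ⟨_, rfl⟩
    rw [← hw] at hgw
    have h1 : g = HNNExtension.of w.head *
      (w.toList.map fun x => HNNExtension.t ^ (x.1 : ℤ) * HNNExtension.of x.2).prod := hgw.symm
    have h2 : (Θ g).left = permAut X P (h w.head) (FreeGroup.mk (wd X x1 h q w.toList)) := by
      rw [h1, hleft, hlof, one_mul, hlist]; rfl
    have hred := wd_reduced X x1 h q hx1 hf hq w.toList w.chain
    rw [hg, permAut_mk] at h2
    have hred' := reduced_map (h w.head) _ hred
    classical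
    have h3 : (1 : FreeGroup X).toWord =
        (wd X x1 h q w.toList).map (fun y => (h w.head • y.1, y.2)) := by
      have h4 : (FreeGroup.mk ((wd X x1 h q w.toList).map fun y => (h w.head • y.1, y.2))).toWord
          = ((wd X x1 h q w.toList).map fun y => (h w.head • y.1, y.2)) := by
        rw [FreeGroup.toWord_mk]
        exact hred'.reduce_eq
      rw [← h4]
      exact congrArg _ h2
    rw [FreeGroup.toWord_one] at h3
    have h5 : wd X x1 h q w.toList = [] := List.map_eq_nil_iff.1 h3.symm
    have h6 : w.toList = [] := by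
      rcases hL : w.toList with _ | ⟨a, L⟩
      · rfl
      · rw [hL] at h5
        exact absurd h5 (by simp [wd])
    rw [h6] at h1
    have h7 : g = HNNExtension.of w.head := by simpa using h1
    have h8 := hright g
    rw [hg, h7] at h8
    have h9 : h w.head = h 1 := by
      rw [map_one]; exact h8.symm
    rw [h7, hf h9, map_one]
  exact hC.base.of_injective _ _ Θ hinj (hperm C hC X P hCP)

end Q30.FJ
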