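import Pool.Agent.Q30.FJ.PP

/-!
# Linear groups of degree two over polynomial rings
-/

set_option autoImplicit false

namespace Q30.FJ

open Pool.Agent.Y110.FJ
open Pool.Agent.Y462.SS (Closed Wr)

variable {C : ∀ (G : Type) [Group G], Prop}

section evc

variable (M H : Type) [Group H]

/-- the functions which are constant outside a finite set; the constant is the value at `none` -/
def EvC : Subgroup (Option M → H) where
  carrier := {f | {m : M | f (some m) ≠ f none}.Finite}
  one_mem' := by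
    rw [Set.mem_ofPred_eq]
    simp
  mul_mem' {f g} hf hg := by
    rw [Set.mem_ofPred_eq] at hf hg ⊢
    refine (hf.union hg).subset ?_
    intro i hi
    by_contra hc
    rw [Set.mem_union, not_or] at hc
    obtain ⟨h1, h2⟩ := hc
    rw [Set.mem_ofPred_eq, not_not] at h1 h2
    apply hi
    rw [Pi.mul_apply, Pi.mul_apply, h1, h2]
  inv_mem' {f} hf := by
    rw [Set.mem_ofPred_eq] at hf ⊢
    refine hf.subset ?_
    intro i hi h1
    apply hi
    rw [Pi.inv_apply, Pi.inv_apply, h1]

variable {M H}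

theorem EvC_mem (hC : Closed C) (hH : C H) : C (EvC M H) := by
  classical
  obtain ⟨K, hK⟩ : ∃ K : Finset M → Subgroup (EvC M H), ∀ s f, f ∈ K s ↔
      ∀ m, m ∉ s → f.1 (some m) = f.1 none := by
    refine ⟨fun s =>
      { carrier := {f | ∀ m, m ∉ s → f.1 (some m) = f.1 none}
        one_mem' := fun m _ => rfl
        mul_mem' := fun {f g} hf hg m hm => by
          show f.1 (some m) * g.1 (some m) = f.1 none * g.1 none
          rw [hf m hm, hg m hm]
        inv_mem' := fun {f} hf m hm => by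
          show (f.1 (some m))⁻¹ = (f.1 none)⁻¹
          rw [hf m hm] }, fun s f => Iff.rfl⟩
  refine Pool.Agent.Y430.SS.of_directed hC (EvC M H) (Finset M) (fun i j => ?_) K ?_ ?_ ?_
  · exact ⟨i ∪ j, Finset.subset_union_left, Finset.subset_union_right⟩
  · intro s t hst f hf
    rw [hK] at hf ⊢
    exact fun m hm => hf m (fun h => hm (hst h))
  · rintro ⟨f, hf⟩
    have hf' : {m : M | f (some m) ≠ f none}.Finite := hf
    refine ⟨hf'.toFinset, (hK _ _).2 fun m hm => ?_⟩
    by_contra h
    exact hm ((Set.Finite.mem_toFinset hf').2 h)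
  · intro s
    refine hC.of_injective _ (fin_sup (fun _ : Option M => H) (insert none (s.image some)))
      (MonoidHom.mk' (fun f => ⟨fun i => if i ∈ insert none (s.image some) then f.1.1 i else 1,
        fun i hi => if_neg hi⟩) ?_) ?_ (fin_sup_mem hC (fun _ => hH) _)
    · intro f g
      apply Subtype.ext
      funext i
      show (if i ∈ insert none (s.image some) then f.1.1 i * g.1.1 i else 1) =
        (if i ∈ insert none (s.image some) then f.1.1 i else 1) *
        (if i ∈ insert none (s.image some) then g.1.1 i else 1)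
      split_ifs
      · rfl
      · rw [one_mul]
    · intro f g hfg
      have h1 : ∀ i, i ∈ insert none (s.image some) → f.1.1 i = g.1.1 i := by
        intro i hi
        have h2 := congrFun (congrArg Subtype.val hfg) i
        have h3 : (if i ∈ insert none (s.image some) then f.1.1 i else 1) =
          (if i ∈ insert none (s.image some) then g.1.1 i else 1) := h2
        rwa [if_pos hi, if_pos hi] at h3
      have h0 := h1 none (Finset.mem_insert_self _ _)
      apply Subtype.ext
      apply Subtype.ext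
      funext i
      cases i with
      | none => exact h0
      | some m =>
        by_cases hm : m ∈ s
        · exact h1 _ (Finset.mem_insert_of_mem (Finset.mem_image_of_mem _ hm))
        · rw [(hK s f.1).1 f.2 m hm, (hK s g.1).1 g.2 m hm, h0]

end evc

section gl2

variable {R : Type} [Ring R]

/-- elementary matrices -/
def el (r : R) : GL (Fin 2) R where
  val := !![1, r; 0, 1]
  inv := !![1, -r; 0, 1]
  val_inv := by
    rw [Matrix.mul_fin_two]
    ext i j
    fin_cases i <;> fin_cases j <;> simp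
  inv_val := by
    rw [Matrix.mul_fin_two]
    ext i j
    fin_cases i <;> fin_cases j <;> simp

theorem el_val (r : R) : ((el r : GL (Fin 2) R) : Matrix (Fin 2) (Fin 2) R) = !![1, r; 0, 1] := rfl

theorem el_add (r s : R) : el (r + s) = el r * el s := by
  apply Units.ext
  rw [Units.val_mul, el_val, el_val, el_val, Matrix.mul_fin_two]
  ext i j
  fin_cases i <;> fin_cases j <;> simp [add_comm]

theorem el_zero : el (0 : R) = 1 := by
  apply Units.ext
  rw [el_val, Units.val_one, Matrix.one_fin_two]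

theorem el_neg (r : R) : el (-r) = (el r)⁻¹ := by
  rw [eq_inv_iff_mul_eq_one, ← el_add, neg_add_cancel, el_zero]

theorem el_inj {r s : R} (h : el r = el s) : r = s := by
  have h1 := congrArg (fun g : GL (Fin 2) R => (g : Matrix (Fin 2) (Fin 2) R) 0 1) h
  simpa [el_val] using h1

/-- the upper triangular matrices -/
def upper (R : Type) [Ring R] [NoZeroDivisors R] : Subgroup (GL (Fin 2) R) where
  carrier := {g | (g : Matrix (Fin 2) (Fin 2) R) 1 0 = 0}
  one_mem' := by
    rw [Set.mem_ofPred_eq]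
    simp
  mul_mem' {g h} hg hh := by
    rw [Set.mem_ofPred_eq] at hg hh ⊢
    rw [Units.val_mul, Matrix.mul_apply, Fin.sum_univ_two, hg, hh, zero_mul, mul_zero, add_zero]
  inv_mem' {g} hg := by
    rw [Set.mem_ofPred_eq] at hg ⊢
    have h1 : (g : Matrix (Fin 2) (Fin 2) R) * (↑g⁻¹ : Matrix (Fin 2) (Fin 2) R) = 1 :=
      Units.mul_inv g
    have h2 := congrFun (congrFun h1 1) 0
    have h3 := congrFun (congrFun h1 1) 1
    rw [Matrix.mul_apply, Fin.sum_univ_two, hg] at h2 h3
    simp only [zero_mul, zero_add, Matrix.one_apply_eq, ne_eq, one_ne_zero, not_false_eq_true,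
      Matrix.one_apply_ne] at h2 h3
    rcases mul_eq_zero.1 h2 with h4 | h4
    · rw [h4, zero_mul] at h3
      rw [← one_mul ((↑g⁻¹ : Matrix (Fin 2) (Fin 2) R) 1 0), ← h3, zero_mul]
    · exact h4

/-- column vectors -/
def V2 (R : Type) : Type := R × R

/-- the action on vectors -/
instance vecAct : MulAction (GL (Fin 2) R) (V2 R) where
  smul g z := ((g : Matrix (Fin 2) (Fin 2) R) 0 0 * z.1 + (g : Matrix (Fin 2) (Fin 2) R) 0 1 * z.2,
    (g : Matrix (Fin 2) (Fin 2) R) 1 0 * z.1 + (g : Matrix (Fin 2) (Fin 2) R) 1 1 * z.2)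
  one_smul z := by
    show (((1 : GL (Fin 2) R) : Matrix (Fin 2) (Fin 2) R) 0 0 * z.1 + _, _) = (z.1, z.2)
    simp
  mul_smul g h z := by
    show (((g * h : GL (Fin 2) R) : Matrix (Fin 2) (Fin 2) R) 0 0 * z.1 +
        ((g * h : GL (Fin 2) R) : Matrix (Fin 2) (Fin 2) R) 0 1 * z.2,
      ((g * h : GL (Fin 2) R) : Matrix (Fin 2) (Fin 2) R) 1 0 * z.1 +
        ((g * h : GL (Fin 2) R) : Matrix (Fin 2) (Fin 2) R) 1 1 * z.2) = _
    rw [Units.val_mul]
    simp only [Matrix.mul_apply, Fin.sum_univ_two]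
    have key : ∀ a b c d e f x y : R, (a * c + b * d) * x + (a * e + b * f) * y =
        a * (c * x + e * y) + b * (d * x + f * y) := by
      intro a b c d e f x y
      rw [add_mul, add_mul, mul_add, mul_add, mul_assoc, mul_assoc, mul_assoc, mul_assoc]
      exact add_add_add_comm _ _ _ _
    exact Prod.ext (key _ _ _ _ _ _ _ _) (key _ _ _ _ _ _ _ _)

theorem vec_smul (g : GL (Fin 2) R) (z : V2 R) : g • z =
    ((g : Matrix (Fin 2) (Fin 2) R) 0 0 * z.1 + (g : Matrix (Fin 2) (Fin 2) R) 0 1 * z.2,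
    (g : Matrix (Fin 2) (Fin 2) R) 1 0 * z.1 + (g : Matrix (Fin 2) (Fin 2) R) 1 1 * z.2) := rfl

variable [NoZeroDivisors R]

theorem upper_inv {b : GL (Fin 2) R} (hb : b ∈ upper R) :
    (↑b⁻¹ : Matrix (Fin 2) (Fin 2) R) 1 1 * (b : Matrix (Fin 2) (Fin 2) R) 1 1 = 1 := by
  have h1 : (↑b⁻¹ : Matrix (Fin 2) (Fin 2) R) * (b : Matrix (Fin 2) (Fin 2) R) = 1 :=
    Units.inv_mul b
  have h3 := congrFun (congrFun h1 1) 1
  have h4 : (↑b⁻¹ : Matrix (Fin 2) (Fin 2) R) 1 0 = 0 := (upper R).inv_mem hb
  rw [Matrix.mul_apply, Fin.sum_univ_two, h4] at h3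
  simpa using h3

theorem upper_el {b : GL (Fin 2) R} (hb : b ∈ upper R) (r : R) :
    b * el r * b⁻¹ = el ((b : Matrix (Fin 2) (Fin 2) R) 0 0 * r *
      (↑b⁻¹ : Matrix (Fin 2) (Fin 2) R) 1 1) := by
  rw [mul_inv_eq_iff_eq_mul]
  have hb' : (b : Matrix (Fin 2) (Fin 2) R) 1 0 = 0 := hb
  have h1 := upper_inv hb
  obtain ⟨d, hd⟩ : ∃ d, d = (↑b⁻¹ : Matrix (Fin 2) (Fin 2) R) 1 1 := ⟨_, rfl⟩
  rw [← hd] at h1 ⊢
  apply Units.ext
  rw [Units.val_mul, Units.val_mul, el_val, el_val]
  ext i j
  rw [Matrix.mul_apply, Fin.sum_univ_two, Matrix.mul_apply, Fin.sum_univ_two]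
  fin_cases i <;> fin_cases j
  · simp [hb']
  · simp only [Fin.zero_eta, Fin.mk_one, Matrix.of_apply, Matrix.cons_val', Matrix.cons_val_zero,
      Matrix.cons_val_one, Matrix.cons_val_fin_one, one_mul, mul_one]
    rw [mul_assoc (_ * r), h1, mul_one, add_comm]
  · simp [hb']
  · simp [hb']

end gl2

end Q30.FJ
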