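import Pool.Agent.Q30.FJ.Lin2P

/-!
# Monoid algebras and polynomial rings have degree functions
-/

set_option autoImplicit false

namespace Q30.FJ

open Pool.Agent.Y110.FJ
open Pool.Agent.Y462.SS (Closed Wr)

section monalg

variable {A M : Type} [Ring A] [Monoid M] (l : M →* Multiplicative ℕ)

/-- the length of a monomial -/
def mlen (m : M) : ℕ := (l m).toAdd

theorem mlen_mul (m n : M) : mlen l (m * n) = mlen l m + mlen l n := by
  unfold mlen
  rw [map_mul]
  rfl

theorem mlen_one : mlen l 1 = 0 := by
  unfold mlen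
  rw [map_one]
  rfl

/-- the degree -/
def mdeg (r : MonoidAlgebra A M) : ℕ := r.coeff.support.sup (mlen l)

variable {l}

theorem le_mdeg {r : MonoidAlgebra A M} {m : M} (h : r.coeff m ≠ 0) : mlen l m ≤ mdeg l r :=
  Finset.le_sup (f := mlen l) (Finsupp.mem_support_iff.2 h)

theorem mdeg_le {r : MonoidAlgebra A M} {n : ℕ} (h : ∀ m, r.coeff m ≠ 0 → mlen l m ≤ n) :
    mdeg l r ≤ n := Finset.sup_le fun m hm => h m (Finsupp.mem_support_iff.1 hm)

theorem mdeg_spec {r : MonoidAlgebra A M} (h : r ≠ 0) : ∃ m, r.coeff m ≠ 0 ∧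
    mlen l m = mdeg l r := by
  have h1 : r.coeff.support.Nonempty := by
    rw [Finsupp.support_nonempty_iff]
    intro h0
    exact h (MonoidAlgebra.coeff_eq_zero.1 h0)
  obtain ⟨m, hm, h2⟩ := Finset.exists_mem_eq_sup _ h1 (mlen l)
  exact ⟨m, Finsupp.mem_support_iff.1 hm, h2.symm⟩

theorem coeff_mul_ne {r s : MonoidAlgebra A M} {p : M} (h : (r * s).coeff p ≠ 0) :
    ∃ m n, r.coeff m ≠ 0 ∧ s.coeff n ≠ 0 ∧ p = m * n := by
  classical
  have h1 := MonoidAlgebra.support_coeff_mul_subset _ _ (Finsupp.mem_support_iff.2 h)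
  obtain ⟨m, hm, n, hn, hmn⟩ := Finset.mem_mul.1 h1
  exact ⟨m, n, Finsupp.mem_support_iff.1 hm, Finsupp.mem_support_iff.1 hn, hmn.symm⟩

theorem mdeg_mul_le (r s : MonoidAlgebra A M) : mdeg l (r * s) ≤ mdeg l r + mdeg l s := by
  apply mdeg_le
  intro p hp
  obtain ⟨m, n, hm, hn, rfl⟩ := coeff_mul_ne hp
  rw [mlen_mul]
  exact Nat.add_le_add (le_mdeg hm) (le_mdeg hn)

variable (l) in
/-- the top component -/
noncomputable def mtop (r : MonoidAlgebra A M) : MonoidAlgebra A M :=
  by classical exact MonoidAlgebra.ofCoeff (r.coeff.filter fun m => mlen l m = mdeg l r)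

theorem mtop_coeff_of {r : MonoidAlgebra A M} {m : M} (h : mlen l m = mdeg l r) :
    (mtop l r).coeff m = r.coeff m := by
  classical
  exact Finsupp.filter_apply_pos _ _ h

theorem mtop_coeff_ne {r : MonoidAlgebra A M} {m : M} (h : (mtop l r).coeff m ≠ 0) :
    mlen l m = mdeg l r := by
  classical
  by_contra hc
  exact h (Finsupp.filter_apply_neg _ _ hc)

theorem mtop_ne {r : MonoidAlgebra A M} (h : r ≠ 0) : mtop l r ≠ 0 := by
  obtain ⟨m, hm, h2⟩ := mdeg_spec (l := l) h
  intro h0
  rw [← mtop_coeff_of h2, h0] at hm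
  exact hm rfl

theorem rest_lt {r : MonoidAlgebra A M} {m : M} (h : (r - mtop l r).coeff m ≠ 0) :
    mlen l m < mdeg l r := by
  have h1 : (r - mtop l r).coeff m = r.coeff m - (mtop l r).coeff m := rfl
  rw [h1] at h
  by_cases hm : mlen l m = mdeg l r
  · rw [mtop_coeff_of hm, sub_self] at h
    exact absurd rfl h
  · have h2 : (mtop l r).coeff m = 0 := by
      by_contra h3
      exact hm (mtop_coeff_ne h3)
    rw [h2, sub_zero] at h
    exact lt_of_le_of_ne (le_mdeg h) hm

theorem mdeg_mul [NoZeroDivisors (MonoidAlgebra A M)] {r s : MonoidAlgebra A M} (hr : r ≠ 0)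
    (hs : s ≠ 0) : mdeg l (r * s) = mdeg l r + mdeg l s := by
  apply le_antisymm (mdeg_mul_le r s)
  have h1 : mtop l r * mtop l s ≠ 0 := mul_ne_zero (mtop_ne hr) (mtop_ne hs)
  obtain ⟨p, hp, -⟩ := mdeg_spec (l := l) h1
  have hlen : mlen l p = mdeg l r + mdeg l s := by
    obtain ⟨m, n, hm, hn, rfl⟩ := coeff_mul_ne hp
    rw [mlen_mul, mtop_coeff_ne hm, mtop_coeff_ne hn]
  have h2 : r * s = mtop l r * mtop l s + (mtop l r * (s - mtop l s) + (r - mtop l r) * s) := by
    rw [mul_sub, sub_mul]
    abel
  have h3 : (mtop l r * (s - mtop l s)).coeff p = 0 := by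
    by_contra h4
    obtain ⟨m, n, hm, hn, rfl⟩ := coeff_mul_ne h4
    rw [mlen_mul, mtop_coeff_ne hm] at hlen
    have := rest_lt hn
    omega
  have h5 : ((r - mtop l r) * s).coeff p = 0 := by
    by_contra h4
    obtain ⟨m, n, hm, hn, rfl⟩ := coeff_mul_ne h4
    rw [mlen_mul] at hlen
    have := rest_lt hm
    have := le_mdeg (l := l) hn
    omega
  have h6 : (r * s).coeff p = (mtop l r * mtop l s).coeff p := by
    have h7 := congrArg (fun x : MonoidAlgebra A M => x.coeff p) h2
    have h8 : (r * s).coeff p = (mtop l r * mtop l s).coeff p +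
      ((mtop l r * (s - mtop l s)).coeff p + ((r - mtop l r) * s).coeff p) := h7
    rw [h8, h3, h5, add_zero, add_zero]
  rw [← hlen]
  apply le_mdeg
  rw [h6]
  exact hp

/-- monoid algebras -/
noncomputable def monDR [NoZeroDivisors (MonoidAlgebra A M)] (hl : ∀ m, l m = 1 → m = 1) :
    DR (MonoidAlgebra.singleOneRingHom : A →+* MonoidAlgebra A M) M where
  co := { toFun := fun r => r.coeff
          map_zero' := rfl
          map_add' := fun _ _ => rfl }
  co_mul a r d m := by
    show (MonoidAlgebra.single 1 a * r * MonoidAlgebra.single 1 d).coeff m = a * r.coeff m * d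
    rw [MonoidAlgebra.coeff_mul_single_one, MonoidAlgebra.coeff_single_one_mul]
  co_inj := fun _ _ h => MonoidAlgebra.coeff_injective h
  m0 := 1
  co_c a := by
    show (MonoidAlgebra.single 1 a : MonoidAlgebra A M).coeff 1 = a
    rw [MonoidAlgebra.coeff_single]
    exact Finsupp.single_eq_same
  deg := mdeg l
  deg_c a := by
    apply Nat.le_zero.1
    apply mdeg_le
    intro m hm
    have h1 : m = 1 := by
      by_contra hne
      apply hm
      show (MonoidAlgebra.single 1 a : MonoidAlgebra A M).coeff m = 0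
      rw [MonoidAlgebra.coeff_single]
      exact Finsupp.single_eq_of_ne hne
    rw [h1, mlen_one]
  deg_add r s h := by
    apply le_antisymm
    · apply mdeg_le
      intro m hm
      have h1 : (r + s).coeff m = r.coeff m + s.coeff m := rfl
      rw [h1] at hm
      by_cases h2 : r.coeff m = 0
      · rw [h2, zero_add] at hm
        exact (le_mdeg hm).trans h.le
      · exact le_mdeg h2
    · have hr : r ≠ 0 := by
        rintro rfl
        have h0 : mdeg l (0 : MonoidAlgebra A M) = 0 := by
          apply Nat.le_zero.1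
          apply mdeg_le
          intro m hm
          exact absurd rfl hm
        rw [h0] at h
        exact Nat.not_lt_zero _ h
      obtain ⟨m, hm, h2⟩ := mdeg_spec (l := l) hr
      rw [← h2]
      apply le_mdeg
      have h1 : (r + s).coeff m = r.coeff m + s.coeff m := rfl
      rw [h1]
      have h3 : s.coeff m = 0 := by
        by_contra h4
        have := le_mdeg (l := l) h4
        omega
      rwa [h3, add_zero]
  deg_add_le r s := by
    apply mdeg_le
    intro m hm
    have h1 : (r + s).coeff m = r.coeff m + s.coeff m := rfl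
    rw [h1] at hm
    by_cases h2 : r.coeff m = 0
    · rw [h2, zero_add] at hm
      exact (le_mdeg hm).trans (le_max_right _ _)
    · exact (le_mdeg h2).trans (le_max_left _ _)
  deg_mul r s hr hs := mdeg_mul hr hs
  deg_pos r h0 hr := by
    obtain ⟨m, hm, h2⟩ := mdeg_spec (l := l) hr
    rw [← h2]
    apply Nat.pos_of_ne_zero
    intro h3
    have h4 : m = 1 := hl m h3
    rw [h4] at hm
    exact hm h0

end monalg

section poly

variable {D : Type} [Ring D] [NoZeroDivisors D]

/-- polynomial rings -/
noncomputable def polDR : DR (Polynomial.C : D →+* Polynomial D) ℕ where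
  co := { toFun := fun p => p.toFinsupp.coeff
          map_zero' := rfl
          map_add' := fun p q => by
            rw [Polynomial.toFinsupp_add]
            rfl }
  co_mul a r d m := by
    show (Polynomial.C a * r * Polynomial.C d).coeff m = a * r.coeff m * d
    rw [Polynomial.coeff_mul_C, Polynomial.coeff_C_mul]
  co_inj := by
    intro p q h
    apply Polynomial.toFinsupp_injective
    exact AddMonoidAlgebra.coeff_injective h
  m0 := 0
  co_c a := Polynomial.coeff_C_zero
  deg := Polynomial.natDegree
  deg_c a := Polynomial.natDegree_C a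
  deg_add r s h := Polynomial.natDegree_add_eq_left_of_natDegree_lt h
  deg_add_le r s := Polynomial.natDegree_add_le r s
  deg_mul r s hr hs := Polynomial.natDegree_mul hr hs
  deg_pos r h0 hr := by
    apply Nat.pos_of_ne_zero
    intro h1
    have h2 := Polynomial.eq_C_of_natDegree_eq_zero h1
    have h3 : r.coeff 0 = 0 := h0
    rw [h3, map_zero] at h2
    exact hr h2

end poly

section euclid

variable {D : Type} [DivisionRing D]

theorem Elem_const {A R : Type} [Ring A] [Ring R] {c : A →+* R} (h : GL (Fin 2) A) :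
    cmat c h ∈ DR.Elem c := Subgroup.subset_closure (Or.inl ⟨h, fun i j => rfl⟩)

theorem Elem_el {A R : Type} [Ring A] [Ring R] {c : A →+* R} (r : R) : el r ∈ DR.Elem c := by
  refine Subgroup.subset_closure (Or.inr ⟨0, 1, r, by decide, ?_⟩)
  show !![1, r; 0, 1] = _
  ext i j
  fin_cases i <;> fin_cases j <;> simp [Matrix.single_apply, Matrix.one_apply]

/-- the permutation matrix -/
def wmat (A : Type) [Ring A] : GL (Fin 2) A := ⟨!![0, 1; 1, 0], !![0, 1; 1, 0], by
  rw [Matrix.mul_fin_two]; ext i j; fin_cases i <;> fin_cases j <;> simp, by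
  rw [Matrix.mul_fin_two]; ext i j; fin_cases i <;> fin_cases j <;> simp⟩

/-- diagonal matrices -/
def dmat (a d : D) (ha : a ≠ 0) (hd : d ≠ 0) : GL (Fin 2) D := ⟨!![a, 0; 0, d], !![a⁻¹, 0; 0, d⁻¹],
  by rw [Matrix.mul_fin_two]; ext i j; fin_cases i <;> fin_cases j <;> simp [ha, hd],
  by rw [Matrix.mul_fin_two]; ext i j; fin_cases i <;> fin_cases j <;> simp [ha, hd]⟩

theorem const_of_mul_eq_one {a b : Polynomial D} (h : a * b = 1) : ∃ a0, a0 ≠ 0 ∧
    a = Polynomial.C a0 := by
  have ha : a ≠ 0 := by
    rintro rfl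
    rw [zero_mul] at h
    exact zero_ne_one h
  have hb : b ≠ 0 := by
    rintro rfl
    rw [mul_zero] at h
    exact zero_ne_one h
  have h1 := Polynomial.natDegree_mul ha hb
  rw [h, Polynomial.natDegree_one] at h1
  have h2 := Polynomial.eq_C_of_natDegree_eq_zero (show a.natDegree = 0 by omega)
  refine ⟨a.coeff 0, fun h3 => ?_, h2⟩
  rw [h3, map_zero] at h2
  exact ha h2

/-- division with remainder in polynomial rings over division rings -/
theorem poly_div (p q : Polynomial D) (hq : q ≠ 0) : ∃ s, p - q * s = 0 ∨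
    (p - q * s).natDegree < q.natDegree := by
  have hu : q.leadingCoeff ≠ 0 := Polynomial.leadingCoeff_ne_zero.2 hq
  obtain ⟨m, hm⟩ : ∃ m, m = q * Polynomial.C q.leadingCoeff⁻¹ := ⟨_, rfl⟩
  have hm1 : m.Monic := by
    rw [hm, Polynomial.Monic, Polynomial.leadingCoeff_mul, Polynomial.leadingCoeff_C,
      mul_inv_cancel₀ hu]
  have hdm : m.natDegree = q.natDegree := by
    rw [hm, Polynomial.natDegree_mul hq, Polynomial.natDegree_C, add_zero]
    rw [Ne, Polynomial.C_eq_zero]
    exact inv_ne_zero hu
  refine ⟨Polynomial.C q.leadingCoeff⁻¹ * (p /ₘ m), ?_⟩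
  rw [← mul_assoc, ← hm]
  have h1 := Polynomial.modByMonic_add_div p m
  have h2 : p - m * (p /ₘ m) = p %ₘ m := by
    rw [sub_eq_iff_eq_add, h1]
  rw [h2]
  by_cases h3 : p %ₘ m = 0
  · exact Or.inl h3
  · right
    rw [← hdm]
    exact Polynomial.natDegree_lt_natDegree h3 (Polynomial.degree_modByMonic_lt _ hm1)

theorem Elem_top : DR.Elem (Polynomial.C : D →+* Polynomial D) = ⊤ := by
  have key : ∀ n : ℕ, ∀ g : GL (Fin 2) (Polynomial D), (g.1 1 0 = 0 ∨ (g.1 1 0).natDegree < n) →
      g ∈ DR.Elem (Polynomial.C : D →+* Polynomial D) := by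
    intro n
    induction n with
    | zero =>
      intro g hg
      have hg0 : g.1 1 0 = 0 := by
        rcases hg with hg | hg
        · exact hg
        · exact absurd hg (Nat.not_lt_zero _)
      have h1 : g ∈ upper (Polynomial D) := hg0
      have h2 := upper_inv h1
      have h3 : g.1 0 0 * (↑g⁻¹ : Matrix (Fin 2) (Fin 2) (Polynomial D)) 0 0 = 1 := by
        have h4 : g.1 * (↑g⁻¹ : Matrix (Fin 2) (Fin 2) (Polynomial D)) = 1 := Units.mul_inv g
        have h5 := congrFun (congrFun h4 0) 0
        have h6 : (↑g⁻¹ : Matrix (Fin 2) (Fin 2) (Polynomial D)) 1 0 = 0 :=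
          (upper (Polynomial D)).inv_mem h1
        rw [Matrix.mul_apply, Fin.sum_univ_two, h6] at h5
        simpa using h5
      have h3' : g.1 1 1 * (↑g⁻¹ : Matrix (Fin 2) (Fin 2) (Polynomial D)) 1 1 = 1 := by
        have h4 : g.1 * (↑g⁻¹ : Matrix (Fin 2) (Fin 2) (Polynomial D)) = 1 := Units.mul_inv g
        have h5 := congrFun (congrFun h4 1) 1
        rw [Matrix.mul_apply, Fin.sum_univ_two, hg0] at h5
        simpa using h5
      obtain ⟨a, ha, h7⟩ := const_of_mul_eq_one h3
      obtain ⟨d, hd, h8⟩ := const_of_mul_eq_one h3'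
      have h9 : g = cmat Polynomial.C (dmat a d ha hd) * el (Polynomial.C a⁻¹ * g.1 0 1) := by
        apply Units.ext
        have h10 : ((cmat Polynomial.C (dmat a d ha hd) : GL (Fin 2) (Polynomial D)) :
            Matrix (Fin 2) (Fin 2) (Polynomial D)) = !![Polynomial.C a, 0; 0, Polynomial.C d] := by
          refine Matrix.ext fun i j => ?_
          rw [cmat_apply]
          fin_cases i <;> fin_cases j <;> simp [dmat]
        rw [Units.val_mul, h10, el_val, Matrix.mul_fin_two, ← mul_assoc, ← Polynomial.C_mul,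
          mul_inv_cancel₀ ha, map_one, one_mul]
        refine Matrix.ext fun i j => ?_
        fin_cases i <;> fin_cases j
        · simpa using h7
        · simp
        · simpa using hg0
        · simpa using h8
      rw [h9]
      exact (DR.Elem _).mul_mem (Elem_const _) (Elem_el _)
    | succ n ih =>
      intro g hg
      by_cases hg0 : g.1 1 0 = 0
      · exact ih g (Or.inl hg0)
      · have hg1 : (g.1 1 0).natDegree < n + 1 := by
          rcases hg with hg | hg
          · exact absurd hg hg0
          · exact hg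
        obtain ⟨s, hs⟩ := poly_div (g.1 1 1) (g.1 1 0) hg0
        have h1 : g * el (-s) * cmat Polynomial.C (wmat D) ∈
            DR.Elem (Polynomial.C : D →+* Polynomial D) := by
          apply ih
          have h2 : (g * el (-s) * cmat Polynomial.C (wmat D)).1 1 0 = g.1 1 1 - g.1 1 0 * s := by
            have h10 : ((cmat Polynomial.C (wmat D) : GL (Fin 2) (Polynomial D)) :
                Matrix (Fin 2) (Fin 2) (Polynomial D)) = !![0, 1; 1, 0] := by
              refine Matrix.ext fun i j => ?_
              rw [cmat_apply]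
              fin_cases i <;> fin_cases j <;> simp [wmat]
            show ((g * el (-s) : GL (Fin 2) (Polynomial D)).1 *
              ((cmat Polynomial.C (wmat D) : GL (Fin 2) (Polynomial D)) :
                Matrix (Fin 2) (Fin 2) (Polynomial D))) 1 0 = _
            rw [h10, Units.val_mul, el_val, Matrix.mul_apply, Fin.sum_univ_two, Matrix.mul_apply,
              Fin.sum_univ_two, Matrix.mul_apply, Fin.sum_univ_two]
            simp only [Matrix.of_apply, Matrix.cons_val', Matrix.cons_val_zero,
              Matrix.cons_val_one, Matrix.cons_val_fin_one, mul_one, mul_zero, zero_add, mul_neg]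
            rw [add_comm, sub_eq_add_neg]
          rw [h2]
          rcases hs with hs | hs
          · exact Or.inl hs
          · right
            omega
        have h3 : g = g * el (-s) * cmat Polynomial.C (wmat D) * (cmat Polynomial.C (wmat D))⁻¹ *
            el s := by
          rw [mul_inv_cancel_right, mul_assoc, ← el_add, neg_add_cancel, el_zero, mul_one]
        rw [h3]
        exact (DR.Elem _).mul_mem ((DR.Elem _).mul_mem h1 ((DR.Elem _).inv_mem (Elem_const _)))
          (Elem_el _)
  rw [eq_top_iff]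
  intro g _
  exact key _ g (Or.inr (Nat.lt_succ_self _))

end euclid

end Q30.FJ
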