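import Pool.Agent.Q30.FJ.Eppa
import Pool.Agent.Y812.SS.Wr

/-!
# Kernels acting faithfully by finitary monomial permutations
-/

set_option autoImplicit false

namespace Q30.FJ

open Pool.Agent.Y110.FJ
open Pool.Agent.Y462.SS (Closed Wr)

section supp

variable {X H : Type} [Group H]

/-- the support of a monomial permutation: the points which are moved or have a nontrivial label -/
def wsupp (a : Wr X H) : Set X := {x | a.s x ≠ 1 ∨ a.p x ≠ x}

theorem not_wsupp {a : Wr X H} {x : X} (h : x ∉ wsupp a) : a.s x = 1 ∧ a.p x = x := by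
  unfold wsupp at h
  rw [Set.mem_ofPred_eq] at h
  push Not at h
  exact h

theorem wsupp_one : wsupp (1 : Wr X H) = ∅ := by
  ext x
  unfold wsupp
  rw [Set.mem_ofPred_eq]
  simp

theorem wsupp_mul (a b : Wr X H) : wsupp (a * b) ⊆ wsupp a ∪ wsupp b := by
  intro x hx
  by_contra hc
  have h1 : x ∉ wsupp a := fun h => hc (Set.mem_union_left _ h)
  have h2 : x ∉ wsupp b := fun h => hc (Set.mem_union_right _ h)
  obtain ⟨ha1, ha2⟩ := not_wsupp h1
  obtain ⟨hb1, hb2⟩ := not_wsupp h2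
  rcases hx with h | h
  · apply h
    rw [Wr.mul_s, hb2, ha1, hb1, mul_one]
  · apply h
    rw [Wr.mul_p, Equiv.Perm.mul_apply, hb2, ha2]

theorem wsupp_inv (a : Wr X H) : wsupp a⁻¹ ⊆ wsupp a := by
  intro x hx
  by_contra hc
  obtain ⟨ha1, ha2⟩ := not_wsupp hc
  have h3 : a.p⁻¹ x = x := by
    rw [Equiv.Perm.inv_eq_iff_eq]
    exact ha2.symm
  rcases hx with h | h
  · apply h
    rw [Wr.inv_s, h3, ha1, inv_one]
  · apply h
    rw [Wr.inv_p, h3]

/-- the monomial permutations with support in `T` -/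
def FT (X H : Type) [Group H] (T : Set X) : Subgroup (Wr X H) where
  carrier := {a | wsupp a ⊆ T}
  one_mem' := by
    rw [Set.mem_ofPred_eq, wsupp_one]
    exact Set.empty_subset _
  mul_mem' {a b} ha hb := (wsupp_mul a b).trans (Set.union_subset ha hb)
  inv_mem' {a} ha := (wsupp_inv a).trans ha

theorem FT_iff {T : Set X} {a : Wr X H} (ha : a ∈ FT X H T) (x : X) : a.p x ∈ T ↔ x ∈ T := by
  have ha' : wsupp a ⊆ T := ha
  constructor
  · intro h
    by_contra hx
    obtain ⟨-, h2⟩ := not_wsupp (fun h => hx (ha' h))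
    rw [h2] at h
    exact hx h
  · intro h
    by_contra hx
    obtain ⟨-, h2⟩ := not_wsupp (fun h => hx (ha' h))
    have h3 := a.p.injective h2
    rw [h3] at hx
    exact hx h

/-- the restriction -/
def resT (T : Set X) : FT X H T →* Wr T H where
  toFun a := ⟨fun x => a.1.s x, Equiv.Perm.subtypePerm a.1.p (fun x => FT_iff a.2 x)⟩
  map_one' := by
    apply Wr.ext
    · rfl
    · ext x
      rfl
  map_mul' a b := by
    apply Wr.ext
    · rfl
    · ext x
      rfl

theorem resT_s (T : Set X) (a : FT X H T) (x : T) : (resT T a).s x = a.1.s x := rfl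

theorem resT_p (T : Set X) (a : FT X H T) (x : T) : (((resT T a).p x : T) : X) = a.1.p x := rfl

theorem resT_inj (T : Set X) : Function.Injective (resT (H := H) T) := by
  intro a b hab
  apply Subtype.ext
  apply Wr.ext
  · funext x
    by_cases hx : x ∈ T
    · have h1 := congrArg (fun c : Wr T H => c.s ⟨x, hx⟩) hab
      exact h1
    · rw [(not_wsupp (fun h => hx (a.2 h))).1, (not_wsupp (fun h => hx (b.2 h))).1]
  · ext x
    by_cases hx : x ∈ T
    · have h1 := congrArg (fun c : Wr T H => ((c.p ⟨x, hx⟩ : T) : X)) hab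
      exact h1
    · rw [(not_wsupp (fun h => hx (a.2 h))).2, (not_wsupp (fun h => hx (b.2 h))).2]

end supp

variable {C : ∀ (G : Type) [Group G], Prop}

/-- **finitary monomial kernels** -/
theorem mono_kernel (hC : ClosedE C) (X H : Type) [Group H] (hH : C H) (G : Type) [Group G]
    (N : Subgroup G) [N.Normal] (hQ : C (G ⧸ N)) (ρ : G →* Wr X H)
    (hρ : ∀ g ∈ N, ρ g = 1 → g = 1) (hfin : ∀ g ∈ N, (wsupp (ρ g)).Finite) : C G := by
  classical
  refine crit C hC G N hQ ?_
  intro g E hE hEN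
  obtain ⟨a, ha⟩ : ∃ a, a = ρ g := ⟨_, rfl⟩
  obtain ⟨S, hS⟩ : ∃ S : Set X, S = ⋃ x ∈ E, wsupp (ρ x) := ⟨_, rfl⟩
  have hSfin : S.Finite := by
    rw [hS]
    exact hE.biUnion fun x hx => hfin x (hEN hx)
  have hSx : ∀ x ∈ E, wsupp (ρ x) ⊆ S := by
    intro x hx
    rw [hS]
    exact Set.subset_biUnion_of_mem (u := fun x => wsupp (ρ x)) hx
  obtain ⟨T, hT⟩ : ∃ T : Set X, T = S ∪ a.p '' S := ⟨_, rfl⟩
  have hTfin : Finite T := by
    rw [hT]
    exact (hSfin.union (hSfin.image _)).to_subtype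
  have hST : S ⊆ T := by rw [hT]; exact Set.subset_union_left
  have haT : ∀ x ∈ S, a.p x ∈ T := by
    intro x hx
    rw [hT]
    exact Set.mem_union_right _ ⟨x, hx, rfl⟩
  -- the conjugates
  have hconj : ∀ x ∈ E, ∀ z, z ∉ S → (ρ (g * x * g⁻¹)).s (a.p z) = 1 ∧
      (ρ (g * x * g⁻¹)).p (a.p z) = a.p z := by
    intro x hx z hz
    have h1 : ρ (g * x * g⁻¹) * a = a * ρ x := by
      rw [map_mul, map_mul, map_inv, ha]
      group
    obtain ⟨h2, h3⟩ := not_wsupp (fun h => hz (hSx x hx h))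
    constructor
    · have h4 := congrArg (fun c : Wr X H => c.s z) h1
      simp only [Wr.mul_s] at h4
      rw [h3, h2, mul_one] at h4
      exact mul_eq_right.1 h4
    · have h4 := congrArg (fun c : Wr X H => c.p z) h1
      simp only [Wr.mul_p, Equiv.Perm.mul_apply] at h4
      rw [h3] at h4
      exact h4
  have hconjT : ∀ x ∈ E, wsupp (ρ (g * x * g⁻¹)) ⊆ T := by
    intro x hx w hw
    by_contra hwT
    obtain ⟨z, rfl⟩ := a.p.surjective w
    have hz : z ∉ S := fun h => hwT (haT z h)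
    obtain ⟨h1, h2⟩ := hconj x hx z hz
    rcases hw with h | h
    · exact h h1
    · exact h h2
  have hcl : ∀ w ∈ Subgroup.closure (E ∪ (fun x => g * x * g⁻¹) '' E), ρ w ∈ FT X H T := by
    have h1 : Subgroup.closure (E ∪ (fun x => g * x * g⁻¹) '' E) ≤ (FT X H T).comap ρ := by
      rw [Subgroup.closure_le]
      rintro x (hx | ⟨y, hy, rfl⟩)
      · exact (hSx x hx).trans hST
      · exact hconjT y hy
    exact fun w hw => h1 hw
  have hclN : Subgroup.closure (E ∪ (fun x => g * x * g⁻¹) '' E) ≤ N := by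
    rw [Subgroup.closure_le]
    rintro x (hx | ⟨y, hy, rfl⟩)
    · exact hEN hx
    · exact Subgroup.Normal.conj_mem inferInstance y (hEN hy) g
  -- the permutation
  obtain ⟨τ, hτ⟩ := pinj {x : T | (x : X) ∈ S} (fun x => (⟨a.p x.1.1, haT _ x.2⟩ : T)) (by
    intro x y hxy
    have h1 : a.p x.1.1 = a.p y.1.1 := congrArg Subtype.val hxy
    exact Subtype.ext (Subtype.ext (a.p.injective h1)))
  have hτS : ∀ (z : T), (z : X) ∈ S → ((τ z : T) : X) = a.p z := by
    intro z hz
    rw [hτ ⟨z, hz⟩]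
  have hτn : ∀ (z : T), (z : X) ∉ S → ∃ z' : X, z' ∉ S ∧ ((τ z : T) : X) = a.p z' := by
    intro z hz
    obtain ⟨z', hz'⟩ := a.p.surjective ((τ z : T) : X)
    refine ⟨z', ?_, hz'.symm⟩
    intro h
    have h1 : τ ⟨z', hST h⟩ = τ z := by
      apply Subtype.ext
      rw [hτS ⟨z', hST h⟩ h]
      exact hz'
    have h2 := τ.injective h1
    exact hz (by rw [← h2]; exact h)
  refine ⟨Wr T H, inferInstance, (resT T).comp (MonoidHom.mk'
    (fun w : ↥(Subgroup.closure (E ∪ (fun x => g * x * g⁻¹) '' E)) =>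
      (⟨ρ w, hcl w.1 w.2⟩ : FT X H T)) ?_), ⟨fun z => a.s z, τ⟩,
    Pool.Agent.Y812.SS.t_wr C hC.base T H hTfin hH, ?_, ?_⟩
  · intro x y
    apply Subtype.ext
    exact map_mul ρ _ _
  · intro x y hxy
    have h1 := congrArg Subtype.val (resT_inj T hxy)
    have h2 : ρ (x : G) = ρ (y : G) := h1
    have h3 : (x : G) * (y : G)⁻¹ = 1 := by
      apply hρ _ (Subgroup.mul_mem _ (hclN x.2) (Subgroup.inv_mem _ (hclN y.2)))
      rw [map_mul, map_inv, h2, mul_inv_cancel]
    exact Subtype.ext (mul_inv_eq_one.1 h3)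
  · intro x y hx hy
    rw [eq_mul_inv_iff_mul_eq]
    have hyx : ρ (y : G) * a = a * ρ (x : G) := by
      rw [hy, map_mul, map_mul, map_inv, ha]
      group
    have hbS : ∀ z, z ∈ S → (ρ (x : G)).p z ∈ S := by
      intro z hz
      exact (FT_iff (T := S) (a := ρ (x : G)) (hSx _ hx) z).2 hz
    apply Wr.ext
    · funext z
      show (ρ (y : G)).s ((τ z : T) : X) * a.s z = a.s ((ρ (x : G)).p z) * (ρ (x : G)).s z
      by_cases hz : (z : X) ∈ S
      · rw [hτS z hz]
        have h4 := congrArg (fun c : Wr X H => c.s (z : X)) hyx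
        exact h4
      · obtain ⟨z', hz', hzz⟩ := hτn z hz
        obtain ⟨h5, h6⟩ := not_wsupp (fun h => hz (hSx _ hx h))
        rw [hzz, hy, (hconj _ hx z' hz').1, h5, h6, one_mul, mul_one]
    · ext z
      show (ρ (y : G)).p ((τ z : T) : X) = ((τ ((resT T ⟨ρ (x : G), hcl x.1 x.2⟩).p z) : T) : X)
      by_cases hz : (z : X) ∈ S
      · rw [hτS z hz, hτS _ (hbS _ hz)]
        have h4 := congrArg (fun c : Wr X H => c.p (z : X)) hyx
        exact h4
      · obtain ⟨z', hz', hzz⟩ := hτn z hz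
        obtain ⟨h5, h6⟩ := not_wsupp (fun h => hz (hSx _ hx h))
        have h7 : (resT T ⟨ρ (x : G), hcl x.1 x.2⟩).p z = z := by
          apply Subtype.ext
          exact h6
        rw [h7, hzz, hy, (hconj _ hx z' hz').2]

end Q30.FJ
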