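import Pool.Agent.Q30.FJ.GPf

/-!
# Ping-pong: groups generated by `Q` and `U`
-/

set_option autoImplicit false

namespace Q30.FJ

open Pool.Agent.Y110.FJ
open Pool.Agent.Y462.SS (Closed Wr)

variable {C : ∀ (G : Type) [Group G], Prop}

/-- multiplication by an element of the kernel -/
theorem Retr.cr_mul {G : Type} [Group G] {I : Type} {A : I → Subgroup G} {N : Subgroup G}
    {p : ∀ i, N →* A i} (h : Retr A N p) {i : I} {n q : G} (hn : n ∈ N)
    (hq : Maps q (A i) (A i))  (hcr : CR C q (A i)) :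
    CR C (n * q) (A i) := by
  obtain ⟨P, _, f, r, hP, hf, hfr⟩ := hcr
  refine ⟨P, inferInstance, f, f (p i ⟨n, hn⟩) * r, hP, hf, ?_⟩
  intro a a' haa
  have h1 : q * a * q⁻¹ ∈ A i := (hq a).1 a.2
  have h2 := hfr a ⟨_, h1⟩ rfl
  have h3 : (a' : G) = n * (q * a * q⁻¹) * n⁻¹ := by
    rw [haa]
    group
  have h4 : (⟨a', h.le i a'.2⟩ : N) = ⟨n, hn⟩ * ⟨_, h.le i h1⟩ * ⟨n, hn⟩⁻¹ := Subtype.ext h3
  have h5 := h.same i a'
  have h6 := h.same i ⟨_, h1⟩
  rw [h4, map_mul, map_mul, map_inv] at h5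
  have h7 : p i ⟨q * a * q⁻¹, h.le i h1⟩ = ⟨_, h1⟩ := h6
  rw [h7] at h5
  rw [← h5, map_mul, map_mul, map_inv, h2]
  group

section pp

variable {G Z : Type} [Group G] [MulAction G Z]

/-- the data of a ping-pong -/
structure Ping (Q U B : Subgroup G) (X Y : Set Z) (y0 : Z) : Prop where
  le : B ≤ Q
  nor : ∀ b ∈ B, Maps b U U
  ping : ∀ u ∈ U, u ≠ 1 → ∀ q ∈ Q, q ∉ B → ∀ x ∈ X, (u * q) • x ∈ X
  pong : ∀ q ∈ Q, q ∉ B → ∀ x ∈ X, q • x ∉ X
  inv : ∀ q ∈ Q, ∀ y ∈ Y, q • y ∈ Y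
  disj : ∀ y ∈ Y, y ∉ X
  mem : y0 ∈ Y
  base : ∀ u ∈ U, u ≠ 1 → u • y0 ∈ X
  ne : U ≠ ⊥

variable {Q U B : Subgroup G} {X Y : Set Z} {y0 : Z}

/-- the conjugates of `U` -/
noncomputable def ppA (Q U B : Subgroup G) (i : Q ⧸ B.subgroupOf Q) : Subgroup G :=
  U.map (MulAut.conj (i.out : G)).toMonoidHom

theorem mem_ppA {i : Q ⧸ B.subgroupOf Q} {x : G} :
    x ∈ ppA Q U B i ↔ (i.out : G)⁻¹ * x * (i.out : G) ∈ U := mem_map_conj _ _ _

theorem Ping.mem_mk (h : Ping Q U B X Y y0) (q : Q) (x : G) :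
    x ∈ ppA Q U B (QuotientGroup.mk q) ↔ (q : G)⁻¹ * x * q ∈ U := by
  rw [mem_ppA]
  show (((QuotientGroup.mk q : Q ⧸ B.subgroupOf Q).out : Q) : G)⁻¹ * x *
    (((QuotientGroup.mk q : Q ⧸ B.subgroupOf Q).out : Q) : G) ∈ U ↔ _
  obtain ⟨r, hr⟩ : ∃ r : Q, r = (QuotientGroup.mk q : Q ⧸ B.subgroupOf Q).out := ⟨_, rfl⟩
  rw [← hr]
  have h1 : (QuotientGroup.mk r : Q ⧸ B.subgroupOf Q) = QuotientGroup.mk q := by
    rw [hr]
    exact QuotientGroup.out_eq' _
  have h2' : r⁻¹ * q ∈ B.subgroupOf Q := QuotientGroup.eq.1 h1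
  have h2 : (r : G)⁻¹ * q ∈ B := h2'
  have h3 := (h.nor _ h2).inv ((r : G)⁻¹ * x * r)
  rw [h3]
  have h4 : ((r : G)⁻¹ * q)⁻¹ * ((r : G)⁻¹ * x * r) * ((r : G)⁻¹ * q)⁻¹⁻¹ = (q : G)⁻¹ * x * q := by
    group
  rw [h4]

theorem Ping.maps (h : Ping Q U B X Y y0) (q r : Q) :
    Maps (q : G) (ppA Q U B (QuotientGroup.mk r)) (ppA Q U B (QuotientGroup.mk (q * r))) := by
  intro x
  rw [h.mem_mk, h.mem_mk]
  have : ((q * r : Q) : G)⁻¹ * (q * x * (q : G)⁻¹) * ((q * r : Q) : G) = (r : G)⁻¹ * x * r := by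
    show ((q : G) * r)⁻¹ * (q * x * (q : G)⁻¹) * ((q : G) * r) = (r : G)⁻¹ * x * r
    group
  rw [this]

/-- the kernel -/
noncomputable def ppN (Q U B : Subgroup G) : Subgroup G := ⨆ i : Q ⧸ B.subgroupOf Q, ppA Q U B i

theorem ppA_le (i : Q ⧸ B.subgroupOf Q) : ppA Q U B i ≤ ppN Q U B := le_iSup (ppA Q U B) i

theorem Ping.U_le (h : Ping Q U B X Y y0) : U ≤ ppN Q U B := by
  intro u hu
  apply ppA_le (QuotientGroup.mk 1)
  rw [h.mem_mk]
  have : ((1 : Q) : G)⁻¹ * u * ((1 : Q) : G) = u := by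
    rw [Subgroup.coe_one]
    group
  rw [this]
  exact hu

theorem Ping.normal (h : Ping Q U B X Y y0) (hg : Q ⊔ U = ⊤) : (ppN Q U B).Normal := by
  have hQ : ∀ q ∈ Q, ppN Q U B ≤ (ppN Q U B).comap (MulAut.conj q).toMonoidHom := by
    intro q hq
    apply iSup_le
    intro i
    induction i using QuotientGroup.induction_on with
    | H r =>
      intro x hx
      exact ppA_le _ ((h.maps ⟨q, hq⟩ r x).1 hx)
  have h1 : Q ⊔ U ≤ Subgroup.normalizer (ppN Q U B : Set G) := by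
    apply sup_le
    · intro q hq
      rw [Subgroup.mem_normalizer_iff]
      intro x
      refine ⟨fun hx => hQ q hq hx, fun hx => ?_⟩
      have h1 : q⁻¹ * (q * x * q⁻¹) * q⁻¹⁻¹ ∈ ppN Q U B := hQ q⁻¹ (Q.inv_mem hq) hx
      have h2 : q⁻¹ * (q * x * q⁻¹) * q⁻¹⁻¹ = x := by group
      rwa [h2] at h1
    · exact h.U_le.trans Subgroup.le_normalizer
  rw [hg] at h1
  exact Subgroup.normalizer_eq_top_iff.1 (top_le_iff.1 h1)

/-- words play ping-pong -/
theorem Ping.word (h : Ping Q U B X Y y0) {i j : Q ⧸ B.subgroupOf Q}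
    (w : Monoid.CoprodI.NeWord (fun i => ppA Q U B i) i j) : ∀ z : Z,
    (∀ g : ppA Q U B j, g ≠ 1 → (j.out : G)⁻¹ • (g : G) • z ∈ X) →
    (i.out : G)⁻¹ • (Monoid.CoprodI.lift (fun i => (ppA Q U B i).subtype) w.prod) • z ∈ X := by
  induction w with
  | singleton x hx =>
    intro z hz
    rw [Monoid.CoprodI.NeWord.prod_singleton, Monoid.CoprodI.lift_of]
    exact hz x hx
  | @append i j k l w₁ hne w₂ ih₁ ih₂ =>
    intro z hz
    rw [Monoid.CoprodI.NeWord.append_prod, map_mul, mul_smul]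
    apply ih₁
    intro g hg
    have h1 := ih₂ z hz
    obtain ⟨z', hz'⟩ : ∃ z', z' = (Monoid.CoprodI.lift (fun i => (ppA Q U B i).subtype) w₂.prod) • z :=
      ⟨_, rfl⟩
    rw [← hz'] at h1 ⊢
    have h2 : (j.out : G)⁻¹ * (k.out : G) ∈ Q := Q.mul_mem (Q.inv_mem j.out.2) k.out.2
    have h3 : (j.out : G)⁻¹ * (k.out : G) ∉ B := by
      intro h4
      apply hne
      rw [← QuotientGroup.out_eq' j, ← QuotientGroup.out_eq' k]
      exact QuotientGroup.eq.2 h4
    have h4 := mem_ppA.1 g.2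
    have h5 : (j.out : G)⁻¹ * (g : G) * (j.out : G) ≠ 1 := by
      intro e
      apply hg
      apply Subtype.ext
      have e1 : (g : G) = (j.out : G) * ((j.out : G)⁻¹ * (g : G) * (j.out : G)) * (j.out : G)⁻¹ := by
        group
      rw [e1, e]
      show (j.out : G) * 1 * (j.out : G)⁻¹ = 1
      group
    have h6 := h.ping _ h4 h5 _ h2 h3 _ h1
    have h7 : ((j.out : G)⁻¹ * (g : G) * (j.out : G) * ((j.out : G)⁻¹ * (k.out : G))) •
        (k.out : G)⁻¹ • z' = (j.out : G)⁻¹ • (g : G) • z' := by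
      rw [← mul_smul, ← mul_smul]
      congr 1
      group
    rw [h7] at h6
    exact h6

/-- nontrivial elements of the kernel are not in `Q` -/
theorem Ping.notin (h : Ping Q U B X Y y0) (x : Monoid.CoprodI fun i => ppA Q U B i) (hx : x ≠ 1) :
    Monoid.CoprodI.lift (fun i => (ppA Q U B i).subtype) x ∉ Q := by
  classical
  obtain ⟨w, rfl⟩ := (Monoid.CoprodI.Word.equiv (M := fun i => ppA Q U B i)).symm.surjective x
  have h1 : (Monoid.CoprodI.Word.equiv (M := fun i => ppA Q U B i)).symm w = w.prod := rfl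
  rw [h1] at hx ⊢
  have hw : w ≠ Monoid.CoprodI.Word.empty := by
    rintro rfl
    exact hx Monoid.CoprodI.Word.prod_empty
  obtain ⟨i, j, w', hw'⟩ := Monoid.CoprodI.NeWord.of_word w hw
  rw [← hw']
  show Monoid.CoprodI.lift (fun i => (ppA Q U B i).subtype) w'.prod ∉ Q
  intro hq
  have h2 := h.word w' ((j.out : G) • y0) (by
    intro g hg
    have h4 := mem_ppA.1 g.2
    have h5 : (j.out : G)⁻¹ * (g : G) * (j.out : G) ≠ 1 := by
      intro e
      apply hg
      apply Subtype.ext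
      have e1 : (g : G) = (j.out : G) * ((j.out : G)⁻¹ * (g : G) * (j.out : G)) * (j.out : G)⁻¹ := by
        group
      rw [e1, e]
      show (j.out : G) * 1 * (j.out : G)⁻¹ = 1
      group
    have h6 := h.base _ h4 h5
    rw [mul_smul, mul_smul] at h6
    exact h6)
  have h3 : (i.out : G)⁻¹ • (Monoid.CoprodI.lift (fun i => (ppA Q U B i).subtype) w'.prod) •
      ((j.out : G) • y0) ∈ Y :=
    h.inv _ (Q.inv_mem i.out.2) _ (h.inv _ hq _ (h.inv _ j.out.2 _ h.mem))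
  exact h.disj _ h3 h2

theorem Ping.prod (h : Ping Q U B X Y y0) :
    GProd (⊥ : SimpleGraph (Q ⧸ B.subgroupOf Q)) (ppA Q U B) (ppN Q U B) := by
  obtain ⟨L, hL⟩ : ∃ L : (Monoid.CoprodI fun i => ppA Q U B i) →* ppN Q U B,
      L = Monoid.CoprodI.lift (fun i => Subgroup.inclusion (ppA_le i)) := ⟨_, rfl⟩
  have hLc : ∀ x, (L x : G) = Monoid.CoprodI.lift (fun i => (ppA Q U B i).subtype) x := by
    have : (ppN Q U B).subtype.comp L = Monoid.CoprodI.lift (fun i => (ppA Q U B i).subtype) := by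
      apply Monoid.CoprodI.ext_hom
      intro i
      ext a
      rw [MonoidHom.comp_apply, MonoidHom.comp_apply, MonoidHom.comp_apply, hL,
        Monoid.CoprodI.lift_of, Monoid.CoprodI.lift_of]
      rfl
    intro x
    exact DFunLike.congr_fun this x
  have hinj : Function.Injective L := by
    rw [injective_iff_map_eq_one]
    intro x hx
    by_contra hc
    apply h.notin x hc
    rw [← hLc, hx]
    exact Q.one_mem
  have hsur : Function.Surjective L := by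
    have h1 : ppN Q U B ≤ L.range.map (ppN Q U B).subtype := by
      apply iSup_le
      intro i a ha
      refine ⟨L (Monoid.CoprodI.of (M := fun i => ↥(ppA Q U B i)) (i := i) ⟨a, ha⟩), ⟨_, rfl⟩, ?_⟩
      rw [hL, Monoid.CoprodI.lift_of]
      rfl
    intro x
    obtain ⟨y, ⟨z, hz⟩, hyx⟩ := h1 x.2
    exact ⟨z, hz.trans (Subtype.ext hyx)⟩
  refine ⟨ppA_le, fun M hM => iSup_le hM, fun v w hvw => hvw.elim, ?_⟩
  intro H _ f _
  refine ⟨(Monoid.CoprodI.lift f).comp (MulEquiv.ofBijective L ⟨hinj, hsur⟩).symm.toMonoidHom, ?_⟩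
  intro v a
  have h1 : L (Monoid.CoprodI.of (M := fun i => ↥(ppA Q U B i)) (i := v) a) =
      ⟨a, ppA_le v a.2⟩ := by
    rw [hL, Monoid.CoprodI.lift_of]
    rfl
  have h2 : (MulEquiv.ofBijective L ⟨hinj, hsur⟩).symm ⟨a, ppA_le v a.2⟩ =
      Monoid.CoprodI.of (M := fun i => ↥(ppA Q U B i)) (i := v) a := by
    rw [MulEquiv.symm_apply_eq]
    exact h1.symm
  show Monoid.CoprodI.lift f ((MulEquiv.ofBijective L ⟨hinj, hsur⟩).symm ⟨a, ppA_le v a.2⟩) = f v a
  rw [h2, Monoid.CoprodI.lift_of]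

/-- elements of the kernel in `Q` are trivial -/
theorem Ping.inter (h : Ping Q U B X Y y0) {x : G} (hx : x ∈ ppN Q U B) (hxQ : x ∈ Q) : x = 1 := by
  obtain ⟨L, hL⟩ : ∃ L : (Monoid.CoprodI fun i => ppA Q U B i) →* G,
      L = Monoid.CoprodI.lift (fun i => (ppA Q U B i).subtype) := ⟨_, rfl⟩
  have h1 : ppN Q U B ≤ L.range := by
    apply iSup_le
    intro i a ha
    refine ⟨Monoid.CoprodI.of (M := fun i => ↥(ppA Q U B i)) (i := i) ⟨a, ha⟩, ?_⟩
    rw [hL, Monoid.CoprodI.lift_of]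
    rfl
  obtain ⟨y, rfl⟩ := h1 hx
  by_cases hy : y = 1
  · rw [hy, map_one]
  · exfalso
    apply h.notin y hy
    rw [← hL]
    exact hxQ

open scoped Pointwise in
/-- **ping-pong amalgams**, generating case -/
theorem Ping.mem_top (hF : ClosedF C) (h : Ping Q U B X Y y0) (hg : Q ⊔ U = ⊤) (hQ : C Q)
    (hcr : ∀ b ∈ B, CR C b U) : C G := by
  have hnor := h.normal hg
  have hprod := h.prod
  have hdec : ∀ g : G, ∃ n ∈ ppN Q U B, ∃ q ∈ Q, g = n * q := by
    intro g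
    have h1 : (ppN Q U B ⊔ Q : Subgroup G) = ⊤ := by
      rw [eq_top_iff, ← hg]
      exact sup_le le_sup_right (h.U_le.trans le_sup_left)
    have h2 : g ∈ ((ppN Q U B ⊔ Q : Subgroup G) : Set G) := by
      rw [h1]
      exact Subgroup.mem_top g
    rw [Subgroup.normal_mul] at h2
    obtain ⟨n, hn, q, hq, rfl⟩ := h2
    exact ⟨n, hn, q, hq, rfl⟩
  have hne : ∀ i, ppA Q U B i ≠ ⊥ := by
    intro i hbot
    apply h.ne
    rw [Subgroup.eq_bot_iff_forall] at hbot ⊢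
    intro a ha
    have h1 := hbot ((i.out : G) * a * (i.out : G)⁻¹) (by
      rw [mem_ppA]
      have : (i.out : G)⁻¹ * ((i.out : G) * a * (i.out : G)⁻¹) * (i.out : G) = a := by group
      rw [this]
      exact ha)
    exact conj_eq_one_iff.1 h1
  obtain ⟨p, hp⟩ := hprod.retr
  refine fp hF hprod ?_ hne ?_ ?_
  · -- the quotient
    let φ : Q →* G ⧸ ppN Q U B := (QuotientGroup.mk' _).comp Q.subtype
    have hφi : Function.Injective φ := by
      rw [injective_iff_map_eq_one]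
      intro q hq
      exact Subtype.ext (h.inter ((QuotientGroup.eq_one_iff _).1 hq) q.2)
    have hφs : Function.Surjective φ := by
      intro x
      induction x using QuotientGroup.induction_on with
      | H g =>
        obtain ⟨n, hn, q, hq, rfl⟩ := hdec g
        refine ⟨⟨q, hq⟩, ?_⟩
        show (QuotientGroup.mk q : G ⧸ ppN Q U B) = QuotientGroup.mk (n * q)
        rw [QuotientGroup.eq]
        have h1 := hnor.conj_mem n hn q⁻¹
        have h2 : q⁻¹ * n * q⁻¹⁻¹ = q⁻¹ * (n * q) := by group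
        rwa [h2] at h1
    exact hF.base.base.of_injective _ Q (MulEquiv.ofBijective φ ⟨hφi, hφs⟩).symm.toMonoidHom
      (MulEquiv.ofBijective φ ⟨hφi, hφs⟩).symm.injective hQ
  · intro g i
    obtain ⟨n, hn, q, hq, rfl⟩ := hdec g
    induction i using QuotientGroup.induction_on with
    | H r =>
      refine ⟨QuotientGroup.mk (⟨q, hq⟩ * r), n⁻¹, Subgroup.inv_mem _ hn, ?_⟩
      rw [inv_mul_cancel_left]
      exact h.maps ⟨q, hq⟩ r
  · intro i g hm
    obtain ⟨n, hn, q, hq, rfl⟩ := hdec g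
    obtain ⟨r, hr⟩ : ∃ r : Q, r = i.out := ⟨_, rfl⟩
    have hi : i = QuotientGroup.mk r := by
      rw [hr]
      exact (QuotientGroup.out_eq' i).symm
    have h1 := h.maps ⟨q, hq⟩ r
    rw [← hi] at h1
    -- `n` maps the factor of `q r` to the one of `r`
    have h2 : Maps n (ppA Q U B (QuotientGroup.mk (⟨q, hq⟩ * r))) (ppA Q U B i) := by
      have h3 := h1.inv.mul hm
      have h4 : n * q * ((⟨q, hq⟩ : Q) : G)⁻¹ = n := by
        show n * q * q⁻¹ = n
        group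
      rwa [h4] at h3
    have h3 := hp.conj_eq hne hn h2
    rw [h3] at h1 h2
    refine hp.cr_mul hn h1 ?_
    apply CR_conj
    apply hcr
    have h4 : (QuotientGroup.mk (⟨q, hq⟩ * r) : Q ⧸ B.subgroupOf Q) = QuotientGroup.mk r :=
      h3.trans hi
    have h5' : (⟨q, hq⟩ * r)⁻¹ * r ∈ B.subgroupOf Q := QuotientGroup.eq.1 h4
    have h5 : (q * (r : G))⁻¹ * r ∈ B := h5'
    have h6 := B.inv_mem h5
    have h7 : ((q * (r : G))⁻¹ * r)⁻¹ = (r : G)⁻¹ * q * r := by group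
    rw [h7] at h6
    rw [← hr]
    exact h6

/-- **ping-pong amalgams** -/
theorem Ping.mem_sup (hF : ClosedF C) (h : Ping Q U B X Y y0) (hQ : C Q)
    (hcr : ∀ b ∈ B, CR C b U) : C ↥(Q ⊔ U) := by
  have hQle : Q ≤ Q ⊔ U := le_sup_left
  have hUle : U ≤ Q ⊔ U := le_sup_right
  have hBle : B ≤ Q ⊔ U := h.le.trans hQle
  have h' : Ping (Q.subgroupOf (Q ⊔ U)) (U.subgroupOf (Q ⊔ U)) (B.subgroupOf (Q ⊔ U)) X Y y0 := by
    refine ⟨fun x hx => h.le hx, fun b hb => Maps.sub (h.nor b hb), ?_, ?_, ?_, h.disj, h.mem, ?_, ?_⟩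
    · intro u hu hu1 q hq hqB x hx
      exact h.ping u hu (fun e => hu1 (Subtype.ext e)) q hq hqB x hx
    · intro q hq hqB x hx
      exact h.pong q hq hqB x hx
    · intro q hq y hy
      exact h.inv q hq y hy
    · intro u hu hu1
      exact h.base u hu (fun e => hu1 (Subtype.ext e))
    · intro hbot
      apply h.ne
      rw [Subgroup.eq_bot_iff_forall] at hbot ⊢
      intro a ha
      exact congrArg Subtype.val (hbot ⟨a, hUle ha⟩ ha)
  refine h'.mem_top hF ?_ ?_ ?_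
  · rw [← Subgroup.subgroupOf_sup hQle hUle, Subgroup.subgroupOf_self]
  · exact hF.base.base.of_injective _ Q (Subgroup.subgroupOfEquivOfLe hQle).toMonoidHom
      (Subgroup.subgroupOfEquivOfLe hQle).injective hQ
  · intro b hb
    obtain ⟨P, _, f, r, hP, hf, hfr⟩ := hcr b hb
    refine ⟨P, inferInstance, f.comp (Subgroup.subgroupOfEquivOfLe hUle).toMonoidHom, r, hP,
      hf.comp (Subgroup.subgroupOfEquivOfLe hUle).injective, ?_⟩
    intro a a' haa
    exact hfr _ _ (congrArg Subtype.val haa)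

end pp

end Q30.FJ
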